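import Pool.Agent.Helper54.IP.CTools
import Pool.Agent.Helper14.IP.Newton

/-!
TH-P phase 2: the monomial closure equation of a closed corner,
`(s_1 t_(m-1)) ^ (m-3) s_m ^ 2 = (t_1 s_(m-1)) ^ (m-3) t_m ^ 2`.
-/

namespace Pool.Agent.Helper36.IP

open Pool.Agent.Helper54.IP

variable {F : Type*} [Field F] {m : ℕ}

/-- the last step of a corner closed in row 1 -/
theorem last_ratio {g : GForm F m} (h : g.Closed) {n : ℕ} (hn : n + 3 = m) {X Y : F}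
    (hx : g.XY X Y) :
    g.mu (n + 2) * (g.t 1 ^ n * Y) =
      g.s (n + 2) * g.s m * X * (1 - g.lam (n + 2)) := by
  subst hn
  have t0 := g.t_ne 1 (by omega)
  have t1 := g.t_sub_one (k := 1) (by omega) (by omega)
  have sk := g.s_ne (n + 2) (by omega)
  have sm := g.s_ne (n + 3) (by omega)
  have ss : g.s (n + 2) - g.s (n + 3) ≠ 0 :=
    sub_ne_zero.2 (g.s_inj (n + 2) (n + 3) (by omega) (by omega))
  have X0 := hx.X_ne (by omega)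
  have a := hx.G1 (by omega) (k := n + 2) (by omega)
  have b := hx.H1 (by omega) (k := n + 2) (by omega)
  have a' := hx.G1 (by omega) (k := n + 3) (by omega)
  have b' := hx.H1 (by omega) (k := n + 3) (by omega)
  have u := g.U1 1 (n + 2) (by omega) (by omega)
  have v := g.U2 1 (n + 2) (by omega) (by omega)
  have c := h.row 1 (by omega)
  have c' := h.row' (κ := n + 2) (by omega) (j := 1) (by omega)
  have e3 : g.t 1 ^ (n + 2 + 1) = g.t 1 ^ n * g.t 1 ^ 2 * g.t 1 := by ring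
  have e2 : g.t 1 ^ (n + 2) = g.t 1 ^ n * g.t 1 ^ 2 := by ring
  have e1 : g.t 1 ^ (n + 3) = g.t 1 ^ n * g.t 1 ^ 2 * g.t 1 := by ring
  change g.G 1 (n + 3) = _ at u
  change g.t 1 ^ (n + 2 + 1) * g.H 1 (n + 3) = _ at v
  rw [e3, e2] at v
  rw [e2] at u c'
  rw [e1] at c
  obtain ⟨Z, hZ⟩ : ∃ Z, Z = g.t 1 ^ n := ⟨_, rfl⟩
  rw [← hZ] at u v c c' ⊢
  -- `K = t G - t^k H`
  obtain ⟨K, hK⟩ : ∃ K, K = g.t 1 * g.G 1 (n + 2) - Z * g.t 1 ^ 2 * g.H 1 (n + 2) := ⟨_, rfl⟩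
  have k1 : g.mu (n + 2) * K = g.t 1 * ((g.t 1 - 1) * X * (g.s (n + 2) - g.s (n + 3))) := by
    rw [hK]
    linear_combination v + c + g.t 1 * a - g.t 1 * a'
  have k2 : (1 - g.lam (n + 2)) * K * (g.s (n + 2) * g.s (n + 3)) =
      Z * g.t 1 * ((g.t 1 - 1) * Y * (g.s (n + 2) - g.s (n + 3))) := by
    rw [hK]
    linear_combination (-(g.s (n + 2) * g.s (n + 3))) * u + g.s (n + 2) * g.s (n + 3) * c'
      + Z * g.t 1 * g.s (n + 2) * b' - Z * g.t 1 * g.s (n + 3) * b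
  have hK0 : K ≠ 0 := by
    rintro rfl
    rw [mul_zero] at k1
    exact mul_ne_zero t0 (mul_ne_zero (mul_ne_zero t1 X0) ss) k1.symm
  apply mul_left_cancel₀ (mul_ne_zero hK0 t0)
  linear_combination Z * Y * g.t 1 * k1 - g.t 1 * X * k2

/-- the monomial closure equation -/
theorem mono_closed {g : GForm F m} (h : g.Closed) {n : ℕ} (hn : n + 3 = m) :
    (g.s 1 * g.t (n + 2)) ^ n * g.s m ^ 2 = (g.t 1 * g.s (n + 2)) ^ n * g.t m ^ 2 := by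
  obtain ⟨X, Y, hx⟩ := g.exists_XY (by omega)
  have r := last_ratio h hn hx
  have r' := last_ratio h.swap hn hx.swap
  have X0 := hx.X_ne (by omega)
  have Y0 := hx.Y_ne (by omega)
  have cc := h.corner (κ := n + 2) (by omega)
  subst hn
  simp only [GForm.swap_mu, GForm.swap_t, GForm.swap_s, GForm.swap_lam] at r'
  have t10 := g.t_ne 1 (by omega)
  have s10 := g.s_ne 1 (by omega)
  have sk := g.s_ne (n + 2) (by omega)
  have sm := g.s_ne (n + 3) (by omega)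
  have tk := g.t_ne (n + 2) (by omega)
  have tm := g.t_ne (n + 3) (by omega)
  have d3 := Pool.Agent.Helper14.IP.dg g (k := n + 2) (by omega)
  have e3 := Pool.Agent.Helper14.IP.dh g (k := n + 2) (by omega)
  have nP1 := Pool.Agent.Helper14.IP.prod_t_ne g (k := n + 3) (l := n + 3) le_rfl (by omega)
  have nP2 := Pool.Agent.Helper14.IP.prod_s_ne g (k := n + 2) (l := n + 2) le_rfl (by omega)
  change (1 - g.lam (n + 2)) * (∏ i ∈ Finset.range (n + 3), (g.t (n + 3) - g.t i)) * _ =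
    (1 - g.lam' (n + 2)) * (∏ i ∈ Finset.range (n + 3), (g.s (n + 3) - g.s i)) * _ at d3
  change g.mu (n + 2) * (∏ i ∈ Finset.range (n + 3), (g.t (n + 3) - g.t i)) * _ *
    (g.s (n + 3) ^ (n + 3) * _) =
    g.mu' (n + 2) * (∏ i ∈ Finset.range (n + 3), (g.s (n + 3) - g.s i)) * _ *
    (g.t (n + 3) ^ (n + 3) * _) at e3
  obtain ⟨A, hA⟩ : ∃ A, A = ∏ i ∈ Finset.range (n + 3), (g.t (n + 3) - g.t i) := ⟨_, rfl⟩
  obtain ⟨B, hB⟩ : ∃ B, B = ∏ i ∈ Finset.range (n + 2), (g.s (n + 2) - g.s i) := ⟨_, rfl⟩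
  obtain ⟨A', hA'⟩ : ∃ A', A' = ∏ i ∈ Finset.range (n + 3), (g.s (n + 3) - g.s i) := ⟨_, rfl⟩
  obtain ⟨B', hB'⟩ : ∃ B', B' = ∏ i ∈ Finset.range (n + 2), (g.t (n + 2) - g.t i) := ⟨_, rfl⟩
  rw [← hA, ← hB, ← hA', ← hB'] at d3 e3
  rw [← hA] at nP1
  rw [← hB] at nP2
  have nl : 1 - g.lam (n + 2) ≠ 0 := sub_ne_zero.2 (g.lam_ne (n + 2) (by omega)).symm
  -- powers
  have p1 : g.s (n + 3) ^ (n + 3) = g.s (n + 3) ^ (n + 2) * g.s (n + 3) := pow_succ _ _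
  have p2 : g.t (n + 3) ^ (n + 3) = g.s (n + 3) ^ (n + 2) * g.t (n + 3) := by
    rw [← cc]
    exact pow_succ _ _
  have p3 : g.t (n + 2) ^ (n + 2) = g.t (n + 2) ^ n * g.t (n + 2) ^ 2 := pow_add _ _ _
  have p4 : g.s (n + 2) ^ (n + 2) = g.s (n + 2) ^ n * g.s (n + 2) ^ 2 := pow_add _ _ _
  rw [p1, p2, p3, p4] at e3
  rw [mul_pow, mul_pow]
  have hne : (1 - g.lam (n + 2)) * A * B * X * Y * (g.s (n + 3) ^ (n + 2) *
      (g.s (n + 2) ^ 2 * g.t (n + 2) ^ 2)) ≠ 0 :=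
    mul_ne_zero (mul_ne_zero (mul_ne_zero (mul_ne_zero (mul_ne_zero nl nP1) nP2) X0) Y0)
      (mul_ne_zero (pow_ne_zero _ sm) (mul_ne_zero (pow_ne_zero 2 sk) (pow_ne_zero 2 tk)))
  apply mul_left_cancel₀ hne
  obtain ⟨P, hP⟩ : ∃ P, P = g.s (n + 3) ^ (n + 2) := ⟨_, rfl⟩
  obtain ⟨Q, hQ⟩ : ∃ Q, Q = g.t (n + 2) ^ n := ⟨_, rfl⟩
  obtain ⟨Q', hQ'⟩ : ∃ Q', Q' = g.s (n + 2) ^ n := ⟨_, rfl⟩
  obtain ⟨Z, hZ⟩ : ∃ Z, Z = g.t 1 ^ n := ⟨_, rfl⟩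
  obtain ⟨Z', hZ'⟩ : ∃ Z', Z' = g.s 1 ^ n := ⟨_, rfl⟩
  rw [← hP, ← hQ, ← hQ'] at e3
  rw [← hP, ← hQ, ← hQ', ← hZ, ← hZ']
  rw [← hZ] at r
  rw [← hZ'] at r'
  linear_combination (Z * Z' * Y ^ 2) * e3
    - (Z' * Y * A * B * (P * g.s (n + 3) * (g.s (n + 2) * (Q * g.t (n + 2) ^ 2)))) * r
    + (Z * Y * A' * B' * (P * g.t (n + 3) * (g.t (n + 2) * (Q' * g.s (n + 2) ^ 2)))) * r'
    - (Z * Y * X * g.t (n + 2) * g.t (n + 3) * (P * g.t (n + 3) *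
      (g.t (n + 2) * (Q' * g.s (n + 2) ^ 2)))) * d3

end Pool.Agent.Helper36.IP
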