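import Pool.Agent.Helper36.IP.N1010
import Pool.Agent.Helper27.IP.N10Closed

/-!
TH-P, N branch: the state (10)/(10) is impossible.
-/

namespace Pool.Agent.Helper36.IP

open Pool.Agent.Helper54.IP

variable {F : Type*} [Field F] {m : ℕ}

theorem n_1010_dead (g : GForm F m) (hm : 5 ≤ m) (hD : g.G 1 1 ≠ g.H 1 1)
    (h2 : g.t 2 ≠ g.s 2)
    (hn1 : (g.s 2 * g.t 1 - g.t 2) * ((1 - g.lam' 0) - g.t 1 * g.mu' 0 + g.t 1 - 1) =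
        (g.s 2 - 1) * (g.t 1 * g.t 2 * (1 - g.lam' 0) - g.t 1 * g.mu' 0))
    (hn2 : (g.t 2 * g.s 1 - g.s 2) * ((1 - g.lam' 0) - g.t 1 * g.mu' 0 + g.t 1 - 1) =
        (g.t 2 - 1) * (g.s 1 * g.s 2 * (1 - g.lam' 0) - g.t 1 * g.mu' 0))
    (hk : g.kap 1 2 ≠ 0) (hk' : g.swap.kap 1 2 ≠ 0)
    (hk3 : g.kap 1 3 ≠ 0) (hk3' : g.swap.kap 1 3 ≠ 0)
    (h3 : g.s 3 * g.t 1 = g.t 2 * g.s 2) (h3' : g.t 3 * g.s 1 = g.t 2 * g.s 2) : False := by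
  obtain ⟨a, b, c, d, e, f1, f2⟩ :=
    n_1010_surface g (by omega) hD h2 hn1 hn2 hk hk' hk3 hk3' h3 h3'
  obtain ⟨h4, h4'⟩ := n_1010 g (by omega) hD h2 hn1 hn2 hk hk' hk3 hk3' h3 h3'
  exact Pool.Agent.Helper27.IP.n10_closed_dead g hm hD a b c h3 h3' d e f1 f2 h4 h4'

end Pool.Agent.Helper36.IP
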