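import Pool.Agent.Helper54.IP.GSwap

/-!
TH-P, N branch, state (10)/(10): the corner formulas in `t = t_1, T = t_2, u = s_1, z = t_2 s_2`.
-/

namespace Pool.Agent.Helper36.IP

open Pool.Agent.Helper54.IP

variable {F : Type*} [Field F] {m : ℕ} (g : GForm F m)

/-- column 1 through row 1. -/
theorem colG (hm : 1 ≤ m) {j : ℕ} (hj : j ≤ m) :
    (g.t 1 - 1) * (g.G j 1 - 1) = (1 - g.lam' 0) * (g.s 1 - 1) * (g.t j - 1) := by
  have h1 := g.row1G (k := 1) hm hm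
  have h2 := g.swap.row1G (k := 1) hm hm
  have h3 := g.swap.row1G (k := j) hm hj
  simp only [GForm.swap_G, GForm.swap_lam', GForm.swap_s] at h2 h3
  rw [h3]
  linear_combination (g.t j - 1) * h1 - (g.t j - 1) * h2

theorem colH (hm : 1 ≤ m) {j : ℕ} (hj : j ≤ m) :
    g.t j * (g.t 1 - 1) * g.s 1 * (g.H j 1 - 1) =
      g.t 1 * g.mu' 0 * (1 - g.s 1) * (g.t j - 1) := by
  have h1 := g.row1H (k := 1) hm hm
  have h2 := g.swap.row1H (k := 1) hm hm
  have h3 := g.swap.row1H (k := j) hm hj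
  simp only [GForm.swap_H, GForm.swap_mu', GForm.swap_s] at h2 h3
  linear_combination (g.t 1 - 1) * g.s 1 * h3 + (g.t j - 1) * g.t 1 * h1 - (g.t j - 1) * g.s 1 * h2

/-- cell `(2,1)`. -/
theorem al_eq (hm : 2 ≤ m) : (1 - g.lam' 1) * (g.t 1 - 1) *
    (g.s 1 * (1 - g.lam' 0) + g.mu' 0) =
      (1 - g.lam' 0) * (g.t 2 - 1) + (g.t 1 - 1) * (g.mu' 0 - 1) := by
  have h1 := g.row1G (k := 1) (by omega) (by omega)
  have h2 := g.row1H (k := 1) (by omega) (by omega)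
  have h3 := g.row2G (k := 1) hm (by omega)
  have h4 := colG g (by omega) (j := 2) hm
  have hs1 : g.s 1 - 1 ≠ 0 := by
    have := g.s_inj 0 1 (by omega) (by omega)
    rw [g.s0] at this
    exact sub_ne_zero.2 this.symm
  apply mul_left_cancel₀ hs1
  rw [h3] at h4
  linear_combination h4 - (g.t 1 - 1) * (1 - g.lam' 1) * g.s 1 * h1
    - (g.t 1 - 1) * g.lam' 1 * h2

theorem de_eq (hm : 2 ≤ m) : g.t 2 * (g.t 1 - 1) * g.mu' 1 *
    (g.s 1 * (1 - g.lam' 0) + g.mu' 0) =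
      g.s 1 * (g.t 2 * (g.t 1 - 1) * ((1 - g.lam' 0) - 1)
        + g.t 1 * g.mu' 0 * (g.t 2 - 1)) := by
  have h1 := g.row1G (k := 1) (by omega) (by omega)
  have h2 := g.row1H (k := 1) (by omega) (by omega)
  have h3 := g.row2H (k := 1) hm (by omega)
  have h4 := colH g (by omega) (j := 2) hm
  have hs1 : g.s 1 - 1 ≠ 0 := by
    have := g.s_inj 0 1 (by omega) (by omega)
    rw [g.s0] at this
    exact sub_ne_zero.2 this.symm
  apply mul_left_cancel₀ hs1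
  linear_combination (-g.s 1) * h4 + g.t 2 * (g.t 1 - 1) * g.s 1 * h3
    + g.t 2 * (g.t 1 - 1) * g.s 1 * (1 - g.mu' 1) * h1
    + g.t 2 * (g.t 1 - 1) * g.mu' 1 * h2

end Pool.Agent.Helper36.IP
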