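import Pool.Agent.Helper76.IP.L12
import Pool.Agent.Helper36.IP.Corner

/-!
TH-P, N branch, state (10)/(10): the linear relation `E23` (type 1 at step 1, type 0 at step 2).
-/

namespace Pool.Agent.Helper36.IP

open Pool.Agent.Helper54.IP Pool.Agent.Helper76.IP

variable {F : Type*} [Field F]

theorem e23_scalar {t T u v s3 x y al de : F} (ht0 : t ≠ 0) (hT0 : T ≠ 0) (hv0 : v ≠ 0)
    (hx0 : x ≠ 0) (hal0 : al ≠ 0) (hTt : T - t ≠ 0) (ht1 : t - 1 ≠ 0)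
    (hs : s3 * t = T * v) (h1 : al * (u * v) * t = de * T)
    (h2 : l1 x y al de t T (t ^ 2) (T ^ 2) v = 0)
    (h3 : l1 x y al de t T (t ^ 3) (T ^ 3) s3 = 0) :
    T * v * ((t - 1) * (1 - x) + x * u * (T - 1)) =
      t ^ 2 * (y * t * (T - 1) + (1 - y) * u * T * (t - 1)) := by
  obtain ⟨w, hw⟩ : ∃ w, v = t * w := ⟨v / t, by field_simp⟩
  have hw0 : w ≠ 0 := by
    rintro rfl
    exact hv0 (by rw [hw, mul_zero])
  have hs3 : s3 = T * w := by
    apply mul_right_cancel₀ ht0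
    rw [hs, hw]
    ring
  rw [hs3] at h3
  rw [hw] at h1 h2
  rw [l1] at h2 h3
  have hne : al * w * t ^ 2 * (t * T * x * (T - t) * (t - 1)) ≠ 0 := by
    refine mul_ne_zero (mul_ne_zero (mul_ne_zero hal0 hw0) (pow_ne_zero 2 ht0)) ?_
    exact mul_ne_zero (mul_ne_zero (mul_ne_zero (mul_ne_zero ht0 hT0) hx0) hTt) ht1
  have key : T * w * ((t - 1) * (1 - x) + x * (T - 1) * u) - y * (T - 1) * t ^ 2
      - (1 - y) * (t - 1) * T * t * u = 0 := by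
    apply mul_left_cancel₀ hne
    linear_combination h3 - T * h2 + (t * T * x * (T - t) * (t - 1) *
      (x * (T - 1) * T * w - (1 - y) * (t - 1) * T * t)) * h1
  rw [hw]
  linear_combination t * key

theorem type1_of {m : ℕ} (g : GForm F m) (hm : 2 ≤ m) (hD : g.G 1 1 ≠ g.H 1 1)
    (hn1 : (g.s 2 * g.t 1 - g.t 2) * ((1 - g.lam' 0) - g.t 1 * g.mu' 0 + g.t 1 - 1) =
        (g.s 2 - 1) * (g.t 1 * g.t 2 * (1 - g.lam' 0) - g.t 1 * g.mu' 0)) :
    (1 - g.lam' 1) * (g.s 1 * g.s 2) * g.t 1 = g.mu' 1 * g.t 2 := by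
  have ht1 : g.t 1 - 1 ≠ 0 := by
    have := g.t_inj 0 1 (by omega) (by omega)
    rw [g.t0] at this
    exact sub_ne_zero.2 this.symm
  have hs1 := g.s_ne 1 (by omega)
  have r1G := g.row1G (k := 1) (by omega) (by omega)
  have r1H := g.row1H (k := 1) (by omega) (by omega)
  have hne : g.s 1 * (1 - g.lam' 0) + g.mu' 0 ≠ 0 := by
    intro h
    apply hD
    apply mul_left_cancel₀ hs1
    rw [r1G, r1H]
    linear_combination (g.s 1 - 1) * h
  have ca := al_eq g hm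
  have cd := de_eq g hm
  apply mul_left_cancel₀ (mul_ne_zero ht1 hne)
  linear_combination (g.s 1 * g.s 2 * g.t 1) * ca - cd - g.s 1 * hn1

theorem e23 {m : ℕ} (g : GForm F m) (hm : 3 ≤ m) (hD : g.G 1 1 ≠ g.H 1 1)
    (hn1 : (g.s 2 * g.t 1 - g.t 2) * ((1 - g.lam' 0) - g.t 1 * g.mu' 0 + g.t 1 - 1) =
        (g.s 2 - 1) * (g.t 1 * g.t 2 * (1 - g.lam' 0) - g.t 1 * g.mu' 0))
    (hk : g.kap 1 2 ≠ 0) (hk3 : g.kap 1 3 ≠ 0) (h3 : g.s 3 * g.t 1 = g.t 2 * g.s 2) :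
    g.t 2 * g.s 2 * ((g.t 1 - 1) * (1 - (1 - g.lam' 0)) + (1 - g.lam' 0) * g.s 1 * (g.t 2 - 1)) =
      g.t 1 ^ 2 * (g.mu' 0 * g.t 1 * (g.t 2 - 1)
        + (1 - g.mu' 0) * g.s 1 * g.t 2 * (g.t 1 - 1)) := by
  have ht0 := g.t_ne 1 (by omega)
  have hT0 := g.t_ne 2 (by omega)
  have hv0 := g.s_ne 2 (by omega)
  have ht1 : g.t 1 - 1 ≠ 0 := by
    have := g.t_inj 0 1 (by omega) (by omega)
    rw [g.t0] at this
    exact sub_ne_zero.2 this.symm
  have hTt : g.t 2 - g.t 1 ≠ 0 := sub_ne_zero.2 (g.t_inj 1 2 (by omega) (by omega)).symm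
  have hx0 : 1 - g.lam' 0 ≠ 0 := sub_ne_zero.2 (g.lam'_ne 0 (by omega)).symm
  have hal0 : 1 - g.lam' 1 ≠ 0 := sub_ne_zero.2 (g.lam'_ne 1 (by omega)).symm
  have k11 : g.kap 1 1 ≠ 0 := by
    intro h
    rw [GForm.kap, pow_one] at h
    apply hD
    apply mul_left_cancel₀ ht0
    linear_combination h
  have D2 : g.G 1 2 - g.t 1 ^ 2 * g.H 1 2 ≠ 0 := by
    have := g.D_succ (j := 1) (k := 1) (by omega) (by omega)
    rw [GForm.D] at this
    rw [this]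
    exact mul_ne_zero (sub_ne_zero.2 (g.lm_ne 1 (by omega)).symm) k11
  have D3 : g.G 1 3 - g.t 1 ^ 3 * g.H 1 3 ≠ 0 := by
    have := g.D_succ (j := 1) (k := 2) (by omega) (by omega)
    rw [GForm.D] at this
    rw [this]
    exact mul_ne_zero (sub_ne_zero.2 (g.lm_ne 2 (by omega)).symm) hk
  have l2 := (l12 g (by omega) (k := 2) (by omega) D2 hk).1
  have l3 := (l12 g (by omega) (k := 3) hm D3 hk3).1
  have h1 := type1_of g (by omega) hD hn1
  exact e23_scalar ht0 hT0 hv0 hx0 hal0 hTt ht1 h3 h1 l2 l3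

end Pool.Agent.Helper36.IP
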