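import Pool.Agent.Helper36.IP.KKFlat

/-!
TH-P, N branch, state KK: the final elimination, generated.
-/

namespace Pool.Agent.Helper36.IP

variable {F : Type*} [Field F]

theorem kk_final {t u S : F} (hS : S ^ 2 - S + 1 = 0) (hSd : 1 - 2 * S ≠ 0) (ht0 : t ≠ 0)
    (hut : u * t - 1 ≠ 0)
    (hC : (1 - S) * (u + 1) * (t + S) + (t + 1) * (u + (1 - S)) = 0)
    (hF : kkF t u S = 0) (hF' : kkF u t (1 - S) = 0) (h12 : u ^ 12 = t ^ 12) : False := by
  have hS0 : S ≠ 0 := by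
    rintro rfl
    apply one_ne_zero (α := F)
    linear_combination hS
  have hS1 : S - 1 ≠ 0 := by
    intro h
    have h1 : S = 1 := by linear_combination h
    rw [h1] at hS
    apply one_ne_zero (α := F)
    linear_combination hS
  have two : (2 : F) ≠ 0 := by
    intro h2
    have h : S * (t * u - 1) = 0 := by
      linear_combination (-1 : F) * hC + ((t * u + 1) + (1 - S) * t + u - S) * h2
        + (- u - 1) * hS
    have h3 := (mul_eq_zero.1 h).resolve_left hS0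
    exact hut (by linear_combination h3)
  have three : (3 : F) ≠ 0 := by
    intro h3
    apply hSd
    have : (1 - 2 * S) ^ 2 = 0 := by linear_combination 4 * hS - h3
    exact pow_eq_zero_iff (two_ne_zero) |>.1 this
  have htp : t + 1 ≠ 0 := by
    intro h
    apply hut
    have hu : u + 1 = 0 := by
      linear_combination (-1 : F) * S ^ 2 * hC
        + S ^ 2 * ((1 - S) * (u + 1) + (u + (1 - S))) * h + (- u * S ^ 2 + u * S + u - S ^ 2 + S + 1) * hS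
    linear_combination t * hu - h
  obtain ⟨a, ha⟩ : ∃ a, a = (t + S) / (t + 1) := ⟨_, rfl⟩
  have hA : a * (t + 1) = t + S := by rw [ha]; field_simp
  have hp : t * (a - 1) = S - a := by linear_combination hA
  have hq : u * (a + S) = -(a + 1) := by
    apply mul_left_cancel₀ htp
    linear_combination S * hC + (S * (1 - S) * (u + 1)) * hA
      + (t * u * a + t * a + t + u * a + a + 1) * hS
  have ha1 : a - 1 ≠ 0 := by
    intro h
    rw [h, mul_zero] at hp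
    apply hS1
    linear_combination h - hp
  have haS : a + S ≠ 0 := by
    intro h
    rw [h, mul_zero] at hq
    apply hS1
    linear_combination h - hq
  have ha0 : a ≠ 0 := by
    intro h
    rw [h] at hp hq
    apply hut
    apply mul_left_cancel₀ hS0
    linear_combination t * hq + hp
  have hf : 2 * S * a ^ 6 + (1 - 2 * S) * a ^ 5 + (1 - S) * a ^ 4 + (8 - 4 * S) * a ^ 3 - 10 * a ^ 2 + 2 * S = 0 := by
    obtain ⟨p, hp'⟩ : ∃ p, p = t * (a - 1) := ⟨_, rfl⟩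
    obtain ⟨q, hq'⟩ : ∃ q, q = u * (a + S) := ⟨_, rfl⟩
    have h : - p ^ 6 * (a + S) ^ 2 + (2 - S) * p ^ 5 * q * (a - 1) * (a + S) - S * p ^ 5 * (a - 1) * (a + S) ^ 2
      + (2 - S) * p ^ 4 * q * (a - 1) ^ 2 * (a + S) + p ^ 3 * q * (a - 1) ^ 3 * (a + S) + (1
      + S) * p ^ 2 * q * (a - 1) ^ 4 * (a + S) - (1 - S) * p * q ^ 2 * (a - 1) ^ 5 + (1 + S) * p * q * (a
      - 1) ^ 5 * (a + S) - q ^ 2 * (a - 1) ^ 6 = 0 := by
      rw [hp', hq']
      rw [kkF] at hF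
      linear_combination (a - 1) ^ 6 * (a + S) ^ 2 * hF
    rw [hp', hq', hp, hq] at h
    linear_combination h + (2 * a ^ 6 * S - 6 * a ^ 5 * S ^ 2 + 3 * a ^ 5 * S + 2 * a ^ 5 + 3 * a ^ 4 * S ^ 3 + 2 * a ^ 4 * S ^ 2
      - 4 * a ^ 4 * S - a ^ 4 + 4 * a ^ 3 * S ^ 4 - 6 * a ^ 3 * S ^ 3 - 2 * a ^ 3 * S ^ 2 - 2 * a ^ 3 * S
      + 10 * a ^ 3 - 4 * a ^ 2 * S ^ 5 + 2 * a ^ 2 * S ^ 4 + 6 * a ^ 2 * S ^ 3 - 6 * a ^ 2 * S
      - 8 * a ^ 2 + a * S ^ 6 - 4 * a * S ^ 4 + 5 * a * S ^ 3 + 2 * a * S ^ 2 - a * S - 3 * a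
      + S ^ 5 - 2 * S ^ 4 - S ^ 3 + S ^ 2 + 2 * S + 1) * hS
  have hg : 2 * S * a ^ 6 - (1 - 2 * S) * a ^ 5 + (1 - S) * a ^ 4 - (8 - 4 * S) * a ^ 3 - 10 * a ^ 2 + 2 * S = 0 := by
    obtain ⟨p, hp'⟩ : ∃ p, p = t * (a - 1) := ⟨_, rfl⟩
    obtain ⟨q, hq'⟩ : ∃ q, q = u * (a + S) := ⟨_, rfl⟩
    have h : - q ^ 6 * (a - 1) ^ 2 + (1 + S) * q ^ 5 * p * (a + S) * (a - 1) - (1 - S) * q ^ 5 * (a + S) * (a
      - 1) ^ 2 + (1 + S) * q ^ 4 * p * (a + S) ^ 2 * (a - 1) + q ^ 3 * p * (a + S) ^ 3 * (a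
      - 1) + (2 - S) * q ^ 2 * p * (a + S) ^ 4 * (a - 1) - S * q * p ^ 2 * (a + S) ^ 5 + (2
      - S) * q * p * (a + S) ^ 5 * (a - 1) - p ^ 2 * (a + S) ^ 6 = 0 := by
      rw [hp', hq']
      rw [kkF] at hF'
      linear_combination (a + S) ^ 6 * (a - 1) ^ 2 * hF'
    rw [hp', hq', hp, hq] at h
    linear_combination h + (2 * a ^ 6 * S + 6 * a ^ 5 * S ^ 2 - 3 * a ^ 5 * S - 2 * a ^ 5 + 3 * a ^ 4 * S ^ 3 + 2 * a ^ 4 * S ^ 2
      - 4 * a ^ 4 * S - a ^ 4 - 4 * a ^ 3 * S ^ 4 + 6 * a ^ 3 * S ^ 3 + 2 * a ^ 3 * S ^ 2 + 2 * a ^ 3 * S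
      - 10 * a ^ 3 - 4 * a ^ 2 * S ^ 5 + 2 * a ^ 2 * S ^ 4 + 6 * a ^ 2 * S ^ 3 - 6 * a ^ 2 * S
      - 8 * a ^ 2 - a * S ^ 6 + 4 * a * S ^ 4 - 5 * a * S ^ 3 - 2 * a * S ^ 2 + a * S + 3 * a
      + S ^ 5 - 2 * S ^ 4 - S ^ 3 + S ^ 2 + 2 * S + 1) * hS
  have ho : (1 - 2 * S) * a ^ 2 + (8 - 4 * S) = 0 := by
    apply mul_left_cancel₀ (mul_ne_zero two (pow_ne_zero 3 ha0))
    linear_combination hf - hg
  have ha2 : a ^ 2 + 4 * S = 0 := by
    apply mul_left_cancel₀ hSd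
    linear_combination ho + (- 8) * hS
  have he : 2 * S * a ^ 6 + (1 - S) * a ^ 4 - 10 * a ^ 2 + 2 * S = 0 := by
    apply mul_left_cancel₀ two
    linear_combination hf + hg
  have h186 : 186 * S = 0 := by
    linear_combination he - (2 * a ^ 4 * S - 8 * a ^ 2 * S ^ 2 - a ^ 2 * S + a ^ 2 + 32 * S ^ 3 + 4 * S ^ 2 - 4 * S - 10) * ha2 + (128 * S ^ 2 + 144 * S) * hS
  have h31 : (31 : F) = 0 := by
    apply mul_left_cancel₀ (mul_ne_zero (mul_ne_zero two three) hS0)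
    linear_combination h186
  have hr : u * (5 * S - 1) = t * (4 * S + 1) := by
    linear_combination (-(a - S)) * hq + (a + 1) * hp + (u - t) * ha2 - u * hS
  have h12' : (5 * S - 1) ^ 12 - (4 * S + 1) ^ 12 = 0 := by
    apply mul_left_cancel₀ (pow_ne_zero 12 ht0)
    have h := congrArg (fun z => z ^ 12) hr
    simp only [mul_pow] at h
    rw [h12] at h
    linear_combination h
  apply one_ne_zero (α := F)
  linear_combination (24 * (75057840 - 150115680 * S)) * h12' + (-13084674608823329) * h31 + (819139505979674880 * S ^ 11 - 1882765666571137920 * S ^ 10 + 517030666583333760 * S ^ 9 - 392433844560975360 * S ^ 8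
      + 548213906165777280 * S ^ 7 + 381098198847674880 * S ^ 6 + 6099869594332800 * S ^ 5 - 406026901648368000 * S ^ 4
      - 405549330229105920 * S ^ 3 - 1264574488320 * S ^ 2 + 405625107423444480 * S + 405624912873523200) * hS

end Pool.Agent.Helper36.IP
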