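import Pool.Agent.Helper36.IP.KKCol4
import Pool.Agent.Helper36.IP.KKFinal
import Pool.Agent.Helper43.IPL.Flat2
import Pool.Agent.Helper14.IP.Newton
import Pool.Agent.Helper27.IP.Type0

/-!
TH-P, N branch: the state KK (`kap_1^(2) = 0` on both sides) is impossible.
-/

namespace Pool.Agent.Helper36.IP

open Pool.Agent.Helper54.IP

variable {F : Type*} [Field F] {m : ℕ}

theorem kk_c33 {t u S l l' : F} (hS : S ^ 2 - S + 1 = 0) (hSd : 1 - 2 * S ≠ 0)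
    (htT : t - (1 - S) ≠ 0) (huS : u - S ≠ 0) (hut3 : u * S + t ≠ 0)
    (h1 : l * ((1 - 2 * S) * (u - S)) = (1 - S) * (t - (1 - S)) * (t + 1))
    (h2 : l' * ((1 - 2 * (1 - S)) * (t - (1 - S))) = S * (u - S) * (u + 1))
    (hd : l * ((-(u * (1 - (1 - S))) - 1) * (-(u * (1 - (1 - S))) - t)
        * (-(u * (1 - (1 - S))) - (1 - S))) * ((S - 1) * (S - u)) =
      l' * ((-(t * (1 - S)) - 1) * (-(t * (1 - S)) - u) * (-(t * (1 - S)) - S))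
        * (((1 - S) - 1) * ((1 - S) - t))) :
    (1 - S) * (u + 1) * (t + S) + (t + 1) * (u + (1 - S)) = 0 := by
  have h3 : (1 - S) * (t - (1 - S)) * (t + 1) * ((1 - 2 * (1 - S)) * (t - (1 - S))) *
      ((-(u * (1 - (1 - S))) - 1) * (-(u * (1 - (1 - S))) - t) * (-(u * (1 - (1 - S))) - (1 - S))
        * ((S - 1) * (S - u))) =
      S * (u - S) * (u + 1) * ((1 - 2 * S) * (u - S)) *
      ((-(t * (1 - S)) - 1) * (-(t * (1 - S)) - u) * (-(t * (1 - S)) - S)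
        * (((1 - S) - 1) * ((1 - S) - t))) := by
    rw [← h1, ← h2]
    linear_combination ((1 - 2 * S) * (u - S)) * ((1 - 2 * (1 - S)) * (t - (1 - S))) * hd
  apply mul_left_cancel₀ (mul_ne_zero (mul_ne_zero (mul_ne_zero (pow_ne_zero 2 htT)
    (pow_ne_zero 2 huS)) hSd) hut3)
  linear_combination h3 + (- 2 * t ^ 4 * u ^ 3 * S ^ 4 + 7 * t ^ 4 * u ^ 3 * S ^ 3 - 5 * t ^ 4 * u ^ 3 * S ^ 2 - 3 * t ^ 4 * u ^ 3 * S
      + 2 * t ^ 4 * u ^ 3 + 4 * t ^ 4 * u ^ 2 * S ^ 5 - 14 * t ^ 4 * u ^ 2 * S ^ 4 + 10 * t ^ 4 * u ^ 2 * S ^ 3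
      + 10 * t ^ 4 * u ^ 2 * S ^ 2 - 10 * t ^ 4 * u ^ 2 * S + 2 * t ^ 4 * u ^ 2 - 2 * t ^ 4 * u * S ^ 6
      + 9 * t ^ 4 * u * S ^ 5 - 10 * t ^ 4 * u * S ^ 4 - 5 * t ^ 4 * u * S ^ 3 + 8 * t ^ 4 * u * S ^ 2
      - t ^ 4 * u - 2 * t ^ 4 * S ^ 6 + 5 * t ^ 4 * S ^ 5 - 2 * t ^ 4 * S ^ 4 - 2 * t ^ 4 * S ^ 2
      + t ^ 4 * S + 2 * t ^ 3 * u ^ 4 * S ^ 4 - t ^ 3 * u ^ 4 * S ^ 3 - 4 * t ^ 3 * u ^ 4 * S ^ 2
      + 2 * t ^ 3 * u ^ 4 * S - 4 * t ^ 3 * u ^ 3 * S ^ 5 + 10 * t ^ 3 * u ^ 3 * S ^ 4 - 14 * t ^ 3 * u ^ 3 * S ^ 2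
      + 12 * t ^ 3 * u ^ 3 * S - 3 * t ^ 3 * u ^ 3 + 4 * t ^ 3 * u ^ 2 * S ^ 6 - 20 * t ^ 3 * u ^ 2 * S ^ 5
      + 15 * t ^ 3 * u ^ 2 * S ^ 4 + 25 * t ^ 3 * u ^ 2 * S ^ 3 - 38 * t ^ 3 * u ^ 2 * S ^ 2
      + 18 * t ^ 3 * u ^ 2 * S - 3 * t ^ 3 * u ^ 2 - 2 * t ^ 3 * u * S ^ 7 + 13 * t ^ 3 * u * S ^ 6
      - 20 * t ^ 3 * u * S ^ 5 - 5 * t ^ 3 * u * S ^ 4 + 26 * t ^ 3 * u * S ^ 3 - 14 * t ^ 3 * u * S ^ 2
      + t ^ 3 * u - 2 * t ^ 3 * S ^ 7 + 9 * t ^ 3 * S ^ 6 - 8 * t ^ 3 * S ^ 5 - t ^ 3 * S ^ 3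
      + 3 * t ^ 3 * S ^ 2 - t ^ 3 * S + 4 * t ^ 2 * u ^ 4 * S ^ 5 - 6 * t ^ 2 * u ^ 4 * S ^ 4
      - 6 * t ^ 2 * u ^ 4 * S ^ 3 + 10 * t ^ 2 * u ^ 4 * S ^ 2 - 3 * t ^ 2 * u ^ 4 * S - 4 * t ^ 2 * u ^ 3 * S ^ 6
      + 4 * t ^ 2 * u ^ 3 * S ^ 5 + 25 * t ^ 2 * u ^ 3 * S ^ 4 - 49 * t ^ 2 * u ^ 3 * S ^ 3
      + 34 * t ^ 2 * u ^ 3 * S ^ 2 - 8 * t ^ 2 * u ^ 3 * S - 18 * t ^ 2 * u ^ 2 * S ^ 5 + 51 * t ^ 2 * u ^ 2 * S ^ 4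
      - 49 * t ^ 2 * u ^ 2 * S ^ 3 + 16 * t ^ 2 * u ^ 2 * S ^ 2 - t ^ 2 * u ^ 2 * S + 2 * t ^ 2 * u * S ^ 7
      - 3 * t ^ 2 * u * S ^ 6 - 9 * t ^ 2 * u * S ^ 5 + 21 * t ^ 2 * u * S ^ 4 - 16 * t ^ 2 * u * S ^ 3
      + 8 * t ^ 2 * u * S ^ 2 - 4 * t ^ 2 * u * S + t ^ 2 * u + 2 * t ^ 2 * S ^ 7 - 3 * t ^ 2 * S ^ 6
      - 3 * t ^ 2 * S ^ 5 + 8 * t ^ 2 * S ^ 4 - 7 * t ^ 2 * S ^ 3 + 4 * t ^ 2 * S ^ 2 - t ^ 2 * S
      + 2 * t * u ^ 4 * S ^ 6 - 3 * t * u ^ 4 * S ^ 5 - 5 * t * u ^ 4 * S ^ 4 + 11 * t * u ^ 4 * S ^ 3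
      - 4 * t * u ^ 4 * S ^ 2 - 2 * t * u ^ 3 * S ^ 7 + t * u ^ 3 * S ^ 6 + 16 * t * u ^ 3 * S ^ 5
      - 32 * t * u ^ 3 * S ^ 4 + 22 * t * u ^ 3 * S ^ 3 - 5 * t * u ^ 3 * S ^ 2 - 2 * t * u ^ 3 * S
      + t * u ^ 3 + 2 * t * u ^ 2 * S ^ 7 - 11 * t * u ^ 2 * S ^ 6 + 21 * t * u ^ 2 * S ^ 5
      - 18 * t * u ^ 2 * S ^ 4 - t * u ^ 2 * S ^ 3 + 11 * t * u ^ 2 * S ^ 2 - 6 * t * u ^ 2 * S
      + t * u ^ 2 + 2 * t * u * S ^ 5 - t * u * S ^ 4 + 2 * t * u * S ^ 3 - 5 * t * u * S ^ 2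
      + 4 * t * u * S - t * u - 2 * t * S ^ 6 + 7 * t * S ^ 5 - 11 * t * S ^ 4 + 10 * t * S ^ 3
      - 5 * t * S ^ 2 + t * S + 2 * u ^ 4 * S ^ 6 - 7 * u ^ 4 * S ^ 5 + 9 * u ^ 4 * S ^ 4 - 3 * u ^ 4 * S ^ 3
      - 2 * u ^ 4 * S ^ 2 + u ^ 4 * S - 2 * u ^ 3 * S ^ 7 + 5 * u ^ 3 * S ^ 6 - 13 * u ^ 3 * S ^ 4
      + 16 * u ^ 3 * S ^ 3 - 7 * u ^ 3 * S ^ 2 + u ^ 3 * S + 2 * u ^ 2 * S ^ 7 - 9 * u ^ 2 * S ^ 6
      + 12 * u ^ 2 * S ^ 5 - 4 * u ^ 2 * S ^ 4 - 4 * u ^ 2 * S ^ 3 + 4 * u ^ 2 * S ^ 2 - u ^ 2 * S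
      + 4 * u * S ^ 6 - 10 * u * S ^ 5 + 10 * u * S ^ 4 - 5 * u * S ^ 3 + u * S ^ 2) * hS

variable (g : GForm F m)

theorem kk_lam2 (hK : KK g) (hm : 3 ≤ m) :
    (1 - g.lam 2) * ((1 - 2 * g.s 2) * (g.s 1 - g.s 2)) =
      (1 - g.s 2) * (g.t 1 - (1 - g.s 2)) * (g.t 1 + 1) := by
  have ht1 : g.t 1 - 1 ≠ 0 := by
    have := g.t_inj 0 1 (by omega) (by omega)
    rw [g.t0] at this
    exact sub_ne_zero.2 this.symm
  have hTt : g.t 1 - (1 - g.s 2) ≠ 0 := by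
    rw [← hK.2.1]
    exact sub_ne_zero.2 (g.t_inj 1 2 (by omega) (by omega))
  have hS := hK.1
  have g2 := kk_G2 g hK (by omega) (k := 2) (by omega)
  have h2 := kk_H2 g hK (by omega) (k := 2) (by omega)
  have g3 := kk_G2 g hK (by omega) (k := 3) (by omega)
  have hu := g.U1 2 2 (by omega) (by omega)
  rw [hK.2.1] at hu
  rw [kk_s3 g hK hm] at g3
  rw [kkg] at g2 g3
  rw [kkh] at h2
  generalize g.s 2 = S at *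
  generalize g.t 1 = t at *
  generalize g.s 1 = u at *
  obtain ⟨x, hx⟩ : ∃ x, x = (t - 1) * (u * t - 1) * ((1 - S) ^ 2 * g.H 2 2) := ⟨_, rfl⟩
  have hx' : x = (1 - S) ^ 4 * ((1 - t - u * t * S) * S * (t + (1 - t) * S)
      + u * (t + S - 1) * (S + t - 1)) := by
    rw [hx]
    linear_combination (1 - S) ^ 4 * h2 + (t - 1) * (u * t - 1) * ((1 - S) ^ 2 * g.H 2 2)
      * (- S ^ 2 + S + 1) * hS
  have e1 : (t - 1) * ((1 - 2 * S) * (t - (1 - S)) * (u - S)) =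
      (1 - S) * ((t - 1) * (u * t - 1) * g.G 2 2) - x := by
    rw [hx', g2]
    linear_combination (t ^ 2 * u * S ^ 5 - 4 * t ^ 2 * u * S ^ 4 + 5 * t ^ 2 * u * S ^ 3 - 4 * t ^ 2 * u * S + t ^ 2 * u
      + t ^ 2 * S ^ 4 - 4 * t ^ 2 * S ^ 3 + 6 * t ^ 2 * S ^ 2 - 2 * t ^ 2 * S - t * u * S ^ 5
      + 3 * t * u * S ^ 4 - 9 * t * u * S ^ 2 + 10 * t * u * S - 2 * t * u - 2 * t * S ^ 4 + 7 * t * S ^ 3
      - 8 * t * S ^ 2 + t * S + t + u * S ^ 4 - 5 * u * S ^ 3 + 9 * u * S ^ 2 - 6 * u * S + u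
      + S ^ 4 - 3 * S ^ 3 + 2 * S ^ 2 + S - 1) * hS
  have e2 : (t - 1) * ((1 - S) * (t - (1 - S)) ^ 2 * (t + 1)) =
      (t - 1) * (u * t - 1) * g.G 2 3 - x := by
    rw [hx', g3]
    linear_combination (- t ^ 4 * S + t ^ 4 + t ^ 3 * S - t ^ 3 + t ^ 2 * u * S ^ 5 - 4 * t ^ 2 * u * S ^ 4 + 5 * t ^ 2 * u * S ^ 3
      - 4 * t ^ 2 * u * S + t ^ 2 * u + t ^ 2 * S ^ 4 - 4 * t ^ 2 * S ^ 3 + 5 * t ^ 2 * S ^ 2
      - 2 * t ^ 2 * S - t * u * S ^ 5 + 3 * t * u * S ^ 4 - 9 * t * u * S ^ 2 + 10 * t * u * S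
      - t * u - 2 * t * S ^ 4 + 7 * t * S ^ 3 - 7 * t * S ^ 2 + 2 * t + u * S ^ 4 - 5 * u * S ^ 3
      + 9 * u * S ^ 2 - 6 * u * S + S ^ 4 - 3 * S ^ 3 + 2 * S ^ 2 + 2 * S - 2) * hS
  apply mul_left_cancel₀ (mul_ne_zero ht1 hTt)
  linear_combination (1 - g.lam 2) * e1 - e2 + (-((t - 1) * (u * t - 1))) * hu
    + g.lam 2 * hx

theorem kk_D13 (hK : KK g) (hm : 3 ≤ m) : g.G 1 3 = g.t 1 ^ 3 * g.H 1 3 := by
  have h := g.D_succ (j := 1) (k := 2) (by omega) (by omega)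
  rw [GForm.D, hK.2.2.2.2, mul_zero] at h
  linear_combination h

theorem kk_mu3 (hK : KK g) (hm : 4 ≤ m) :
    g.s 4 * g.mu 3 = g.s 2 * g.t 1 ^ 2 * (1 - g.lam 3) := by
  have ht0 := g.t_ne 1 (by omega)
  have ht1 : g.t 1 - 1 ≠ 0 := by
    have := g.t_inj 0 1 (by omega) (by omega)
    rw [g.t0] at this
    exact sub_ne_zero.2 this.symm
  have hTt : g.t 1 - (1 - g.s 2) ≠ 0 := by
    rw [← hK.2.1]
    exact sub_ne_zero.2 (g.t_inj 1 2 (by omega) (by omega))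
  have hT : (1 - g.s 2) ≠ 0 := by
    rw [← hK.2.1]
    exact g.t_ne 2 (by omega)
  have hS := hK.1
  have g3 := kk_G g hK (by omega) (k := 3) (by omega)
  rw [kk_s3 g hK (by omega)] at g3
  have g4 := kk_G g hK (by omega) (k := 4) (by omega)
  have h4 := kk_H g hK (by omega) (k := 4) (by omega)
  have d := kk_D13 g hK (by omega)
  have u1 := g.U1 1 3 (by omega) (by omega)
  have v1 := g.U2 1 3 (by omega) (by omega)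
  norm_num at u1 v1
  have hG : g.G 1 3 = g.t 1 * (1 - g.s 2) * (g.t 1 - (1 - g.s 2)) := by
    rw [g3]
    linear_combination g.t 1 * hS
  have e1 : (1 - g.lam 3) * g.G 1 3 = - (g.t 1 * (1 - g.s 2)) - g.s 4 := by
    apply mul_left_cancel₀ ht1
    linear_combination g4 - g3 - u1 + g.lam 3 * d
  have e2 : g.s 4 * g.mu 3 * g.G 1 3 = - (g.t 1 ^ 2 * (g.s 2 * g.s 4 + g.t 1)) := by
    apply mul_left_cancel₀ ht1
    linear_combination g.s 4 * v1 - g.s 4 * g.mu 3 * d - g.t 1 ^ 3 * h4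
      + g.s 4 * g.t 1 * hG - g.t 1 ^ 2 * g.s 4 * hS
  apply mul_right_cancel₀ (mul_ne_zero (mul_ne_zero ht0 hT) hTt)
  rw [← hG, e2]
  linear_combination (-(g.s 2 * g.t 1 ^ 2)) * e1 - (g.t 1 ^ 3) * hS

theorem kk_col4 (hK : KK g) (hm : 5 ≤ m) (hD : g.G 1 1 ≠ g.H 1 1) :
    g.t 1 ^ 3 * g.s 4 = - g.s 1 ∧ kkF (g.t 1) (g.s 1) (g.s 2) = 0 := by
  have ht0 := g.t_ne 1 (by omega)
  have ht1 : g.t 1 - 1 ≠ 0 := by
    have := g.t_inj 0 1 (by omega) (by omega)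
    rw [g.t0] at this
    exact sub_ne_zero.2 this.symm
  have hTt' : g.t 2 - g.t 1 ≠ 0 := sub_ne_zero.2 (g.t_inj 1 2 (by omega) (by omega)).symm
  have hTt : g.t 1 - (1 - g.s 2) ≠ 0 := by
    rw [← hK.2.1]
    exact sub_ne_zero.2 (g.t_inj 1 2 (by omega) (by omega))
  have hT : (1 - g.s 2) ≠ 0 := by
    rw [← hK.2.1]
    exact g.t_ne 2 (by omega)
  have hS0 := g.s_ne 2 (by omega)
  have hS := hK.1
  have g3 := kk_G g hK (by omega) (k := 3) (by omega)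
  have G3 := kk_G2 g hK (by omega) (k := 3) (by omega)
  have H3 := kk_H2 g hK (by omega) (k := 3) (by omega)
  rw [kk_s3 g hK (by omega)] at g3 G3 H3
  have g4 := kk_G g hK (by omega) (k := 4) (by omega)
  have h4 := kk_H g hK (by omega) (k := 4) (by omega)
  have G4 := kk_G2 g hK (by omega) (k := 4) (by omega)
  have H4 := kk_H2 g hK (by omega) (k := 4) (by omega)
  have d := kk_D13 g hK (by omega)
  have u1 := g.U1 1 3 (by omega) (by omega)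
  have u2 := g.U1 2 3 (by omega) (by omega)
  have v1 := g.U2 1 3 (by omega) (by omega)
  have v2 := g.U2 2 3 (by omega) (by omega)
  norm_num at v1 v2
  have h2 := hK.2.1
  rw [h2] at u2 v2
  obtain ⟨e1, e2⟩ := kk_col4_scalar hS ht0 ht1 hTt g3 d g4 h4 G3 H3 G4 H4 u1 u2 v1 v2
  have n1 : g.s 4 - 1 ≠ 0 := by
    have := g.s_inj 0 4 (by omega) (by omega)
    rw [g.s0] at this
    exact sub_ne_zero.2 this.symm
  have n2 : g.s 4 - g.s 2 ≠ 0 := sub_ne_zero.2 (g.s_inj 2 4 (by omega) (by omega)).symm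
  have n3 : g.s 4 + g.t 1 * (1 - g.s 2) ≠ 0 := by
    intro h
    apply g.s_inj 3 4 (by omega) (by omega)
    rw [kk_s3 g hK (by omega)]
    linear_combination -h
  rcases kk_flat hS hT ht0 n1 n2 n3 (g.s_ne 4 (by omega)) e1 e2 with h | h
  swap
  · exact h
  exfalso
  have htp : g.t 1 + 1 ≠ 0 := by
    intro h'
    apply n2
    rw [h]
    linear_combination (-g.s 2) * h'
  have hk4 : g.t 1 ^ 3 * g.H 1 4 = g.G 1 4 := by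
    apply mul_left_cancel₀ (mul_ne_zero ht0 hS0)
    rw [h] at h4 g4
    linear_combination (-g.t 1 ^ 2) * h4 - g.t 1 * g.s 2 * g4 + (g.t 1 ^ 2 - g.t 1 ^ 3) * hS
  rcases Pool.Agent.Helper43.IPL.deg_flat g (by omega) 3 (by omega) hk4 with h' | ⟨a1, a2⟩
  · have h5 : g.s 3 * g.t 2 = g.t 1 * g.s 4 := by
      refine Pool.Agent.Helper27.IP.closed_type0 g (k := 3) (by omega) ?_ ?_ ?_
      · rw [GForm.kap]
        norm_num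
        linear_combination (-g.t 1) * hk4
      · rw [GForm.kap]
        norm_num
        norm_num at h'
        linear_combination (-g.t 2) * h'
      · intro h5
        apply htp
        rw [h5]
        ring
    apply n2
    apply mul_left_cancel₀ ht0
    rw [kk_s3 g hK (by omega), h2] at h5
    linear_combination -h5 - g.t 1 * hS
  · norm_num at a1 a2
    rw [hK.2.2.1] at a2
    have h6 : (g.t 2 - g.t 1) * (g.t 1 * ((g.t 1 - 1) * (g.t 1 + 1))) = 0 := by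
      linear_combination a2 - g.t 1 * a1 + (g.t 2 - g.t 1) * g.t 1 ^ 3 * hK.2.2.2.1
    exact mul_ne_zero hTt' (mul_ne_zero ht0 (mul_ne_zero ht1 htp)) h6

/-- the state KK is impossible. -/
theorem kk_dead (hm : 5 ≤ m) (hD : g.G 1 1 ≠ g.H 1 1) (h2 : g.t 2 ≠ g.s 2)
    (hn1 : (g.s 2 * g.t 1 - g.t 2) * ((1 - g.lam' 0) - g.t 1 * g.mu' 0 + g.t 1 - 1) =
        (g.s 2 - 1) * (g.t 1 * g.t 2 * (1 - g.lam' 0) - g.t 1 * g.mu' 0))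
    (hn2 : (g.t 2 * g.s 1 - g.s 2) * ((1 - g.lam' 0) - g.t 1 * g.mu' 0 + g.t 1 - 1) =
        (g.t 2 - 1) * (g.s 1 * g.s 2 * (1 - g.lam' 0) - g.t 1 * g.mu' 0))
    (hk : g.kap 1 2 = 0) (hk' : g.swap.kap 1 2 = 0) : False := by
  obtain ⟨hK, hK'⟩ := kk_of g (by omega) h2 hn1 hn2 hk hk'
  have hS := hK.1
  have hT := hK.2.1
  have ht0 := g.t_ne 1 (by omega)
  have hT0 := g.t_ne 2 (by omega)
  have hu0 := g.s_ne 1 (by omega)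
  have hS0 := g.s_ne 2 (by omega)
  have hSd : 1 - 2 * g.s 2 ≠ 0 := by
    intro h
    apply h2
    rw [hT]
    linear_combination h
  have hTt : g.t 1 - (1 - g.s 2) ≠ 0 := by
    rw [← hT]
    exact sub_ne_zero.2 (g.t_inj 1 2 (by omega) (by omega))
  have huS : g.s 1 - g.s 2 ≠ 0 := sub_ne_zero.2 (g.s_inj 1 2 (by omega) (by omega))
  have hs3 := kk_s3 g hK (by omega)
  have ht3 := kk_s3 g.swap hK' (by omega)
  simp only [GForm.swap_s, GForm.swap_t] at ht3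
  have hl2 := kk_lam2 g hK (by omega)
  have hl2' := kk_lam2 g.swap hK' (by omega)
  simp only [GForm.swap_s, GForm.swap_t, GForm.swap_lam] at hl2'
  obtain ⟨hs4, hF⟩ := kk_col4 g hK hm hD
  have hD' : g.swap.G 1 1 ≠ g.swap.H 1 1 := by
    simp only [GForm.swap_G, GForm.swap_H]
    exact hD
  obtain ⟨ht4, hF'⟩ := kk_col4 g.swap hK' hm hD'
  simp only [GForm.swap_s, GForm.swap_t] at ht4 hF'
  have hm3 := kk_mu3 g hK (by omega)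
  have hm3' := kk_mu3 g.swap hK' (by omega)
  simp only [GForm.swap_s, GForm.swap_t, GForm.swap_mu, GForm.swap_lam] at hm3'
  have hdg := Pool.Agent.Helper14.IP.dg g (k := 2) (by omega)
  simp only [Finset.prod_range_succ, Finset.prod_range_zero, one_mul, g.t0, g.s0] at hdg
  norm_num at hdg
  have hut3 : g.s 1 * g.s 2 + g.t 1 ≠ 0 := by
    intro h
    apply g.t_inj 1 3 (by omega) (by omega)
    rw [ht3, hT]
    linear_combination h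
  have hC : (1 - g.s 2) * (g.s 1 + 1) * (g.t 1 + g.s 2) + (g.t 1 + 1) * (g.s 1 + (1 - g.s 2)) = 0 := by
    rw [hs3, ht3, hT] at hdg
    rw [hT] at hl2'
    refine kk_c33 hS hSd hTt huS hut3 hl2 ?_ hdg
    linear_combination hl2'
  have hut := kk_ut g hK (by omega) hD
  -- the monomial relation
  have d3 := Pool.Agent.Helper14.IP.dg g (k := 3) (by omega)
  have e3 := Pool.Agent.Helper14.IP.dh g (k := 3) (by omega)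
  have nP1 := Pool.Agent.Helper14.IP.prod_t_ne g (k := 4) (l := 4) le_rfl (by omega)
  have nP2 := Pool.Agent.Helper14.IP.prod_s_ne g (k := 3) (l := 3) le_rfl (by omega)
  norm_num at d3 e3
  obtain ⟨X, hX⟩ : ∃ X, X = ∏ i ∈ Finset.range 4, (g.t 4 - g.t i) := ⟨_, rfl⟩
  obtain ⟨Y, hY⟩ : ∃ Y, Y = ∏ i ∈ Finset.range 3, (g.s 3 - g.s i) := ⟨_, rfl⟩
  obtain ⟨X', hX'⟩ : ∃ X', X' = ∏ i ∈ Finset.range 4, (g.s 4 - g.s i) := ⟨_, rfl⟩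
  obtain ⟨Y', hY'⟩ : ∃ Y', Y' = ∏ i ∈ Finset.range 3, (g.t 3 - g.t i) := ⟨_, rfl⟩
  rw [← hX, ← hY, ← hX', ← hY'] at d3 e3
  rw [← hX] at nP1
  rw [← hY] at nP2
  have nl : 1 - g.lam 3 ≠ 0 := sub_ne_zero.2 (g.lam_ne 3 (by omega)).symm
  have t40 := g.t_ne 4 (by omega)
  have s40 := g.s_ne 4 (by omega)
  have t30 := g.t_ne 3 (by omega)
  have s30 := g.s_ne 3 (by omega)
  have q1 : g.s 2 * g.t 1 ^ 2 * g.s 4 ^ 3 * g.t 3 ^ 2 =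
      g.t 2 * g.s 1 ^ 2 * g.t 4 ^ 3 * g.s 3 ^ 2 := by
    apply mul_left_cancel₀ (mul_ne_zero (mul_ne_zero (mul_ne_zero nl nP1) nP2)
      (mul_ne_zero (mul_ne_zero s40 t40) (mul_ne_zero s30 t30)))
    linear_combination g.s 4 * g.t 4 * e3
      - g.t 4 * X * Y * (g.s 4 ^ 4 * (g.s 3 * g.t 3 ^ 3)) * hm3
      + g.s 4 * X' * Y' * (g.t 4 ^ 4 * (g.t 3 * g.s 3 ^ 3)) * hm3'
      - (g.t 2 * g.s 1 ^ 2 * g.s 4 * g.t 4 ^ 4 * g.t 3 * g.s 3 ^ 3) * d3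
  have hS3 : g.s 2 ^ 3 = -1 := by linear_combination (g.s 2 + 1) * hS
  have hT3 : g.t 2 ^ 3 = -1 := by
    rw [hT]
    linear_combination (-(g.s 2 + 1) + 3) * hS
  have q2 : (g.t 1 ^ 3 * g.s 4) ^ 3 = - g.s 1 ^ 3 := by rw [hs4]; ring
  have q3 : (g.s 1 ^ 3 * g.t 4) ^ 3 = - g.t 1 ^ 3 := by rw [ht4]; ring
  have ht3' : g.t 3 = - (g.s 1 * g.s 2) := by rw [ht3, hT]; ring
  have hs3' : g.s 3 = - (g.t 1 * g.t 2) := by rw [hs3, hT]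
  rw [ht3', hs3'] at q1
  have h12 : g.s 1 ^ 12 = g.t 1 ^ 12 := by
    apply mul_left_cancel₀ (mul_ne_zero (pow_ne_zero 2 ht0) (pow_ne_zero 2 hu0))
    linear_combination g.t 1 ^ 9 * g.s 1 ^ 9 * q1
      - (g.s 2 * g.t 1 ^ 2 * g.s 1 ^ 9 * (g.s 1 * g.s 2) ^ 2) * q2
      + (g.t 2 * g.s 1 ^ 2 * g.t 1 ^ 9 * (g.t 1 * g.t 2) ^ 2) * q3
      + g.t 1 ^ 2 * g.s 1 ^ 14 * hS3 - g.s 1 ^ 2 * g.t 1 ^ 14 * hT3
  exact kk_final hS hSd ht0 hut hC hF (by rw [← hT]; exact hF') h12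

end Pool.Agent.Helper36.IP
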