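import Mathlib

/-!
TH-P phase 2: the family W5, the algebra of the elimination (generated).
-/

namespace Pool.Agent.Helper36.IP

variable {F : Type*} [Field F] {w e f X Y F2 : F}

theorem w5_ff2 (hw : w ^ 2 + w + 1 = 0) (he : e ^ 2 = 2 * (1 + 2 * w) * e + 1) (h6 : (6 : F) ≠ 0)
    (hX : f * X = 1) (hXY : (1 + 2 * w) * (X + Y) = e - 1 - 2 * w)
    (h : F2 * ((w * e) * ((-((1 + w) * e)) - 1) * X + ((w * e) - 1) * Y - (w * e)) =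
      ((-((1 + w) * e)) - 1) * ((-((1 + w) * e)) - (w * e)) * (((1 + w) * e) * (w * e) * X + Y)) :
    (f + (-4 * w * e - 2 * e)) * (F2 - (3 + 5 * (1 + 2 * w) * e)) = 0 := by
  have k : (3 * w - e + 1) * ((f + (-4 * w * e - 2 * e)) * (F2 - (3 + 5 * (1 + 2 * w) * e))) = 0 := by
    linear_combination (exp := 1) (2 * f * w + f) * h + (2 * F2 * w ^ 3 * e ^ 2 + 3 * F2 * w ^ 2 * e ^ 2 + 4 * F2 * w ^ 2 *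
      e + F2 * w * e ^ 2 + 2 * F2 * w * e - 2 * F2 * w - F2 + 4 * w ^ 5 * e ^ 4 + 12 * w ^ 4 * e
      ^ 4 + 4 * w ^ 4 * e ^ 3 + 13 * w ^ 3 * e ^ 4 + 8 * w ^ 3 * e ^ 3 - 4 * w ^ 3 * e ^ 2 + 6 *
      w ^ 2 * e ^ 4 + 5 * w ^ 2 * e ^ 3 - 8 * w ^ 2 * e ^ 2 - 4 * w ^ 2 * e + w * e ^ 4 + w * e
      ^ 3 - 5 * w * e ^ 2 - 4 * w * e - e ^ 2 - e) * hX + (-f * F2 * w * e + f * F2 + 2 * f * w
      ^ 2 * e ^ 2 + 3 * f * w * e ^ 2 + 2 * f * w * e + f * e ^ 2 + f * e) * hXY + (16 * f * w ^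
      2 * e + 24 * f * w * e + 4 * f * w + 12 * f * e + 4 * f + 8 * F2 * w ^ 2 * e + 8 * F2 * w
      * e + 2 * F2 * w + 2 * F2 * e + F2 + 256 * w ^ 6 * e + 896 * w ^ 5 * e + 64 * w ^ 5 + 1120
      * w ^ 4 * e + 192 * w ^ 4 + 528 * w ^ 3 * e + 180 * w ^ 3 - 84 * w ^ 2 * e + 32 * w ^ 2 -
      160 * w * e - 43 * w - 39 * e - 17) * hw + (-f * F2 * w + 4 * f * w ^ 3 + 2 * f * w ^ 2 *
      e + 8 * f * w ^ 2 + 3 * f * w * e + 17 * f * w + f * e + 7 * f + 2 * F2 * w ^ 3 + 3 * F2 *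
      w ^ 2 + 5 * F2 * w + 2 * F2 + 64 * w ^ 7 + 16 * w ^ 6 * e + 256 * w ^ 6 + 4 * w ^ 5 * e ^
      2 + 56 * w ^ 5 * e + 436 * w ^ 5 + 12 * w ^ 4 * e ^ 2 + 80 * w ^ 4 * e + 404 * w ^ 4 + 13
      * w ^ 3 * e ^ 2 + 58 * w ^ 3 * e + 169 * w ^ 3 + 6 * w ^ 2 * e ^ 2 - 19 * w ^ 2 * e - 28 *
      w ^ 2 + w * e ^ 2 - 37 * w * e - 60 * w - 10 * e - 17) * he
  have ki : (3 * w - e + 1) * (2 * w * e - 4 * w + 4 * e - 2) = 6 ^ 1 := by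
    linear_combination (exp := 1) (-2 * e - 12) * hw + (-2 * w - 4) * he
  have kn : (3 * w - e + 1) ≠ 0 := by
    intro k0
    rw [k0, zero_mul] at ki
    exact pow_ne_zero 1 h6 ki.symm
  exact (mul_eq_zero.1 k).resolve_left kn

theorem w5_ff2r (hw : w ^ 2 + w + 1 = 0) (he : e ^ 2 = 2 * (1 + 2 * w) * e + 1) (h6 : (6 : F) ≠ 0)
    (hX : f * X = 1) (hXY : (1 + 2 * w) * (X + Y) = e - 1 - 2 * w)
    (h : ((((1 + w) * e) - 1) * F2 + (((1 + w) * e) ^ 3 - 1) * (((-(w * e)) - 1) * ((-(w * e)) - ((1 + w) * e)))) *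
      ((w * e ^ 2) * (e * ((-((1 + w) * e)) - (w * e ^ 2)) * (((1 + w) * e) * (w * e ^ 2) * X) + (e - (w * e ^ 2)) * (((1 + w) * e) ^ 2 * Y) +
        (w * e ^ 2) * e * (1 + (((1 + w) * e) - 1) * X * ((w * e ^ 2) - 1)))) +
      (-(w * e)) ^ 2 * ((1 + w) * e) ^ 3 * (((1 + w) * e) - 1) * (((-((1 + w) * e)) - (w * e ^ 2)) * ((-((1 + w) * e)) - e) * (e * (w * e ^ 2) * X + ((1 + w) * e) ^ 2 * Y)) = 0) :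
    (f + (w * e - w + 2 * e + 1)) * (F2 - (3 + 5 * (1 + 2 * w) * e)) = 0 := by
  have k : (2158 * w * e + 970 * w - 1564 * e + 1079) * ((f + (w * e - w + 2 * e + 1)) * (F2 - (3 + 5 * (1 + 2 * w) * e))) = 0 := by
    linear_combination (exp := 1) (2 * f * w + f) * h + (2 * F2 * w ^ 6 * e ^ 8 - 2 * F2 * w ^ 6 * e ^ 7 + 9 * F2 * w ^ 5 *
      e ^ 8 - 7 * F2 * w ^ 5 * e ^ 7 + 4 * F2 * w ^ 5 * e ^ 6 + 12 * F2 * w ^ 4 * e ^ 8 - 11 *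
      F2 * w ^ 4 * e ^ 7 + 8 * F2 * w ^ 4 * e ^ 6 - 2 * F2 * w ^ 4 * e ^ 5 + 6 * F2 * w ^ 3 * e
      ^ 8 - 6 * F2 * w ^ 3 * e ^ 7 + 7 * F2 * w ^ 3 * e ^ 6 - 3 * F2 * w ^ 3 * e ^ 5 + F2 * w ^
      2 * e ^ 8 - F2 * w ^ 2 * e ^ 7 + 4 * F2 * w ^ 2 * e ^ 6 - 3 * F2 * w ^ 2 * e ^ 5 + F2 * w
      * e ^ 6 - F2 * w * e ^ 5 + 2 * w ^ 11 * e ^ 11 + 2 * w ^ 11 * e ^ 10 + 2 * w ^ 10 * e ^ 12
      + 11 * w ^ 10 * e ^ 11 + 17 * w ^ 10 * e ^ 10 - 2 * w ^ 10 * e ^ 9 + 15 * w ^ 9 * e ^ 12 +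
      33 * w ^ 9 * e ^ 11 + 66 * w ^ 9 * e ^ 10 - 17 * w ^ 9 * e ^ 9 + 43 * w ^ 8 * e ^ 12 + 78
      * w ^ 8 * e ^ 11 + 155 * w ^ 8 * e ^ 10 - 58 * w ^ 8 * e ^ 9 + 64 * w ^ 7 * e ^ 12 + 136 *
      w ^ 7 * e ^ 11 + 245 * w ^ 7 * e ^ 10 - 111 * w ^ 7 * e ^ 9 + 4 * w ^ 7 * e ^ 8 + 55 * w ^
      6 * e ^ 12 + 154 * w ^ 6 * e ^ 11 + 269 * w ^ 6 * e ^ 10 - 131 * w ^ 6 * e ^ 9 + 4 * w ^ 6
      * e ^ 8 + 28 * w ^ 5 * e ^ 12 + 107 * w ^ 5 * e ^ 11 + 201 * w ^ 5 * e ^ 10 - 84 * w ^ 5 *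
      e ^ 9 - 11 * w ^ 5 * e ^ 8 - 4 * w ^ 5 * e ^ 6 + 8 * w ^ 4 * e ^ 12 + 44 * w ^ 4 * e ^ 11
      + 96 * w ^ 4 * e ^ 10 - 18 * w ^ 4 * e ^ 9 - 16 * w ^ 4 * e ^ 8 - 4 * w ^ 4 * e ^ 7 - 8 *
      w ^ 4 * e ^ 6 + w ^ 3 * e ^ 12 + 10 * w ^ 3 * e ^ 11 + 26 * w ^ 3 * e ^ 10 + 9 * w ^ 3 * e
      ^ 9 - 7 * w ^ 3 * e ^ 8 - 4 * w ^ 3 * e ^ 7 - 9 * w ^ 3 * e ^ 6 + w ^ 2 * e ^ 11 + 3 * w ^
      2 * e ^ 10 + 6 * w ^ 2 * e ^ 9 - w ^ 2 * e ^ 8 - w ^ 2 * e ^ 7 - 5 * w ^ 2 * e ^ 6 + w * e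
      ^ 9 - w * e ^ 6) * hX + (f * F2 * w ^ 5 * e ^ 7 + 3 * f * F2 * w ^ 4 * e ^ 7 - 2 * f * F2
      * w ^ 4 * e ^ 6 + 3 * f * F2 * w ^ 3 * e ^ 7 - 5 * f * F2 * w ^ 3 * e ^ 6 + f * F2 * w ^ 3
      * e ^ 5 + f * F2 * w ^ 2 * e ^ 7 - 4 * f * F2 * w ^ 2 * e ^ 6 + 2 * f * F2 * w ^ 2 * e ^ 5
      - f * F2 * w * e ^ 6 + f * F2 * w * e ^ 5 - f * w ^ 10 * e ^ 11 - f * w ^ 10 * e ^ 10 - 6
      * f * w ^ 9 * e ^ 11 - 8 * f * w ^ 9 * e ^ 10 + f * w ^ 9 * e ^ 9 - 16 * f * w ^ 8 * e ^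
      11 - 28 * f * w ^ 8 * e ^ 10 + 8 * f * w ^ 8 * e ^ 9 - 25 * f * w ^ 7 * e ^ 11 - 57 * f *
      w ^ 7 * e ^ 10 + 25 * f * w ^ 7 * e ^ 9 - 25 * f * w ^ 6 * e ^ 11 - 75 * f * w ^ 6 * e ^
      10 + 39 * f * w ^ 6 * e ^ 9 - 2 * f * w ^ 6 * e ^ 8 - 16 * f * w ^ 5 * e ^ 11 - 66 * f * w
      ^ 5 * e ^ 10 + 30 * f * w ^ 5 * e ^ 9 - 5 * f * w ^ 5 * e ^ 8 - 6 * f * w ^ 4 * e ^ 11 -
      38 * f * w ^ 4 * e ^ 10 + 6 * f * w ^ 4 * e ^ 9 - 4 * f * w ^ 4 * e ^ 8 + 2 * f * w ^ 4 *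
      e ^ 6 - f * w ^ 3 * e ^ 11 - 13 * f * w ^ 3 * e ^ 10 - 7 * f * w ^ 3 * e ^ 9 - f * w ^ 3 *
      e ^ 8 + 5 * f * w ^ 3 * e ^ 6 - 2 * f * w ^ 2 * e ^ 10 - 5 * f * w ^ 2 * e ^ 9 + 4 * f * w
      ^ 2 * e ^ 6 - f * w * e ^ 9 + f * w * e ^ 6) * hXY + (8192 * f * F2 * w ^ 10 * e + 45056 *
      f * F2 * w ^ 9 * e + 2048 * f * F2 * w ^ 9 + 99840 * f * F2 * w ^ 8 * e + 10240 * f * F2 *
      w ^ 8 + 109312 * f * F2 * w ^ 7 * e + 19712 * f * F2 * w ^ 7 + 57536 * f * F2 * w ^ 6 * e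
      + 16896 * f * F2 * w ^ 6 + 12960 * f * F2 * w ^ 5 * e + 5000 * f * F2 * w ^ 5 + 2190 * f *
      F2 * w ^ 4 * e + 184 * f * F2 * w ^ 4 - 3813 * f * F2 * w ^ 3 * e + 463 * f * F2 * w ^ 3 -
      2766 * f * F2 * w ^ 2 * e - 1188 * f * F2 * w ^ 2 + 3664 * f * F2 * w * e - 133 * f * F2 *
      w - 1564 * f * F2 * e + 1079 * f * F2 - 2097152 * f * w ^ 19 * e - 22544384 * f * w ^ 18 *
      e - 524288 * f * w ^ 18 - 115212288 * f * w ^ 17 * e - 5373952 * f * w ^ 17 - 372375552 *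
      f * w ^ 16 * e - 26083328 * f * w ^ 16 - 854360064 * f * w ^ 15 * e - 79732736 * f * w ^
      15 - 1479587840 * f * w ^ 14 * e - 172255232 * f * w ^ 14 - 2005342720 * f * w ^ 13 * e -
      279539200 * f * w ^ 13 - 2174119936 * f * w ^ 12 * e - 352997376 * f * w ^ 12 - 1910507232
      * f * w ^ 11 * e - 354066624 * f * w ^ 11 - 1371525944 * f * w ^ 10 * e - 285433384 * f *
      w ^ 10 - 807590670 * f * w ^ 9 * e - 186204498 * f * w ^ 9 - 389856966 * f * w ^ 8 * e -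
      98568858 * f * w ^ 8 - 153454581 * f * w ^ 7 * e - 42185293 * f * w ^ 7 - 48878901 * f * w
      ^ 6 * e - 14456323 * f * w ^ 6 - 12360535 * f * w ^ 5 * e - 3943445 * f * w ^ 5 - 2286777
      * f * w ^ 4 * e - 813120 * f * w ^ 4 - 369580 * f * w ^ 3 * e - 94669 * f * w ^ 3 - 82132
      * f * w ^ 2 * e - 35108 * f * w ^ 2 + 2635 * f * w * e - 3179 * f * w + 14937 * f * e +
      4583 * f + 32768 * F2 * w ^ 11 * e + 221184 * F2 * w ^ 10 * e + 8192 * F2 * w ^ 10 +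
      589824 * F2 * w ^ 9 * e + 51200 * F2 * w ^ 9 + 818688 * F2 * w ^ 8 * e + 121344 * F2 * w ^
      8 + 661504 * F2 * w ^ 7 * e + 141056 * F2 * w ^ 7 + 356160 * F2 * w ^ 6 * e + 88768 * F2 *
      w ^ 6 + 154240 * F2 * w ^ 5 * e + 39048 * F2 * w ^ 5 + 33566 * F2 * w ^ 4 * e + 16586 * F2
      * w ^ 4 - 4605 * F2 * w ^ 3 * e - 923 * F2 * w ^ 3 + 15142 * F2 * w ^ 2 * e - 1173 * F2 *
      w ^ 2 + 5436 * F2 * w * e + 4709 * F2 * w - 5662 * F2 * e - 2049 * F2 + 10485760 * w ^ 19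
      * e + 121110528 * w ^ 18 * e + 2621440 * w ^ 18 + 639238144 * w ^ 17 * e + 28966912 * w ^
      17 + 2070478848 * w ^ 16 * e + 145162240 * w ^ 16 + 4646797312 * w ^ 15 * e + 443310080 *
      w ^ 15 + 7718832128 * w ^ 14 * e + 931846144 * w ^ 14 + 9879684608 * w ^ 13 * e +
      1440280064 * w ^ 13 + 9993879808 * w ^ 12 * e + 1703753472 * w ^ 12 + 8111614816 * w ^ 11
      * e + 1580822336 * w ^ 11 + 5323458104 * w ^ 10 * e + 1166128040 * w ^ 10 + 2831140986 * w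
      ^ 9 * e + 687610858 * w ^ 9 + 1216981901 * w ^ 8 * e + 324080851 * w ^ 8 + 418721121 * w ^
      7 * e + 121369426 * w ^ 7 + 113531228 * w ^ 6 * e + 35444425 * w ^ 6 + 24202546 * w ^ 5 *
      e + 7934278 * w ^ 5 + 3641851 * w ^ 4 * e + 1435485 * w ^ 4 - 209000 * w ^ 3 * e + 74369 *
      w ^ 3 - 188233 * w ^ 2 * e - 110550 * w ^ 2 + 154290 * w * e + 15948 * w + 83851 * e +
      34457) * hw + (2048 * f * F2 * w ^ 11 + 512 * f * F2 * w ^ 10 * e + 12288 * f * F2 * w ^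
      10 + 128 * f * F2 * w ^ 9 * e ^ 2 + 2816 * f * F2 * w ^ 9 * e + 32000 * f * F2 * w ^ 9 +
      32 * f * F2 * w ^ 8 * e ^ 3 + 640 * f * F2 * w ^ 8 * e ^ 2 + 6560 * f * F2 * w ^ 8 * e +
      46848 * f * F2 * w ^ 8 + 8 * f * F2 * w ^ 7 * e ^ 4 + 144 * f * F2 * w ^ 7 * e ^ 3 + 1312
      * f * F2 * w ^ 7 * e ^ 2 + 8272 * f * F2 * w ^ 7 * e + 41608 * f * F2 * w ^ 7 + 2 * f * F2
      * w ^ 6 * e ^ 5 + 32 * f * F2 * w ^ 6 * e ^ 4 + 254 * f * F2 * w ^ 6 * e ^ 3 + 1376 * f *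
      F2 * w ^ 6 * e ^ 2 + 5938 * f * F2 * w ^ 6 * e + 22080 * f * F2 * w ^ 6 + f * F2 * w ^ 5 *
      e ^ 6 + 7 * f * F2 * w ^ 5 * e ^ 5 + 47 * f * F2 * w ^ 5 * e ^ 4 + 209 * f * F2 * w ^ 5 *
      e ^ 3 + 733 * f * F2 * w ^ 5 * e ^ 2 + 2207 * f * F2 * w ^ 5 * e + 5647 * f * F2 * w ^ 5 +
      3 * f * F2 * w ^ 4 * e ^ 6 + 7 * f * F2 * w ^ 4 * e ^ 5 + 27 * f * F2 * w ^ 4 * e ^ 4 + 67
      * f * F2 * w ^ 4 * e ^ 3 + 133 * f * F2 * w ^ 4 * e ^ 2 + 125 * f * F2 * w ^ 4 * e - 541 *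
      f * F2 * w ^ 4 + 3 * f * F2 * w ^ 3 * e ^ 6 + 2 * f * F2 * w ^ 3 * e ^ 4 - 7 * f * F2 * w
      ^ 3 * e ^ 3 - 52 * f * F2 * w ^ 3 * e ^ 2 - 231 * f * F2 * w ^ 3 * e - 858 * f * F2 * w ^
      3 + f * F2 * w ^ 2 * e ^ 6 - 3 * f * F2 * w ^ 2 * e ^ 5 - 2 * f * F2 * w ^ 2 * e ^ 4 - 10
      * f * F2 * w ^ 2 * e ^ 3 - 30 * f * F2 * w ^ 2 * e ^ 2 - 86 * f * F2 * w ^ 2 * e - 242 * f
      * F2 * w ^ 2 - f * F2 * w * e ^ 5 - 2 * f * F2 * w * e ^ 3 - 4 * f * F2 * w * e ^ 2 - 10 *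
      f * F2 * w * e - 24 * f * F2 * w - 524288 * f * w ^ 20 - 131072 * f * w ^ 19 * e - 5898240
      * f * w ^ 19 - 32768 * f * w ^ 18 * e ^ 2 - 1409024 * f * w ^ 18 * e - 31981568 * f * w ^
      18 - 8192 * f * w ^ 17 * e ^ 3 - 335872 * f * w ^ 17 * e ^ 2 - 7282688 * f * w ^ 17 * e -
      111190016 * f * w ^ 17 - 2048 * f * w ^ 16 * e ^ 4 - 79872 * f * w ^ 16 * e ^ 3 - 1650688
      * f * w ^ 16 * e ^ 2 - 24072192 * f * w ^ 16 * e - 278071296 * f * w ^ 16 - 512 * f * w ^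
      15 * e ^ 5 - 18944 * f * w ^ 15 * e ^ 4 - 372224 * f * w ^ 15 * e ^ 3 - 5172736 * f * w ^
      15 * e ^ 2 - 57069056 * f * w ^ 15 * e - 531527168 * f * w ^ 15 - 128 * f * w ^ 14 * e ^ 6
      - 4480 * f * w ^ 14 * e ^ 5 - 83456 * f * w ^ 14 * e ^ 4 - 1102336 * f * w ^ 14 * e ^ 3 -
      11587840 * f * w ^ 14 * e ^ 2 - 103054080 * f * w ^ 14 * e - 804791808 * f * w ^ 14 - 32 *
      f * w ^ 13 * e ^ 7 - 1056 * f * w ^ 13 * e ^ 6 - 18592 * f * w ^ 13 * e ^ 5 - 232736 * f *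
      w ^ 13 * e ^ 4 - 2324928 * f * w ^ 13 * e ^ 3 - 19694016 * f * w ^ 13 * e ^ 2 - 146773952
      * f * w ^ 13 * e - 986603200 * f * w ^ 13 - 8 * f * w ^ 12 * e ^ 8 - 248 * f * w ^ 12 * e
      ^ 7 - 4112 * f * w ^ 12 * e ^ 6 - 48624 * f * w ^ 12 * e ^ 5 - 460216 * f * w ^ 12 * e ^ 4
      - 3702856 * f * w ^ 12 * e ^ 3 - 26265248 * f * w ^ 12 * e ^ 2 - 168340320 * f * w ^ 12 *
      e - 992497384 * f * w ^ 12 - 2 * f * w ^ 11 * e ^ 9 - 58 * f * w ^ 11 * e ^ 8 - 902 * f *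
      w ^ 11 * e ^ 7 - 10038 * f * w ^ 11 * e ^ 6 - 89714 * f * w ^ 11 * e ^ 5 - 683450 * f * w
      ^ 11 * e ^ 4 - 4599830 * f * w ^ 11 * e ^ 3 - 28026742 * f * w ^ 11 * e ^ 2 - 157387874 *
      f * w ^ 11 * e - 825704506 * f * w ^ 11 - f * w ^ 10 * e ^ 10 - 14 * f * w ^ 10 * e ^ 9 -
      196 * f * w ^ 10 * e ^ 8 - 2044 * f * w ^ 10 * e ^ 7 - 17184 * f * w ^ 10 * e ^ 6 - 123496
      * f * w ^ 10 * e ^ 5 - 785804 * f * w ^ 10 * e ^ 4 - 4535908 * f * w ^ 10 * e ^ 3 -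
      24183640 * f * w ^ 10 * e ^ 2 - 120725504 * f * w ^ 10 * e - 570206740 * f * w ^ 10 - 6 *
      f * w ^ 9 * e ^ 10 - 46 * f * w ^ 9 * e ^ 9 - 409 * f * w ^ 9 * e ^ 8 - 3225 * f * w ^ 9 *
      e ^ 7 - 21771 * f * w ^ 9 * e ^ 6 - 130407 * f * w ^ 9 * e ^ 5 - 710201 * f * w ^ 9 * e ^
      4 - 3581505 * f * w ^ 9 * e ^ 3 - 16955579 * f * w ^ 9 * e ^ 2 - 76143023 * f * w ^ 9 * e
      - 326958649 * f * w ^ 9 - 16 * f * w ^ 8 * e ^ 10 - 94 * f * w ^ 8 * e ^ 9 - 586 * f * w ^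
      8 * e ^ 8 - 3728 * f * w ^ 8 * e ^ 7 - 20910 * f * w ^ 8 * e ^ 6 - 106904 * f * w ^ 8 * e
      ^ 5 - 507674 * f * w ^ 8 * e ^ 4 - 2270592 * f * w ^ 8 * e ^ 3 - 9662590 * f * w ^ 8 * e ^
      2 - 39429256 * f * w ^ 8 * e - 155210474 * f * w ^ 8 - 25 * f * w ^ 7 * e ^ 10 - 132 * f *
      w ^ 7 * e ^ 9 - 601 * f * w ^ 7 * e ^ 8 - 3217 * f * w ^ 7 * e ^ 7 - 15339 * f * w ^ 7 * e
      ^ 6 - 68239 * f * w ^ 7 * e ^ 5 - 287085 * f * w ^ 7 * e ^ 4 - 1153433 * f * w ^ 7 * e ^ 3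
      - 4458371 * f * w ^ 7 * e ^ 2 - 16672343 * f * w ^ 7 * e - 60585061 * f * w ^ 7 - 25 * f *
      w ^ 6 * e ^ 10 - 132 * f * w ^ 6 * e ^ 9 - 444 * f * w ^ 6 * e ^ 8 - 2077 * f * w ^ 6 * e
      ^ 7 - 8586 * f * w ^ 6 * e ^ 6 - 33817 * f * w ^ 6 * e ^ 5 - 127756 * f * w ^ 6 * e ^ 4 -
      466105 * f * w ^ 6 * e ^ 3 - 1650542 * f * w ^ 6 * e ^ 2 - 5695501 * f * w ^ 6 * e -
      19212888 * f * w ^ 6 - 16 * f * w ^ 5 * e ^ 10 - 94 * f * w ^ 5 * e ^ 9 - 235 * f * w ^ 5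
      * e ^ 8 - 1000 * f * w ^ 5 * e ^ 7 - 3642 * f * w ^ 5 * e ^ 6 - 12884 * f * w ^ 5 * e ^ 5
      - 44194 * f * w ^ 5 * e ^ 4 - 147644 * f * w ^ 5 * e ^ 3 - 482078 * f * w ^ 5 * e ^ 2 -
      1542836 * f * w ^ 5 * e - 4851234 * f * w ^ 5 - 6 * f * w ^ 4 * e ^ 10 - 46 * f * w ^ 4 *
      e ^ 9 - 91 * f * w ^ 4 * e ^ 8 - 355 * f * w ^ 4 * e ^ 7 - 1151 * f * w ^ 4 * e ^ 6 - 3695
      * f * w ^ 4 * e ^ 5 - 11593 * f * w ^ 4 * e ^ 4 - 35649 * f * w ^ 4 * e ^ 3 - 107759 * f *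
      w ^ 4 * e ^ 2 - 320871 * f * w ^ 4 * e - 942897 * f * w ^ 4 - f * w ^ 3 * e ^ 10 - 14 * f
      * w ^ 3 * e ^ 9 - 28 * f * w ^ 3 * e ^ 8 - 89 * f * w ^ 3 * e ^ 7 - 261 * f * w ^ 3 * e ^
      6 - 761 * f * w ^ 3 * e ^ 5 - 2192 * f * w ^ 3 * e ^ 4 - 6217 * f * w ^ 3 * e ^ 3 - 17426
      * f * w ^ 3 * e ^ 2 - 48349 * f * w ^ 3 * e - 132956 * f * w ^ 3 - 2 * f * w ^ 2 * e ^ 9 -
      7 * f * w ^ 2 * e ^ 8 - 14 * f * w ^ 2 * e ^ 7 - 39 * f * w ^ 2 * e ^ 6 - 100 * f * w ^ 2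
      * e ^ 5 - 268 * f * w ^ 2 * e ^ 4 - 700 * f * w ^ 2 * e ^ 3 - 1820 * f * w ^ 2 * e ^ 2 -
      4708 * f * w ^ 2 * e - 33704 * f * w ^ 2 - f * w * e ^ 8 - f * w * e ^ 7 - 3 * f * w * e ^
      6 - 6 * f * w * e ^ 5 - 16 * f * w * e ^ 4 - 38 * f * w * e ^ 3 - 92 * f * w * e ^ 2 - 222
      * f * w * e + 4314 * f * w + 7820 * f + 8192 * F2 * w ^ 12 + 2048 * F2 * w ^ 11 * e +
      59392 * F2 * w ^ 11 + 512 * F2 * w ^ 10 * e ^ 2 + 13824 * F2 * w ^ 10 * e + 180736 * F2 *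
      w ^ 10 + 128 * F2 * w ^ 9 * e ^ 3 + 3200 * F2 * w ^ 9 * e ^ 2 + 38144 * F2 * w ^ 9 * e +
      313600 * F2 * w ^ 9 + 32 * F2 * w ^ 8 * e ^ 4 + 736 * F2 * w ^ 8 * e ^ 3 + 7904 * F2 * w ^
      8 * e ^ 2 + 58528 * F2 * w ^ 8 * e + 351168 * F2 * w ^ 8 + 8 * F2 * w ^ 7 * e ^ 5 + 168 *
      F2 * w ^ 7 * e ^ 4 + 1600 * F2 * w ^ 7 * e ^ 3 + 10496 * F2 * w ^ 7 * e ^ 2 + 56552 * F2 *
      w ^ 7 * e + 268872 * F2 * w ^ 7 + 2 * F2 * w ^ 6 * e ^ 6 + 38 * F2 * w ^ 6 * e ^ 5 + 314 *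
      F2 * w ^ 6 * e ^ 4 + 1782 * F2 * w ^ 6 * e ^ 3 + 8490 * F2 * w ^ 6 * e ^ 2 + 36318 * F2 *
      w ^ 6 * e + 144402 * F2 * w ^ 6 + 9 * F2 * w ^ 5 * e ^ 6 + 59 * F2 * w ^ 5 * e ^ 5 + 279 *
      F2 * w ^ 5 * e ^ 4 + 1153 * F2 * w ^ 5 * e ^ 3 + 4389 * F2 * w ^ 5 * e ^ 2 + 15819 * F2 *
      w ^ 5 * e + 54711 * F2 * w ^ 5 + 12 * F2 * w ^ 4 * e ^ 6 + 37 * F2 * w ^ 4 * e ^ 5 + 134 *
      F2 * w ^ 4 * e ^ 4 + 451 * F2 * w ^ 4 * e ^ 3 + 1472 * F2 * w ^ 4 * e ^ 2 + 4671 * F2 * w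
      ^ 4 * e + 14490 * F2 * w ^ 4 + 6 * F2 * w ^ 3 * e ^ 6 + 10 * F2 * w ^ 3 * e ^ 5 + 37 * F2
      * w ^ 3 * e ^ 4 + 109 * F2 * w ^ 3 * e ^ 3 + 319 * F2 * w ^ 3 * e ^ 2 + 919 * F2 * w ^ 3 *
      e + 2613 * F2 * w ^ 3 + F2 * w ^ 2 * e ^ 6 + F2 * w ^ 2 * e ^ 5 + 7 * F2 * w ^ 2 * e ^ 4 +
      16 * F2 * w ^ 2 * e ^ 3 + 43 * F2 * w ^ 2 * e ^ 2 + 114 * F2 * w ^ 2 * e + 2457 * F2 * w ^
      2 + F2 * w * e ^ 4 + F2 * w * e ^ 3 + 3 * F2 * w * e ^ 2 + 7 * F2 * w * e + 2769 * F2 * w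
      - 3128 * F2 + 2621440 * w ^ 20 + 655360 * w ^ 19 * e + 31588352 * w ^ 19 + 163840 * w ^ 18
      * e ^ 2 + 7569408 * w ^ 18 * e + 176750592 * w ^ 18 + 40960 * w ^ 17 * e ^ 3 + 1810432 * w
      ^ 17 * e ^ 2 + 40361984 * w ^ 17 * e + 617439232 * w ^ 17 + 10240 * w ^ 16 * e ^ 4 +
      432128 * w ^ 16 * e ^ 3 + 9175040 * w ^ 16 * e ^ 2 + 133726208 * w ^ 16 * e + 1520318464 *
      w ^ 16 + 2560 * w ^ 15 * e ^ 5 + 102912 * w ^ 15 * e ^ 4 + 2075136 * w ^ 15 * e ^ 3 +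
      28736000 * w ^ 15 * e ^ 2 + 310922752 * w ^ 15 * e + 2815436288 * w ^ 15 + 640 * w ^ 14 *
      e ^ 6 + 24448 * w ^ 14 * e ^ 5 + 466688 * w ^ 14 * e ^ 4 + 6120704 * w ^ 14 * e ^ 3 +
      62843904 * w ^ 14 * e ^ 2 + 541213696 * w ^ 14 * e + 4075879680 * w ^ 14 + 160 * w ^ 13 *
      e ^ 7 + 5792 * w ^ 13 * e ^ 6 + 104288 * w ^ 13 * e ^ 5 + 1290720 * w ^ 13 * e ^ 4 +
      12533952 * w ^ 13 * e ^ 3 + 102351296 * w ^ 13 * e ^ 2 + 732652096 * w ^ 13 * e +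
      4724855872 * w ^ 13 + 40 * w ^ 12 * e ^ 8 + 1368 * w ^ 12 * e ^ 7 + 23136 * w ^ 12 * e ^ 6
      + 269088 * w ^ 12 * e ^ 5 + 2462056 * w ^ 12 * e ^ 4 + 18998168 * w ^ 12 * e ^ 3 +
      128853888 * w ^ 12 * e ^ 2 + 789300096 * w ^ 12 * e + 4450703848 * w ^ 12 + 10 * w ^ 11 *
      e ^ 9 + 322 * w ^ 11 * e ^ 8 + 5090 * w ^ 11 * e ^ 7 + 55362 * w ^ 11 * e ^ 6 + 475186 * w
      ^ 11 * e ^ 5 + 3451242 * w ^ 11 * e ^ 4 + 22098874 * w ^ 11 * e ^ 3 + 128148538 * w ^ 11 *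
      e ^ 2 + 685812442 * w ^ 11 * e + 3434561234 * w ^ 11 + 2 * w ^ 10 * e ^ 10 + 75 * w ^ 10 *
      e ^ 9 + 1109 * w ^ 10 * e ^ 8 + 11215 * w ^ 10 * e ^ 7 + 89843 * w ^ 10 * e ^ 6 + 611377 *
      w ^ 10 * e ^ 5 + 3680301 * w ^ 10 * e ^ 4 + 20124887 * w ^ 10 * e ^ 3 + 101854123 * w ^ 10
      * e ^ 2 + 483696953 * w ^ 10 * e + 2177819749 * w ^ 10 + 15 * w ^ 9 * e ^ 10 + 235 * w ^ 9
      * e ^ 9 + 2231 * w ^ 9 * e ^ 8 + 16576 * w ^ 9 * e ^ 7 + 105119 * w ^ 9 * e ^ 6 + 591926 *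
      w ^ 9 * e ^ 5 + 3038227 * w ^ 9 * e ^ 4 + 14481012 * w ^ 9 * e ^ 3 + 64965955 * w ^ 9 * e
      ^ 2 + 277142930 * w ^ 9 * e + 1133061135 * w ^ 9 + 43 * w ^ 8 * e ^ 10 + 420 * w ^ 8 * e ^
      9 + 2974 * w ^ 8 * e ^ 8 + 17434 * w ^ 8 * e ^ 7 + 91278 * w ^ 8 * e ^ 6 + 437314 * w ^ 8
      * e ^ 5 + 1953158 * w ^ 8 * e ^ 4 + 8241426 * w ^ 8 * e ^ 3 + 33182502 * w ^ 8 * e ^ 2 +
      128452330 * w ^ 8 * e + 480894702 * w ^ 8 + 64 * w ^ 7 * e ^ 10 + 484 * w ^ 7 * e ^ 9 +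
      2781 * w ^ 7 * e ^ 8 + 13359 * w ^ 7 * e ^ 7 + 59331 * w ^ 7 * e ^ 6 + 246813 * w ^ 7 * e
      ^ 5 + 974449 * w ^ 7 * e ^ 4 + 3686623 * w ^ 7 * e ^ 3 + 13461475 * w ^ 7 * e ^ 2 +
      47701885 * w ^ 7 * e + 164748129 * w ^ 7 + 55 * w ^ 6 * e ^ 10 + 376 * w ^ 6 * e ^ 9 +
      1856 * w ^ 6 * e ^ 8 + 7457 * w ^ 6 * e ^ 7 + 28698 * w ^ 6 * e ^ 6 + 105373 * w ^ 6 * e ^
      5 + 372728 * w ^ 6 * e ^ 4 + 1278445 * w ^ 6 * e ^ 3 + 4273078 * w ^ 6 * e ^ 2 + 13970721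
      * w ^ 6 * e + 44814188 * w ^ 6 + 28 * w ^ 5 * e ^ 10 + 195 * w ^ 5 * e ^ 9 + 875 * w ^ 5 *
      e ^ 8 + 2981 * w ^ 5 * e ^ 7 + 10130 * w ^ 5 * e ^ 6 + 33321 * w ^ 5 * e ^ 5 + 106904 * w
      ^ 5 * e ^ 4 + 335865 * w ^ 5 * e ^ 3 + 1036530 * w ^ 5 * e ^ 2 + 3149917 * w ^ 5 * e +
      9444132 * w ^ 5 + 8 * w ^ 4 * e ^ 10 + 64 * w ^ 4 * e ^ 9 + 280 * w ^ 4 * e ^ 8 + 826 * w
      ^ 4 * e ^ 7 + 2520 * w ^ 4 * e ^ 6 + 7534 * w ^ 4 * e ^ 5 + 22184 * w ^ 4 * e ^ 4 + 64474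
      * w ^ 4 * e ^ 3 + 185248 * w ^ 4 * e ^ 2 + 526942 * w ^ 4 * e + 1399304 * w ^ 4 + w ^ 3 *
      e ^ 10 + 12 * w ^ 3 * e ^ 9 + 55 * w ^ 3 * e ^ 8 + 151 * w ^ 3 * e ^ 7 + 418 * w ^ 3 * e ^
      6 + 1151 * w ^ 3 * e ^ 5 + 3143 * w ^ 3 * e ^ 4 + 8529 * w ^ 3 * e ^ 3 + 22993 * w ^ 3 * e
      ^ 2 + 40043 * w ^ 3 * e - 20233 * w ^ 3 + w ^ 2 * e ^ 9 + 5 * w ^ 2 * e ^ 8 + 17 * w ^ 2 *
      e ^ 7 + 42 * w ^ 2 * e ^ 6 + 108 * w ^ 2 * e ^ 5 + 273 * w ^ 2 * e ^ 4 + 698 * w ^ 2 * e ^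
      3 + 1777 * w ^ 2 * e ^ 2 - 33798 * w ^ 2 * e - 63055 * w ^ 2 + w * e ^ 7 + 2 * w * e ^ 6 +
      5 * w * e ^ 5 + 11 * w * e ^ 4 + 27 * w * e ^ 3 + 65 * w * e ^ 2 + 17677 * w * e + 50078 *
      w + 15640 * e + 37694) * he
  have ki : (2158 * w * e + 970 * w - 1564 * e + 1079) * (-8632 * w * e - 38408 * w + 6256 * e - 42724) = 6 ^ 2 := by
    linear_combination (exp := 1) (-74511424 * w * e + 54001792 * e - 55883616) * hw + (-18627856 * w ^ 2 + 27000896 * w -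
      9784384) * he
  have kn : (2158 * w * e + 970 * w - 1564 * e + 1079) ≠ 0 := by
    intro k0
    rw [k0, zero_mul] at ki
    exact pow_ne_zero 2 h6 ki.symm
  exact (mul_eq_zero.1 k).resolve_left kn

theorem w5_ff3 (hw : w ^ 2 + w + 1 = 0) (he : e ^ 2 = 2 * (1 + 2 * w) * e + 1) (h6 : (6 : F) ≠ 0)
    (hX : f * X = 1) (hXY : (1 + 2 * w) * (X + Y) = e - 1 - 2 * w)
    (h : F2 * (((-((1 + w) * e)) - 1) * ((-((1 + w) * e)) - (w * e)) *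
      ((-((1 + w) * e)) * X * (e - 1) + ((1 + w) * e) * ((-((1 + w) * e)) - 1) * Y - (((1 + w) * e) + 1) * (-((1 + w) * e)))) =
      (e - 1) * (e - (w * e)) * (e - (-((1 + w) * e))) * (((1 + w) * e) * (((-((1 + w) * e)) - 1) * ((-((1 + w) * e)) * X + Y) - (-((1 + w) * e))))) :
    (f + (w * e - w + 2 * e + 1)) * (F2 - (-(3 + 5 * (1 + 2 * w) * e))) = 0 := by
  have k : (-11 * w * e + 2 * w - 10 * e - 2) * ((f + (w * e - w + 2 * e + 1)) * (F2 - (-(3 + 5 * (1 + 2 * w) * e)))) = 0 := by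
    linear_combination (exp := 1) (2 * f * w + f) * h + (-4 * F2 * w ^ 5 * e ^ 4 - 12 * F2 * w ^ 4 * e ^ 4 - 12 * F2 * w ^ 4
      * e ^ 3 - 13 * F2 * w ^ 3 * e ^ 4 - 32 * F2 * w ^ 3 * e ^ 3 - 8 * F2 * w ^ 3 * e ^ 2 - 6 *
      F2 * w ^ 2 * e ^ 4 - 31 * F2 * w ^ 2 * e ^ 3 - 16 * F2 * w ^ 2 * e ^ 2 - F2 * w * e ^ 4 -
      13 * F2 * w * e ^ 3 - 10 * F2 * w * e ^ 2 - 2 * F2 * e ^ 3 - 2 * F2 * e ^ 2 - 2 * w ^ 6 *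
      e ^ 6 + 2 * w ^ 6 * e ^ 5 - 9 * w ^ 5 * e ^ 6 + 5 * w ^ 5 * e ^ 5 + 4 * w ^ 5 * e ^ 4 - 12
      * w ^ 4 * e ^ 6 - 2 * w ^ 4 * e ^ 5 + 12 * w ^ 4 * e ^ 4 + 2 * w ^ 4 * e ^ 3 - 10 * w ^ 3
      * e ^ 5 + 5 * w ^ 3 * e ^ 4 + 5 * w ^ 3 * e ^ 3 + 12 * w ^ 2 * e ^ 6 - 2 * w ^ 2 * e ^ 5 -
      10 * w ^ 2 * e ^ 4 + 9 * w * e ^ 6 + 5 * w * e ^ 5 - 9 * w * e ^ 4 - 5 * w * e ^ 3 + 2 * e
      ^ 6 + 2 * e ^ 5 - 2 * e ^ 4 - 2 * e ^ 3) * hX + (2 * f * F2 * w ^ 4 * e ^ 4 + 7 * f * F2 *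
      w ^ 3 * e ^ 4 + 4 * f * F2 * w ^ 3 * e ^ 3 + 9 * f * F2 * w ^ 2 * e ^ 4 + 10 * f * F2 * w
      ^ 2 * e ^ 3 + 2 * f * F2 * w ^ 2 * e ^ 2 + 5 * f * F2 * w * e ^ 4 + 8 * f * F2 * w * e ^ 3
      + 3 * f * F2 * w * e ^ 2 + f * F2 * e ^ 4 + 2 * f * F2 * e ^ 3 + f * F2 * e ^ 2 + f * w ^
      4 * e ^ 5 - f * w ^ 4 * e ^ 4 + 3 * f * w ^ 3 * e ^ 5 - 2 * f * w ^ 3 * e ^ 4 - f * w ^ 3
      * e ^ 3 + f * w ^ 2 * e ^ 5 + f * w ^ 2 * e ^ 4 - 2 * f * w ^ 2 * e ^ 3 - 3 * f * w * e ^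
      5 + 2 * f * w * e ^ 4 + f * w * e ^ 3 - 2 * f * e ^ 5 + 2 * f * e ^ 3) * hXY + (32 * f *
      F2 * w ^ 4 * e + 112 * f * F2 * w ^ 3 * e + 8 * f * F2 * w ^ 3 + 138 * f * F2 * w ^ 2 * e
      + 24 * f * F2 * w ^ 2 + 57 * f * F2 * w * e + 22 * f * F2 * w + 2 * f * F2 + 192 * f * w ^
      5 * e + 560 * f * w ^ 4 * e + 48 * f * w ^ 4 + 88 * f * w ^ 3 * e + 116 * f * w ^ 3 - 695
      * f * w ^ 2 * e - 39 * f * w ^ 2 - 622 * f * w * e - 160 * f * w - 174 * f * e - 70 * f -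
      256 * F2 * w ^ 6 * e - 896 * F2 * w ^ 5 * e - 64 * F2 * w ^ 5 - 1248 * F2 * w ^ 4 * e -
      192 * F2 * w ^ 4 - 912 * F2 * w ^ 3 * e - 212 * F2 * w ^ 3 - 452 * F2 * w ^ 2 * e - 112 *
      F2 * w ^ 2 - 212 * F2 * w * e - 49 * F2 * w - 68 * F2 * e - 28 * F2 - 2048 * w ^ 9 * e -
      11776 * w ^ 8 * e - 512 * w ^ 8 - 24832 * w ^ 7 * e - 2688 * w ^ 7 - 19616 * w ^ 6 * e -
      4832 * w ^ 6 + 7000 * w ^ 5 * e - 2336 * w ^ 5 + 23898 * w ^ 4 * e + 3142 * w ^ 4 + 15705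
      * w ^ 3 * e + 4429 * w ^ 3 + 2117 * w ^ 2 * e + 1493 * w ^ 2 - 1833 * w * e - 381 * w -
      648 * e - 268) * hw + (8 * f * F2 * w ^ 5 + 2 * f * F2 * w ^ 4 * e ^ 3 + 2 * f * F2 * w ^
      4 * e + 32 * f * F2 * w ^ 4 + 7 * f * F2 * w ^ 3 * e ^ 3 + 4 * f * F2 * w ^ 3 * e ^ 2 + 7
      * f * F2 * w ^ 3 * e + 54 * f * F2 * w ^ 3 + 9 * f * F2 * w ^ 2 * e ^ 3 + 10 * f * F2 * w
      ^ 2 * e ^ 2 + 11 * f * F2 * w ^ 2 * e + 48 * f * F2 * w ^ 2 + 5 * f * F2 * w * e ^ 3 + 8 *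
      f * F2 * w * e ^ 2 + 8 * f * F2 * w * e + 22 * f * F2 * w + f * F2 * e ^ 3 + 2 * f * F2 *
      e ^ 2 + 2 * f * F2 * e + 4 * f * F2 + 48 * f * w ^ 6 + 12 * f * w ^ 5 * e + 164 * f * w ^
      5 + f * w ^ 4 * e ^ 4 - f * w ^ 4 * e ^ 3 + 3 * f * w ^ 4 * e ^ 2 + 35 * f * w ^ 4 * e +
      125 * f * w ^ 4 + 3 * f * w ^ 3 * e ^ 4 - 2 * f * w ^ 3 * e ^ 3 + 7 * f * w ^ 3 * e ^ 2 +
      13 * f * w ^ 3 * e - 83 * f * w ^ 3 + f * w ^ 2 * e ^ 4 + f * w ^ 2 * e ^ 3 - f * w ^ 2 *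
      e ^ 2 - 29 * f * w ^ 2 * e - 269 * f * w ^ 2 - 3 * f * w * e ^ 4 + 2 * f * w * e ^ 3 - 7 *
      f * w * e ^ 2 - 25 * f * w * e - 236 * f * w - 2 * f * e ^ 4 - 2 * f * e ^ 2 - 6 * f * e -
      64 * f - 64 * F2 * w ^ 7 - 16 * F2 * w ^ 6 * e - 256 * F2 * w ^ 6 - 4 * F2 * w ^ 5 * e ^ 2
      - 56 * F2 * w ^ 5 * e - 468 * F2 * w ^ 5 - 12 * F2 * w ^ 4 * e ^ 2 - 88 * F2 * w ^ 4 * e -
      516 * F2 * w ^ 4 - 13 * F2 * w ^ 3 * e ^ 2 - 82 * F2 * w ^ 3 * e - 373 * F2 * w ^ 3 - 6 *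
      F2 * w ^ 2 * e ^ 2 - 47 * F2 * w ^ 2 * e - 187 * F2 * w ^ 2 - F2 * w * e ^ 2 - 15 * F2 * w
      * e - 81 * F2 * w - 2 * F2 * e - 26 * F2 - 512 * w ^ 10 - 128 * w ^ 9 * e - 3200 * w ^ 9 -
      32 * w ^ 8 * e ^ 2 - 736 * w ^ 8 * e - 8032 * w ^ 8 - 8 * w ^ 7 * e ^ 3 - 168 * w ^ 7 * e
      ^ 2 - 1632 * w ^ 7 * e - 9856 * w ^ 7 - 2 * w ^ 6 * e ^ 4 - 38 * w ^ 6 * e ^ 3 - 322 * w ^
      6 * e ^ 2 - 1606 * w ^ 6 * e - 4026 * w ^ 6 - 9 * w ^ 5 * e ^ 4 - 61 * w ^ 5 * e ^ 3 - 231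
      * w ^ 5 * e ^ 2 - 123 * w ^ 5 * e + 5235 * w ^ 5 - 12 * w ^ 4 * e ^ 4 - 26 * w ^ 4 * e ^ 3
      + 100 * w ^ 4 * e ^ 2 + 1428 * w ^ 4 * e + 9064 * w ^ 4 + 38 * w ^ 3 * e ^ 3 + 313 * w ^ 3
      * e ^ 2 + 1527 * w ^ 3 * e + 5541 * w ^ 3 + 12 * w ^ 2 * e ^ 4 + 58 * w ^ 2 * e ^ 3 + 242
      * w ^ 2 * e ^ 2 + 511 * w ^ 2 * e + 850 * w ^ 2 + 9 * w * e ^ 4 + 31 * w * e ^ 3 + 86 * w
      * e ^ 2 - 114 * w * e - 661 * w + 2 * e ^ 4 + 6 * e ^ 3 + 12 * e ^ 2 - 72 * e - 262) * he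
  have ki : (-11 * w * e + 2 * w - 10 * e - 2) * (4 * w * e - 152 * w + 44 * e - 64) = 6 ^ 2 := by
    linear_combination (exp := 1) (-176 * w * e - 328 * e - 348) * hw + (-44 * w ^ 2 - 524 * w - 440) * he
  have kn : (-11 * w * e + 2 * w - 10 * e - 2) ≠ 0 := by
    intro k0
    rw [k0, zero_mul] at ki
    exact pow_ne_zero 2 h6 ki.symm
  exact (mul_eq_zero.1 k).resolve_left kn

theorem w5_ff3s (hw : w ^ 2 + w + 1 = 0) (he : e ^ 2 = 2 * (1 + 2 * w) * e + 1) (h6 : (6 : F) ≠ 0)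
    (hX : f * X = 1) (hXY : (1 + 2 * w) * (X + Y) = e - 1 - 2 * w)
    (h : F2 * (((-(w * e)) - 1) * ((-(w * e)) - ((1 + w) * e)) *
      ((-(w * e)) * X * ((-e) - 1) + (w * e) * ((-(w * e)) - 1) * Y - ((w * e) + 1) * (-(w * e)))) =
      ((-e) - 1) * ((-e) - ((1 + w) * e)) * ((-e) - (-(w * e))) * ((w * e) * (((-(w * e)) - 1) * ((-(w * e)) * X + Y) - (-(w * e))))) :
    (f + (w * e + w - e + 2)) * (F2 - (-(3 + 5 * (1 + 2 * w) * e))) = 0 := by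
  have k : (11 * w * e + 2 * w + e + 4) * ((f + (w * e + w - e + 2)) * (F2 - (-(3 + 5 * (1 + 2 * w) * e)))) = 0 := by
    linear_combination (exp := 1) (2 * f * w + f) * h + (-4 * F2 * w ^ 5 * e ^ 4 - 8 * F2 * w ^ 4 * e ^ 4 - 12 * F2 * w ^ 4
      * e ^ 3 - 5 * F2 * w ^ 3 * e ^ 4 - 16 * F2 * w ^ 3 * e ^ 3 - 8 * F2 * w ^ 3 * e ^ 2 - F2 *
      w ^ 2 * e ^ 4 - 7 * F2 * w ^ 2 * e ^ 3 - 8 * F2 * w ^ 2 * e ^ 2 - F2 * w * e ^ 3 - 2 * F2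
      * w * e ^ 2 + 2 * w ^ 6 * e ^ 6 + 2 * w ^ 6 * e ^ 5 + 3 * w ^ 5 * e ^ 6 + 7 * w ^ 5 * e ^
      5 + 4 * w ^ 5 * e ^ 4 - 3 * w ^ 4 * e ^ 6 + 3 * w ^ 4 * e ^ 5 + 8 * w ^ 4 * e ^ 4 + 2 * w
      ^ 4 * e ^ 3 - 2 * w ^ 3 * e ^ 6 - 8 * w ^ 3 * e ^ 5 - 3 * w ^ 3 * e ^ 4 + 3 * w ^ 3 * e ^
      3 - 4 * w ^ 2 * e ^ 5 - 7 * w ^ 2 * e ^ 4 - 3 * w ^ 2 * e ^ 3 - 2 * w * e ^ 4 - 2 * w * e
      ^ 3) * hX + (2 * f * F2 * w ^ 4 * e ^ 4 + f * F2 * w ^ 3 * e ^ 4 + 4 * f * F2 * w ^ 3 * e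
      ^ 3 + 2 * f * F2 * w ^ 2 * e ^ 3 + 2 * f * F2 * w ^ 2 * e ^ 2 + f * F2 * w * e ^ 2 - f * w
      ^ 4 * e ^ 5 - f * w ^ 4 * e ^ 4 - f * w ^ 3 * e ^ 5 - 2 * f * w ^ 3 * e ^ 4 - f * w ^ 3 *
      e ^ 3 + 2 * f * w ^ 2 * e ^ 5 + f * w ^ 2 * e ^ 4 - f * w ^ 2 * e ^ 3 + 2 * f * w * e ^ 4
      + 2 * f * w * e ^ 3) * hXY + (32 * f * F2 * w ^ 4 * e + 16 * f * F2 * w ^ 3 * e + 8 * f *
      F2 * w ^ 3 - 6 * f * F2 * w ^ 2 * e + 11 * f * F2 * w * e - 2 * f * F2 * w + f * F2 * e +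
      4 * f * F2 - 192 * f * w ^ 5 * e - 400 * f * w ^ 4 * e - 48 * f * w ^ 4 + 232 * f * w ^ 3
      * e - 76 * f * w ^ 3 + 481 * f * w ^ 2 * e + 99 * f * w ^ 2 + 248 * f * w * e + 74 * f * w
      + 33 * f * e + 17 * f - 256 * F2 * w ^ 6 * e - 640 * F2 * w ^ 5 * e - 64 * F2 * w ^ 5 -
      608 * F2 * w ^ 4 * e - 128 * F2 * w ^ 4 - 240 * F2 * w ^ 3 * e - 84 * F2 * w ^ 3 - 84 * F2
      * w ^ 2 * e - 12 * F2 * w ^ 2 - 4 * F2 * w * e - 13 * F2 * w - 4 * F2 * e + 7 * F2 + 2048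
      * w ^ 9 * e + 6656 * w ^ 8 * e + 512 * w ^ 8 + 4352 * w ^ 7 * e + 1408 * w ^ 7 - 3488 * w
      ^ 6 * e + 352 * w ^ 6 - 4632 * w ^ 5 * e - 1120 * w ^ 5 - 2494 * w ^ 4 * e - 582 * w ^ 4 -
      737 * w ^ 3 * e - 267 * w ^ 3 - 378 * w ^ 2 * e - 50 * w ^ 2 - 104 * w * e - 56 * w - 17 *
      e + 1) * hw + (8 * f * F2 * w ^ 5 + 2 * f * F2 * w ^ 4 * e ^ 3 + 2 * f * F2 * w ^ 4 * e +
      8 * f * F2 * w ^ 4 + f * F2 * w ^ 3 * e ^ 3 + 4 * f * F2 * w ^ 3 * e ^ 2 + f * F2 * w ^ 3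
      * e + 6 * f * F2 * w ^ 3 + 2 * f * F2 * w ^ 2 * e ^ 2 + 2 * f * F2 * w ^ 2 * e + 2 * f *
      F2 * w ^ 2 + f * F2 * w * e - 48 * f * w ^ 6 - 12 * f * w ^ 5 * e - 124 * f * w ^ 5 - f *
      w ^ 4 * e ^ 4 - f * w ^ 4 * e ^ 3 - 3 * f * w ^ 4 * e ^ 2 - 25 * f * w ^ 4 * e - 25 * f *
      w ^ 4 - f * w ^ 3 * e ^ 4 - 2 * f * w ^ 3 * e ^ 3 - 5 * f * w ^ 3 * e ^ 2 + 7 * f * w ^ 3
      * e + 97 * f * w ^ 3 + 2 * f * w ^ 2 * e ^ 4 + f * w ^ 2 * e ^ 3 + 4 * f * w ^ 2 * e ^ 2 +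
      22 * f * w ^ 2 * e + 190 * f * w ^ 2 + 2 * f * w * e ^ 3 + 4 * f * w * e ^ 2 + 8 * f * w *
      e + 85 * f * w + 5 * f - 64 * F2 * w ^ 7 - 16 * F2 * w ^ 6 * e - 192 * F2 * w ^ 6 - 4 * F2
      * w ^ 5 * e ^ 2 - 40 * F2 * w ^ 5 * e - 276 * F2 * w ^ 5 - 8 * F2 * w ^ 4 * e ^ 2 - 48 *
      F2 * w ^ 4 * e - 224 * F2 * w ^ 4 - 5 * F2 * w ^ 3 * e ^ 2 - 30 * F2 * w ^ 3 * e - 109 *
      F2 * w ^ 3 - F2 * w ^ 2 * e ^ 2 - 9 * F2 * w ^ 2 * e - 20 * F2 * w ^ 2 - F2 * w * e - 14 *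
      F2 * w - F2 + 512 * w ^ 10 + 128 * w ^ 9 * e + 1920 * w ^ 9 + 32 * w ^ 8 * e ^ 2 + 416 * w
      ^ 8 * e + 2272 * w ^ 8 + 8 * w ^ 7 * e ^ 3 + 88 * w ^ 7 * e ^ 2 + 352 * w ^ 7 * e + 640 *
      w ^ 7 + 2 * w ^ 6 * e ^ 4 + 18 * w ^ 6 * e ^ 3 + 42 * w ^ 6 * e ^ 2 - 38 * w ^ 6 * e -
      1350 * w ^ 6 + 3 * w ^ 5 * e ^ 4 + w ^ 5 * e ^ 3 - 35 * w ^ 5 * e ^ 2 - 329 * w ^ 5 * e -
      1969 * w ^ 5 - 3 * w ^ 4 * e ^ 4 - 11 * w ^ 4 * e ^ 3 - 65 * w ^ 4 * e ^ 2 - 319 * w ^ 4 *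
      e - 899 * w ^ 4 - 2 * w ^ 3 * e ^ 4 - 12 * w ^ 3 * e ^ 3 - 45 * w ^ 3 * e ^ 2 - 49 * w ^ 3
      * e - 373 * w ^ 3 - 4 * w ^ 2 * e ^ 3 - 15 * w ^ 2 * e ^ 2 - 90 * w ^ 2 * e - 111 * w ^ 2
      - 2 * w * e ^ 2 - 66 * w * e - 79 * w - 5 * e - 23) * he
  have ki : (11 * w * e + 2 * w + e + 4) * (-4 * w * e - 152 * w + 40 * e - 88) = 6 ^ 2 := by
    linear_combination (exp := 1) (-176 * w * e + 152 * e - 348) * hw + (-44 * w ^ 2 + 436 * w + 40) * he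
  have kn : (11 * w * e + 2 * w + e + 4) ≠ 0 := by
    intro k0
    rw [k0, zero_mul] at ki
    exact pow_ne_zero 2 h6 ki.symm
  exact (mul_eq_zero.1 k).resolve_left kn

theorem w5_d2 (hw : w ^ 2 + w + 1 = 0) (he : e ^ 2 = 2 * (1 + 2 * w) * e + 1) (h6 : (6 : F) ≠ 0) :
    (-5 * w * e + w - 4 * e - 1) ≠ 0 := by
  have ki : (-5 * w * e + w - 4 * e - 1) * (-2 * w * e - 18 * w + 4 * e - 14) = 6 ^ 1 := by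
    linear_combination (exp := 1) (40 * w * e + 20 * e - 8) * hw + (10 * w ^ 2 - 12 * w - 16) * he
  intro k0
  rw [k0, zero_mul] at ki
  exact pow_ne_zero 1 h6 ki.symm

theorem w5_d3 (hw : w ^ 2 + w + 1 = 0) (he : e ^ 2 = 2 * (1 + 2 * w) * e + 1) (h6 : (6 : F) ≠ 0) :
    (-2 * w + 3 * e - 1) ≠ 0 := by
  have ki : (-2 * w + 3 * e - 1) * (10 * w - 3 * e + 5) = 6 ^ 1 := by
    linear_combination (exp := 1) (-20) * hw + (-9) * he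
  intro k0
  rw [k0, zero_mul] at ki
  exact pow_ne_zero 1 h6 ki.symm

theorem w5_n4 (hw : w ^ 2 + w + 1 = 0) (he : e ^ 2 = 2 * (1 + 2 * w) * e + 1) (h3 : (3 : F) ≠ 0)
    (hX : f * X = 1) (hXY : (1 + 2 * w) * (X + Y) = e - 1 - 2 * w)
    (h : (w * e) - ((w * e) - 1) * ((w * e) * X + Y) ≠ 0) : f + (w * e + 5 * w - 13 * e + 4) ≠ 0 := by
  intro h0
  have k : (1 + 2 * w) * f * ((w * e) - ((w * e) - 1) * ((w * e) * X + Y)) = 0 := by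
    linear_combination (exp := 1) (-3 * w + e - 1) * h0 + (-2 * w ^ 3 * e ^ 2 - w ^ 2 * e ^ 2 + 4 * w ^ 2 * e + 2 * w * e - 2 * w - 1) * hX + (-f *
      w * e + f) * hXY + (-8 * w ^ 2 * e - 2 * w + 9 * e + 16) * hw + (-f * w - 2 * w ^ 3 - w ^
      2 - w + 13) * he
  have r0 : (1 + 2 * w) ≠ 0 := by
    intro r
    apply h3
    linear_combination 4 * hw - (1 + 2 * w) * r
  have f0 : f ≠ 0 := by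
    rintro rfl
    rw [zero_mul] at hX
    exact zero_ne_one hX
  exact mul_ne_zero (mul_ne_zero r0 f0) h k

theorem w5_n5 (hw : w ^ 2 + w + 1 = 0) (he : e ^ 2 = 2 * (1 + 2 * w) * e + 1) (h3 : (3 : F) ≠ 0)
    (hX : f * X = 1) (hXY : (1 + 2 * w) * (X + Y) = e - 1 - 2 * w)
    (h : ((1 + w) * e) - (((1 + w) * e) - 1) * (((1 + w) * e) * X + Y) ≠ 0) : f + (w * e - 5 * w + 14 * e - 1) ≠ 0 := by
  intro h0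
  have k : (1 + 2 * w) * f * (((1 + w) * e) - (((1 + w) * e) - 1) * (((1 + w) * e) * X + Y)) = 0 := by
    linear_combination (exp := 1) (-3 * w + e - 2) * h0 + (-2 * w ^ 3 * e ^ 2 - 5 * w ^ 2 * e ^ 2 + 4 * w ^ 2 * e - 4 * w * e ^ 2 + 6 * w * e - 2 *
      w - e ^ 2 + 2 * e - 1) * hX + (-f * w * e - f * e + f) * hXY + (-8 * w ^ 2 * e - 16 * w *
      e - 2 * w + e - 18) * hw + (-f * w - f - 2 * w ^ 3 - 5 * w ^ 2 - 5 * w - 15) * he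
  have r0 : (1 + 2 * w) ≠ 0 := by
    intro r
    apply h3
    linear_combination 4 * hw - (1 + 2 * w) * r
  have f0 : f ≠ 0 := by
    rintro rfl
    rw [zero_mul] at hX
    exact zero_ne_one hX
  exact mul_ne_zero (mul_ne_zero r0 f0) h k

theorem w5_n3 (hw : w ^ 2 + w + 1 = 0) (he : e ^ 2 = 2 * (1 + 2 * w) * e + 1) (h6 : (6 : F) ≠ 0)
    (hX : f * X = 1) (hXY : (1 + 2 * w) * (X + Y) = e - 1 - 2 * w)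
    (h : Y ≠ 0) : 2 * f + (3 + (1 + 2 * w) * e) ≠ 0 := by
  intro h0
  have k : (1 + 2 * w) * f * (2 * Y) = 0 := by
    linear_combination (exp := 1) (e - 1 - 2 * w) * h0 + (-4 * w - 2) * hX + (2 * f) * hXY + (-4 * e) * hw + (-2 * w - 1) * he
  have r0 : (1 + 2 * w) ≠ 0 := by
    intro r
    apply h6
    linear_combination 8 * hw - (2 * (1 + 2 * w)) * r
  have f0 : f ≠ 0 := by
    rintro rfl
    rw [zero_mul] at hX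
    exact zero_ne_one hX
  have h2 : (2 : F) ≠ 0 := by
    intro r
    apply h6
    linear_combination 3 * r
  exact mul_ne_zero (mul_ne_zero r0 f0) (mul_ne_zero h2 h) k

end Pool.Agent.Helper36.IP
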