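import Mathlib

/-!
TH-P phase 2: the family W5, the algebra of the elimination, last split number (generated).
-/

namespace Pool.Agent.Helper36.IP

variable {F : Type*} [Field F] {w e f X Y F2 : F}

theorem w5_ff4 (hw : w ^ 2 + w + 1 = 0) (he : e ^ 2 = 2 * (1 + 2 * w) * e + 1) (h6 : (6 : F) ≠ 0)
    (hX : f * X = 1) (hXY : (1 + 2 * w) * (X + Y) = e - 1 - 2 * w)
    (h : (((w * e ^ 2) - 1) * ((w * e ^ 2) - (w * e)) * ((w * e ^ 2) - (-((1 + w) * e))) * ((w * e ^ 2) - e)) *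
      (((e - 1) * (e * X + ((1 + w) * e) * Y) - (((1 + w) * e) + 1) * e) * (w * e ^ 2)) =
      F2 * (((e - 1) * (e - (w * e)) * (e - (-((1 + w) * e)))) * (((1 + w) * e) * Y * (e - (w * e ^ 2))))) :
    F2 * (2 * f + (3 + (1 + 2 * w) * e)) = (27 + 49 * (1 + 2 * w) * e) *
      (f + (3 + (1 + 2 * w) * e)) := by
  have k : (207 * w * e - 354 * w + 1068 * e - 120) * (F2 * (2 * f + (3 + (1 + 2 * w) * e)) - (27 + 49 * (1 + 2 * w) * e) *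
      (f + (3 + (1 + 2 * w) * e))) = 0 := by
    linear_combination (exp := 1) (2 * f * w + f) * h + (-2 * F2 * w ^ 5 * e ^ 6 + 2 * F2 * w ^ 5 * e ^ 5 - 5 * F2 * w ^ 4 *
      e ^ 6 + 7 * F2 * w ^ 4 * e ^ 5 - 2 * F2 * w ^ 4 * e ^ 4 + 5 * F2 * w ^ 3 * e ^ 5 - 5 * F2
      * w ^ 3 * e ^ 4 + 5 * F2 * w ^ 2 * e ^ 6 - 5 * F2 * w ^ 2 * e ^ 5 + 2 * F2 * w * e ^ 6 - 7
      * F2 * w * e ^ 5 + 5 * F2 * w * e ^ 4 - 2 * F2 * e ^ 5 + 2 * F2 * e ^ 4 + 2 * w ^ 7 * e ^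
      12 - 2 * w ^ 7 * e ^ 11 - 2 * w ^ 7 * e ^ 10 + 2 * w ^ 7 * e ^ 9 + w ^ 6 * e ^ 12 - w ^ 6
      * e ^ 11 - 5 * w ^ 6 * e ^ 10 + 7 * w ^ 6 * e ^ 9 - 2 * w ^ 6 * e ^ 7 - 4 * w ^ 5 * e ^ 10
      + 7 * w ^ 5 * e ^ 9 - 5 * w ^ 5 * e ^ 7 + 2 * w ^ 5 * e ^ 6 - w ^ 4 * e ^ 10 + 2 * w ^ 4 *
      e ^ 9 + 2 * w ^ 4 * e ^ 8 - 6 * w ^ 4 * e ^ 7 + 3 * w ^ 4 * e ^ 6 + w ^ 3 * e ^ 8 - 2 * w
      ^ 3 * e ^ 7 + w ^ 3 * e ^ 6) * hX + (f * F2 * w ^ 4 * e ^ 6 - f * F2 * w ^ 4 * e ^ 5 + 2 *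
      f * F2 * w ^ 3 * e ^ 6 - 3 * f * F2 * w ^ 3 * e ^ 5 + f * F2 * w ^ 3 * e ^ 4 - f * F2 * w
      ^ 2 * e ^ 6 - f * F2 * w ^ 2 * e ^ 5 + 2 * f * F2 * w ^ 2 * e ^ 4 - 2 * f * F2 * w * e ^ 6
      + 3 * f * F2 * w * e ^ 5 - f * F2 * w * e ^ 4 + 2 * f * F2 * e ^ 5 - 2 * f * F2 * e ^ 4 -
      f * w ^ 6 * e ^ 12 + f * w ^ 6 * e ^ 11 + f * w ^ 6 * e ^ 10 - f * w ^ 6 * e ^ 9 - f * w ^
      5 * e ^ 12 + f * w ^ 5 * e ^ 11 + 3 * f * w ^ 5 * e ^ 10 - 4 * f * w ^ 5 * e ^ 9 + f * w ^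
      5 * e ^ 7 + 3 * f * w ^ 4 * e ^ 10 - 5 * f * w ^ 4 * e ^ 9 + 3 * f * w ^ 4 * e ^ 7 - f * w
      ^ 4 * e ^ 6 + f * w ^ 3 * e ^ 10 - 2 * f * w ^ 3 * e ^ 9 - f * w ^ 3 * e ^ 8 + 4 * f * w ^
      3 * e ^ 7 - 2 * f * w ^ 3 * e ^ 6 - f * w ^ 2 * e ^ 8 + 2 * f * w ^ 2 * e ^ 7 - f * w ^ 2
      * e ^ 6) * hXY + (2048 * f * F2 * w ^ 8 * e + 7680 * f * F2 * w ^ 7 * e + 512 * f * F2 * w
      ^ 7 + 6144 * f * F2 * w ^ 6 * e + 1664 * f * F2 * w ^ 6 - 6176 * f * F2 * w ^ 5 * e + 672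
      * f * F2 * w ^ 5 - 8680 * f * F2 * w ^ 4 * e - 1968 * f * F2 * w ^ 4 - 466 * f * F2 * w ^
      3 * e - 1182 * f * F2 * w ^ 3 - 410 * f * F2 * w ^ 2 * e + 600 * f * F2 * w ^ 2 - 1474 * f
      * F2 * w * e - 394 * f * F2 * w + 2184 * f * F2 * e - 220 * f * F2 + 2097152 * f * w ^ 15
      * e + 12582912 * f * w ^ 14 * e + 524288 * f * w ^ 14 + 32243712 * f * w ^ 13 * e +
      2883584 * f * w ^ 13 + 46530560 * f * w ^ 12 * e + 6586368 * f * w ^ 12 + 41869312 * f * w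
      ^ 11 * e + 8175616 * f * w ^ 11 + 24723456 * f * w ^ 10 * e + 6051840 * f * w ^ 10 +
      9436160 * f * w ^ 9 * e + 2817024 * f * w ^ 9 + 1366016 * f * w ^ 8 * e + 756992 * f * w ^
      8 - 632544 * f * w ^ 7 * e - 103552 * f * w ^ 7 - 38976 * f * w ^ 6 * e - 115384 * f * w ^
      6 - 116548 * f * w ^ 5 * e + 60180 * f * w ^ 5 - 210660 * f * w ^ 4 * e - 58270 * f * w ^
      4 + 257293 * f * w ^ 3 * e - 28495 * f * w ^ 3 - 49543 * f * w ^ 2 * e + 85021 * f * w ^ 2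
      - 287805 * f * w * e - 56157 * f * w - 127620 * f * e - 49092 * f - 2048 * F2 * w ^ 8 * e
      - 7680 * F2 * w ^ 7 * e - 512 * F2 * w ^ 7 - 5888 * F2 * w ^ 6 * e - 1664 * F2 * w ^ 6 +
      6880 * F2 * w ^ 5 * e - 608 * F2 * w ^ 5 + 8632 * F2 * w ^ 4 * e + 2112 * F2 * w ^ 4 - 566
      * F2 * w ^ 3 * e + 1094 * F2 * w ^ 3 + 379 * F2 * w ^ 2 * e - 821 * F2 * w ^ 2 + 3556 * F2
      * w * e + 506 * F2 * w + 5186 * F2 * e + 694 * F2 + 8388608 * w ^ 16 * e + 39845888 * w ^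
      15 * e + 2097152 * w ^ 15 + 83361792 * w ^ 14 * e + 8912896 * w ^ 14 + 100139008 * w ^ 13
      * e + 16252928 * w ^ 13 + 76677120 * w ^ 12 * e + 16416768 * w ^ 12 + 39477248 * w ^ 11 *
      e + 10199040 * w ^ 11 + 12388352 * w ^ 10 * e + 4151296 * w ^ 10 + 286720 * w ^ 9 * e +
      727040 * w ^ 9 - 755328 * w ^ 8 * e - 383744 * w ^ 8 + 100064 * w ^ 7 * e + 10400 * w ^ 7
      - 702344 * w ^ 6 * e + 41928 * w ^ 6 + 119208 * w ^ 5 * e - 209744 * w ^ 5 + 507402 * w ^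
      4 * e + 137966 * w ^ 4 - 1276924 * w ^ 3 * e + 70618 * w ^ 3 - 3599166 * w ^ 2 * e -
      370404 * w ^ 2 - 2614326 * w * e - 711516 * w - 687192 * e - 274896) * hw + (512 * f * F2
      * w ^ 9 + 128 * f * F2 * w ^ 8 * e + 2176 * f * F2 * w ^ 8 + 32 * f * F2 * w ^ 7 * e ^ 2 +
      480 * f * F2 * w ^ 7 * e + 2848 * f * F2 * w ^ 7 + 8 * f * F2 * w ^ 6 * e ^ 3 + 104 * f *
      F2 * w ^ 6 * e ^ 2 + 464 * f * F2 * w ^ 6 * e + 368 * f * F2 * w ^ 6 + 2 * f * F2 * w ^ 5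
      * e ^ 4 + 22 * f * F2 * w ^ 5 * e ^ 3 + 62 * f * F2 * w ^ 5 * e ^ 2 - 166 * f * F2 * w ^ 5
      * e - 2478 * f * F2 * w ^ 5 + f * F2 * w ^ 4 * e ^ 5 + 4 * f * F2 * w ^ 4 * e ^ 4 + 4 * f
      * F2 * w ^ 4 * e ^ 3 - 78 * f * F2 * w ^ 4 * e ^ 2 - 552 * f * F2 * w ^ 4 * e - 2550 * f *
      F2 * w ^ 4 + 2 * f * F2 * w ^ 3 * e ^ 5 - 3 * f * F2 * w ^ 3 * e ^ 4 - 22 * f * F2 * w ^ 3
      * e ^ 3 - 100 * f * F2 * w ^ 3 * e ^ 2 - 342 * f * F2 * w ^ 3 * e - 976 * f * F2 * w ^ 3 -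
      f * F2 * w ^ 2 * e ^ 5 - 6 * f * F2 * w ^ 2 * e ^ 4 - 12 * f * F2 * w ^ 2 * e ^ 3 - 30 * f
      * F2 * w ^ 2 * e ^ 2 - 48 * f * F2 * w ^ 2 * e - 14 * f * F2 * w ^ 2 - 2 * f * F2 * w * e
      ^ 5 + f * F2 * w * e ^ 4 + 6 * f * F2 * w * e ^ 2 + 28 * f * F2 * w * e + 94 * f * F2 * w
      + 2 * f * F2 * e ^ 4 + 4 * f * F2 * e ^ 2 + 8 * f * F2 * e + 20 * f * F2 + 524288 * f * w
      ^ 16 + 131072 * f * w ^ 15 * e + 3407872 * f * w ^ 15 + 32768 * f * w ^ 14 * e ^ 2 +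
      786432 * f * w ^ 14 * e + 9994240 * f * w ^ 14 + 8192 * f * w ^ 13 * e ^ 3 + 180224 * f *
      w ^ 13 * e ^ 2 + 2097152 * f * w ^ 13 * e + 17645568 * f * w ^ 13 + 2048 * f * w ^ 12 * e
      ^ 4 + 40960 * f * w ^ 12 * e ^ 3 + 432128 * f * w ^ 12 * e ^ 2 + 3317760 * f * w ^ 12 * e
      + 20813824 * f * w ^ 12 + 512 * f * w ^ 11 * e ^ 5 + 9216 * f * w ^ 11 * e ^ 4 + 87040 * f
      * w ^ 11 * e ^ 3 + 603136 * f * w ^ 11 * e ^ 2 + 3436544 * f * w ^ 11 * e + 17044480 * f *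
      w ^ 11 + 128 * f * w ^ 10 * e ^ 6 + 2048 * f * w ^ 10 * e ^ 5 + 17024 * f * w ^ 10 * e ^ 4
      + 104960 * f * w ^ 10 * e ^ 3 + 535808 * f * w ^ 10 * e ^ 2 + 2392064 * f * w ^ 10 * e +
      9625856 * f * w ^ 10 + 32 * f * w ^ 9 * e ^ 7 + 448 * f * w ^ 9 * e ^ 6 + 3200 * f * w ^ 9
      * e ^ 5 + 17216 * f * w ^ 9 * e ^ 4 + 77216 * f * w ^ 9 * e ^ 3 + 303872 * f * w ^ 9 * e ^
      2 + 1076480 * f * w ^ 9 * e + 3470464 * f * w ^ 9 + 8 * f * w ^ 8 * e ^ 8 + 96 * f * w ^ 8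
      * e ^ 7 + 568 * f * w ^ 8 * e ^ 6 + 2592 * f * w ^ 8 * e ^ 5 + 9896 * f * w ^ 8 * e ^ 4 +
      33056 * f * w ^ 8 * e ^ 3 + 97880 * f * w ^ 8 * e ^ 2 + 253408 * f * w ^ 8 * e + 538056 *
      f * w ^ 8 + 2 * f * w ^ 7 * e ^ 9 + 20 * f * w ^ 7 * e ^ 8 + 92 * f * w ^ 7 * e ^ 7 + 340
      * f * w ^ 7 * e ^ 6 + 1036 * f * w ^ 7 * e ^ 5 + 2668 * f * w ^ 7 * e ^ 4 + 5468 * f * w ^
      7 * e ^ 3 + 6148 * f * w ^ 7 * e ^ 2 - 16660 * f * w ^ 7 * e - 158756 * f * w ^ 7 - f * w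
      ^ 6 * e ^ 11 + f * w ^ 6 * e ^ 10 + 5 * f * w ^ 6 * e ^ 9 + 12 * f * w ^ 6 * e ^ 8 + 34 *
      f * w ^ 6 * e ^ 7 + 66 * f * w ^ 6 * e ^ 6 + 64 * f * w ^ 6 * e ^ 5 - 226 * f * w ^ 6 * e
      ^ 4 - 1864 * f * w ^ 6 * e ^ 3 - 8606 * f * w ^ 6 * e ^ 2 - 32896 * f * w ^ 6 * e - 113474
      * f * w ^ 6 - f * w ^ 5 * e ^ 11 + f * w ^ 5 * e ^ 10 + 4 * f * w ^ 5 * e ^ 9 - f * w ^ 5
      * e ^ 8 - 4 * f * w ^ 5 * e ^ 7 - 25 * f * w ^ 5 * e ^ 6 - 105 * f * w ^ 5 * e ^ 5 - 369 *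
      f * w ^ 5 * e ^ 4 - 1163 * f * w ^ 5 * e ^ 3 - 3455 * f * w ^ 5 * e ^ 2 - 9769 * f * w ^ 5
      * e - 26585 * f * w ^ 5 + 3 * f * w ^ 4 * e ^ 9 - 5 * f * w ^ 4 * e ^ 8 - 6 * f * w ^ 4 *
      e ^ 7 - 11 * f * w ^ 4 * e ^ 6 - 34 * f * w ^ 4 * e ^ 5 - 80 * f * w ^ 4 * e ^ 4 - 190 * f
      * w ^ 4 * e ^ 3 - 424 * f * w ^ 4 * e ^ 2 - 898 * f * w ^ 4 * e - 1744 * f * w ^ 4 + f * w
      ^ 3 * e ^ 9 - 2 * f * w ^ 3 * e ^ 8 - 2 * f * w ^ 3 * e ^ 7 + 2 * f * w ^ 3 * e ^ 6 - f *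
      w ^ 3 * e ^ 5 + f * w ^ 3 * e ^ 4 + 9 * f * w ^ 3 * e ^ 3 + 35 * f * w ^ 3 * e ^ 2 + 119 *
      f * w ^ 3 * e + 369 * f * w ^ 3 - f * w ^ 2 * e ^ 7 + 2 * f * w ^ 2 * e ^ 6 + 2 * f * w ^
      2 * e ^ 4 + 4 * f * w ^ 2 * e ^ 3 + 10 * f * w ^ 2 * e ^ 2 + 24 * f * w ^ 2 * e - 20228 *
      f * w ^ 2 - 114807 * f * w - 52332 * f - 512 * F2 * w ^ 9 - 128 * F2 * w ^ 8 * e - 2176 *
      F2 * w ^ 8 - 32 * F2 * w ^ 7 * e ^ 2 - 480 * F2 * w ^ 7 * e - 2784 * F2 * w ^ 7 - 8 * F2 *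
      w ^ 6 * e ^ 3 - 104 * F2 * w ^ 6 * e ^ 2 - 448 * F2 * w ^ 6 * e - 160 * F2 * w ^ 6 - 2 *
      F2 * w ^ 5 * e ^ 4 - 22 * F2 * w ^ 5 * e ^ 3 - 58 * F2 * w ^ 5 * e ^ 2 + 210 * F2 * w ^ 5
      * e + 2598 * F2 * w ^ 5 - 5 * F2 * w ^ 4 * e ^ 4 - 3 * F2 * w ^ 4 * e ^ 3 + 87 * F2 * w ^
      4 * e ^ 2 + 559 * F2 * w ^ 4 * e + 2385 * F2 * w ^ 4 + 25 * F2 * w ^ 3 * e ^ 3 + 97 * F2 *
      w ^ 3 * e ^ 2 + 295 * F2 * w ^ 3 * e + 779 * F2 * w ^ 3 + 5 * F2 * w ^ 2 * e ^ 4 + 13 * F2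
      * w ^ 2 * e ^ 3 + 19 * F2 * w ^ 2 * e ^ 2 + 23 * F2 * w ^ 2 * e + 379 * F2 * w ^ 2 + 2 *
      F2 * w * e ^ 4 - 3 * F2 * w * e ^ 3 - 7 * F2 * w * e ^ 2 - 25 * F2 * w * e + 2262 * F2 * w
      - 2 * F2 * e ^ 3 - 2 * F2 * e ^ 2 - 6 * F2 * e + 1054 * F2 + 2097152 * w ^ 17 + 524288 * w
      ^ 16 * e + 11010048 * w ^ 16 + 131072 * w ^ 15 * e ^ 2 + 2490368 * w ^ 15 * e + 27262976 *
      w ^ 15 + 32768 * w ^ 14 * e ^ 3 + 557056 * w ^ 14 * e ^ 2 + 5537792 * w ^ 14 * e +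
      41582592 * w ^ 14 + 8192 * w ^ 13 * e ^ 4 + 122880 * w ^ 13 * e ^ 3 + 1097728 * w ^ 13 * e
      ^ 2 + 7487488 * w ^ 13 * e + 42868736 * w ^ 13 + 2048 * w ^ 12 * e ^ 5 + 26624 * w ^ 12 *
      e ^ 4 + 210944 * w ^ 12 * e ^ 3 + 1292288 * w ^ 12 * e ^ 2 + 6699008 * w ^ 12 * e +
      30767104 * w ^ 12 + 512 * w ^ 11 * e ^ 6 + 5632 * w ^ 11 * e ^ 5 + 38912 * w ^ 11 * e ^ 4
      + 210944 * w ^ 11 * e ^ 3 + 975872 * w ^ 11 * e ^ 2 + 4019200 * w ^ 11 * e + 15077376 * w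
      ^ 11 + 128 * w ^ 10 * e ^ 7 + 1152 * w ^ 10 * e ^ 6 + 6784 * w ^ 10 * e ^ 5 + 31872 * w ^
      10 * e ^ 4 + 128768 * w ^ 10 * e ^ 3 + 464128 * w ^ 10 * e ^ 2 + 1515776 * w ^ 10 * e +
      4494592 * w ^ 10 + 32 * w ^ 9 * e ^ 8 + 224 * w ^ 9 * e ^ 7 + 1088 * w ^ 9 * e ^ 6 + 4288
      * w ^ 9 * e ^ 5 + 14560 * w ^ 9 * e ^ 4 + 43680 * w ^ 9 * e ^ 3 + 114688 * w ^ 9 * e ^ 2 +
      249728 * w ^ 9 * e + 353696 * w ^ 9 + 8 * w ^ 8 * e ^ 9 + 40 * w ^ 8 * e ^ 8 + 152 * w ^ 8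
      * e ^ 7 + 472 * w ^ 8 * e ^ 6 + 1224 * w ^ 8 * e ^ 5 + 2568 * w ^ 8 * e ^ 4 + 3192 * w ^ 8
      * e ^ 3 - 5832 * w ^ 8 * e ^ 2 - 65112 * w ^ 8 * e - 331416 * w ^ 8 + 2 * w ^ 7 * e ^ 10 +
      6 * w ^ 7 * e ^ 9 + 16 * w ^ 7 * e ^ 8 + 32 * w ^ 7 * e ^ 7 + 32 * w ^ 7 * e ^ 6 - 88 * w
      ^ 7 * e ^ 5 - 792 * w ^ 7 * e ^ 4 - 3696 * w ^ 7 * e ^ 3 - 14160 * w ^ 7 * e ^ 2 - 48840 *
      w ^ 7 * e - 157416 * w ^ 7 + w ^ 6 * e ^ 10 + w ^ 6 * e ^ 9 - 2 * w ^ 6 * e ^ 8 - 12 * w ^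
      6 * e ^ 7 - 46 * w ^ 6 * e ^ 6 - 162 * w ^ 6 * e ^ 5 - 506 * w ^ 6 * e ^ 4 - 1494 * w ^ 6
      * e ^ 3 - 4206 * w ^ 6 * e ^ 2 - 11394 * w ^ 6 * e - 29850 * w ^ 6 - 4 * w ^ 5 * e ^ 8 - 5
      * w ^ 5 * e ^ 7 - 14 * w ^ 5 * e ^ 6 - 34 * w ^ 5 * e ^ 5 - 80 * w ^ 5 * e ^ 4 - 178 * w ^
      5 * e ^ 3 - 372 * w ^ 5 * e ^ 2 - 714 * w ^ 5 * e - 1160 * w ^ 5 - w ^ 4 * e ^ 8 + w ^ 4 *
      e ^ 6 + 4 * w ^ 4 * e ^ 4 + 16 * w ^ 4 * e ^ 3 + 52 * w ^ 4 * e ^ 2 + 160 * w ^ 4 * e -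
      161820 * w ^ 4 + w ^ 3 * e ^ 6 + 2 * w ^ 3 * e ^ 4 + 4 * w ^ 3 * e ^ 3 + 10 * w ^ 3 * e ^
      2 - 40548 * w ^ 3 * e - 1011302 * w ^ 3 - 249900 * w ^ 2 * e - 1356816 * w ^ 2 - 219471 *
      w * e - 1015086 * w - 52332 * e - 284616) * he
  have ki : (207 * w * e - 354 * w + 1068 * e - 120) * (2296 * w * e + 6176 * w - 552 * e + 9344) = 6 ^ 3 := by
    linear_combination (exp := 1) (1901088 * w * e + 8866560 * e - 1711032) * hw + (475272 * w ^ 2 + 2337864 * w - 589536) *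
      he
  have kn : (207 * w * e - 354 * w + 1068 * e - 120) ≠ 0 := by
    intro k0
    rw [k0, zero_mul] at ki
    exact pow_ne_zero 3 h6 ki.symm
  exact sub_eq_zero.1 ((mul_eq_zero.1 k).resolve_left kn)

end Pool.Agent.Helper36.IP
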