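import Pool.Agent.Helper16.IP.RevPhi

/-!
TH-P phase 2, dimension 5: the second split number from the reversal.
-/

namespace Pool.Agent.Helper36.IP

open Pool.Agent.Helper54.IP Pool.Agent.Helper16.IP

variable {F : Type*} [Field F]

theorem ff2r_of {g : GForm F 4} (h : g.Closed) {X Y : F} (hx : g.XY X Y) {f : ℕ → F}
    (hf : g.IsPhi f) :
    ((g.t 1 - 1) * f 2 + (g.t 1 ^ 3 - 1) * ((g.t 2 - 1) * (g.t 2 - g.t 1))) *
      (g.s 4 * (g.s 3 * (g.s 2 - g.s 4) * (g.t 1 * g.s 4 * X) +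
        (g.s 3 - g.s 4) * (g.t 1 ^ 2 * Y) +
        g.s 4 * g.s 3 * (1 + (g.t 1 - 1) * X * (g.s 4 - 1)))) +
      g.t 2 ^ 2 * g.t 1 ^ 3 * (g.t 1 - 1) * ((g.s 2 - g.s 4) * (g.s 2 - g.s 3) *
        (g.s 3 * g.s 4 * X + g.t 1 ^ 2 * Y)) = 0 := by
  have t1 := g.t_ne 1 (by omega)
  have t2 := g.t_ne 2 (by omega)
  have s4 := g.s_ne 4 (by omega)
  have a1 := g.t_sub_one (k := 1) (by omega) (by omega)
  obtain ⟨X', Y', hx'⟩ := (g.rev h).exists_XY (by omega)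
  obtain ⟨r1, r2⟩ := h.rev_XY (ι := 2) (by omega) hx hx'
  have two := (isPhi_rev h hf).two (by omega) hx'
  simp only [GForm.rev_t, GForm.rev_s, Nat.reduceSub] at two
  have g4 := hx.G1 (by omega) (k := 4) le_rfl
  have n4 := h.G_ne (j := 1) (by omega)
  have hR : revF 4 g.t g.s f 2 * (g.t 2 ^ 2 * g.t 1 ^ 3 * (g.t 1 - 1)) =
      -((g.t 1 - 1) * f 2 + (g.t 1 ^ 3 - 1) * ((g.t 2 - 1) * (g.t 2 - g.t 1))) := by
    simp only [revF, Nat.reduceSub, Finset.prod_range_succ, Finset.range_zero,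
      Finset.prod_empty, one_mul, g.t0, pow_one]
    field_simp
  obtain ⟨p, hp⟩ : ∃ p, g.s 3 = p * g.s 4 := ⟨g.s 3 / g.s 4, by field_simp⟩
  obtain ⟨q, hq⟩ : ∃ q, g.s 2 = q * g.s 4 := ⟨g.s 2 / g.s 4, by field_simp⟩
  rw [hp, hq, mul_div_cancel_right₀ _ s4, mul_div_cancel_right₀ _ s4] at two
  have ti : (g.t 1)⁻¹ * g.t 1 = 1 := inv_mul_cancel₀ t1
  set RF := revF 4 g.t g.s f 2
  set G := g.G 1 4
  have key : RF * (g.s 4 * (g.s 3 * (g.s 2 - g.s 4) * (g.t 1 * g.s 4 * X) +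
        (g.s 3 - g.s 4) * (g.t 1 ^ 2 * Y) + g.s 4 * g.s 3 * G)) =
      (g.s 2 - g.s 4) * (g.s 2 - g.s 3) * (g.s 3 * g.s 4 * X + g.t 1 ^ 2 * Y) := by
    rw [hp, hq]
    linear_combination (-(g.s 4) ^ 3 * G) * two +
      RF * (g.s 4 ^ 3 * p * (q - 1) * r1 + g.s 4 ^ 2 * (p - 1) * r2) -
      (q - 1) * (q - p) * g.s 4 ^ 2 * ((g.t 1)⁻¹ * p * g.s 4 * r1 + r2) +
      (q - 1) * (q - p) * g.s 4 ^ 2 * (p * g.s 4 ^ 2 * X) * ti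
  rw [g4] at key
  linear_combination (-(g.t 2 ^ 2 * g.t 1 ^ 3 * (g.t 1 - 1))) * key +
    (g.s 4 * (g.s 3 * (g.s 2 - g.s 4) * (g.t 1 * g.s 4 * X) +
        (g.s 3 - g.s 4) * (g.t 1 ^ 2 * Y) +
        g.s 4 * g.s 3 * (1 + (g.t 1 - 1) * X * (g.s 4 - 1)))) * hR

end Pool.Agent.Helper36.IP
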