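import Pool.Agent.Helper36.IP.W5PA
import Pool.Agent.Helper36.IP.W5Alg
import Pool.Agent.Helper36.IP.W5Alg2
import Pool.Agent.Helper36.IP.W5Rev
import Pool.Agent.Helper82.IP.N5Phi

/-!
TH-P phase 2: the family W5, elimination and construction.
-/

namespace Pool.Agent.Helper36.IP

open Pool.Agent.Helper54.IP Pool.Agent.Helper82.IP Pool.Agent.Helper16.IP

variable {F : Type*} [Field F]

/-- the letters of W5 -/
theorem w5_base {g : GForm F 4} (W : W5 g) : ∃ w e : F, w ^ 2 + w + 1 = 0 ∧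
    e ^ 2 = 2 * (1 + 2 * w) * e + 1 ∧ (6 : F) ≠ 0 ∧ g.t 1 = (1 + w) * e ∧ g.t 2 = -(w * e) ∧
    g.t 3 = -e ∧ g.t 4 = w ^ 2 * e ^ 2 ∧ g.s 1 = w * e ∧ g.s 2 = -((1 + w) * e) ∧
    g.s 3 = e ∧ g.s 4 = w * e ^ 2 := by
  have s0 := g.s_ne 1 (by omega)
  obtain ⟨w, hw1⟩ : ∃ w, g.t 1 = -w * g.s 1 := ⟨-g.t 1 / g.s 1, by field_simp⟩
  have q := W.q
  have r := W.r
  rw [hw1] at q r
  have hw : w ^ 2 + w + 1 = 0 := by
    apply mul_left_cancel₀ (pow_ne_zero 2 s0)
    linear_combination q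
  obtain ⟨e, he1⟩ : ∃ e, g.s 1 = w * e := ⟨w ^ 2 * g.s 1, by
    linear_combination (-(w - 1) * g.s 1) * hw⟩
  have w0 : w ≠ 0 := by
    rintro rfl
    rw [he1, zero_mul] at s0
    exact s0 rfl
  rw [he1] at q r
  have he : e ^ 2 = 2 * (1 + 2 * w) * e + 1 := by
    linear_combination -r + (-(e ^ 2 * (w - 1)) - 2 * e) * hw
  have T1 : g.t 1 = (1 + w) * e := by rw [hw1, he1]; linear_combination (-e) * hw
  have T2 : g.t 2 = -(w * e) := by rw [W.t2, he1]
  have T3 : g.t 3 = -e := by rw [W.t3, he1, T1]; ring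
  have T4 : g.t 4 = w ^ 2 * e ^ 2 := by rw [W.t4, he1]; ring
  have S2 : g.s 2 = -((1 + w) * e) := by rw [W.s2, T1]
  have S3 : g.s 3 = e := by rw [W.s3, he1, T1]; ring
  have S4 : g.s 4 = w * e ^ 2 := by rw [W.s4, T1]; linear_combination e ^ 2 * hw
  have e1 : e - 1 ≠ 0 := by
    rw [← S3]
    exact g.s_sub_one (by omega) (by omega)
  have h2 : (2 : F) ≠ 0 := by
    intro h2
    have k : (e - 1) * (e - 1) = 0 := by
      linear_combination he + ((1 + 2 * w) * e + 1 - e) * h2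
    exact mul_ne_zero e1 e1 k
  have h3 : (3 : F) ≠ 0 := by
    intro h3
    have w1 : w - 1 = 0 := by
      have k : (w - 1) ^ 2 = 0 := by linear_combination hw - w * h3
      exact pow_eq_zero_iff (two_ne_zero) |>.1 k
    apply g.s_inj 1 3 (by omega) (by omega)
    rw [he1, S3]
    linear_combination e * w1
  refine ⟨w, e, hw, he, ?_, T1, T2, T3, T4, he1, S2, S3, S4⟩
  have : (6 : F) = 2 * 3 := by norm_num
  rw [this]
  exact mul_ne_zero h2 h3

/-- **the family W5**, elimination. -/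
theorem w5_elim {g : GForm F 4} (h : g.Closed) (W : W5 g) {f : ℕ → F} (hf : g.IsPhi f) :
    ∃ w e : F, W5L w e g.t g.s f := by
  obtain ⟨w, e, hw, he, h6, T1, T2, T3, T4, S1, S2, S3, S4⟩ := w5_base W
  refine ⟨w, e, ?_⟩
  have h3 : (3 : F) ≠ 0 := by
    intro r
    apply h6
    linear_combination 2 * r
  obtain ⟨X, Y, hx⟩ := g.exists_XY (by omega)
  have hX := hf.one (by omega) hx
  have Y0 := hx.Y_ne (by omega)
  have b1 := g.s_sub_one (k := 4) (by omega) (by omega)
  have b0 := g.s_ne 4 (by omega)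
  have a1 := g.t_sub_one (k := 1) (by omega) (by omega)
  have c := h.cX (ι := 2) (by omega) hx
  have hXY : (1 + 2 * w) * (X + Y) = e - 1 - 2 * w := by
    have c2 : (w * e ^ 2 - 1) * (X + Y) = ((1 + w) * e) ^ 2 + (1 + w) * e + 1 := by
      rw [W.s4] at c b0
      have c3 : (g.t 1 ^ 2 - 1) * (X + Y) = g.t 1 ^ 2 + g.t 1 + 1 := by
        apply mul_left_cancel₀ (mul_ne_zero b0 a1)
        linear_combination c
      rw [T1] at c3
      linear_combination c3 - (e ^ 2 * (X + Y)) * hw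
    rw [S4] at b1
    apply mul_left_cancel₀ b1
    linear_combination (exp := 1) (2 * w + 1) * c2 + (8 * w ^ 2 * e + 8 * w * e + 2 * w +
      4 * e + 1) * hw + (2 * w ^ 3 + 3 * w ^ 2 - w * e + 3 * w + 1) * he
  have o2 := hf.two (by omega) hx
  have o2r := ff2r_of h hx hf
  have o3 := hf.three (by omega) hx
  have o3s := (isPhi_swap hf).three (by omega) hx.swap
  have o4 := hf 3 (by omega)
  have l3 := last_lam3 h hx
  simp only [Finset.prod_range_succ, Finset.range_zero, Finset.prod_empty, one_mul,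
    g.s0, Nat.reduceAdd] at o4
  simp only [GForm.swap_t, GForm.swap_s] at o3s
  rw [S1, S2, T1] at o2
  rw [S2, S3, S4, T1, T2] at o2r
  rw [S1, S2, S3, T1] at o3
  rw [T1, T2, T3, S1] at o3s
  rw [S1, S2, S3, S4] at o4
  rw [S3, S4, T1] at l3
  have k2 := w5_ff2 hw he h6 hX hXY o2
  have k2r := w5_ff2r hw he h6 hX hXY o2r
  have k3 := w5_ff3 hw he h6 hX hXY o3
  have k3s := w5_ff3s hw he h6 hX hXY o3s
  have k4 := w5_ff4 (f := f 1) (X := X) (Y := Y) (F2 := f 4) hw he h6 hX hXY (by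
    linear_combination (-((((e - 1) * (e * X + ((1 + w) * e) * Y) - (((1 + w) * e) + 1) * e) *
      (w * e ^ 2)))) * o4 +
      (f 4 * ((e - 1) * (e - (w * e)) * (e - (-((1 + w) * e))))) * l3)
  have e2 : f 2 = 3 + 5 * (1 + 2 * w) * e := by
    rcases mul_eq_zero.1 k2 with k | k
    · rcases mul_eq_zero.1 k2r with k' | k'
      · exact absurd (by linear_combination k - k') (w5_d2 hw he h6)
      · linear_combination k'
    · linear_combination k
  have e3 : f 3 = -(3 + 5 * (1 + 2 * w) * e) := by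
    rcases mul_eq_zero.1 k3 with k | k
    · rcases mul_eq_zero.1 k3s with k' | k'
      · exact absurd (by linear_combination k - k') (w5_d3 hw he h6)
      · linear_combination k'
    · linear_combination k
  have n3 := w5_n3 hw he h6 hX hXY Y0
  have n2 : f 1 + (3 + (1 + 2 * w) * e) ≠ 0 := by
    intro n
    rw [n, mul_zero] at k4
    exact mul_ne_zero (hf.ne (k := 3) (by omega)) n3 k4
  have n4 : f 1 + (w * e + 5 * w - 13 * e + 4) ≠ 0 := by
    refine w5_n4 hw he h3 hX hXY ?_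
    intro n
    have m := g.lm_ne 0 (by omega)
    apply m
    have s0 := g.s_ne 1 (by omega)
    apply mul_left_cancel₀ s0
    have x' := hx.x'
    have y' := hx.y'
    rw [← S1] at n
    linear_combination n - g.s 1 * x' - y'
  have n5 : f 1 + (w * e - 5 * w + 14 * e - 1) ≠ 0 := by
    refine w5_n5 hw he h3 hX hXY ?_
    intro n
    have m := g.lm'_ne 0 (by omega)
    apply m
    have s0 := g.t_ne 1 (by omega)
    apply mul_left_cancel₀ s0
    have x' := hx.x
    have y' := hx.y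
    rw [← T1] at n
    linear_combination n - g.t 1 * x' - y'
  exact ⟨hw, he, h6, g.t0, T1, T2, T3, T4, g.s0, S1, S2, S3, S4, hf.ne (k := 0) (by omega), n2,
    n3, n4, n5, e2, e3, k4⟩

/-- the list of the family W5 -/
def W5Ex (t s f : ℕ → F) : Prop := ∃ w e : F, W5L w e t s f

theorem W5Ex.congr {t s f t' s' : ℕ → F} (h : W5Ex t s f) (ht : ∀ i, i ≤ 4 → t i = t' i)
    (hs : ∀ i, i ≤ 4 → s i = s' i) : W5Ex t' s' f := by
  obtain ⟨w, e, h⟩ := h
  exact ⟨w, e, h.congr ht hs⟩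

theorem W5Ex.isPA {t s f : ℕ → F} (h : W5Ex t s f) : IsPA 4 t s f := by
  obtain ⟨w, e, h⟩ := h
  exact w5_isPA h

end Pool.Agent.Helper36.IP
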