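import Mathlib

/-!
TH-P phase 2: the family W5 of parameter arrays (pairs of dimension 5) as a list.
-/

namespace Pool.Agent.Helper36.IP

/-- The exceptional family W5 of parameter arrays of dimension 5: `w` is a primitive cube root of
unity, `e` is `√-3 + √-2`, the characteristic is not 2, 3, and `f 1` is free. -/
structure W5L {F : Type*} [Field F] (w e : F) (t s f : ℕ → F) : Prop where
  hw : w ^ 2 + w + 1 = 0
  he : e ^ 2 = 2 * (1 + 2 * w) * e + 1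
  n6 : (6 : F) ≠ 0
  t0 : t 0 = 1
  t1 : t 1 = (1 + w) * e
  t2 : t 2 = -(w * e)
  t3 : t 3 = -e
  t4 : t 4 = w ^ 2 * e ^ 2
  s0 : s 0 = 1
  s1 : s 1 = w * e
  s2 : s 2 = -((1 + w) * e)
  s3 : s 3 = e
  s4 : s 4 = w * e ^ 2
  f1 : f 1 ≠ 0
  n2 : f 1 + (3 + (1 + 2 * w) * e) ≠ 0
  n3 : 2 * f 1 + (3 + (1 + 2 * w) * e) ≠ 0
  n4 : f 1 + (w * e + 5 * w - 13 * e + 4) ≠ 0
  n5 : f 1 + (w * e - 5 * w + 14 * e - 1) ≠ 0
  f2 : f 2 = 3 + 5 * (1 + 2 * w) * e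
  f3 : f 3 = -(3 + 5 * (1 + 2 * w) * e)
  f4 : f 4 * (2 * f 1 + (3 + (1 + 2 * w) * e)) =
    (27 + 49 * (1 + 2 * w) * e) * (f 1 + (3 + (1 + 2 * w) * e))

theorem W5L.congr {F : Type*} [Field F] {w e : F} {t s f t' s' : ℕ → F} (h : W5L w e t s f)
    (ht : ∀ i, i ≤ 4 → t i = t' i) (hs : ∀ i, i ≤ 4 → s i = s' i) : W5L w e t' s' f where
  hw := h.hw
  he := h.he
  n6 := h.n6
  t0 := by rw [← ht 0 (by omega), h.t0]
  t1 := by rw [← ht 1 (by omega), h.t1]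
  t2 := by rw [← ht 2 (by omega), h.t2]
  t3 := by rw [← ht 3 (by omega), h.t3]
  t4 := by rw [← ht 4 (by omega), h.t4]
  s0 := by rw [← hs 0 (by omega), h.s0]
  s1 := by rw [← hs 1 (by omega), h.s1]
  s2 := by rw [← hs 2 (by omega), h.s2]
  s3 := by rw [← hs 3 (by omega), h.s3]
  s4 := by rw [← hs 4 (by omega), h.s4]
  f1 := h.f1
  n2 := h.n2
  n3 := h.n3
  n4 := h.n4
  n5 := h.n5
  f2 := h.f2
  f3 := h.f3
  f4 := h.f4

end Pool.Agent.Helper36.IP
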