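import Mathlib

/-!
TH-P, N branch, state (10)/(10): the corner formulas (scalar part).
-/

namespace Pool.Agent.Helper36.IP

variable {F : Type*} [Field F]

theorem al_form {t u T z x y al M e : F} (ht0 : t ≠ 0) (ht1 : t - 1 ≠ 0) (hz1 : z - 1 ≠ 0)
    (he : e ≠ 0) (hed : e = t + u)
    (hx : x = (t - 1) * (t * u + t + u) / (e * (z - 1)))
    (hy : y = (t - 1) * (t + u + 1) * z / (t * (e * (z - 1))))
    (hM : M ≠ 0) (hMd : M = t * u * (t * u + t + u) + z * (t + u + 1))
    (h : al * (t - 1) * (u * x + y) = x * (T - 1) + (t - 1) * (y - 1)) :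
    al = (t * T * (t * u + t + u) - t * (t * u) - z * (u + 1)) / ((t - 1) * M) := by
  have e1 : u * x + y = (t - 1) * M / (t * (e * (z - 1))) := by
    rw [hx, hy, hMd]
    field_simp
  rw [e1] at h
  have e2 : al * ((t - 1) * M) = t * T * (t * u + t + u) - t * (t * u) - z * (u + 1) := by
    apply mul_left_cancel₀ ht1
    have e3 : (t - 1) * (al * ((t - 1) * M))
        = (t * (e * (z - 1))) * (al * (t - 1) * ((t - 1) * M / (t * (e * (z - 1))))) := by
      field_simp
    rw [e3, h, hx, hy]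
    field_simp
    rw [hed]
    ring
  rw [← e2]
  field_simp

theorem de_form {t u T z x y de M e : F} (ht0 : t ≠ 0) (hT0 : T ≠ 0) (ht1 : t - 1 ≠ 0)
    (hz1 : z - 1 ≠ 0)
    (he : e ≠ 0) (hed : e = t + u)
    (hx : x = (t - 1) * (t * u + t + u) / (e * (z - 1)))
    (hy : y = (t - 1) * (t + u + 1) * z / (t * (e * (z - 1))))
    (hM : M ≠ 0) (hMd : M = t * u * (t * u + t + u) + z * (t + u + 1))
    (h : T * (t - 1) * de * (u * x + y) = u * (T * (t - 1) * (x - 1) + t * y * (T - 1))) :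
    de = (t * u * (T * (t * (t * u + t + u) - t * u + z) - (t + u + 1) * z)) /
      (T * (t - 1) * M) := by
  have e1 : u * x + y = (t - 1) * M / (t * (e * (z - 1))) := by
    rw [hx, hy, hMd]
    field_simp
  rw [e1] at h
  have e2 : de * (T * (t - 1) * M)
      = t * u * (T * (t * (t * u + t + u) - t * u + z) - (t + u + 1) * z) := by
    apply mul_left_cancel₀ ht1
    have e3 : (t - 1) * (de * (T * (t - 1) * M))
        = (t * (e * (z - 1))) * (T * (t - 1) * de * ((t - 1) * M / (t * (e * (z - 1))))) := by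
      field_simp
    rw [e3, h, hx, hy]
    field_simp
    rw [hed]
    ring
  rw [← e2]
  field_simp

/-- the second column: `u G(2,1) - u^2 H(2,1)`. -/
theorem kap_form {t u T z x y G21 H21 D e : F} (ht0 : t ≠ 0) (hu0 : u ≠ 0) (hT0 : T ≠ 0)
    (ht1 : t - 1 ≠ 0)
    (hz1 : z - 1 ≠ 0) (he : e ≠ 0) (hed : e = t + u)
    (hx : x = (t - 1) * (t * u + t + u) / (e * (z - 1)))
    (hy : y = (t - 1) * (t + u + 1) * z / (t * (e * (z - 1))))
    (hDd : D = (T - 1) * (T * (t * u + t + u) + (t + u + 1) * z) - T * (t + u) * (z - 1))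
    (c2 : (t - 1) * (G21 - 1) = x * (u - 1) * (T - 1))
    (d2 : T * (t - 1) * u * (H21 - 1) = t * y * (1 - u) * (T - 1)) :
    u * G21 - u ^ 2 * H21 = u * (u - 1) * D / (T * (e * (z - 1))) := by
  have e1 : G21 = 1 + (t * u + t + u) * (u - 1) * (T - 1) / (e * (z - 1)) := by
    apply mul_left_cancel₀ ht1
    have : (t - 1) * G21 = (t - 1) + (t - 1) * (G21 - 1) := by ring
    rw [this, c2, hx]
    field_simp
  have e2 : H21 = 1 + (t + u + 1) * z * (1 - u) * (T - 1) / (T * u * (e * (z - 1))) := by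
    have hne : T * (t - 1) * u ≠ 0 := mul_ne_zero (mul_ne_zero hT0 ht1) hu0
    apply mul_left_cancel₀ hne
    have : T * (t - 1) * u * H21 = T * (t - 1) * u + T * (t - 1) * u * (H21 - 1) := by ring
    rw [this, d2, hy]
    field_simp
  rw [e1, e2, hDd, ← hed]
  field_simp
  ring

theorem A_form {t u T z x y A G21 H21 G31 D e : F} (ht0 : t ≠ 0) (hu0 : u ≠ 0) (hT0 : T ≠ 0)
    (ht1 : t - 1 ≠ 0) (hu1 : u - 1 ≠ 0)
    (hz1 : z - 1 ≠ 0) (he : e ≠ 0) (hed : e = t + u)
    (hx : x = (t - 1) * (t * u + t + u) / (e * (z - 1)))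
    (hy : y = (t - 1) * (t + u + 1) * z / (t * (e * (z - 1))))
    (hD : D ≠ 0)
    (hDd : D = (T - 1) * (T * (t * u + t + u) + (t + u + 1) * z) - T * (t + u) * (z - 1))
    (c2 : (t - 1) * (G21 - 1) = x * (u - 1) * (T - 1))
    (d2 : T * (t - 1) * u * (H21 - 1) = t * y * (1 - u) * (T - 1))
    (c3 : (t - 1) * (G31 - 1) = x * (u - 1) * (z / u - 1))
    (h : G31 = A * (u * G21) + (1 - A) * (u ^ 2 * H21)) :
    A = (-(T * u * (t + u) * (z - 1) * (u + 1)) + T * (t * u + t + u) * (z - u)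
      + u ^ 2 * (t + u + 1) * z * (T - 1)) / (u ^ 2 * D) := by
  have hk := kap_form ht0 hu0 hT0 ht1 hz1 he hed hx hy hDd c2 d2
  have e2 : H21 = 1 + (t + u + 1) * z * (1 - u) * (T - 1) / (T * u * (e * (z - 1))) := by
    have hne : T * (t - 1) * u ≠ 0 := mul_ne_zero (mul_ne_zero hT0 ht1) hu0
    apply mul_left_cancel₀ hne
    have : T * (t - 1) * u * H21 = T * (t - 1) * u + T * (t - 1) * u * (H21 - 1) := by ring
    rw [this, d2, hy]
    field_simp
  have e3 : G31 = 1 + (t * u + t + u) * (u - 1) * (z / u - 1) / (e * (z - 1)) := by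
    apply mul_left_cancel₀ ht1
    have : (t - 1) * G31 = (t - 1) + (t - 1) * (G31 - 1) := by ring
    rw [this, c3, hx]
    field_simp
  have e4 : A * (u * G21 - u ^ 2 * H21) = G31 - u ^ 2 * H21 := by linear_combination -h
  rw [hk, e3, e2] at e4
  have e5 : A * (u ^ 2 * D) = (-(T * u * (t + u) * (z - 1) * (u + 1)) + T * (t * u + t + u) * (z - u)
      + u ^ 2 * (t + u + 1) * z * (T - 1)) := by
    apply mul_left_cancel₀ hu1
    have e6 : (u - 1) * (A * (u ^ 2 * D)) = (u * (T * (e * (z - 1)))) *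
        (A * (u * (u - 1) * D / (T * (e * (z - 1))))) := by
      field_simp
    rw [e6, e4, ← hed]
    field_simp
    ring
  rw [← e5]
  field_simp

theorem mu_form {t u T z x y mu G21 H21 H31 D e : F} (ht0 : t ≠ 0) (hu0 : u ≠ 0) (hT0 : T ≠ 0)
    (ht1 : t - 1 ≠ 0) (hu1 : u - 1 ≠ 0) (hz0 : z ≠ 0)
    (hz1 : z - 1 ≠ 0) (he : e ≠ 0) (hed : e = t + u)
    (hx : x = (t - 1) * (t * u + t + u) / (e * (z - 1)))
    (hy : y = (t - 1) * (t + u + 1) * z / (t * (e * (z - 1))))
    (hD : D ≠ 0)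
    (hDd : D = (T - 1) * (T * (t * u + t + u) + (t + u + 1) * z) - T * (t + u) * (z - 1))
    (c2 : (t - 1) * (G21 - 1) = x * (u - 1) * (T - 1))
    (d2 : T * (t - 1) * u * (H21 - 1) = t * y * (1 - u) * (T - 1))
    (d3 : z / u * (t - 1) * u * (H31 - 1) = t * y * (1 - u) * (z / u - 1))
    (h : u ^ 3 * H31 = (1 - mu) * (u * G21) + mu * (u ^ 2 * H21)) :
    mu = T * (-(t * u ^ 2) + t * u * T + t * T - t * z - u ^ 3 + u * T) / D := by
  have hk := kap_form ht0 hu0 hT0 ht1 hz1 he hed hx hy hDd c2 d2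
  have e1 : G21 = 1 + (t * u + t + u) * (u - 1) * (T - 1) / (e * (z - 1)) := by
    apply mul_left_cancel₀ ht1
    have : (t - 1) * G21 = (t - 1) + (t - 1) * (G21 - 1) := by ring
    rw [this, c2, hx]
    field_simp
  have e3 : H31 = 1 + (t + u + 1) * (1 - u) * (z / u - 1) / (e * (z - 1)) := by
    have hne : z * (t - 1) ≠ 0 := mul_ne_zero hz0 ht1
    apply mul_left_cancel₀ hne
    have h1 : z / u * (t - 1) * u = z * (t - 1) := by
      field_simp
    rw [h1] at d3
    have : z * (t - 1) * H31 = z * (t - 1) + z * (t - 1) * (H31 - 1) := by ring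
    rw [this, d3, hy]
    field_simp
  have e4 : mu * (u * G21 - u ^ 2 * H21) = u * G21 - u ^ 3 * H31 := by linear_combination h
  rw [hk, e3, e1] at e4
  have e5 : mu * D = T * (-(t * u ^ 2) + t * u * T + t * T - t * z - u ^ 3 + u * T) := by
    apply mul_left_cancel₀ (mul_ne_zero hu0 hu1)
    have e6 : u * (u - 1) * (mu * D) = (T * (e * (z - 1))) *
        (mu * (u * (u - 1) * D / (T * (e * (z - 1))))) := by
      field_simp
    rw [e6, e4]
    field_simp
    rw [hed]
    ring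
  rw [← e5]
  field_simp

/-- `A u^2 T = t mu` on the surface. -/
theorem A_mu {t u T z A mu D : F} (hu0 : u ≠ 0) (hD : D ≠ 0)
    (hA : A = (-(T * u * (t + u) * (z - 1) * (u + 1)) + T * (t * u + t + u) * (z - u)
      + u ^ 2 * (t + u + 1) * z * (T - 1)) / (u ^ 2 * D))
    (hmu : mu = T * (-(t * u ^ 2) + t * u * T + t * T - t * z - u ^ 3 + u * T) / D)
    (hF2 : u ^ 2 * z + u * z - u ^ 2 * t - t * z + T * (t + t * u - u ^ 2 - z) = 0) :
    A * u ^ 2 * T = t * mu := by
  rw [hA, hmu]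
  field_simp
  linear_combination (-(t + u)) * T * hF2

end Pool.Agent.Helper36.IP
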