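import Mathlib

/-!
TH-P, N branch, state (10)/(10): the surface equations from the cells `(2,3)`, `(3,2)`
(`t = t_1, T = t_2, u = s_1, z = t_2 s_2 = t_1 s_3 = t_3 s_1`).
-/

namespace Pool.Agent.Helper36.IP

variable {F : Type*} [Field F]

theorem F12_of_A {t T u z : F} (h : u * z ≠ t * T ^ 2)
    (hA1 : (u * T ^ 2 - z) * (t * u - z) =
      z * (T - 1) * (u * (t * u + (t + u)) - (t + u + 1) * T))
    (hA2 : (z * t - T ^ 2) * (t * u - z) =
      (z - T) * (t * T * (t * u + (t + u)) - (t + u + 1) * z)) :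
    (t ^ 2 * T * z + t * T * z - t ^ 2 * z - t ^ 2 * T * u + t * u * z - T * u * z - z ^ 2
      + u * z = 0) ∧
    (u ^ 2 * z + u * z - u ^ 2 * t - t * z + T * (t + t * u - u ^ 2 - z) = 0) := by
  have h' := sub_ne_zero.2 h
  constructor
  · apply mul_left_cancel₀ h'
    linear_combination (z - t ^ 2 * T) * hA1 + (t * T * u - z) * hA2
  · apply mul_left_cancel₀ h'
    linear_combination (T - t * u) * hA1 + (u ^ 2 - T) * hA2

end Pool.Agent.Helper36.IP
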