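import Pool.Agent.Helper82.IP.IsPA4
import Pool.Agent.Helper54.IP.D5PA
import Pool.Agent.Helper36.IP.W5Fin

/-!
TH-P phase 2: **the parameter arrays of the irreducible inverting pairs of dimension 5**.
-/

namespace Pool.Agent.Helper36.IP

open Pool.Agent.Helper54.IP Pool.Agent.Helper82.IP Pool.Agent.Helper16.IP
  Pool.Agent.Helper31.IPS

variable {F : Type*} [Field F]

/-- **the parameter arrays of dimension 5**. -/
theorem isPA4_iff (t s f : ℕ → F) :
    IsPA 4 t s f ↔ MainL 4 t s f ∨ D5L t s f ∨ D5S t s f ∨ W5Ex t s f :=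
  isPA4_iff_of (fun _ _ _ h => d5_isPA h)
    (fun _ hc _ hf W => w5_elim hc W hf)
    (fun _ _ _ _ _ h ht hs => h.congr ht hs)
    (fun _ _ _ h => h.isPA) t s f

end Pool.Agent.Helper36.IP
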