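import Pool.Agent.Helper36.IP.KKFlat
import Pool.Agent.Helper36.IP.Corner

/-!
TH-P, N branch, state KK (`kap_1^(2) = 0` on both sides): parameters and rows 1, 2.
-/

namespace Pool.Agent.Helper36.IP

open Pool.Agent.Helper54.IP

variable {F : Type*} [Field F] {m : ℕ}

theorem kk_scalar {t T u S c V : F} (hTt : T - t ≠ 0) (hSu : S - u ≠ 0) (hST : T - S ≠ 0)
    (hS0 : S ≠ 0)
    (ha : (S - 1) * (c * S + V) = S) (hb : (T - 1) * (c * T + V) = T)
    (hl1 : (S * t - T) * (c - V + 1) = (S - 1) * (t * T * c - V))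
    (hl2 : (T * u - S) * (c - V + 1) = (T - 1) * (u * S * c - V)) :
    S ^ 2 - S + 1 = 0 ∧ T = 1 - S ∧ c = -1 ∧ V = 1 := by
  have c1 : c * ((S - 1) * (T - 1)) + 1 = 0 := by
    apply mul_left_cancel₀ hST
    linear_combination (S - 1) * hb - (T - 1) * ha
  have c2 : V * ((S - 1) * (T - 1)) - S * T = 0 := by
    linear_combination (T - 1) * ha - S * c1
  have d1 : S ^ 2 + T = 0 := by
    apply mul_left_cancel₀ hTt
    linear_combination ((S - 1) * (T - 1)) * hl1 + (-(S * t - T) + (S - 1) * (t * T)) * c1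
      + ((S * t - T) - (S - 1)) * c2
  have d2 : T ^ 2 + S = 0 := by
    apply mul_left_cancel₀ hSu
    linear_combination ((S - 1) * (T - 1)) * hl2 + (-(T * u - S) + (T - 1) * (u * S)) * c1
      + ((T * u - S) - (T - 1)) * c2
  have hT : T = - S ^ 2 := by linear_combination d1
  have h3 : (S + 1) * (S ^ 2 - S + 1) = 0 := by
    apply mul_left_cancel₀ hS0
    rw [hT] at d2
    linear_combination d2
  have hS : S ^ 2 - S + 1 = 0 := by
    rcases mul_eq_zero.1 h3 with h | h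
    · exfalso
      apply hST
      linear_combination d1 - S * h
    · exact h
  refine ⟨hS, by linear_combination d1 - hS, ?_, ?_⟩
  · rw [hT] at c1
    linear_combination c1 + c * S * hS
  · rw [hT] at c2
    linear_combination c2 + (V * S - (S + 1)) * hS

/-- the data of the state KK. -/
def KK (g : GForm F m) : Prop :=
  g.s 2 ^ 2 - g.s 2 + 1 = 0 ∧ g.t 2 = 1 - g.s 2 ∧ g.lam' 0 = g.t 1 ∧
    g.t 1 * g.mu' 0 = g.t 1 - 1 ∧ g.kap 1 2 = 0

theorem kk_of (g : GForm F m) (hm : 2 ≤ m) (h2 : g.t 2 ≠ g.s 2)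
    (hn1 : (g.s 2 * g.t 1 - g.t 2) * ((1 - g.lam' 0) - g.t 1 * g.mu' 0 + g.t 1 - 1) =
        (g.s 2 - 1) * (g.t 1 * g.t 2 * (1 - g.lam' 0) - g.t 1 * g.mu' 0))
    (hn2 : (g.t 2 * g.s 1 - g.s 2) * ((1 - g.lam' 0) - g.t 1 * g.mu' 0 + g.t 1 - 1) =
        (g.t 2 - 1) * (g.s 1 * g.s 2 * (1 - g.lam' 0) - g.t 1 * g.mu' 0))
    (hk : g.kap 1 2 = 0) (hk' : g.swap.kap 1 2 = 0) : KK g ∧ KK g.swap := by
  have ht0 := g.t_ne 1 (by omega)
  have hT0 := g.t_ne 2 (by omega)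
  have hu0 := g.s_ne 1 (by omega)
  have hv0 := g.s_ne 2 (by omega)
  have ht1 : g.t 1 - 1 ≠ 0 := by
    have := g.t_inj 0 1 (by omega) (by omega)
    rw [g.t0] at this
    exact sub_ne_zero.2 this.symm
  have hu1 : g.s 1 - 1 ≠ 0 := by
    have := g.s_inj 0 1 (by omega) (by omega)
    rw [g.s0] at this
    exact sub_ne_zero.2 this.symm
  have hTv : g.t 2 - g.s 2 ≠ 0 := sub_ne_zero.2 h2
  have hTt : g.t 2 - g.t 1 ≠ 0 := sub_ne_zero.2 (g.t_inj 1 2 (by omega) (by omega)).symm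
  have hvu : g.s 2 - g.s 1 ≠ 0 := sub_ne_zero.2 (g.s_inj 1 2 (by omega) (by omega)).symm
  obtain ⟨c, hc'⟩ : ∃ c, c = (1 - g.lam' 0) / (g.t 1 - 1) := ⟨_, rfl⟩
  obtain ⟨V, hV'⟩ : ∃ V, V = g.t 1 * g.mu' 0 / (g.t 1 - 1) := ⟨_, rfl⟩
  have hc : 1 - g.lam' 0 = (g.t 1 - 1) * c := by rw [hc']; field_simp
  have hV : g.t 1 * g.mu' 0 = (g.t 1 - 1) * V := by rw [hV']; field_simp
  have h1 := g.row1G (k := 1) (by omega) (by omega)
  have h1H := g.row1H (k := 1) (by omega) (by omega)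
  have k1 := g.swap.row1G (k := 1) (by omega) (by omega)
  have k1H := g.swap.row1H (k := 1) (by omega) (by omega)
  simp only [GForm.swap_G, GForm.swap_H, GForm.swap_s, GForm.swap_lam', GForm.swap_mu'] at k1 k1H
  have hcs : 1 - g.lam 0 = (g.s 1 - 1) * c := by
    apply mul_left_cancel₀ ht1
    linear_combination h1 - k1 + (g.s 1 - 1) * hc
  have hVs : g.s 1 * g.mu 0 = (g.s 1 - 1) * V := by
    apply mul_left_cancel₀ ht1
    linear_combination g.s 1 * k1H - g.t 1 * h1H + (g.s 1 - 1) * hV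
  have hl1 : (g.s 2 * g.t 1 - g.t 2) * (c - V + 1) =
      (g.s 2 - 1) * (g.t 1 * g.t 2 * c - V) := by
    apply mul_left_cancel₀ ht1
    rw [hc, hV] at hn1
    linear_combination hn1
  have hl2 : (g.t 2 * g.s 1 - g.s 2) * (c - V + 1) =
      (g.t 2 - 1) * (g.s 1 * g.s 2 * c - V) := by
    apply mul_left_cancel₀ ht1
    rw [hc, hV] at hn2
    linear_combination hn2
  have r2 := g.row1G (k := 2) (by omega) (by omega)
  have q2 := g.row1H (k := 2) (by omega) (by omega)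
  have r2' := g.swap.row1G (k := 2) (by omega) (by omega)
  have q2' := g.swap.row1H (k := 2) (by omega) (by omega)
  simp only [GForm.swap_G, GForm.swap_H, GForm.swap_s, GForm.swap_lam', GForm.swap_mu'] at r2' q2'
  have ka : (g.s 2 - 1) * (c * g.s 2 + V) = g.s 2 := by
    have h := hk
    rw [GForm.kap] at h
    apply mul_left_cancel₀ (mul_ne_zero ht0 ht1)
    linear_combination g.s 2 * h - g.t 1 * g.s 2 * r2 + g.t 1 ^ 2 * q2
      - g.t 1 * g.s 2 * (g.s 2 - 1) * hc - g.t 1 * (g.s 2 - 1) * hV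
  have kb : (g.t 2 - 1) * (c * g.t 2 + V) = g.t 2 := by
    have h := hk'
    rw [GForm.kap] at h
    simp only [GForm.swap_G, GForm.swap_H, GForm.swap_t] at h
    apply mul_left_cancel₀ (mul_ne_zero hu0 hu1)
    linear_combination g.t 2 * h - g.s 1 * g.t 2 * r2' + g.s 1 ^ 2 * q2'
      - g.s 1 * g.t 2 * (g.t 2 - 1) * hcs - g.s 1 * (g.t 2 - 1) * hVs
  obtain ⟨z1, z2, z3, z4⟩ := kk_scalar hTt hvu hTv hv0 ka kb hl1 hl2
  refine ⟨⟨z1, z2, ?_, ?_, hk⟩, ⟨?_, ?_, ?_, ?_, hk'⟩⟩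
  · rw [z3] at hc
    linear_combination -hc
  · rw [z4] at hV
    linear_combination hV
  · simp only [GForm.swap_s]
    rw [z2]
    linear_combination z1
  · simp only [GForm.swap_s, GForm.swap_t]
    rw [z2]
    ring
  · simp only [GForm.swap_t, GForm.swap_lam']
    rw [z3] at hcs
    linear_combination -hcs
  · simp only [GForm.swap_t, GForm.swap_mu']
    rw [z4] at hVs
    linear_combination hVs

variable (g : GForm F m)

theorem kk_G (hK : KK g) (hm : 1 ≤ m) {k : ℕ} (hk : k ≤ m) :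
    g.G 1 k = g.t 1 + (1 - g.t 1) * g.s k := by
  rw [g.row1G hm hk, hK.2.2.1]

theorem kk_H (hK : KK g) (hm : 1 ≤ m) {k : ℕ} (hk : k ≤ m) :
    g.t 1 * (g.s k * g.H 1 k) = g.s k + g.t 1 - 1 := by
  rw [g.row1H hm hk]
  linear_combination (1 - g.s k) * hK.2.2.2.1

theorem kk_s3 (hK : KK g) (hm : 3 ≤ m) : g.s 3 = - (g.t 1 * (1 - g.s 2)) := by
  have ht1 : g.t 1 - 1 ≠ 0 := by
    have := g.t_inj 0 1 (by omega) (by omega)
    rw [g.t0] at this
    exact sub_ne_zero.2 this.symm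
  have r2 := kk_G g hK (by omega) (k := 2) (by omega)
  have r3 := kk_G g hK (by omega) (k := 3) (by omega)
  have u := g.U1 1 2 (by omega) (by omega)
  have h := hK.2.2.2.2
  rw [GForm.kap] at h
  apply mul_left_cancel₀ ht1
  linear_combination r3 - u + g.lam 2 * h - g.t 1 * r2

theorem kk_ut (hK : KK g) (hm : 1 ≤ m) (hD : g.G 1 1 ≠ g.H 1 1) : g.s 1 * g.t 1 - 1 ≠ 0 := by
  intro h
  have ht0 := g.t_ne 1 (by omega)
  have hu0 := g.s_ne 1 (by omega)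
  apply hD
  apply mul_left_cancel₀ (mul_ne_zero ht0 hu0)
  linear_combination g.t 1 * g.s 1 * kk_G g hK hm hm - kk_H g hK hm hm
    + (g.t 1 + g.s 1 - g.t 1 * g.s 1 - 1) * h

theorem kk_al (hK : KK g) (hm : 2 ≤ m) :
    (1 - g.lam' 1) * ((g.t 1 - 1) * (g.s 1 * g.t 1 - 1)) = 1 - g.t 1 * g.s 2 := by
  have ht1 : g.t 1 - 1 ≠ 0 := by
    have := g.t_inj 0 1 (by omega) (by omega)
    rw [g.t0] at this
    exact sub_ne_zero.2 this.symm
  have h := al_eq g hm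
  rw [hK.2.2.1, hK.2.1] at h
  apply mul_left_cancel₀ ht1
  linear_combination (-g.t 1) * h + ((1 - g.lam' 1) * (g.t 1 - 1) - (g.t 1 - 1)) * hK.2.2.2.1

theorem kk_de (hK : KK g) (hm : 2 ≤ m) :
    g.mu' 1 * ((g.t 1 - 1) * (g.s 1 * g.t 1 - 1)) = g.s 1 * g.t 1 * (g.t 1 + g.s 2 - 1) := by
  have ht1 : g.t 1 - 1 ≠ 0 := by
    have := g.t_inj 0 1 (by omega) (by omega)
    rw [g.t0] at this
    exact sub_ne_zero.2 this.symm
  have hT0 := g.t_ne 2 (by omega)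
  have h := de_eq g hm
  rw [hK.2.2.1, hK.2.1] at h
  rw [hK.2.1] at hT0
  apply mul_left_cancel₀ (mul_ne_zero hT0 ht1)
  linear_combination (-g.t 1) * h + ((1 - g.s 2) * (g.t 1 - 1) * g.mu' 1
    - g.s 1 * g.t 1 * ((1 - g.s 2) - 1)) * hK.2.2.2.1 + g.s 1 * g.t 1 * (g.t 1 - 1) * hK.1

theorem kk_G2 (hK : KK g) (hm : 2 ≤ m) {k : ℕ} (hk : k ≤ m) :
    (g.t 1 - 1) * (g.s 1 * g.t 1 - 1) * g.G 2 k = kkg (g.t 1) (g.s 1) (g.s 2) (g.s k) := by
  have ht0 := g.t_ne 1 (by omega)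
  have h := g.row2G (k := k) hm hk
  have h1 := kk_G g hK (by omega) hk
  have h2 := kk_H g hK (by omega) hk
  have ha := kk_al g hK hm
  apply mul_left_cancel₀ ht0
  rw [kkg, h, h1]
  linear_combination (g.t 1 * g.s k * (g.t 1 + (1 - g.t 1) * g.s k) - g.t 1 * (g.s k * g.H 1 k)) * ha
    + ((g.t 1 - 1) * (g.s 1 * g.t 1 - 1) - (1 - g.t 1 * g.s 2)) * h2

theorem kk_H2 (hK : KK g) (hm : 2 ≤ m) {k : ℕ} (hk : k ≤ m) :
    (g.t 1 - 1) * (g.s 1 * g.t 1 - 1) * (g.s k ^ 2 * g.H 2 k) =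
      kkh (g.t 1) (g.s 1) (g.s 2) (g.s k) := by
  have ht0 := g.t_ne 1 (by omega)
  have h := g.row2H (k := k) hm hk
  have h1 := kk_G g hK (by omega) hk
  have h2 := kk_H g hK (by omega) hk
  have ha := kk_de g hK hm
  apply mul_left_cancel₀ ht0
  rw [kkh]
  rw [h1] at h
  linear_combination (g.t 1 * (g.t 1 - 1) * (g.s 1 * g.t 1 - 1) * g.s k) * h
    + (-(g.t 1 * g.s k * (g.t 1 + (1 - g.t 1) * g.s k)) + g.t 1 * (g.s k * g.H 1 k)) * ha
    + (g.s 1 * g.t 1 * (g.t 1 + g.s 2 - 1)) * h2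

end Pool.Agent.Helper36.IP
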