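import Pool.Agent.Helper36.IP.KKBase

/-!
TH-P, N branch, state KK: column 4 (scalar part), generated.
-/

namespace Pool.Agent.Helper36.IP

variable {F : Type*} [Field F]

theorem kk_kap2 {t u S : F} (hS : S ^ 2 - S + 1 = 0) :
    (t - 1) * (t - (1 - S)) * kkkp t u S =
      (1 - S) * kkh t u S (-(t * (1 - S))) - (1 - S) * kkg t u S (-(t * (1 - S))) * t ^ 2 := by
  rw [kkkp, kkh, kkg]
  linear_combination (- t ^ 6 * S ^ 2 + 2 * t ^ 6 * S + t ^ 5 * S ^ 2 - 2 * t ^ 5 + t ^ 4 * u * S ^ 2 - 2 * t ^ 4 * u * S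
      - t ^ 4 * u - t ^ 4 - t ^ 3 * u * S ^ 2 + t ^ 3 * u * S + t ^ 3 * u - 3 * t ^ 3 * S + 4 * t ^ 3
      + t ^ 2 * u + t ^ 2 * S - t ^ 2 + t * u * S - t * u) * hS

theorem kk_col4_scalar {t u S w G13 H13 G14 H14 G23 H23 G24 H24 lam mu : F}
    (hS : S ^ 2 - S + 1 = 0) (ht0 : t ≠ 0) (ht1 : t - 1 ≠ 0) (htT : t - (1 - S) ≠ 0)
    (g13 : G13 = t + (1 - t) * (-(t * (1 - S)))) (d13 : G13 = t ^ 3 * H13)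
    (g14 : G14 = t + (1 - t) * w) (h14 : t * (w * H14) = w + t - 1)
    (g23 : (t - 1) * (u * t - 1) * G23 = kkg t u S (-(t * (1 - S))))
    (h23 : (t - 1) * (u * t - 1) * ((-(t * (1 - S))) ^ 2 * H23) = kkh t u S (-(t * (1 - S))))
    (g24 : (t - 1) * (u * t - 1) * G24 = kkg t u S w)
    (h24 : (t - 1) * (u * t - 1) * (w ^ 2 * H24) = kkh t u S w)
    (u1 : G14 = (1 - lam) * (t * G13) + lam * (t ^ 3 * H13))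
    (u2 : G24 = (1 - lam) * ((1 - S) * G23) + lam * ((1 - S) ^ 3 * H23))
    (v1 : t ^ 4 * H14 = (1 - mu) * (t * G13) + mu * (t ^ 3 * H13))
    (v2 : (1 - S) ^ 4 * H24 = (1 - mu) * ((1 - S) * G23) + mu * ((1 - S) ^ 3 * H23)) :
    kkE1 t u S w = 0 ∧ kkE2 t u S w = 0 := by
  have hka : (t - 1) * (u * t - 1) * t ^ 2 * ((1 - S) ^ 3 * H23 - (1 - S) * G23) =
      (t - 1) * (t - (1 - S)) * kkkp t u S := by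
    rw [kk_kap2 hS]
    linear_combination (1 - S) * h23 - (1 - S) * t ^ 2 * g23
  have x1 : (G14 - t * G13) * ((1 - S) ^ 3 * H23 - (1 - S) * G23) =
      (1 - t) * G13 * (G24 - (1 - S) * G23) := by
    linear_combination ((1 - S) ^ 3 * H23 - (1 - S) * G23) * u1 - (1 - t) * G13 * u2
      - lam * ((1 - S) ^ 3 * H23 - (1 - S) * G23) * d13
  have x2 : (t ^ 4 * H14 - t * G13) * ((1 - S) ^ 3 * H23 - (1 - S) * G23) =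
      (1 - t) * G13 * ((1 - S) ^ 4 * H24 - (1 - S) * G23) := by
    linear_combination ((1 - S) ^ 3 * H23 - (1 - S) * G23) * v1 - (1 - t) * G13 * v2
      - mu * ((1 - S) ^ 3 * H23 - (1 - S) * G23) * d13
  have q1 : (t - 1) * (t - (1 - S)) * kkkp t u S * (t + (1 - t) * w
        - t * (t + (1 - t) * (-(t * (1 - S))))) =
      t ^ 2 * (1 - t) * (t + (1 - t) * (-(t * (1 - S)))) *
        (kkg t u S w - (1 - S) * kkg t u S (-(t * (1 - S)))) := by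
    rw [← hka, ← g24, ← g23, ← g13, ← g14]
    linear_combination (t - 1) * (u * t - 1) * t ^ 2 * x1
  have q2 : (t - 1) * (t - (1 - S)) * kkkp t u S * (t ^ 3 * (w + t - 1) * w
        - t * (t + (1 - t) * (-(t * (1 - S)))) * w ^ 2) =
      t ^ 2 * (1 - t) * (t + (1 - t) * (-(t * (1 - S)))) *
        ((1 - S) ^ 4 * kkh t u S w - (1 - S) * kkg t u S (-(t * (1 - S))) * w ^ 2) := by
    rw [← hka, ← h24, ← g23, ← g13, ← h14]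
    linear_combination (t - 1) * (u * t - 1) * t ^ 2 * w ^ 2 * x2
  have hne : ((t - 1) * (t - (1 - S))) ^ 2 ≠ 0 := pow_ne_zero 2 (mul_ne_zero ht1 htT)
  rw [kkkp, kkg, kkg] at q1
  rw [kkkp, kkh, kkg] at q2
  constructor
  · apply mul_left_cancel₀ hne
    rw [kkE1]
    linear_combination q1 + (t ^ 9 * S ^ 3 - 3 * t ^ 9 * S ^ 2 + 2 * t ^ 9 * S - 3 * t ^ 8 * S ^ 3 + 6 * t ^ 8 * S ^ 2 - 3 * t ^ 8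
      + t ^ 7 * u * S + t ^ 7 * w ^ 2 - t ^ 7 * w + 3 * t ^ 7 * S ^ 3 - 2 * t ^ 7 * S ^ 2 - 7 * t ^ 7 * S
      + 5 * t ^ 7 - 2 * t ^ 6 * u * S - 2 * t ^ 6 * u - 3 * t ^ 6 * w ^ 2 + t ^ 6 * w - t ^ 6 * S ^ 3
      - t ^ 6 * S ^ 2 + 4 * t ^ 6 * S - t ^ 6 - 2 * t ^ 5 * u * w + t ^ 5 * u * S + 5 * t ^ 5 * u
      + 4 * t ^ 5 * w ^ 2 - t ^ 5 * w * S + t ^ 5 * w - t ^ 5 * S ^ 2 + t ^ 5 * S + t ^ 5 - t ^ 4 * u * w * S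
      + 5 * t ^ 4 * u * w - 4 * t ^ 4 * u - 3 * t ^ 4 * w ^ 2 + t ^ 4 * w * S + t ^ 4 * S ^ 2
      + 2 * t ^ 4 * S - 4 * t ^ 4 + 2 * t ^ 3 * u * w * S - 4 * t ^ 3 * u * w + t ^ 3 * u + t ^ 3 * w ^ 2
      + t ^ 3 * w * S - 2 * t ^ 3 * w - 2 * t ^ 3 * S + 2 * t ^ 3 - t ^ 2 * u * w * S + t ^ 2 * u * w
      - t ^ 2 * w * S + t ^ 2 * w) * hS
  · apply mul_left_cancel₀ (mul_ne_zero hne (pow_ne_zero 2 ht0))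
    rw [kkE2]
    linear_combination q2 + (t ^ 9 * w ^ 2 * S ^ 3 - 3 * t ^ 9 * w ^ 2 * S ^ 2 + 2 * t ^ 9 * w ^ 2 * S + t ^ 9 * w - 3 * t ^ 8 * w ^ 2 * S ^ 3
      + 6 * t ^ 8 * w ^ 2 * S ^ 2 - 2 * t ^ 8 * w ^ 2 + t ^ 8 * w * S - 2 * t ^ 8 * w + t ^ 7 * u * w ^ 2 * S ^ 4
      - 4 * t ^ 7 * u * w ^ 2 * S ^ 3 + 5 * t ^ 7 * u * w ^ 2 * S ^ 2 - t ^ 7 * u * w ^ 2 - t ^ 7 * u * w * S ^ 4
      + 4 * t ^ 7 * u * w * S ^ 3 - 5 * t ^ 7 * u * w * S ^ 2 + t ^ 7 * u * w * S + t ^ 7 * u * S ^ 3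
      - 4 * t ^ 7 * u * S ^ 2 + 5 * t ^ 7 * u * S - t ^ 7 * u + 4 * t ^ 7 * w ^ 2 * S ^ 3 - 6 * t ^ 7 * w ^ 2 * S ^ 2
      - t ^ 7 * w ^ 2 * S + 3 * t ^ 7 * w ^ 2 - t ^ 7 * w * S ^ 3 + 4 * t ^ 7 * w * S ^ 2 - 6 * t ^ 7 * w * S
      + 2 * t ^ 7 * w - 3 * t ^ 6 * u * w ^ 2 * S ^ 4 + 11 * t ^ 6 * u * w ^ 2 * S ^ 3 - 12 * t ^ 6 * u * w ^ 2 * S ^ 2
      - t ^ 6 * u * w ^ 2 * S + 3 * t ^ 6 * u * w ^ 2 + 2 * t ^ 6 * u * w * S ^ 4 - 6 * t ^ 6 * u * w * S ^ 3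
      + 3 * t ^ 6 * u * w * S ^ 2 + 4 * t ^ 6 * u * w * S - t ^ 6 * u * w + t ^ 6 * u * S ^ 4
      - 8 * t ^ 6 * u * S ^ 3 + 20 * t ^ 6 * u * S ^ 2 - 18 * t ^ 6 * u * S + 3 * t ^ 6 * u
      - 5 * t ^ 6 * w ^ 2 * S ^ 3 + 14 * t ^ 6 * w ^ 2 * S ^ 2 - 13 * t ^ 6 * w ^ 2 * S + t ^ 6 * w ^ 2
      + 3 * t ^ 6 * w * S ^ 3 - 11 * t ^ 6 * w * S ^ 2 + 12 * t ^ 6 * w * S - 3 * t ^ 6 * w
      + 3 * t ^ 5 * u * w ^ 2 * S ^ 4 - 10 * t ^ 5 * u * w ^ 2 * S ^ 3 + 9 * t ^ 5 * u * w ^ 2 * S ^ 2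
      + 3 * t ^ 5 * u * w ^ 2 * S - 4 * t ^ 5 * u * w ^ 2 - 4 * t ^ 5 * u * w * S ^ 3 + 14 * t ^ 5 * u * w * S ^ 2
      - 13 * t ^ 5 * u * w * S + 2 * t ^ 5 * u * w - 3 * t ^ 5 * u * S ^ 4 + 17 * t ^ 5 * u * S ^ 3
      - 33 * t ^ 5 * u * S ^ 2 + 23 * t ^ 5 * u * S - 3 * t ^ 5 * u + 6 * t ^ 5 * w ^ 2 * S ^ 3
      - 22 * t ^ 5 * w ^ 2 * S ^ 2 + 22 * t ^ 5 * w ^ 2 * S - 4 * t ^ 5 * w ^ 2 - 3 * t ^ 5 * w * S ^ 3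
      + 10 * t ^ 5 * w * S ^ 2 - 10 * t ^ 5 * w * S + 3 * t ^ 5 * w - t ^ 4 * u * w ^ 2 * S ^ 4
      + 3 * t ^ 4 * u * w ^ 2 * S ^ 3 - 2 * t ^ 4 * u * w ^ 2 * S ^ 2 - 3 * t ^ 4 * u * w ^ 2 * S
      + 3 * t ^ 4 * u * w ^ 2 - 2 * t ^ 4 * u * w * S ^ 4 + 10 * t ^ 4 * u * w * S ^ 3 - 17 * t ^ 4 * u * w * S ^ 2
      + 10 * t ^ 4 * u * w * S - t ^ 4 * u * w + 3 * t ^ 4 * u * S ^ 4 - 14 * t ^ 4 * u * S ^ 3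
      + 22 * t ^ 4 * u * S ^ 2 - 12 * t ^ 4 * u * S + t ^ 4 * u - 4 * t ^ 4 * w ^ 2 * S ^ 3
      + 14 * t ^ 4 * w ^ 2 * S ^ 2 - 13 * t ^ 4 * w ^ 2 * S + 3 * t ^ 4 * w ^ 2 + t ^ 4 * w * S ^ 3
      - 3 * t ^ 4 * w * S ^ 2 + 3 * t ^ 4 * w * S - t ^ 4 * w + t ^ 3 * u * w ^ 2 * S - t ^ 3 * u * w ^ 2
      + t ^ 3 * u * w * S ^ 4 - 4 * t ^ 3 * u * w * S ^ 3 + 5 * t ^ 3 * u * w * S ^ 2 - 2 * t ^ 3 * u * w * S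
      - t ^ 3 * u * S ^ 4 + 4 * t ^ 3 * u * S ^ 3 - 5 * t ^ 3 * u * S ^ 2 + 2 * t ^ 3 * u * S
      + t ^ 3 * w ^ 2 * S ^ 3 - 3 * t ^ 3 * w ^ 2 * S ^ 2 + 3 * t ^ 3 * w ^ 2 * S - t ^ 3 * w ^ 2) * hS

end Pool.Agent.Helper36.IP
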