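import Mathlib

/-!
TH-P, N branch, state KK (`kap_1^(2) = 0` on both sides): scalar lemmas, generated.
`t = t_1, u = s_1, S = s_2, T = t_2 = 1 - S, S ^ 2 - S + 1 = 0`.
-/

namespace Pool.Agent.Helper36.IP

variable {F : Type*} [Field F]

/-- the polynomial `F41` of KK. -/
def kkF (t u S : F) : F := - t ^ 6 + (2 - S) * t ^ 5 * u - S * t ^ 5 + (2 - S) * t ^ 4 * u + t ^ 3 * u + (1 + S) * t ^ 2 * u
      - (1 - S) * t * u ^ 2 + (1 + S) * t * u - u ^ 2

def kkE1 (t u S w : F) : F := - t ^ 4 + (2 - S) * t ^ 3 * u + t ^ 3 * w ^ 2 - (1 + S) * t ^ 3 * w - S * t ^ 3 + (1 - S) * t ^ 2 * u * w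
      + (2 - S) * t ^ 2 * u - (1 + S) * t ^ 2 * w + t * u * w + t * u + u * w

def kkE2 (t u S w : F) : F := S * t ^ 4 * w + S * t ^ 3 * w ^ 2 + S * t ^ 3 * w - (1 + S) * t ^ 2 * u * w + (2 * S - 1) * t ^ 2 * w ^ 2
      + (S - 1) * t ^ 2 * w - t * u * w ^ 2 - (1 + S) * t * u * w + S * t * u + (2 * S - 1) * t * w ^ 2
      - S * u * w ^ 2

def kkB1 (t S w : F) : F := (2 - S) * t ^ 3 + (1 - S) * t ^ 2 * w + (2 - S) * t ^ 2 + t * w + t + w

def kkB2 (t S w : F) : F := -(1 + S) * t ^ 2 * w - t * w ^ 2 - (1 + S) * t * w + S * t - S * w ^ 2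

def kkK (t S w : F) : F := -(1 + S) * t ^ 4 * w - t ^ 3 * w ^ 2 - (1 + S) * t ^ 3 * w - S * t ^ 2 * w ^ 2 - S * t ^ 2 * w
      - S * t ^ 2 + (1 - 2 * S) * t * w + (1 - S) * t + (1 - 2 * S) * w

def kkg (t u S w : F) : F := (1 - t * S) * w * (t + (1 - t) * w) + (u * t - u - (1 - S)) * (w + t - 1)

def kkh (t u S w : F) : F := (1 - t - u * t * S) * w * (t + (1 - t) * w)
  + u * (t + S - 1) * (w + t - 1)

def kkkp (t u S : F) : F := S * t ^ 4 + (S - 1) * t ^ 3 - (1 + S) * t ^ 2 * u + (S - 2) * t ^ 2 - S * t * u + (1 - S) * u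

theorem kk_flat {t u S w : F} (hS : S ^ 2 - S + 1 = 0) (hS1 : 1 - S ≠ 0) (ht0 : t ≠ 0)
    (hw1 : w - 1 ≠ 0) (hwS : w - S ≠ 0) (hw3 : w + t * (1 - S) ≠ 0) (hw0 : w ≠ 0)
    (h1 : kkE1 t u S w = 0) (h2 : kkE2 t u S w = 0) :
    w = - (S * t) ∨ (t ^ 3 * w = - u ∧ kkF t u S = 0) := by
  have hS0 : S ≠ 0 := by
    rintro rfl
    apply one_ne_zero (α := F)
    linear_combination hS
  rw [or_iff_not_imp_left]
  intro hwt
  have hwt' : w + S * t ≠ 0 := fun h => hwt (by linear_combination h)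
  have hK : kkK t S w = 0 := by
    have : t * (w + t * (1 - S)) * (w + S * t) * kkK t S w = 0 := by
      rw [kkE1] at h1
      rw [kkE2] at h2
      rw [kkK]
      linear_combination (-(1 + S) * t ^ 2 * w - t * w ^ 2 - (1 + S) * t * w + S * t - S * w ^ 2) * h1
        - ((2 - S) * t ^ 3 + (1 - S) * t ^ 2 * w + (2 - S) * t ^ 2 + t * w + t + w) * h2
        - (- t ^ 7 * w * S + t ^ 6 * w ^ 2 - t ^ 6 * w * S + t ^ 6 * w + t ^ 5 * w ^ 3 - t ^ 5 * w ^ 2 * S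
      + 5 * t ^ 5 * w ^ 2 - t ^ 5 * w * S + 3 * t ^ 5 * w - t ^ 5 * S + 2 * t ^ 4 * w ^ 3 + 7 * t ^ 4 * w ^ 2
      - 2 * t ^ 4 * w * S + 2 * t ^ 4 * w - t ^ 4 * S + 3 * t ^ 3 * w ^ 3 + 4 * t ^ 3 * w ^ 2
      - 2 * t ^ 3 * w * S + t ^ 2 * w ^ 3) * hS
    exact (mul_eq_zero.1 this).resolve_left (mul_ne_zero (mul_ne_zero ht0 hw3) hwt')
  have m1 : kkB1 t S w * (u + t ^ 3 * w) = 0 := by
    rw [kkE1] at h1
    rw [kkK] at hK
    rw [kkB1]
    linear_combination h1 - (1 - S) * t ^ 2 * hK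
      - (- t ^ 6 * w - t ^ 5 * w - t ^ 4 * w ^ 2 - t ^ 4 * w - t ^ 4 - 2 * t ^ 3 * w - t ^ 3 - 2 * t ^ 2 * w) * hS
  have m2 : kkB2 t S w * (u + t ^ 3 * w) = 0 := by
    rw [kkE2] at h2
    rw [kkK] at hK
    rw [kkB2]
    linear_combination h2 + t * w * hK
  have hu : u + t ^ 3 * w = 0 := by
    by_contra hne
    have hB1 := (mul_eq_zero.1 m1).resolve_right hne
    have hB2 := (mul_eq_zero.1 m2).resolve_right hne
    have hA1 : - t ^ 2 + t * w ^ 2 - (1 + S) * t * w - S * t - (1 + S) * w = 0 := by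
      rw [kkE1] at h1
      rw [kkB1] at hB1
      apply mul_left_cancel₀ (pow_ne_zero 2 ht0)
      linear_combination h1 - u * hB1
    have hA2 : S * t ^ 3 + S * t ^ 2 * w + S * t ^ 2 + (2 * S - 1) * t * w + (S - 1) * t + (2 * S - 1) * w = 0 := by
      rw [kkE2] at h2
      rw [kkB2] at hB2
      apply mul_left_cancel₀ (mul_ne_zero ht0 hw0)
      linear_combination h2 - u * hB2
    rw [kkB1] at hB1
    have htp : t + 1 ≠ 0 := by
      intro h
      apply hwS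
      have ht : t = -1 := by linear_combination h
      rw [ht] at hB1
      linear_combination S * hB1 + (w) * hS
    have hz : t ^ 2 + t + 1 = 0 := by
      have : S * (t * (t + 1) ^ 2 * (t ^ 2 + t + 1)) = 0 := by
        linear_combination (S * t ^ 2 + (2 * S - 1) * t + (2 * S - 1)) * hB1
          - ((1 - S) * t ^ 2 + t + 1) * hA2
          + (2 * t ^ 4 + 3 * t ^ 3 + 2 * t ^ 2) * hS
      exact (mul_eq_zero.1 ((mul_eq_zero.1 this).resolve_left hS0)).resolve_left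
        (mul_ne_zero ht0 (pow_ne_zero 2 htp))
    have hw : w = S * t ^ 2 := by
      linear_combination (-(t * (1 - S))) * hB1
        + (w + t * (1 - S) * ((1 - S) * w + (2 - S) * t)) * hz
        + (- t ^ 2 * w - t ^ 2 - t * w) * hS
    rw [hw] at hA1
    have ht : t = S - 2 := by
      linear_combination hA1 - (t ^ 3 * S ^ 2 - t ^ 2 * S ^ 2 - t * S ^ 2 - t * S + S ^ 2 - 1) * hz
        + (1) * hS
    have two : (2 : F) = 0 := by
      apply mul_right_cancel₀ hS1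
      linear_combination hz - (t + S - 1) * ht + (- 1) * hS
    apply hw1
    rw [hw, ht]
    linear_combination two + (S - 3) * hS
  refine ⟨by linear_combination hu, ?_⟩
  rw [kkE1] at h1
  rw [kkF]
  linear_combination t ^ 2 * h1 - (t ^ 2 * w - t ^ 2 * S - t ^ 2 - t * u * S + t * u - t * S - t + u) * hu

end Pool.Agent.Helper36.IP
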