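import Mathlib

/-!
TH-P, N branch, state (10)/(10): polynomial facts on the surface `F1 = F1s = 0`
(`t = t_1, T = t_2, u = s_1, z = t_2 s_2`).
-/

set_option linter.unusedVariables false

namespace Pool.Agent.Helper36.IP

variable {F : Type*} [Field F]

theorem factR1 {t u T z M al de : F}
    (hu0 : u ≠ 0)
    (ht0 : t ≠ 0)
    (hT0 : T ≠ 0)
    (ht1 : t - 1 ≠ 0)
    (hz1 : z - 1 ≠ 0)
    (hu1 : u + 1 ≠ 0)
    (htu : t - u ≠ 0)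
    (hM : M ≠ 0) (hMd : M = t * u * (t * u + t + u) + z * (t + u + 1))
    (hal : al = (t * T * (t * u + t + u) - t * (t * u) - z * (u + 1)) / ((t - 1) * M))
    (hde : de = (t * u * (T * (t * (t * u + t + u) - t * u + z) - (t + u + 1) * z)) / (T * (t - 1) * M))
    (hF1 : t ^ 2 * T * z + t * T * z - t ^ 2 * z - t ^ 2 * T * u + t * u * z - T * u * z - z ^ 2 + u * z = 0)
    (hF2 : u ^ 2 * z + u * z - u ^ 2 * t - t * z + T * (t + t * u - u ^ 2 - z) = 0) :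
    z ^ 2 * (al * (t ^ 3 - 1) + 1) = T ^ 3 * (t ^ 3 - de * (t ^ 3 - 1)) := by
  have id : z ^ 2 * (al * (t ^ 3 - 1) + 1) - (T ^ 3 * (t ^ 3 - de * (t ^ 3 - 1)))
      = ((t) * ((t ^ 2 * u * z - t ^ 2 * T ^ 2 + t * u * z - t * T ^ 2 + u ^ 2 * T ^ 2 - u ^ 2 * T * z - u ^ 2 * z + u * T ^ 2 - u * T * z + T ^ 2 * z) * (t ^ 2 * T * z + t * T * z - t ^ 2 * z - t ^ 2 * T * u + t * u * z - T * u * z - z ^ 2 + u * z) + (-t ^ 3 * T * z + t ^ 2 * T ^ 2 * z - t ^ 2 * T * z + t * u * T * z + t * T ^ 2 * z + t * z ^ 2 - u * T ^ 2 * z - T * z ^ 2) * (u ^ 2 * z + u * z - u ^ 2 * t - t * z + T * (t + t * u - u ^ 2 - z)))) /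
        ((t - u) * (M)) := by
    rw [hal, hde]
    field_simp
    rw [hMd]
    ring
  rw [hF1, hF2] at id
  have id2 : z ^ 2 * (al * (t ^ 3 - 1) + 1) - (T ^ 3 * (t ^ 3 - de * (t ^ 3 - 1))) = 0 := by
    rw [id]
    simp
  exact sub_eq_zero.1 id2

theorem factR2 {t u T z M al g h : F}
    (hu0 : u ≠ 0)
    (ht0 : t ≠ 0)
    (hT0 : T ≠ 0)
    (ht1 : t - 1 ≠ 0)
    (hz1 : z - 1 ≠ 0)
    (hu1 : u + 1 ≠ 0)
    (htu : t - u ≠ 0)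
    (hM : M ≠ 0) (hMd : M = t * u * (t * u + t + u) + z * (t + u + 1))
    (hal : al = (t * T * (t * u + t + u) - t * (t * u) - z * (u + 1)) / ((t - 1) * M))
    (hg : g = ((t + u) * z - t ^ 2 * (u + 1)) / (t ^ 2 * (u + 1) * (z - 1)))
    (hh : h = ((t - 1) * (t + u + 1)) / ((u + 1) * (z - 1)))
    (hF1 : t ^ 2 * T * z + t * T * z - t ^ 2 * z - t ^ 2 * T * u + t * u * z - T * u * z - z ^ 2 + u * z = 0)
    (hF2 : u ^ 2 * z + u * z - u ^ 2 * t - t * z + T * (t + t * u - u ^ 2 - z) = 0) :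
    T * (al * t ^ 2 * (1 + g * (t - 1)) + (1 - al) * (1 + h * (t - 1))) = t * (al * (t ^ 3 - 1) + 1) * (1 + g * (T - 1)) := by
  have id : T * (al * t ^ 2 * (1 + g * (t - 1)) + (1 - al) * (1 + h * (t - 1))) - (t * (al * (t ^ 3 - 1) + 1) * (1 + g * (T - 1)))
      = ((t ^ 2 * u + t ^ 2 - t - u) * ((-t ^ 2 * u - t * u + u ^ 2 + u * T) * (t ^ 2 * T * z + t * T * z - t ^ 2 * z - t ^ 2 * T * u + t * u * z - T * u * z - z ^ 2 + u * z) + (t ^ 3 * T - t * z) * (u ^ 2 * z + u * z - u ^ 2 * t - t * z + T * (t + t * u - u ^ 2 - z)))) /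
        ((t - u) * ((u + 1) * (z - 1) * M)) := by
    rw [hal, hg, hh]
    field_simp
    rw [hMd]
    ring
  rw [hF1, hF2] at id
  have id2 : T * (al * t ^ 2 * (1 + g * (t - 1)) + (1 - al) * (1 + h * (t - 1))) - (t * (al * (t ^ 3 - 1) + 1) * (1 + g * (T - 1))) = 0 := by
    rw [id]
    simp
  exact sub_eq_zero.1 id2

theorem factR3 {t u T z M de g h : F}
    (hu0 : u ≠ 0)
    (ht0 : t ≠ 0)
    (hT0 : T ≠ 0)
    (ht1 : t - 1 ≠ 0)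
    (hz1 : z - 1 ≠ 0)
    (hu1 : u + 1 ≠ 0)
    (htu : t - u ≠ 0)
    (hM : M ≠ 0) (hMd : M = t * u * (t * u + t + u) + z * (t + u + 1))
    (hde : de = (t * u * (T * (t * (t * u + t + u) - t * u + z) - (t + u + 1) * z)) / (T * (t - 1) * M))
    (hg : g = ((t + u) * z - t ^ 2 * (u + 1)) / (t ^ 2 * (u + 1) * (z - 1)))
    (hh : h = ((t - 1) * (t + u + 1)) / ((u + 1) * (z - 1)))
    (hF1 : t ^ 2 * T * z + t * T * z - t ^ 2 * z - t ^ 2 * T * u + t * u * z - T * u * z - z ^ 2 + u * z = 0)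
    (hF2 : u ^ 2 * z + u * z - u ^ 2 * t - t * z + T * (t + t * u - u ^ 2 - z) = 0) :
    t * ((1 - de) * t ^ 2 * (1 + g * (t - 1)) + de * (1 + h * (t - 1))) = (t ^ 3 - de * (t ^ 3 - 1)) * (1 + h * (T - 1)) := by
  have id : t * ((1 - de) * t ^ 2 * (1 + g * (t - 1)) + de * (1 + h * (t - 1))) - ((t ^ 3 - de * (t ^ 3 - 1)) * (1 + h * (T - 1)))
      = ((t ^ 3 + t ^ 2 * u - t * u - t) * ((-t ^ 2 * u - t ^ 2 * T + t * u * T + u * T) * (t ^ 2 * T * z + t * T * z - t ^ 2 * z - t ^ 2 * T * u + t * u * z - T * u * z - z ^ 2 + u * z) + (t ^ 2 * u * T - u * z) * (u ^ 2 * z + u * z - u ^ 2 * t - t * z + T * (t + t * u - u ^ 2 - z)))) /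
        ((t - u) * ((T) * (z - 1) * M * (u + 1))) := by
    rw [hde, hg, hh]
    field_simp
    rw [hMd]
    ring
  rw [hF1, hF2] at id
  have id2 : t * ((1 - de) * t ^ 2 * (1 + g * (t - 1)) + de * (1 + h * (t - 1))) - ((t ^ 3 - de * (t ^ 3 - 1)) * (1 + h * (T - 1))) = 0 := by
    rw [id]
    simp
  exact sub_eq_zero.1 id2

theorem factR4 {t u T z D A mu : F}
    (hu0 : u ≠ 0)
    (ht0 : t ≠ 0)
    (hT0 : T ≠ 0)
    (ht1 : t - 1 ≠ 0)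
    (hz1 : z - 1 ≠ 0)
    (hu1 : u + 1 ≠ 0)
    (htu : t - u ≠ 0)
    (hD : D ≠ 0) (hDd : D = (T - 1) * (T * (t * u + t + u) + (t + u + 1) * z) - T * (t + u) * (z - 1))
    (hA : A = (-(T * u * (t + u) * (z - 1) * (u + 1)) + T * (t * u + t + u) * (z - u) + u ^ 2 * (t + u + 1) * z * (T - 1)) / (u ^ 2 * D))
    (hmu : mu = T * (-(t * u ^ 2) + t * u * T + t * T - t * z - u ^ 3 + u * T) / D)
    (hF1 : t ^ 2 * T * z + t * T * z - t ^ 2 * z - t ^ 2 * T * u + t * u * z - T * u * z - z ^ 2 + u * z = 0)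
    (hF2 : u ^ 2 * z + u * z - u ^ 2 * t - t * z + T * (t + t * u - u ^ 2 - z) = 0) :
    u ^ 3 * (A * T ^ 3 + (1 - A) * z) = (1 - mu) * T ^ 3 + mu * z := by
  have id : u ^ 3 * (A * T ^ 3 + (1 - A) * z) - ((1 - mu) * T ^ 3 + mu * z)
      = ((u * T - T) * ((u ^ 3 - u ^ 2 * T - u * T + T ^ 2) * (t ^ 2 * T * z + t * T * z - t ^ 2 * z - t ^ 2 * T * u + t * u * z - T * u * z - z ^ 2 + u * z) + (-t * u ^ 2 * T + t * z + u ^ 2 * T ^ 2 - T * z) * (u ^ 2 * z + u * z - u ^ 2 * t - t * z + T * (t + t * u - u ^ 2 - z)))) /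
        ((t - u) * (D)) := by
    rw [hA, hmu]
    field_simp
    rw [hDd]
    ring
  rw [hF1, hF2] at id
  have id2 : u ^ 3 * (A * T ^ 3 + (1 - A) * z) - ((1 - mu) * T ^ 3 + mu * z) = 0 := by
    rw [id]
    simp
  exact sub_eq_zero.1 id2

theorem factR5 {t u T z D A g h : F}
    (hu0 : u ≠ 0)
    (ht0 : t ≠ 0)
    (hT0 : T ≠ 0)
    (ht1 : t - 1 ≠ 0)
    (hz1 : z - 1 ≠ 0)
    (hu1 : u + 1 ≠ 0)
    (htu : t - u ≠ 0)
    (hD : D ≠ 0) (hDd : D = (T - 1) * (T * (t * u + t + u) + (t + u + 1) * z) - T * (t + u) * (z - 1))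
    (hA : A = (-(T * u * (t + u) * (z - 1) * (u + 1)) + T * (t * u + t + u) * (z - u) + u ^ 2 * (t + u + 1) * z * (T - 1)) / (u ^ 2 * D))
    (hg : g = ((t + u) * z - t ^ 2 * (u + 1)) / (t ^ 2 * (u + 1) * (z - 1)))
    (hh : h = ((t - 1) * (t + u + 1)) / ((u + 1) * (z - 1)))
    (hF1 : t ^ 2 * T * z + t * T * z - t ^ 2 * z - t ^ 2 * T * u + t * u * z - T * u * z - z ^ 2 + u * z = 0)
    (hF2 : u ^ 2 * z + u * z - u ^ 2 * t - t * z + T * (t + t * u - u ^ 2 - z) = 0) :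
    z / u * (A * (z / t) * T ^ 2 * (1 + g * (T - 1)) + (1 - A) * (z / t) ^ 2 * (1 + h * (T - 1))) = z * (A * T ^ 3 + (1 - A) * z) * (1 + g * (z / u - 1)) := by
  have id : z / u * (A * (z / t) * T ^ 2 * (1 + g * (T - 1)) + (1 - A) * (z / t) ^ 2 * (1 + h * (T - 1))) - (z * (A * T ^ 3 + (1 - A) * z) * (1 + g * (z / u - 1)))
      = ((t * T * z ^ 2 - T * z ^ 2) * ((t ^ 2 * u ^ 3 * z - t ^ 2 * u ^ 2 * z - t ^ 2 * u * T * z + t ^ 2 * T * z - t * u ^ 5 * z + t * u ^ 4 * T ^ 2 + t * u ^ 3 * T * z - t * u ^ 2 * T ^ 2 - t * u * T ^ 2 * z + t * u * T * z - u ^ 5 * T ^ 2 + u ^ 5 * T * z + u ^ 5 * T - u ^ 5 * z + u ^ 4 * T * z - u ^ 4 * z - u ^ 3 * T ^ 2 * z + u ^ 3 * T * z) * (t ^ 2 * T * z + t * T * z - t ^ 2 * z - t ^ 2 * T * u + t * u * z - T * u * z - z ^ 2 + u * z) + (t ^ 3 * u ^ 3 * T * z - t ^ 3 * u ^ 3 * z - t ^ 3 * u ^ 2 * T * z - t ^ 3 * u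 * T ^ 2 * z + t ^ 3 * u * T * z + t ^ 3 * T ^ 2 * z + t ^ 2 * u ^ 4 * z - t ^ 2 * u ^ 3 * T ^ 2 * z + 3 * t ^ 2 * u ^ 3 * T * z - 2 * t ^ 2 * u ^ 3 * z - t ^ 2 * z ^ 2 - t * u ^ 4 * T ^ 2 - 2 * t * u ^ 4 * T * z + 2 * t * u ^ 4 * z - t * u ^ 3 * T ^ 2 * z + 3 * t * u ^ 3 * T * z - t * u ^ 3 * z ^ 2 - t * u ^ 3 * z + t * u ^ 2 * z ^ 2 + t * u * T * z ^ 2 - t * u * z ^ 2 + u ^ 4 * T ^ 2 * z - 2 * u ^ 4 * T * z + u ^ 4 * z - u ^ 3 * T ^ 2 * z + u ^ 3 * T * z ^ 2 + u ^ 3 * T * z - u ^ 3 * z ^ 2) * (u ^ 2 * z + u * z - u ^ 2 * t - t * z + T * (t + t * u - u ^ 2 - z)))) /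
        ((t - u) * ((t) ^ 3 * (u) ^ 3 * (z - 1) * (u + 1) * D)) := by
    rw [hA, hg, hh]
    field_simp
    rw [hDd]
    ring
  rw [hF1, hF2] at id
  have id2 : z / u * (A * (z / t) * T ^ 2 * (1 + g * (T - 1)) + (1 - A) * (z / t) ^ 2 * (1 + h * (T - 1))) - (z * (A * T ^ 3 + (1 - A) * z) * (1 + g * (z / u - 1))) = 0 := by
    rw [id]
    simp
  exact sub_eq_zero.1 id2

theorem factR6 {t u T z D mu g h : F}
    (hu0 : u ≠ 0)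
    (ht0 : t ≠ 0)
    (hT0 : T ≠ 0)
    (ht1 : t - 1 ≠ 0)
    (hz1 : z - 1 ≠ 0)
    (hu1 : u + 1 ≠ 0)
    (htu : t - u ≠ 0)
    (hD : D ≠ 0) (hDd : D = (T - 1) * (T * (t * u + t + u) + (t + u + 1) * z) - T * (t + u) * (z - 1))
    (hmu : mu = T * (-(t * u ^ 2) + t * u * T + t * T - t * z - u ^ 3 + u * T) / D)
    (hg : g = ((t + u) * z - t ^ 2 * (u + 1)) / (t ^ 2 * (u + 1) * (z - 1)))
    (hh : h = ((t - 1) * (t + u + 1)) / ((u + 1) * (z - 1)))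
    (hF1 : t ^ 2 * T * z + t * T * z - t ^ 2 * z - t ^ 2 * T * u + t * u * z - T * u * z - z ^ 2 + u * z = 0)
    (hF2 : u ^ 2 * z + u * z - u ^ 2 * t - t * z + T * (t + t * u - u ^ 2 - z) = 0) :
    t ^ 2 * ((1 - mu) * T ^ 2 * (1 + g * (T - 1)) + mu * (z / t) * (1 + h * (T - 1))) = ((1 - mu) * T ^ 3 + mu * z) * (1 + h * (z / u - 1)) := by
  have id : t ^ 2 * ((1 - mu) * T ^ 2 * (1 + g * (T - 1)) + mu * (z / t) * (1 + h * (T - 1))) - (((1 - mu) * T ^ 3 + mu * z) * (1 + h * (z / u - 1)))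
      = ((t * T - T) * ((t * u ^ 3 * T ^ 2 - t * u ^ 3 * z - t * u ^ 2 * T ^ 2 + 2 * t * u * T * z - t * T ^ 2 * z + u ^ 5 * T - u ^ 4 * T ^ 2 + u ^ 4 * T * z - u ^ 4 * z - u ^ 3 * z - u ^ 2 * T ^ 2 * z + u ^ 2 * T * z + u * T ^ 2 * z + u * T * z - T ^ 2 * z) * (t ^ 2 * T * z + t * T * z - t ^ 2 * z - t ^ 2 * T * u + t * u * z - T * u * z - z ^ 2 + u * z) + (t ^ 3 * u * T * z - t ^ 3 * u * z - t ^ 2 * u ^ 2 * T ^ 2 * z + 2 * t ^ 2 * u ^ 2 * T * z - t ^ 2 * u ^ 2 * z + t ^ 2 * u * T * z - t ^ 2 * z ^ 2 - t * u ^ 4 * T ^ 2 - t * u ^ 3 * T * z + t * u ^ 3 * z - t * u ^ 2 * T ^ 2 * z + 2 * t * u ^ 2 * T * z + t * T * z ^ 2 - t * z ^ 2 + u ^ 4 * z + u ^ 3 * T ^ 2 * z - u ^ 3 * T * z - u ^ 2 * T ^ 2 * z + u ^ 2 * T * z ^ 2 - u ^ 2 * z ^ 2 - u * T * z ^ 2 + T * z ^ 2) * (u ^ 2 * z + u * z - u ^ 2 * t - t * z + T * (t + t * u - u ^ 2 - z)))) /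
        ((t - u) * ((u) * (u + 1) * (z - 1) * D)) := by
    rw [hmu, hg, hh]
    field_simp
    rw [hDd]
    ring
  rw [hF1, hF2] at id
  have id2 : t ^ 2 * ((1 - mu) * T ^ 2 * (1 + g * (T - 1)) + mu * (z / t) * (1 + h * (T - 1))) - (((1 - mu) * T ^ 3 + mu * z) * (1 + h * (z / u - 1))) = 0 := by
    rw [id]
    simp
  exact sub_eq_zero.1 id2

end Pool.Agent.Helper36.IP
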