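import Pool.Agent.Helper36.IP.PartG
import Pool.Agent.Helper36.IP.SFacts

/-!
TH-P, N branch, state (10)/(10): the virtual closing column `z` (scalar part).
-/

namespace Pool.Agent.Helper36.IP

variable {F : Type*} [Field F]

/-- `G(2,s)` through `G(1,s), H(1,s)`. -/
theorem q2_of {x y al s G1 H1 : F} (hG : q1 x s = G1) (hs : s ≠ 0) (hH : q1 y s⁻¹ = H1) :
    q2 x y al s = s * (al * G1 + (1 - al) * H1) := by
  rw [q2, ← hG, ← hH, q1, q1]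
  field_simp

/-- `s^2 H(2,s)` through `G(1,s), H(1,s)`. -/
theorem r2_of {x y de s G1 H1 : F} (hG : q1 x s = G1) (hs : s ≠ 0) (hH : q1 y s⁻¹ = H1) :
    r2 x y de s = s * ((1 - de) * G1 + de * H1) := by
  rw [r2, ← hG, ← hH, q1, q1]
  field_simp

theorem q2i_of {x y de s G1 H1 : F} (hG : q1 x s = G1) (hs : s ≠ 0) (hH : q1 y s⁻¹ = H1) :
    s * q2 y x de s⁻¹ = (1 - de) * G1 + de * H1 := by
  rw [q2, ← hG, ← hH, q1, q1]
  field_simp
  ring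

theorem r2i_of {x y al s G1 H1 : F} (hG : q1 x s = G1) (hs : s ≠ 0) (hH : q1 y s⁻¹ = H1) :
    s * r2 y x al s⁻¹ = al * G1 + (1 - al) * H1 := by
  rw [r2, ← hG, ← hH, q1, q1]
  field_simp
  ring

/-- `G(3,s)` through `G(2,s), H(2,s)`. -/
theorem q3_of {x y al de A s G2 H2 : F} (hs : s ≠ 0) (hG : q2 x y al s = G2)
    (hH : q2 y x de s⁻¹ = H2) : q3 x y al de A s = A * (s * G2) + (1 - A) * (s ^ 2 * H2) := by
  have e1 := q2i_of (x := x) (y := y) (de := de) rfl hs rfl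
  have e2 := r2_of (x := x) (y := y) (de := de) rfl hs rfl
  rw [q3, hG, e2, ← e1, hH]
  ring

theorem q3i_of {x y al de mu s G2 H2 : F} (hs : s ≠ 0) (hG : q2 x y al s = G2)
    (hH : q2 y x de s⁻¹ = H2) : s ^ 2 * q3 y x de al mu s⁻¹ = (1 - mu) * G2 + mu * (s * H2) := by
  have e1 := r2i_of (x := x) (y := y) (al := al) rfl hs rfl
  have e2 := q2_of (x := x) (y := y) (al := al) rfl hs rfl
  have e0 : s * s⁻¹ = 1 := mul_inv_cancel₀ hs
  rw [q3, hH]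
  rw [hG] at e2
  linear_combination mu * s * H2 * e0 + (1 - mu) * s * e1 - (1 - mu) * e2

/-- row 1. -/
theorem row1Z {t u z x y g h e : F} (ht0 : t ≠ 0) (hz0 : z ≠ 0) (hz1 : z - 1 ≠ 0)
    (hu1 : u + 1 ≠ 0) (he : e ≠ 0) (hed : e = t + u)
    (hx : x = (t - 1) * (t * u + t + u) / (e * (z - 1)))
    (hy : y = (t - 1) * (t + u + 1) * z / (t * (e * (z - 1))))
    (hg : g = ((t + u) * z - t ^ 2 * (u + 1)) / (t ^ 2 * (u + 1) * (z - 1)))
    (hh : h = ((t - 1) * (t + u + 1)) / ((u + 1) * (z - 1))) :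
    q1 x z = t ^ 2 * (u + 1) / e ∧ q1 y z⁻¹ = t ^ 2 * (u + 1) / e / t ^ 3 ∧
    t * q1 x (z / t) = t ^ 2 * (u + 1) / e * (1 + g * (t - 1)) ∧
    t ^ 3 * q1 y (z / t)⁻¹ = t ^ 2 * (u + 1) / e * (1 + h * (t - 1)) := by
  refine ⟨?_, ?_, ?_, ?_⟩
  · rw [q1, hx]
    field_simp
    rw [hed]
    ring
  · rw [q1, hy]
    field_simp
    rw [hed]
    ring
  · rw [q1, hx, hg]
    field_simp
    rw [hed]
    ring
  · rw [q1, hy, hh]
    field_simp
    rw [hed]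
    ring

/-- row 2. -/
theorem row2Z {t T z x y al de g h p1 : F} (ht0 : t ≠ 0) (hT0 : T ≠ 0) (hz0 : z ≠ 0)
    (a1 : q1 x z = p1) (a2 : q1 y z⁻¹ = p1 / t ^ 3)
    (a3 : t * q1 x (z / t) = p1 * (1 + g * (t - 1)))
    (a4 : t ^ 3 * q1 y (z / t)⁻¹ = p1 * (1 + h * (t - 1)))
    (R1 : z ^ 2 * (al * (t ^ 3 - 1) + 1) = T ^ 3 * (t ^ 3 - de * (t ^ 3 - 1)))
    (R2 : T * (al * t ^ 2 * (1 + g * (t - 1)) + (1 - al) * (1 + h * (t - 1))) =
      t * (al * (t ^ 3 - 1) + 1) * (1 + g * (T - 1)))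
    (R3 : t * ((1 - de) * t ^ 2 * (1 + g * (t - 1)) + de * (1 + h * (t - 1))) =
      (t ^ 3 - de * (t ^ 3 - 1)) * (1 + h * (T - 1))) :
    q2 x y al z = z * p1 * (al * (t ^ 3 - 1) + 1) / t ^ 3 ∧
    q2 y x de z⁻¹ = (z * p1 * (al * (t ^ 3 - 1) + 1) / t ^ 3) / T ^ 3 ∧
    T * q2 x y al (z / t) = (z * p1 * (al * (t ^ 3 - 1) + 1) / t ^ 3) * (1 + g * (T - 1)) ∧
    T ^ 3 * q2 y x de (z / t)⁻¹ =
      (z * p1 * (al * (t ^ 3 - 1) + 1) / t ^ 3) * (1 + h * (T - 1)) := by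
  have hzt : z / t ≠ 0 := div_ne_zero hz0 ht0
  have b3 : q1 x (z / t) = p1 * (1 + g * (t - 1)) / t := by
    rw [← a3]
    field_simp
  have b4 : q1 y (z / t)⁻¹ = p1 * (1 + h * (t - 1)) / t ^ 3 := by
    rw [← a4]
    field_simp
  refine ⟨?_, ?_, ?_, ?_⟩
  · rw [q2_of a1 hz0 a2]
    field_simp
    ring
  · have e := q2i_of (de := de) a1 hz0 a2
    apply mul_left_cancel₀ hz0
    rw [e]
    field_simp
    linear_combination (-p1) * R1
  · rw [q2_of b3 hzt b4]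
    field_simp
    linear_combination p1 * R2
  · have e := q2i_of (de := de) b3 hzt b4
    apply mul_left_cancel₀ hzt
    have e' : z / t * (T ^ 3 * q2 y x de (z / t)⁻¹) = T ^ 3 * (z / t * q2 y x de (z / t)⁻¹) := by
      ring
    rw [e', e]
    field_simp
    linear_combination (T ^ 3 * p1) * R3 - (p1 * (1 + h * (T - 1))) * R1

/-- row 3. -/
theorem row3Z {t u T z x y al de A mu g h p2 : F} (ht0 : t ≠ 0) (hu0 : u ≠ 0) (hT0 : T ≠ 0)
    (hz0 : z ≠ 0)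
    (a1 : q2 x y al z = p2) (a2 : q2 y x de z⁻¹ = p2 / T ^ 3)
    (a3 : T * q2 x y al (z / t) = p2 * (1 + g * (T - 1)))
    (a4 : T ^ 3 * q2 y x de (z / t)⁻¹ = p2 * (1 + h * (T - 1)))
    (R4 : u ^ 3 * (A * T ^ 3 + (1 - A) * z) = (1 - mu) * T ^ 3 + mu * z)
    (R5 : z / u * (A * (z / t) * T ^ 2 * (1 + g * (T - 1))
        + (1 - A) * (z / t) ^ 2 * (1 + h * (T - 1))) =
      z * (A * T ^ 3 + (1 - A) * z) * (1 + g * (z / u - 1)))
    (R6 : t ^ 2 * ((1 - mu) * T ^ 2 * (1 + g * (T - 1)) + mu * (z / t) * (1 + h * (T - 1))) =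
      ((1 - mu) * T ^ 3 + mu * z) * (1 + h * (z / u - 1))) :
    q3 x y al de A z = z * p2 * (A * T ^ 3 + (1 - A) * z) / T ^ 3 ∧
    q3 y x de al mu z⁻¹ = (z * p2 * (A * T ^ 3 + (1 - A) * z) / T ^ 3) / (z / u) ^ 3 ∧
    z / u * q3 x y al de A (z / t) =
      (z * p2 * (A * T ^ 3 + (1 - A) * z) / T ^ 3) * (1 + g * (z / u - 1)) ∧
    (z / u) ^ 3 * q3 y x de al mu (z / t)⁻¹ =
      (z * p2 * (A * T ^ 3 + (1 - A) * z) / T ^ 3) * (1 + h * (z / u - 1)) := by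
  have hzt : z / t ≠ 0 := div_ne_zero hz0 ht0
  have b3 : q2 x y al (z / t) = p2 * (1 + g * (T - 1)) / T := by
    rw [← a3]
    field_simp
  have b4 : q2 y x de (z / t)⁻¹ = p2 * (1 + h * (T - 1)) / T ^ 3 := by
    rw [← a4]
    field_simp
  refine ⟨?_, ?_, ?_, ?_⟩
  · rw [q3_of hz0 a1 a2]
    field_simp
  · have e := q3i_of (mu := mu) hz0 a1 a2
    apply mul_left_cancel₀ (pow_ne_zero 2 hz0)
    rw [e]
    field_simp
    linear_combination (-p2) * R4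
  · rw [q3_of hzt b3 b4]
    have e : z / u * (A * (z / t * (p2 * (1 + g * (T - 1)) / T))
        + (1 - A) * ((z / t) ^ 2 * (p2 * (1 + h * (T - 1)) / T ^ 3)))
        = (p2 / T ^ 3) * (z / u * (A * (z / t) * T ^ 2 * (1 + g * (T - 1))
        + (1 - A) * (z / t) ^ 2 * (1 + h * (T - 1)))) := by
      field_simp
    rw [e, R5]
    ring
  · have e := q3i_of (mu := mu) hzt b3 b4
    apply mul_left_cancel₀ (pow_ne_zero 2 hzt)
    have e1 : (z / t) ^ 2 * ((z / u) ^ 3 * q3 y x de al mu (z / t)⁻¹)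
        = (z / u) ^ 3 * ((z / t) ^ 2 * q3 y x de al mu (z / t)⁻¹) := by
      ring
    have e2 : (1 - mu) * (p2 * (1 + g * (T - 1)) / T) + mu * (z / t * (p2 * (1 + h * (T - 1)) / T ^ 3))
        = (p2 / (T ^ 3 * t ^ 2)) * (t ^ 2 * ((1 - mu) * T ^ 2 * (1 + g * (T - 1))
          + mu * (z / t) * (1 + h * (T - 1)))) := by
      field_simp
    rw [e1, e, e2, R6, ← R4]
    field_simp

end Pool.Agent.Helper36.IP
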