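import Pool.Agent.Helper36.IP.Ten
import Pool.Agent.Helper36.IP.Rows
import Pool.Agent.Helper36.IP.Corner
import Pool.Agent.Helper36.IP.CornerZ

/-!
TH-P, N branch, state (10)/(10): `s_4 = t_2 s_2`.
-/

namespace Pool.Agent.Helper36.IP

open Pool.Agent.Helper54.IP

variable {F : Type*} [Field F]

/-- the end of the argument. -/
theorem final_scalar {t u T z w A mu p2 P : F} (ht0 : t ≠ 0) (hu0 : u ≠ 0) (hT0 : T ≠ 0)
    (hz0 : z ≠ 0) (hw0 : w ≠ 0) (hA0 : A ≠ 0) (hp2 : p2 ≠ 0) (hT1 : T - 1 ≠ 0) (hTt : T - t ≠ 0)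
    (hwz : w - z / T ≠ 0) (hAm : A * u ^ 2 * T = t * mu)
    (hE : A * (z / u) ^ 2 * (w - z / T) * (p2 * ((T - 1) * (T - t))) =
      T * (P * ((z / u - 1) * (z / u - t) * (z / u - T))))
    (hE' : mu * (z / u)⁻¹ ^ 2 * (w⁻¹ - (z / T)⁻¹) * (p2 / T ^ 3 * ((T⁻¹ - 1) * (T⁻¹ - t⁻¹))) =
      T⁻¹ * (P / (z / u) ^ 3 * (((z / u)⁻¹ - 1) * ((z / u)⁻¹ - t⁻¹) * ((z / u)⁻¹ - T⁻¹)))) :
    w = z / t := by
  obtain ⟨v, hv⟩ : ∃ v, v = z / u := ⟨_, rfl⟩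
  have hv0 : v ≠ 0 := by rw [hv]; exact div_ne_zero hz0 hu0
  rw [← hv] at hE hE'
  obtain ⟨X, hX⟩ : ∃ X, X = (w - z / T) * (p2 * ((T - 1) * (T - t))) := ⟨_, rfl⟩
  have hX0 : X ≠ 0 := by
    rw [hX]
    exact mul_ne_zero hwz (mul_ne_zero hp2 (mul_ne_zero hT1 hTt))
  have e1 : A * v ^ 2 * X = T * (P * ((v - 1) * (v - t) * (v - T))) := by
    rw [← hE, hX]
    ring
  have e2 : mu * v ^ 4 * X = w * (z / T) * T ^ 3 * (P * ((v - 1) * (v - t) * (v - T))) := by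
    have l1 : mu * v⁻¹ ^ 2 * (w⁻¹ - (z / T)⁻¹) * (p2 / T ^ 3 * ((T⁻¹ - 1) * (T⁻¹ - t⁻¹)))
        = - (mu * v ^ 4 * X) / (v ^ 6 * w * (z / T) * T ^ 5 * t) := by
      rw [hX]
      field_simp
      ring
    have l2 : T⁻¹ * (P / v ^ 3 * ((v⁻¹ - 1) * (v⁻¹ - t⁻¹) * (v⁻¹ - T⁻¹)))
        = - (w * (z / T) * T ^ 3 * (P * ((v - 1) * (v - t) * (v - T))))
          / (v ^ 6 * w * (z / T) * T ^ 5 * t) := by
      field_simp
      ring
    rw [l1, l2] at hE'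
    have hden : v ^ 6 * w * (z / T) * T ^ 5 * t ≠ 0 := by
      refine mul_ne_zero (mul_ne_zero (mul_ne_zero (mul_ne_zero (pow_ne_zero _ hv0) hw0)
        (div_ne_zero hz0 hT0)) (pow_ne_zero _ hT0)) ht0
    have e3 := (div_left_inj' hden).1 hE'
    exact neg_injective e3
  have e3 : mu * v ^ 2 = w * z * T * A := by
    apply mul_left_cancel₀ (mul_ne_zero (pow_ne_zero 2 hv0) hX0)
    have : w * (z / T) * T ^ 3 = w * z * T ^ 2 := by field_simp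
    rw [this] at e2
    linear_combination e2 - (w * z * T) * e1
  rw [hv] at e3
  have e4 : t * mu * z ^ 2 = t * w * z * (A * u ^ 2 * T) := by
    have : mu * (z / u) ^ 2 = mu * z ^ 2 / u ^ 2 := by ring
    rw [this, div_eq_iff (pow_ne_zero 2 hu0)] at e3
    linear_combination t * e3
  have hmu0 : t * mu ≠ 0 := by
    rw [← hAm]
    exact mul_ne_zero (mul_ne_zero hA0 (pow_ne_zero 2 hu0)) hT0
  rw [eq_div_iff ht0]
  apply mul_left_cancel₀ (mul_ne_zero hmu0 hz0)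
  rw [hAm] at e4
  linear_combination -e4

/-- the argument in scalars: `Gjk, Hjk` are the values at `(j, k)`. -/
theorem core {t u T z w x y al de A mu gg hh lam2 mu2 lam3 mu3 p1 p2 p3 : F}
    (ht0 : t ≠ 0) (hu0 : u ≠ 0) (hT0 : T ≠ 0) (hz0 : z ≠ 0) (hw0 : w ≠ 0)
    (ht1 : t - 1 ≠ 0) (hT1 : T - 1 ≠ 0) (hTt : T - t ≠ 0)
    (hx0 : x ≠ 0) (hy0 : y ≠ 0) (hal0 : al ≠ 0) (hde0 : de ≠ 0) (hA0 : A ≠ 0)
    (hwz : w ≠ z) (hw3 : w ≠ z / t) (hw2 : w ≠ z / T) (hd : mu2 - lam2 ≠ 0)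
    (hAm : A * u ^ 2 * T = t * mu)
    (a1 : q1 x z = p1) (a1' : q1 y z⁻¹ = p1 / t ^ 3)
    (b1 : t * q1 x (z / t) = p1 * (1 + gg * (t - 1)))
    (b1' : t ^ 3 * q1 y (z / t)⁻¹ = p1 * (1 + hh * (t - 1)))
    (a2 : q2 x y al z = p2) (a2' : q2 y x de z⁻¹ = p2 / T ^ 3)
    (b2 : T * q2 x y al (z / t) = p2 * (1 + gg * (T - 1)))
    (b2' : T ^ 3 * q2 y x de (z / t)⁻¹ = p2 * (1 + hh * (T - 1)))
    (a3 : q3 x y al de A z = p3) (a3' : q3 y x de al mu z⁻¹ = p3 / (z / u) ^ 3)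
    (b3 : z / u * q3 x y al de A (z / t) = p3 * (1 + gg * (z / u - 1)))
    (b3' : (z / u) ^ 3 * q3 y x de al mu (z / t)⁻¹ = p3 * (1 + hh * (z / u - 1)))
    (c1 : q1 x (z / t) = (1 - lam2) * (t * q1 x (z / T)) + lam2 * (t ^ 2 * q1 y (z / T)⁻¹))
    (c1' : t ^ 3 * q1 y (z / t)⁻¹ =
      (1 - mu2) * (t * q1 x (z / T)) + mu2 * (t ^ 2 * q1 y (z / T)⁻¹))
    (d1 : q1 x w = (1 - lam3) * (t * q1 x (z / t)) + lam3 * (t ^ 3 * q1 y (z / t)⁻¹))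
    (d1' : t ^ 4 * q1 y w⁻¹ =
      (1 - mu3) * (t * q1 x (z / t)) + mu3 * (t ^ 3 * q1 y (z / t)⁻¹))
    (c2 : q2 x y al (z / t) =
      (1 - lam2) * (T * q2 x y al (z / T)) + lam2 * (T ^ 2 * q2 y x de (z / T)⁻¹))
    (c2' : T ^ 3 * q2 y x de (z / t)⁻¹ =
      (1 - mu2) * (T * q2 x y al (z / T)) + mu2 * (T ^ 2 * q2 y x de (z / T)⁻¹))
    (d2 : q2 x y al w =
      (1 - lam3) * (T * q2 x y al (z / t)) + lam3 * (T ^ 3 * q2 y x de (z / t)⁻¹))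
    (d2' : T ^ 4 * q2 y x de w⁻¹ =
      (1 - mu3) * (T * q2 x y al (z / t)) + mu3 * (T ^ 3 * q2 y x de (z / t)⁻¹))
    (c3 : q3 x y al de A (z / t) =
      (1 - lam2) * (z / u * q3 x y al de A (z / T))
        + lam2 * ((z / u) ^ 2 * q3 y x de al mu (z / T)⁻¹))
    (c3' : (z / u) ^ 3 * q3 y x de al mu (z / t)⁻¹ =
      (1 - mu2) * (z / u * q3 x y al de A (z / T))
        + mu2 * ((z / u) ^ 2 * q3 y x de al mu (z / T)⁻¹))
    (d3 : q3 x y al de A w =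
      (1 - lam3) * (z / u * q3 x y al de A (z / t))
        + lam3 * ((z / u) ^ 3 * q3 y x de al mu (z / t)⁻¹))
    (d3' : (z / u) ^ 4 * q3 y x de al mu w⁻¹ =
      (1 - mu3) * (z / u * q3 x y al de A (z / t))
        + mu3 * ((z / u) ^ 3 * q3 y x de al mu (z / t)⁻¹)) : False := by
  have hv0 : z / u ≠ 0 := div_ne_zero hz0 hu0
  obtain ⟨r1a, r1b, r1c, r1d, r1e⟩ := rowfacts ht0 b1 b1' c1 c1' d1 d1'
  obtain ⟨r2a, r2b, r2c, r2d, r2e⟩ := rowfacts hT0 b2 b2' c2 c2' d2 d2'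
  obtain ⟨r3a, r3b, r3c, r3d, r3e⟩ := rowfacts hv0 b3 b3' c3 c3' d3 d3'
  have ht1' : t ≠ 1 := sub_ne_zero.1 ht1
  have hT1' : T ≠ 1 := sub_ne_zero.1 hT1
  have hTt' : T ≠ t := sub_ne_zero.1 hTt
  have hz3 : z ≠ z / t := by
    intro h
    rw [eq_div_iff ht0] at h
    exact ht1 (mul_left_cancel₀ hz0 (by linear_combination h))
  have hz2 : z ≠ z / T := by
    intro h
    rw [eq_div_iff hT0] at h
    exact hT1 (mul_left_cancel₀ hz0 (by linear_combination h))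
  have h32 : z / t ≠ z / T := by
    intro h
    rw [div_eq_div_iff ht0 hT0] at h
    exact hTt (mul_left_cancel₀ hz0 (by linear_combination h))
  obtain ⟨hp2, E⟩ := partG hx0 hal0 hwz hw3 hw2 hz3 hz2 h32 ht1' hT1' hTt' ht0 hT0 hv0 hd
    r1a r2a r3a a1 a2 a3 b1 b2 b3 r1b r2b r3b
  have hd' : (1 - lam2) - (1 - mu2) ≠ 0 := by
    intro h
    exact hd (by linear_combination h)
  have inv_ne : ∀ {a b : F}, a ≠ b → a⁻¹ ≠ b⁻¹ := fun h h' => h (inv_injective h')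
  have one_ne : ∀ {a : F}, a ≠ 1 → a⁻¹ ≠ 1 := by
    intro a h h'
    exact h (inv_injective (by rw [h', inv_one]))
  obtain ⟨-, E'⟩ := partG hy0 hde0 (inv_ne hwz) (inv_ne hw3) (inv_ne hw2) (inv_ne hz3)
    (inv_ne hz2) (inv_ne h32) (one_ne ht1') (one_ne hT1') (inv_ne hTt')
    (inv_ne_zero ht0) (inv_ne_zero hT0) (inv_ne_zero hv0) hd'
    r1c r2c r3c a1' a2' a3' r1d r2d r3d r1e r2e r3e
  exact hw3 (final_scalar ht0 hu0 hT0 hz0 hw0 hA0 hp2 hT1 hTt (sub_ne_zero.2 hw2) hAm E E')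

theorem s4_eq {m : ℕ} (g : GForm F m) (hm : 4 ≤ m) (hD : g.G 1 1 ≠ g.H 1 1)
    (hk' : g.swap.kap 1 2 ≠ 0) (htu : g.t 1 ≠ g.s 1) (he : g.t 1 + g.s 1 ≠ 0)
    (hz1 : g.t 2 * g.s 2 ≠ 1)
    (h3 : g.s 3 * g.t 1 = g.t 2 * g.s 2) (h3' : g.t 3 * g.s 1 = g.t 2 * g.s 2)
    (hx : (1 - g.lam' 0) * ((g.t 1 + g.s 1) * (g.t 2 * g.s 2 - 1)) =
      (g.t 1 - 1) * (g.t 1 * g.s 1 + g.t 1 + g.s 1))
    (hy : g.mu' 0 * (g.t 1 * ((g.t 1 + g.s 1) * (g.t 2 * g.s 2 - 1))) =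
      (g.t 1 - 1) * (g.t 1 + g.s 1 + 1) * (g.t 2 * g.s 2))
    (hF1 : g.t 1 ^ 2 * g.t 2 * (g.t 2 * g.s 2) + g.t 1 * g.t 2 * (g.t 2 * g.s 2)
      - g.t 1 ^ 2 * (g.t 2 * g.s 2) - g.t 1 ^ 2 * g.t 2 * g.s 1
      + g.t 1 * g.s 1 * (g.t 2 * g.s 2) - g.t 2 * g.s 1 * (g.t 2 * g.s 2)
      - (g.t 2 * g.s 2) ^ 2 + g.s 1 * (g.t 2 * g.s 2) = 0)
    (hF2 : g.s 1 ^ 2 * (g.t 2 * g.s 2) + g.s 1 * (g.t 2 * g.s 2) - g.s 1 ^ 2 * g.t 1
      - g.t 1 * (g.t 2 * g.s 2)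
      + g.t 2 * (g.t 1 + g.t 1 * g.s 1 - g.s 1 ^ 2 - g.t 2 * g.s 2) = 0) :
    g.s 4 = g.t 2 * g.s 2 := by
  by_contra hw
  -- nonvanishing
  have ht0 := g.t_ne 1 (by omega)
  have hT0 := g.t_ne 2 (by omega)
  have hu0 := g.s_ne 1 (by omega)
  have hs2 := g.s_ne 2 (by omega)
  have hs4 := g.s_ne 4 (by omega)
  have ht1 : g.t 1 - 1 ≠ 0 := by
    have := g.t_inj 0 1 (by omega) (by omega)
    rw [g.t0] at this
    exact sub_ne_zero.2 this.symm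
  have hT1 : g.t 2 - 1 ≠ 0 := by
    have := g.t_inj 0 2 (by omega) (by omega)
    rw [g.t0] at this
    exact sub_ne_zero.2 this.symm
  have hu1 : g.s 1 - 1 ≠ 0 := by
    have := g.s_inj 0 1 (by omega) (by omega)
    rw [g.s0] at this
    exact sub_ne_zero.2 this.symm
  have hTt : g.t 2 - g.t 1 ≠ 0 := sub_ne_zero.2 (g.t_inj 1 2 (by omega) (by omega)).symm
  have hTt3 : g.t 3 ≠ g.t 2 := (g.t_inj 2 3 (by omega) (by omega)).symm
  -- cells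
  have ca := al_eq g (by omega)
  have cd := de_eq g (by omega)
  have c2 := colG g (by omega) (j := 2) (by omega)
  have d2 := colH g (by omega) (j := 2) (by omega)
  have c3 := colG g (by omega) (j := 3) (by omega)
  have d3 := colH g (by omega) (j := 3) (by omega)
  have v1 := g.V1 2 1 (by omega) (by omega)
  have v2 := g.V2 2 1 (by omega) (by omega)
  norm_num at v1 v2
  have r1G := g.row1G (k := 1) (by omega) (by omega)
  have r1H := g.row1H (k := 1) (by omega) (by omega)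
  have hxne := g.lam'_ne 0 (by omega)
  have hyne := g.mu'_ne 0 (by omega)
  have halne := g.lam'_ne 1 (by omega)
  have hdene := g.mu'_ne 1 (by omega)
  have hAne := g.lam'_ne 2 (by omega)
  have hlm0 := g.lm'_ne 0 (by omega)
  -- rows
  have G14 := G1_eq g (by omega) (k := 4) (by omega)
  have G24 := G2_eq g (by omega) (k := 4) (by omega)
  have G34 := G3_eq g (by omega) (k := 4) (by omega)
  have H14 := H1_eq g (by omega) (k := 4) (by omega)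
  have H24 := H2_eq g (by omega) (k := 4) (by omega)
  have H34 := H3_eq g (by omega) (k := 4) (by omega)
  have G13 := G1_eq g (by omega) (k := 3) (by omega)
  have G23 := G2_eq g (by omega) (k := 3) (by omega)
  have G33 := G3_eq g (by omega) (k := 3) (by omega)
  have H13 := H1_eq g (by omega) (k := 3) (by omega)
  have H23 := H2_eq g (by omega) (k := 3) (by omega)
  have H33 := H3_eq g (by omega) (k := 3) (by omega)
  have G12 := G1_eq g (by omega) (k := 2) (by omega)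
  have G22 := G2_eq g (by omega) (k := 2) (by omega)
  have G32 := G3_eq g (by omega) (k := 2) (by omega)
  have H12 := H1_eq g (by omega) (k := 2) (by omega)
  have H22 := H2_eq g (by omega) (k := 2) (by omega)
  have H32 := H3_eq g (by omega) (k := 2) (by omega)
  -- abbreviations
  obtain ⟨z, hz⟩ : ∃ z, z = g.t 2 * g.s 2 := ⟨_, rfl⟩
  have es2 : g.s 2 = z / g.t 2 := by rw [hz]; field_simp
  have es3 : g.s 3 = z / g.t 1 := by rw [hz, ← h3]; field_simp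
  have et3 : g.t 3 = z / g.s 1 := by rw [hz, ← h3']; field_simp
  rw [← hz] at hz1 hx hy hF1 hF2 hw
  have hz0 : z ≠ 0 := by rw [hz]; exact mul_ne_zero hT0 hs2
  have hz1' : z - 1 ≠ 0 := sub_ne_zero.2 hz1
  have htu' : g.t 1 - g.s 1 ≠ 0 := sub_ne_zero.2 htu
  obtain ⟨x, hxd⟩ : ∃ x, x = 1 - g.lam' 0 := ⟨_, rfl⟩
  obtain ⟨al, hald⟩ : ∃ al, al = 1 - g.lam' 1 := ⟨_, rfl⟩
  obtain ⟨A, hAd⟩ : ∃ A, A = 1 - g.lam' 2 := ⟨_, rfl⟩
  obtain ⟨y, hyd⟩ : ∃ y, y = g.mu' 0 := ⟨_, rfl⟩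
  obtain ⟨de, hded⟩ : ∃ de, de = g.mu' 1 := ⟨_, rfl⟩
  obtain ⟨mu, hmud⟩ : ∃ mu, mu = g.mu' 2 := ⟨_, rfl⟩
  have hx0 : x ≠ 0 := by rw [hxd]; exact sub_ne_zero.2 hxne.symm
  have hal0 : al ≠ 0 := by rw [hald]; exact sub_ne_zero.2 halne.symm
  have hA0 : A ≠ 0 := by rw [hAd]; exact sub_ne_zero.2 hAne.symm
  have hy0 : y ≠ 0 := by rw [hyd]; exact hyne
  have hde0 : de ≠ 0 := by rw [hded]; exact hdene
  have hL0 : g.lam' 0 = 1 - x := by rw [hxd]; ring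
  have hL1 : g.lam' 1 = 1 - al := by rw [hald]; ring
  have hL2 : g.lam' 2 = 1 - A := by rw [hAd]; ring
  rw [← hxd] at hx
  rw [← hyd] at hy
  have hxe : x = (g.t 1 - 1) * (g.t 1 * g.s 1 + g.t 1 + g.s 1) /
      ((g.t 1 + g.s 1) * (z - 1)) := by
    rw [eq_div_iff (mul_ne_zero he hz1')]
    exact hx
  have hye : y = (g.t 1 - 1) * (g.t 1 + g.s 1 + 1) * z /
      (g.t 1 * ((g.t 1 + g.s 1) * (z - 1))) := by
    rw [eq_div_iff (mul_ne_zero ht0 (mul_ne_zero he hz1'))]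
    exact hy
  have hup : g.s 1 + 1 ≠ 0 := by
    intro h
    have hs : g.s 1 = -1 := by linear_combination h
    apply hlm0
    rw [hL0, ← hyd]
    rw [hs] at hx hy
    have e1 : x * (z - 1) = -1 := by
      apply mul_left_cancel₀ ht1
      linear_combination hx
    have e2 : y * (z - 1) = z := by
      apply mul_left_cancel₀ (mul_ne_zero ht1 ht0)
      linear_combination hy
    apply mul_right_cancel₀ hz1'
    linear_combination (-1 : F) * e1 - e2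
  have huxy : g.s 1 * x + y ≠ 0 := by
    intro h
    apply hD
    apply mul_left_cancel₀ hu0
    rw [r1G, r1H, hL0, ← hyd]
    linear_combination (g.s 1 - 1) * h
  obtain ⟨M, hMd⟩ : ∃ M, M = g.t 1 * g.s 1 * (g.t 1 * g.s 1 + g.t 1 + g.s 1)
      + z * (g.t 1 + g.s 1 + 1) := ⟨_, rfl⟩
  have hM : M ≠ 0 := by
    intro h
    apply huxy
    apply mul_left_cancel₀ (mul_ne_zero ht0 (mul_ne_zero he hz1'))
    rw [hMd] at h
    linear_combination g.t 1 * g.s 1 * hx + hy + (g.t 1 - 1) * h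
  rw [hL1, hL0] at ca
  rw [← hyd] at ca
  rw [← hded, hL0, ← hyd] at cd
  rw [hL0] at c2 c3
  rw [← hyd] at d2 d3
  have hal := al_form ht0 ht1 hz1' he rfl hxe hye hM hMd (u := g.s 1) (T := g.t 2) (al := al)
    (by linear_combination ca)
  have hde := de_form ht0 hT0 ht1 hz1' he rfl hxe hye hM hMd (u := g.s 1) (de := de)
    (by linear_combination cd)
  obtain ⟨D, hDd⟩ : ∃ D, D = (g.t 2 - 1) * (g.t 2 * (g.t 1 * g.s 1 + g.t 1 + g.s 1)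
      + (g.t 1 + g.s 1 + 1) * z) - g.t 2 * (g.t 1 + g.s 1) * (z - 1) := ⟨_, rfl⟩
  have c2' : (g.t 1 - 1) * (g.G 2 1 - 1) = x * (g.s 1 - 1) * (g.t 2 - 1) := by
    linear_combination c2
  have c3' : (g.t 1 - 1) * (g.G 3 1 - 1) = x * (g.s 1 - 1) * (z / g.s 1 - 1) := by
    rw [et3] at c3
    linear_combination c3
  have d3' : z / g.s 1 * (g.t 1 - 1) * g.s 1 * (g.H 3 1 - 1) =
      g.t 1 * y * (1 - g.s 1) * (z / g.s 1 - 1) := by
    rw [et3] at d3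
    exact d3
  have hkf := kap_form ht0 hu0 hT0 ht1 hz1' he rfl hxe hye hDd c2' d2
  have hDne : D ≠ 0 := by
    intro h
    apply hk'
    rw [GForm.kap]
    simp only [GForm.swap_t, GForm.swap_G, GForm.swap_H]
    rw [hkf, h]
    simp
  have hA := A_form ht0 hu0 hT0 ht1 hu1 hz1' he rfl hxe hye hDne hDd c2' d2 c3' (A := A) (by
    rw [v1, hL2]
    ring)
  have hmu := mu_form ht0 hu0 hT0 ht1 hu1 hz0 hz1' he rfl hxe hye hDne hDd c2' d2 d3' (mu := mu)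
    (by
      rw [v2, ← hmud])
  have hAm := A_mu hu0 hDne hA hmu hF2
  obtain ⟨gg, hgg⟩ : ∃ gg, gg = ((g.t 1 + g.s 1) * z - g.t 1 ^ 2 * (g.s 1 + 1)) /
      (g.t 1 ^ 2 * (g.s 1 + 1) * (z - 1)) := ⟨_, rfl⟩
  obtain ⟨hh, hhh⟩ : ∃ hh, hh = ((g.t 1 - 1) * (g.t 1 + g.s 1 + 1)) /
      ((g.s 1 + 1) * (z - 1)) := ⟨_, rfl⟩
  have R1 := factR1 hu0 ht0 hT0 ht1 hz1' hup htu' hM hMd hal hde hF1 hF2
  have R2 := factR2 hu0 ht0 hT0 ht1 hz1' hup htu' hM hMd hal hgg hhh hF1 hF2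
  have R3 := factR3 hu0 ht0 hT0 ht1 hz1' hup htu' hM hMd hde hgg hhh hF1 hF2
  have R4 := factR4 hu0 ht0 hT0 ht1 hz1' hup htu' hDne hDd hA hmu hF1 hF2
  have R5 := factR5 hu0 ht0 hT0 ht1 hz1' hup htu' hDne hDd hA hgg hhh hF1 hF2
  have R6 := factR6 hu0 ht0 hT0 ht1 hz1' hup htu' hDne hDd hmu hgg hhh hF1 hF2
  obtain ⟨z1a, z1b, z1c, z1d⟩ := row1Z ht0 hz0 hz1' hup he rfl hxe hye hgg hhh
  obtain ⟨z2a, z2b, z2c, z2d⟩ := row2Z ht0 hT0 hz0 z1a z1b z1c z1d R1 R2 R3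
  obtain ⟨z3a, z3b, z3c, z3d⟩ := row3Z ht0 hu0 hT0 hz0 z2a z2b z2c z2d R4 R5 R6
  rw [← hxd, es2] at G12
  rw [← hyd, es2] at H12
  rw [← hxd, ← hyd, ← hald, es2] at G22
  rw [← hxd, ← hyd, ← hded, es2] at H22
  rw [← hxd, ← hyd, ← hald, ← hded, ← hAd, es2] at G32
  rw [← hxd, ← hyd, ← hald, ← hded, ← hmud, es2] at H32
  rw [← hxd, es3] at G13
  rw [← hyd, es3] at H13
  rw [← hxd, ← hyd, ← hald, es3] at G23
  rw [← hxd, ← hyd, ← hded, es3] at H23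
  rw [← hxd, ← hyd, ← hald, ← hded, ← hAd, es3] at G33
  rw [← hxd, ← hyd, ← hald, ← hded, ← hmud, es3] at H33
  rw [← hxd] at G14
  rw [← hyd] at H14
  rw [← hxd, ← hyd, ← hald] at G24
  rw [← hxd, ← hyd, ← hded] at H24
  rw [← hxd, ← hyd, ← hald, ← hded, ← hAd] at G34
  rw [← hxd, ← hyd, ← hald, ← hded, ← hmud] at H34
  have u12 := g.U1 1 2 (by omega) (by omega)
  have w12 := g.U2 1 2 (by omega) (by omega)
  have u13 := g.U1 1 3 (by omega) (by omega)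
  have w13 := g.U2 1 3 (by omega) (by omega)
  have u22 := g.U1 2 2 (by omega) (by omega)
  have w22 := g.U2 2 2 (by omega) (by omega)
  have u23 := g.U1 2 3 (by omega) (by omega)
  have w23 := g.U2 2 3 (by omega) (by omega)
  have u32 := g.U1 3 2 (by omega) (by omega)
  have w32 := g.U2 3 2 (by omega) (by omega)
  have u33 := g.U1 3 3 (by omega) (by omega)
  have w33 := g.U2 3 3 (by omega) (by omega)
  norm_num at u12 w12 u13 w13 u22 w22 u23 w23 u32 w32 u33 w33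
  rw [G12, H12, G13] at u12
  rw [G12, H12, H13] at w12
  rw [G14, G13, H13] at u13
  rw [H14, G13, H13] at w13
  rw [G22, H22, G23] at u22
  rw [G22, H22, H23] at w22
  rw [G24, G23, H23] at u23
  rw [H24, G23, H23] at w23
  rw [G32, H32, G33, et3] at u32
  rw [G32, H32, H33, et3] at w32
  rw [G34, G33, H33, et3] at u33
  rw [H34, G33, H33, et3] at w33
  have hw3 : g.s 4 ≠ z / g.t 1 := by
    rw [← es3]
    exact (g.s_inj 3 4 (by omega) (by omega)).symm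
  have hw2 : g.s 4 ≠ z / g.t 2 := by
    rw [← es2]
    exact (g.s_inj 2 4 (by omega) (by omega)).symm
  have hd : g.mu 2 - g.lam 2 ≠ 0 := sub_ne_zero.2 (g.lm_ne 2 (by omega)).symm
  exact core ht0 hu0 hT0 hz0 hs4 ht1 hT1 hTt hx0 hy0 hal0 hde0 hA0 hw hw3 hw2 hd hAm
    z1a z1b z1c z1d z2a z2b z2c z2d z3a z3b z3c z3d
    u12 w12 u13 w13 u22 w22 u23 w23 u32 w32 u33 w33

/-- the same for the rows. -/
theorem t4_eq {m : ℕ} (g : GForm F m) (hm : 4 ≤ m) (hD : g.G 1 1 ≠ g.H 1 1)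
    (hk : g.kap 1 2 ≠ 0) (htu : g.t 1 ≠ g.s 1) (he : g.t 1 + g.s 1 ≠ 0)
    (hz1 : g.t 2 * g.s 2 ≠ 1)
    (h3 : g.s 3 * g.t 1 = g.t 2 * g.s 2) (h3' : g.t 3 * g.s 1 = g.t 2 * g.s 2)
    (hx : (1 - g.lam' 0) * ((g.t 1 + g.s 1) * (g.t 2 * g.s 2 - 1)) =
      (g.t 1 - 1) * (g.t 1 * g.s 1 + g.t 1 + g.s 1))
    (hy : g.mu' 0 * (g.t 1 * ((g.t 1 + g.s 1) * (g.t 2 * g.s 2 - 1))) =
      (g.t 1 - 1) * (g.t 1 + g.s 1 + 1) * (g.t 2 * g.s 2))
    (hF1 : g.t 1 ^ 2 * g.t 2 * (g.t 2 * g.s 2) + g.t 1 * g.t 2 * (g.t 2 * g.s 2)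
      - g.t 1 ^ 2 * (g.t 2 * g.s 2) - g.t 1 ^ 2 * g.t 2 * g.s 1
      + g.t 1 * g.s 1 * (g.t 2 * g.s 2) - g.t 2 * g.s 1 * (g.t 2 * g.s 2)
      - (g.t 2 * g.s 2) ^ 2 + g.s 1 * (g.t 2 * g.s 2) = 0)
    (hF2 : g.s 1 ^ 2 * (g.t 2 * g.s 2) + g.s 1 * (g.t 2 * g.s 2) - g.s 1 ^ 2 * g.t 1
      - g.t 1 * (g.t 2 * g.s 2)
      + g.t 2 * (g.t 1 + g.t 1 * g.s 1 - g.s 1 ^ 2 - g.t 2 * g.s 2) = 0) :
    g.t 4 = g.t 2 * g.s 2 := by
  have ht1 : g.t 1 - 1 ≠ 0 := by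
    have := g.t_inj 0 1 (by omega) (by omega)
    rw [g.t0] at this
    exact sub_ne_zero.2 this.symm
  have hT0 := g.t_ne 2 (by omega)
  have h1 := g.row1G (k := 1) (by omega) (by omega)
  have h2 := g.row1H (k := 1) (by omega) (by omega)
  have k1 := g.swap.row1G (k := 1) (by omega) (by omega)
  have k2 := g.swap.row1H (k := 1) (by omega) (by omega)
  simp only [GForm.swap_G, GForm.swap_H, GForm.swap_s, GForm.swap_lam', GForm.swap_mu'] at k1 k2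
  have e := s4_eq g.swap hm hD hk htu.symm
    (by
      simp only [GForm.swap_t, GForm.swap_s]
      rwa [add_comm])
    (by
      simp only [GForm.swap_t, GForm.swap_s]
      rwa [mul_comm])
    (by
      simp only [GForm.swap_t, GForm.swap_s]
      rw [h3', mul_comm])
    (by
      simp only [GForm.swap_t, GForm.swap_s]
      rw [h3, mul_comm])
    (by
      simp only [GForm.swap_t, GForm.swap_s, GForm.swap_lam']
      apply mul_left_cancel₀ ht1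
      linear_combination ((g.t 1 + g.s 1) * (g.t 2 * g.s 2 - 1)) * (h1 - k1)
        + (g.s 1 - 1) * hx)
    (by
      simp only [GForm.swap_t, GForm.swap_s, GForm.swap_mu']
      apply mul_left_cancel₀ ht1
      linear_combination ((g.t 1 + g.s 1) * (g.t 2 * g.s 2 - 1)) * (g.s 1 * k2 - g.t 1 * h2)
        + (g.s 1 - 1) * hy)
    (by
      simp only [GForm.swap_t, GForm.swap_s]
      linear_combination g.s 2 * hF2)
    (by
      simp only [GForm.swap_t, GForm.swap_s]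
      apply mul_left_cancel₀ hT0
      linear_combination hF1)
  simp only [GForm.swap_t, GForm.swap_s] at e
  rw [e, mul_comm]

end Pool.Agent.Helper36.IP
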