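import Pool.Agent.Helper36.IP.RLin

/-!
TH-P, N branch, state (10)/(10), the special case `t_1 s_2 = t_2 s_1`
(`T = t r, v = u r`).
-/

namespace Pool.Agent.Helper36.IP

variable {F : Type*} [Field F]

theorem special_c {t u r c V : F} (ht0 : t ≠ 0) (hu0 : u ≠ 0) (hr0 : r ≠ 0) (htu : t ≠ u)
    (hl1 : (u * r * t - t * r) * (c - V + 1) = (u * r - 1) * (t * (t * r) * c - V))
    (hl2 : (t * r * u - u * r) * (c - V + 1) = (t * r - 1) * (u * (u * r) * c - V))
    (ha : t * r * (u * r) * (1 + c * (u * (t * r - 1) - (t - 1))) =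
      t ^ 2 * u * (t * r) - V * t * (t * (1 - t * r) + u * (t * r) * (t - 1)))
    (hb : t * r * (u * r) * (1 + c * (t * (u * r - 1) - (u - 1))) =
      u ^ 2 * t * (u * r) - V * u * (u * (1 - u * r) + t * (u * r) * (u - 1))) :
    1 + c * (t * u * r - u - t + 1) = 0 ∧ V * (t * u * r - u * r - t * r + 1) = t * u * r := by
  obtain ⟨E, hE⟩ : ∃ E, E = 1 + c * (t * u * r - u - t + 1) := ⟨_, rfl⟩
  obtain ⟨G, hG⟩ : ∃ G, G = t * u * r - V * (t * u * r - u * r - t * r + 1) := ⟨_, rfl⟩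
  have h1 : u * r ^ 2 * E = t * G := by
    apply mul_left_cancel₀ ht0
    rw [hE, hG]
    linear_combination ha
  have h2 : t * r ^ 2 * E = u * G := by
    apply mul_left_cancel₀ hu0
    rw [hE, hG]
    linear_combination hb
  have h3 : (u + t) * ((u - t) * G) = 0 := by linear_combination t * h1 - u * h2
  rw [← hE]
  suffices hh : E = 0 ∧ G = 0 by
    refine ⟨hh.1, ?_⟩
    have := hh.2
    rw [hG] at this
    linear_combination -this
  rcases mul_eq_zero.1 h3 with h4 | h4
  · -- `u = -t`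
    have hu : u = -t := by linear_combination h4
    have h20 : (2 : F) ≠ 0 := by
      intro h
      apply htu
      rw [hu]
      linear_combination t * h
    rw [hu] at hl1 hl2
    have k1 : t ^ 2 * r * (c - V + 1) = t * (t * r) * c - V := by
      apply mul_left_cancel₀ h20
      linear_combination (-1 : F) * hl1 - hl2
    have k2 : c - V + 1 = t * (t * r) * c - V := by
      apply mul_left_cancel₀ (mul_ne_zero h20 (mul_ne_zero ht0 hr0))
      linear_combination (-1 : F) * hl1 + hl2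
    have k3 : c * (t ^ 2 * r - 1) = 1 := by linear_combination -k2
    have k4 : t ^ 2 * r - 1 ≠ 0 := by
      intro h
      rw [h] at k3
      simp at k3
    have k5 : c - V + 1 = 0 := by
      apply mul_left_cancel₀ k4
      linear_combination k1 - k2
    constructor
    · rw [hE, hu]
      linear_combination -k3
    · rw [hG, hu]
      linear_combination (1 - t ^ 2 * r) * k5 + k3
  · have hG0 : G = 0 := (mul_eq_zero.1 h4).resolve_left (sub_ne_zero.2 htu.symm)
    rw [hG0, mul_zero] at h1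
    exact ⟨(mul_eq_zero.1 h1).resolve_left (mul_ne_zero hu0 (pow_ne_zero 2 hr0)), hG0⟩

/-- the cell `(2,3)` polynomial for `T = t r, v = u r`. -/
def N1 (t u r : F) : F :=
  t ^ 2 * u ^ 2 * r - t ^ 2 * u + t ^ 2 * u * r - t ^ 2 - t * u ^ 2 + t * u ^ 2 * r + t * u * r
    - t * u * r ^ 2 - u ^ 3 * r ^ 2 + u ^ 2 * r - u ^ 2 * r ^ 2 + u * r

theorem special_cell {t u r d1 d2 q G12 G13 H12 H13 al de G22 H22 G23 : F}
    (ht0 : t ≠ 0) (hu0 : u ≠ 0) (hr0 : r ≠ 0) (ht1 : t - 1 ≠ 0) (hu1 : u - 1 ≠ 0)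
    (hr1 : r - 1 ≠ 0) (hT1 : t * r - 1 ≠ 0)
    (hd1 : d1 ≠ 0) (hd2 : d2 ≠ 0) (hq : q ≠ 0)
    (e1 : d1 = t * u * r - u - t + 1) (e2 : d2 = t * u * r - u * r - t * r + 1)
    (eq : q = t * u * d2 + d1)
    (g12 : G12 = u * (r - 1) / d1) (g13 : G13 = u * (r - 1) * (1 + r - t * r) / d1)
    (h12 : H12 = -(t * (r - 1)) / d2) (h13 : H13 = -((r - 1) * (t + t * r - 1)) / (r * d2))
    (hal : al = (u * d1 + t * d2) / (u * q)) (hde : de = u * (u * d1 + t * d2) / q)
    (g22 : G22 = u * r * (al * G12 + (1 - al) * H12))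
    (h22 : H22 = ((1 - de) * G12 + de * H12) / (u * r))
    (g23 : G23 = u * r ^ 2 * (al * G13 + (1 - al) * H13))
    (hX : (t * G12 - G13) * (t * r * G22 - (t * r) ^ 2 * H22)
      - (t * r * G22 - G23) * (t * G12 - t ^ 2 * H12) = 0) : N1 t u r = 0 := by
  have key : ((t * G12 - G13) * (t * r * G22 - (t * r) ^ 2 * H22)
      - (t * r * G22 - G23) * (t * G12 - t ^ 2 * H12)) * (d1 * d2 * q) =
      (t ^ 2 * r * (t - 1) ^ 2 * (u - 1) * (r - 1) ^ 2 * (t * r - 1)) * N1 t u r := by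
    rw [g22, h22, g23, g12, g13, h12, h13, hal, hde, N1]
    field_simp
    rw [eq, e1, e2]
    ring
  rw [hX, zero_mul] at key
  have hne : t ^ 2 * r * (t - 1) ^ 2 * (u - 1) * (r - 1) ^ 2 * (t * r - 1) ≠ 0 :=
    mul_ne_zero (mul_ne_zero (mul_ne_zero (mul_ne_zero (mul_ne_zero (pow_ne_zero 2 ht0) hr0)
      (pow_ne_zero 2 ht1)) hu1) (pow_ne_zero 2 hr1)) hT1
  exact (mul_eq_zero.1 key.symm).resolve_left hne

/-- conclusion in the special case. -/
theorem special_R {t u r : F} (ht0 : t ≠ 0) (hu0 : u ≠ 0) (hr0 : r ≠ 0) (htu : t ≠ u)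
    (hd1 : t * u * r - u - t + 1 ≠ 0)
    (n1 : N1 t u r = 0) (n2 : N1 u t r = 0) :
    R1 t (t * r) u (u * r) = 0 ∧ R2 t (t * r) u (u * r) = 0 := by
  rw [N1] at n1 n2
  have k1 : r * ((u + t) * (u - t)) * R1 t (t * r) u (u * r) = 0 := by
    rw [R1]
    linear_combination (t * r - u ^ 2) * (t * r) * n1 + (t * u - t * r) * (u * r) * n2
  have k2 : r * ((u + t) * (u - t)) * R2 t (t * r) u (u * r) = 0 := by
    rw [R2]
    linear_combination (- t * u + u * r) * (t * r) * n1 + (t ^ 2 - u * r) * (u * r) * n2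
  by_cases h : u + t = 0
  · exfalso
    have hu : u = -t := by linear_combination h
    rw [hu] at n1 n2 hd1
    have h20 : (2 : F) ≠ 0 := by
      intro h
      apply htu
      rw [hu]
      linear_combination t * h
    have hd : t ^ 2 * r - 1 ≠ 0 := by
      intro h
      apply hd1
      linear_combination -h
    have a1 : t + r = 0 := by
      apply mul_left_cancel₀ (mul_ne_zero ht0 hd)
      linear_combination n1
    have a2 : t - r = 0 := by
      apply mul_left_cancel₀ (mul_ne_zero ht0 hd)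
      linear_combination n2
    exact mul_ne_zero h20 ht0 (by linear_combination a1 + a2)
  · have hne : r * ((u + t) * (u - t)) ≠ 0 :=
      mul_ne_zero hr0 (mul_ne_zero h (sub_ne_zero.2 htu.symm))
    exact ⟨(mul_eq_zero.1 k1).resolve_left hne, (mul_eq_zero.1 k2).resolve_left hne⟩

end Pool.Agent.Helper36.IP
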