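import Pool.Agent.Helper36.IP.E23
import Pool.Agent.Helper36.IP.Special
import Pool.Agent.Helper36.IP.S4

/-!
TH-P, N branch, state (10)/(10): `s_4 = t_4 = t_2 s_2` and the surface equations.
-/

namespace Pool.Agent.Helper36.IP

open Pool.Agent.Helper54.IP

variable {F : Type*} [Field F] {m : ℕ}

theorem special_n1 (g : GForm F m) (hm : 3 ≤ m) (hD : g.G 1 1 ≠ g.H 1 1)
    (hn1 : (g.s 2 * g.t 1 - g.t 2) * ((1 - g.lam' 0) - g.t 1 * g.mu' 0 + g.t 1 - 1) =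
        (g.s 2 - 1) * (g.t 1 * g.t 2 * (1 - g.lam' 0) - g.t 1 * g.mu' 0))
    (h3 : g.s 3 * g.t 1 = g.t 2 * g.s 2)
    {r c V : F} (hT : g.t 2 = g.t 1 * r) (hv : g.s 2 = g.s 1 * r)
    (hc : 1 - g.lam' 0 = (g.t 1 - 1) * c) (hV : g.t 1 * g.mu' 0 = (g.t 1 - 1) * V)
    (hE : 1 + c * (g.t 1 * g.s 1 * r - g.s 1 - g.t 1 + 1) = 0)
    (hG : V * (g.t 1 * g.s 1 * r - g.s 1 * r - g.t 1 * r + 1) = g.t 1 * g.s 1 * r) :
    N1 (g.t 1) (g.s 1) r = 0 := by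
  have ht0 := g.t_ne 1 (by omega)
  have hT0 := g.t_ne 2 (by omega)
  have hu0 := g.s_ne 1 (by omega)
  have hv0 := g.s_ne 2 (by omega)
  have ht1 : g.t 1 - 1 ≠ 0 := by
    have := g.t_inj 0 1 (by omega) (by omega)
    rw [g.t0] at this
    exact sub_ne_zero.2 this.symm
  have hu1 : g.s 1 - 1 ≠ 0 := by
    have := g.s_inj 0 1 (by omega) (by omega)
    rw [g.s0] at this
    exact sub_ne_zero.2 this.symm
  have hT1 : g.t 1 * r - 1 ≠ 0 := by
    have := g.t_inj 0 2 (by omega) (by omega)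
    rw [g.t0, hT] at this
    exact sub_ne_zero.2 this.symm
  have hr1 : r - 1 ≠ 0 := by
    intro h
    apply g.t_inj 1 2 (by omega) (by omega)
    rw [hT]
    linear_combination (- g.t 1) * h
  have hr0 : r ≠ 0 := by
    rintro rfl
    exact hT0 (by rw [hT, mul_zero])
  obtain ⟨d1, e1⟩ : ∃ d1, d1 = g.t 1 * g.s 1 * r - g.s 1 - g.t 1 + 1 := ⟨_, rfl⟩
  obtain ⟨d2, e2⟩ : ∃ d2, d2 = g.t 1 * g.s 1 * r - g.s 1 * r - g.t 1 * r + 1 := ⟨_, rfl⟩
  have hd1 : d1 ≠ 0 := by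
    intro h
    rw [← e1, h, mul_zero, add_zero] at hE
    exact one_ne_zero hE
  have hd2 : d2 ≠ 0 := by
    intro h
    rw [← e2, h, mul_zero] at hG
    exact mul_ne_zero (mul_ne_zero ht0 hu0) hr0 hG.symm
  rw [← e1] at hE
  rw [← e2] at hG
  have hcd : c = -1 / d1 := by
    rw [eq_div_iff hd1]
    linear_combination hE
  have hVd : V = g.t 1 * g.s 1 * r / d2 := by
    rw [eq_div_iff hd2]
    exact hG
  have hs3 : g.s 3 = g.s 1 * r ^ 2 := by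
    apply mul_right_cancel₀ ht0
    rw [h3, hT, hv]
    ring
  have G1 : ∀ k, k ≤ m → g.G 1 k * d1 = d1 - (g.t 1 - 1) * (g.s k - 1) := by
    intro k hk
    have r := g.row1G (k := k) (by omega) hk
    rw [r]
    linear_combination d1 * (g.s k - 1) * hc
      + (g.t 1 - 1) * (g.s k - 1) * hE
  have H1 : ∀ k, k ≤ m → g.s k * g.H 1 k * d2 = g.s k * d2 + (g.t 1 - 1) * (1 - g.s k) * (g.s 1 * r) := by
    intro k hk
    have r := g.row1H (k := k) (by omega) hk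
    apply mul_left_cancel₀ ht0
    linear_combination (g.t 1 * d2) * r + d2 * (1 - g.s k) * hV + (g.t 1 - 1) * (1 - g.s k) * hG
  have g12 : g.G 1 2 = g.s 1 * (r - 1) / d1 := by
    rw [eq_div_iff hd1, G1 2 (by omega), e1, hv]
    ring
  have g13 : g.G 1 3 = g.s 1 * (r - 1) * (1 + r - g.t 1 * r) / d1 := by
    rw [eq_div_iff hd1, G1 3 (by omega), e1, hs3]
    ring
  have g11 : g.G 1 1 = g.t 1 * g.s 1 * (r - 1) / d1 := by
    rw [eq_div_iff hd1, G1 1 (by omega), e1]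
    ring
  have h11 : g.H 1 1 = -(r - 1) / d2 := by
    rw [eq_div_iff hd2]
    apply mul_left_cancel₀ hu0
    linear_combination H1 1 (by omega) + g.s 1 * e2
  have h12 : g.H 1 2 = -(g.t 1 * (r - 1)) / d2 := by
    rw [eq_div_iff hd2]
    apply mul_left_cancel₀ hv0
    have := H1 2 (by omega)
    rw [hv] at this ⊢
    linear_combination this + g.s 1 * r * e2
  have h13 : g.H 1 3 = -((r - 1) * (g.t 1 + g.t 1 * r - 1)) / (r * d2) := by
    rw [eq_div_iff (mul_ne_zero hr0 hd2)]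
    have hs30 := g.s_ne 3 (by omega)
    apply mul_left_cancel₀ hs30
    have := H1 3 (by omega)
    rw [hs3] at this ⊢
    linear_combination r * this + g.s 1 * r ^ 2 * r * e2
  have p21 := g.row2G (k := 1) (by omega) (by omega)
  have p22 := g.row2G (k := 2) (by omega) (by omega)
  have q22 := g.row2H (k := 2) (by omega) (by omega)
  have p23 := g.row2G (k := 3) (by omega) (by omega)
  have cG := colG g (by omega) (j := 2) (by omega)
  have ty := type1_of g (by omega) hD hn1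
  have u12 := g.U1 1 2 (by omega) (by omega)
  have u22 := g.U1 2 2 (by omega) (by omega)
  norm_num at u12 u22
  obtain ⟨al, hal⟩ : ∃ al, al = 1 - g.lam' 1 := ⟨_, rfl⟩
  have hL1 : g.lam' 1 = 1 - al := by rw [hal]; ring
  obtain ⟨de, hde⟩ : ∃ de, de = g.mu' 1 := ⟨_, rfl⟩
  obtain ⟨q, hq⟩ : ∃ q, q = g.t 1 * g.s 1 * d2 + d1 := ⟨_, rfl⟩
  have hq0 : q ≠ 0 := by
    intro h
    apply hD
    rw [g11, h11, div_eq_div_iff hd1 hd2]
    rw [hq] at h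
    linear_combination (r - 1) * h
  have g21 : g.G 2 1 * d1 = g.t 1 * (r - 1) := by
    apply mul_left_cancel₀ ht1
    rw [hT, hc] at cG
    linear_combination d1 * cG + (g.t 1 - 1) * (g.s 1 - 1) * (g.t 1 * r - 1) * hE
      + (g.t 1 - 1) * e1
  have hal' : al = (g.s 1 * d1 + g.t 1 * d2) / (g.s 1 * q) := by
    rw [eq_div_iff (mul_ne_zero hu0 hq0)]
    rw [p21, g11, h11, hL1] at g21
    field_simp at g21
    rw [hq]
    linear_combination g21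
  have hde' : de = g.s 1 * (g.s 1 * d1 + g.t 1 * d2) / q := by
    rw [← hal, ← hde, hT, hv] at ty
    have h1 : de = g.s 1 ^ 2 * al := by
      apply mul_left_cancel₀ (mul_ne_zero ht0 hr0)
      linear_combination -ty
    rw [h1, hal']
    field_simp
  have hX : (g.t 1 * g.G 1 2 - g.G 1 3) * (g.t 1 * r * g.G 2 2 - (g.t 1 * r) ^ 2 * g.H 2 2)
      - (g.t 1 * r * g.G 2 2 - g.G 2 3) * (g.t 1 * g.G 1 2 - g.t 1 ^ 2 * g.H 1 2) = 0 := by
    rw [hT] at u22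
    rw [u12, u22]
    ring
  refine special_cell ht0 hu0 hr0 ht1 hu1 hr1 hT1 hd1 hd2 hq0 e1 e2 hq g12 g13 h12 h13 hal' hde'
    ?_ ?_ ?_ hX
  · rw [p22, hL1, hv]
    ring
  · rw [eq_div_iff (mul_ne_zero hu0 hr0), ← hv]
    rw [← hde] at q22
    linear_combination q22
  · rw [p23, hL1, hs3]
    ring

/-- the surface, state (10)/(10). -/
theorem n_1010_surface (g : GForm F m) (hm : 3 ≤ m) (hD : g.G 1 1 ≠ g.H 1 1)
    (h2 : g.t 2 ≠ g.s 2)
    (hn1 : (g.s 2 * g.t 1 - g.t 2) * ((1 - g.lam' 0) - g.t 1 * g.mu' 0 + g.t 1 - 1) =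
        (g.s 2 - 1) * (g.t 1 * g.t 2 * (1 - g.lam' 0) - g.t 1 * g.mu' 0))
    (hn2 : (g.t 2 * g.s 1 - g.s 2) * ((1 - g.lam' 0) - g.t 1 * g.mu' 0 + g.t 1 - 1) =
        (g.t 2 - 1) * (g.s 1 * g.s 2 * (1 - g.lam' 0) - g.t 1 * g.mu' 0))
    (hk : g.kap 1 2 ≠ 0) (hk' : g.swap.kap 1 2 ≠ 0)
    (hk3 : g.kap 1 3 ≠ 0) (hk3' : g.swap.kap 1 3 ≠ 0)
    (h3 : g.s 3 * g.t 1 = g.t 2 * g.s 2) (h3' : g.t 3 * g.s 1 = g.t 2 * g.s 2) :
    g.t 1 ≠ g.s 1 ∧ g.t 1 + g.s 1 ≠ 0 ∧ g.t 2 * g.s 2 ≠ 1 ∧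
    (1 - g.lam' 0) * ((g.t 1 + g.s 1) * (g.t 2 * g.s 2 - 1)) =
      (g.t 1 - 1) * (g.t 1 * g.s 1 + g.t 1 + g.s 1) ∧
    g.mu' 0 * (g.t 1 * ((g.t 1 + g.s 1) * (g.t 2 * g.s 2 - 1))) =
      (g.t 1 - 1) * (g.t 1 + g.s 1 + 1) * (g.t 2 * g.s 2) ∧
    (g.t 1 ^ 2 * g.t 2 * (g.t 2 * g.s 2) + g.t 1 * g.t 2 * (g.t 2 * g.s 2)
      - g.t 1 ^ 2 * (g.t 2 * g.s 2) - g.t 1 ^ 2 * g.t 2 * g.s 1
      + g.t 1 * g.s 1 * (g.t 2 * g.s 2) - g.t 2 * g.s 1 * (g.t 2 * g.s 2)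
      - (g.t 2 * g.s 2) ^ 2 + g.s 1 * (g.t 2 * g.s 2) = 0) ∧
    (g.s 1 ^ 2 * (g.t 2 * g.s 2) + g.s 1 * (g.t 2 * g.s 2) - g.s 1 ^ 2 * g.t 1
      - g.t 1 * (g.t 2 * g.s 2)
      + g.t 2 * (g.t 1 + g.t 1 * g.s 1 - g.s 1 ^ 2 - g.t 2 * g.s 2) = 0) := by
  have ht0 := g.t_ne 1 (by omega)
  have hT0 := g.t_ne 2 (by omega)
  have hu0 := g.s_ne 1 (by omega)
  have hv0 := g.s_ne 2 (by omega)
  have ht1 : g.t 1 - 1 ≠ 0 := by
    have := g.t_inj 0 1 (by omega) (by omega)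
    rw [g.t0] at this
    exact sub_ne_zero.2 this.symm
  have hu1 : g.s 1 - 1 ≠ 0 := by
    have := g.s_inj 0 1 (by omega) (by omega)
    rw [g.s0] at this
    exact sub_ne_zero.2 this.symm
  have hT1 : g.t 2 - 1 ≠ 0 := by
    have := g.t_inj 0 2 (by omega) (by omega)
    rw [g.t0] at this
    exact sub_ne_zero.2 this.symm
  have hv1 : g.s 2 - 1 ≠ 0 := by
    have := g.s_inj 0 2 (by omega) (by omega)
    rw [g.s0] at this
    exact sub_ne_zero.2 this.symm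
  have hTv : g.t 2 - g.s 2 ≠ 0 := sub_ne_zero.2 h2
  obtain ⟨c, hc'⟩ : ∃ c, c = (1 - g.lam' 0) / (g.t 1 - 1) := ⟨_, rfl⟩
  obtain ⟨V, hV'⟩ : ∃ V, V = g.t 1 * g.mu' 0 / (g.t 1 - 1) := ⟨_, rfl⟩
  have hc : 1 - g.lam' 0 = (g.t 1 - 1) * c := by rw [hc']; field_simp
  have hV : g.t 1 * g.mu' 0 = (g.t 1 - 1) * V := by rw [hV']; field_simp
  -- the dual parameters
  have h1 := g.row1G (k := 1) (by omega) (by omega)
  have h1H := g.row1H (k := 1) (by omega) (by omega)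
  have k1 := g.swap.row1G (k := 1) (by omega) (by omega)
  have k1H := g.swap.row1H (k := 1) (by omega) (by omega)
  simp only [GForm.swap_G, GForm.swap_H, GForm.swap_s, GForm.swap_lam', GForm.swap_mu'] at k1 k1H
  have hcs : 1 - g.lam 0 = (g.s 1 - 1) * c := by
    apply mul_left_cancel₀ ht1
    linear_combination h1 - k1 + (g.s 1 - 1) * hc
  have hVs : g.s 1 * g.mu 0 = (g.s 1 - 1) * V := by
    apply mul_left_cancel₀ ht1
    linear_combination g.s 1 * k1H - g.t 1 * h1H + (g.s 1 - 1) * hV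
  have hl1 : (g.s 2 * g.t 1 - g.t 2) * (c - V + 1) =
      (g.s 2 - 1) * (g.t 1 * g.t 2 * c - V) := by
    apply mul_left_cancel₀ ht1
    rw [hc, hV] at hn1
    linear_combination hn1
  have hl2 : (g.t 2 * g.s 1 - g.s 2) * (c - V + 1) =
      (g.t 2 - 1) * (g.s 1 * g.s 2 * c - V) := by
    apply mul_left_cancel₀ ht1
    rw [hc, hV] at hn2
    linear_combination hn2
  -- `hn1` of the swap
  have hn1s : (g.swap.s 2 * g.swap.t 1 - g.swap.t 2) *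
      ((1 - g.swap.lam' 0) - g.swap.t 1 * g.swap.mu' 0 + g.swap.t 1 - 1) =
        (g.swap.s 2 - 1) * (g.swap.t 1 * g.swap.t 2 * (1 - g.swap.lam' 0)
          - g.swap.t 1 * g.swap.mu' 0) := by
    simp only [GForm.swap_t, GForm.swap_s, GForm.swap_lam', GForm.swap_mu']
    rw [hcs, hVs]
    linear_combination (g.s 1 - 1) * hl2
  have h3s : g.swap.s 3 * g.swap.t 1 = g.swap.t 2 * g.swap.s 2 := by
    simp only [GForm.swap_t, GForm.swap_s]
    rw [h3', mul_comm]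
  have E := e23 g hm hD hn1 hk hk3 h3
  have Es := e23 g.swap hm hD hn1s hk' hk3' h3s
  simp only [GForm.swap_t, GForm.swap_s, GForm.swap_lam', GForm.swap_mu'] at Es
  have ha : g.t 2 * g.s 2 * (1 + c * (g.s 1 * (g.t 2 - 1) - (g.t 1 - 1))) =
      g.t 1 ^ 2 * g.s 1 * g.t 2
        - V * g.t 1 * (g.t 1 * (1 - g.t 2) + g.s 1 * g.t 2 * (g.t 1 - 1)) := by
    apply mul_left_cancel₀ ht1
    rw [hc] at E
    linear_combination E + (g.t 1 ^ 2 * (g.t 2 - 1)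
      - g.t 1 * g.s 1 * g.t 2 * (g.t 1 - 1)) * hV
  have hb : g.t 2 * g.s 2 * (1 + c * (g.t 1 * (g.s 2 - 1) - (g.s 1 - 1))) =
      g.s 1 ^ 2 * g.t 1 * g.s 2
        - V * g.s 1 * (g.s 1 * (1 - g.s 2) + g.t 1 * g.s 2 * (g.s 1 - 1)) := by
    apply mul_left_cancel₀ hu1
    rw [hcs] at Es
    linear_combination Es + (g.s 1 ^ 2 * (g.s 2 - 1)
      - g.s 1 * g.t 1 * g.s 2 * (g.s 1 - 1)) * hVs
  -- the surface
  have hR : R1 (g.t 1) (g.t 2) (g.s 1) (g.s 2) = 0 ∧ R2 (g.t 1) (g.t 2) (g.s 1) (g.s 2) = 0 := by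
    by_cases hw : g.t 1 * g.s 2 - g.t 2 * g.s 1 = 0
    · have htu : g.t 1 ≠ g.s 1 := by
        intro h
        apply h2
        apply mul_left_cancel₀ hu0
        rw [h] at hw
        linear_combination -hw
      obtain ⟨r, hr⟩ : ∃ r, r = g.s 2 / g.s 1 := ⟨_, rfl⟩
      have hv : g.s 2 = g.s 1 * r := by rw [hr]; field_simp
      have hT : g.t 2 = g.t 1 * r := by
        apply mul_left_cancel₀ hu0
        rw [hv] at hw
        linear_combination -hw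
      have hr0 : r ≠ 0 := by
        rintro rfl
        exact hT0 (by rw [hT, mul_zero])
      have hl1' := hl1
      have hl2' := hl2
      rw [hv, hT] at hl1' hl2' ha hb
      obtain ⟨E1, G1⟩ := special_c ht0 hu0 hr0 htu hl1' hl2' ha hb
      have n1 := special_n1 g hm hD hn1 h3 hT hv hc hV E1 G1
      have n2 := special_n1 g.swap hm hD hn1s h3s (r := r) (c := c) (V := V) hv hT hcs hVs
        (by
          simp only [GForm.swap_t, GForm.swap_s]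
          linear_combination E1)
        (by
          simp only [GForm.swap_t, GForm.swap_s]
          linear_combination G1)
      simp only [GForm.swap_t, GForm.swap_s] at n2
      have hd1 : g.t 1 * g.s 1 * r - g.s 1 - g.t 1 + 1 ≠ 0 := by
        intro h
        rw [h, mul_zero, add_zero] at E1
        exact one_ne_zero E1
      have := special_R ht0 hu0 hr0 htu hd1 n1 n2
      rw [hT, hv]
      exact this
    · exact R_generic hT0 hv0 hT1 hv1 hw hl1 hl2 ha hb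
  obtain ⟨hR1, hR2⟩ := hR
  obtain ⟨hx, hy⟩ := cV_of ht0 hu0 hTv hl1 hl2 ha hb hR1 hR2
  rw [R1] at hR1
  rw [R2] at hR2
  refine ⟨?_, ?_, ?_, ?_, ?_, ?_, ?_⟩
  · intro h
    rw [← h] at hR1 hR2 h3'
    have e1 : g.t 2 * g.s 2 = g.t 1 := by
      apply mul_left_cancel₀ hTv
      linear_combination hR2 - hR1
    apply g.s_inj 0 3 (by omega) (by omega)
    rw [g.s0]
    apply mul_right_cancel₀ ht0
    rw [h3, e1, one_mul]
  · intro h
    rw [h, zero_mul, mul_zero] at hx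
    exact mul_ne_zero ht0 hu0 (by linear_combination -hx - h)
  · intro h
    rw [h, sub_self, mul_zero, mul_zero] at hx hy
    apply g.s_inj 1 3 (by omega) (by omega)
    apply mul_right_cancel₀ ht0
    rw [h3, h]
    linear_combination hy - hx
  · rw [hc]
    linear_combination (g.t 1 - 1) * hx
  · linear_combination ((g.t 1 + g.s 1) * (g.t 2 * g.s 2 - 1)) * hV + (g.t 1 - 1) * hy
  · linear_combination g.t 2 * hR2
  · linear_combination hR1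

/-- state (10)/(10): `s_4 = t_4 = t_2 s_2`. -/
theorem n_1010 (g : GForm F m) (hm : 4 ≤ m) (hD : g.G 1 1 ≠ g.H 1 1)
    (h2 : g.t 2 ≠ g.s 2)
    (hn1 : (g.s 2 * g.t 1 - g.t 2) * ((1 - g.lam' 0) - g.t 1 * g.mu' 0 + g.t 1 - 1) =
        (g.s 2 - 1) * (g.t 1 * g.t 2 * (1 - g.lam' 0) - g.t 1 * g.mu' 0))
    (hn2 : (g.t 2 * g.s 1 - g.s 2) * ((1 - g.lam' 0) - g.t 1 * g.mu' 0 + g.t 1 - 1) =
        (g.t 2 - 1) * (g.s 1 * g.s 2 * (1 - g.lam' 0) - g.t 1 * g.mu' 0))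
    (hk : g.kap 1 2 ≠ 0) (hk' : g.swap.kap 1 2 ≠ 0)
    (hk3 : g.kap 1 3 ≠ 0) (hk3' : g.swap.kap 1 3 ≠ 0)
    (h3 : g.s 3 * g.t 1 = g.t 2 * g.s 2) (h3' : g.t 3 * g.s 1 = g.t 2 * g.s 2) :
    g.s 4 = g.t 2 * g.s 2 ∧ g.t 4 = g.t 2 * g.s 2 := by
  obtain ⟨a, b, c, d, e, f1, f2⟩ :=
    n_1010_surface g (by omega) hD h2 hn1 hn2 hk hk' hk3 hk3' h3 h3'
  exact ⟨s4_eq g hm hD hk' a b c h3 h3' d e f1 f2, t4_eq g hm hD hk a b c h3 h3' d e f1 f2⟩

end Pool.Agent.Helper36.IP
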