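import Pool.Agent.Helper36.IP.N5C
import Pool.Agent.Helper31.IPN.T2

/-!
TH-P phase 2: the pairs of dimension 5, `t_2 ≠ s_2`: the complete elimination.
-/

namespace Pool.Agent.Helper36.IP

open Pool.Agent.Helper54.IP Pool.Agent.Helper82.IP Pool.Agent.Helper31.IPN

variable {F : Type*} [Field F] {m : ℕ}

/-- state (10)/(11): only `t_2 = -t_1`, `s_1 = -1` is left (`m ≥ 4`). -/
theorem n_1011_or (g : GForm F m) (hm : 4 ≤ m) (hD : g.G 1 1 ≠ g.H 1 1) (h2 : g.t 2 ≠ g.s 2)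
    (hn1 : (g.s 2 * g.t 1 - g.t 2) * ((1 - g.lam' 0) - g.t 1 * g.mu' 0 + g.t 1 - 1) =
        (g.s 2 - 1) * (g.t 1 * g.t 2 * (1 - g.lam' 0) - g.t 1 * g.mu' 0))
    (hn2 : (g.t 2 * g.s 1 - g.s 2) * ((1 - g.lam' 0) - g.t 1 * g.mu' 0 + g.t 1 - 1) =
        (g.t 2 - 1) * (g.s 1 * g.s 2 * (1 - g.lam' 0) - g.t 1 * g.mu' 0))
    (hk : g.kap 1 2 ≠ 0) (hk' : g.swap.kap 1 2 ≠ 0) (hk3 : g.kap 1 3 ≠ 0)
    (hk3' : g.swap.kap 1 3 ≠ 0) (h3 : g.s 3 * g.t 1 = g.s 2 * g.t 2)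
    (h3' : g.t 3 * g.s 1 = g.t 1 * g.s 2) : g.t 2 = -g.t 1 ∧ g.s 1 = -1 := by
  obtain ⟨X, Y, hX, hY, hX', hY'⟩ := xy_exists g (by omega)
  have hE := Pool.Agent.Helper36.IP.e23 g (by omega) hD hn1 hk hk3 (by linear_combination h3)
  have hL := t2_add g (by omega) hD hk' hk3' h3' hX' hY'
  have hl2 := lam2_eq (g := g) (by omega) hX hY
  have hm2 := mu2_eq (g := g) (by omega) hX hY
  have hl2' := lam2_eq (g := g.swap) (by omega) (X := X) (Y := Y) hX' hY'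
  have hm2' := mu2_eq (g := g.swap) (by omega) (X := X) (Y := Y) hX' hY'
  have hK := kap2_eq (g := g) (by omega) hX hY
  have hK' := kap2_eq (g := g.swap) (by omega) (X := X) (Y := Y) hX' hY'
  have hdg := Pool.Agent.Helper14.IP.dg2 g (by omega)
  have hdh := Pool.Agent.Helper14.IP.dh2 g (by omega)
  simp only [GForm.swap_s, GForm.swap_t, GForm.swap_lam, GForm.swap_mu] at hl2' hm2' hK'
  have ha := g.t_ne 1 (by omega)
  have hb := g.s_ne 1 (by omega)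
  have hc := g.t_ne 2 (by omega)
  have he := g.s_ne 2 (by omega)
  have ha1 := Pool.Agent.Helper82.IP.t_sub_one g (k := 1) (by omega) (by omega)
  have hb1 := Pool.Agent.Helper82.IP.s_sub_one g (k := 1) (by omega) (by omega)
  have hc1 := Pool.Agent.Helper82.IP.t_sub_one g (k := 2) (by omega) (by omega)
  have he1 := Pool.Agent.Helper82.IP.s_sub_one g (k := 2) (by omega) (by omega)
  have hca : g.t 2 - g.t 1 ≠ 0 := sub_ne_zero.2 (g.t_inj 1 2 (by omega) (by omega)).symm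
  have heb : g.s 2 - g.s 1 ≠ 0 := sub_ne_zero.2 (g.s_inj 1 2 (by omega) (by omega)).symm
  have hce : g.t 2 - g.s 2 ≠ 0 := sub_ne_zero.2 h2
  have hT2 : g.t 3 - g.t 2 ≠ 0 := sub_ne_zero.2 (g.t_inj 2 3 (by omega) (by omega)).symm
  have hT0 := Pool.Agent.Helper82.IP.t_sub_one g (k := 3) (by omega) (by omega)
  have hT := g.t_ne 3 (by omega)
  have hS := g.s_ne 3 (by omega)
  have hx := g.lam'_ne 0 (by omega)
  have hXne : X ≠ 0 := by
    rintro rfl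
    apply hx
    linear_combination -hX
  have hl2ne : 1 - g.lam 2 ≠ 0 := sub_ne_zero.2 (g.lam_ne 2 (by omega)).symm
  have hK2 : (g.s 2 - 1) * (g.s 2 * X + Y) - g.s 2 ≠ 0 := by
    intro h
    rw [h, mul_zero] at hK
    exact hk ((mul_eq_zero.1 hK).resolve_left he)
  have hK2' : (g.t 2 - 1) * (g.t 2 * X + Y) - g.t 2 ≠ 0 := by
    intro h
    rw [h, mul_zero] at hK'
    exact hk' ((mul_eq_zero.1 hK').resolve_left hc)
  have hkap3 : g.s 3 * g.kap 1 3 = g.t 1 * (g.t 1 - 1) *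
      ((g.s 3 - 1) * (g.s 3 * X + g.t 1 * Y) - (g.t 1 + 1) * g.s 3) := by
    have h1 := G1k (g := g) (by omega) hX (k := 3) (by omega)
    have h2 := H1k (g := g) (by omega) hY (k := 3) (by omega)
    rw [GForm.kap]
    linear_combination g.t 1 * g.s 3 * h1 - g.t 1 ^ 2 * h2
  -- linear relations
  have e1 : X * (g.s 1 * g.t 2 * (g.s 2 - 1) - g.s 2 * (g.s 1 - 1)) +
      Y * (g.t 2 * (g.s 1 - 1) - (g.s 2 - 1)) = g.s 1 * g.t 2 - g.s 2 := by
    apply mul_left_cancel₀ ha1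
    linear_combination -hn2 - (g.s 1 * g.t 2 * (g.s 2 - 1) - g.s 2 * (g.s 1 - 1)) * hX
      - (g.t 2 * (g.s 1 - 1) - (g.s 2 - 1)) * hY
  have e2 : X * (g.t 1 * g.s 2 * (g.t 2 - 1) - g.t 2 * (g.t 1 - 1)) +
      Y * (g.s 2 * (g.t 1 - 1) - (g.t 2 - 1)) = g.t 1 * g.s 2 - g.t 2 := by
    apply mul_left_cancel₀ ha1
    linear_combination -hn1 - (g.t 1 * g.s 2 * (g.t 2 - 1) - g.t 2 * (g.t 1 - 1)) * hX
      - (g.s 2 * (g.t 1 - 1) - (g.t 2 - 1)) * hY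
  have e3 : g.t 2 * g.s 2 * (1 + X * (g.s 1 * (g.t 2 - 1) - (g.t 1 - 1))) =
      g.t 1 ^ 2 * g.s 1 * g.t 2
        - Y * g.t 1 * (g.t 1 * (1 - g.t 2) + g.s 1 * g.t 2 * (g.t 1 - 1)) := by
    apply mul_left_cancel₀ ha1
    linear_combination hE - (g.t 2 * g.s 2 * (g.s 1 * (g.t 2 - 1) - (g.t 1 - 1))) * hX
      - (g.t 1 * (g.t 1 * (1 - g.t 2) + g.s 1 * g.t 2 * (g.t 1 - 1))) * hY
  rcases t2_scalar ha hb hc he hb1 hc1 he1 hca heb hce hT2 hT0 hS hT hXne hl2ne h3'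
      (by linear_combination h3) e1 e2 e3 hK2 hK2' hL hl2 hm2 hl2' hm2' hdg hdh with h | h
  · exact h
  · exfalso
    apply hk3
    rw [h, mul_zero] at hkap3
    exact (mul_eq_zero.1 hkap3).resolve_left hS

theorem n5_1011 {g : GForm F 4} (h : g.Closed) (hD : g.G 1 1 ≠ g.H 1 1) (h2 : g.t 2 ≠ g.s 2)
    (hn1 : (g.s 2 * g.t 1 - g.t 2) * ((1 - g.lam' 0) - g.t 1 * g.mu' 0 + g.t 1 - 1) =
        (g.s 2 - 1) * (g.t 1 * g.t 2 * (1 - g.lam' 0) - g.t 1 * g.mu' 0))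
    (hn2 : (g.t 2 * g.s 1 - g.s 2) * ((1 - g.lam' 0) - g.t 1 * g.mu' 0 + g.t 1 - 1) =
        (g.t 2 - 1) * (g.s 1 * g.s 2 * (1 - g.lam' 0) - g.t 1 * g.mu' 0))
    (hk : g.kap 1 2 ≠ 0) (hk' : g.swap.kap 1 2 ≠ 0) (h3 : g.s 3 * g.t 1 = g.s 2 * g.t 2)
    (h3' : g.t 3 * g.s 1 = g.t 1 * g.s 2) : False := by
  obtain ⟨e1, e2⟩ := n_1011_or g le_rfl hD h2 hn1 hn2 hk hk' (n5_kap3 h) (n5_kap3 h.swap) h3 h3'
  obtain ⟨z, -, hz3, hz2⟩ := n5_zeta h
  have t0 := g.t_ne 1 (by omega)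
  have S0 := g.s_ne 2 (by omega)
  have ez : z ^ 2 = -1 := by
    apply mul_left_cancel₀ (mul_ne_zero S0 t0)
    rw [e1] at h3
    linear_combination hz2 + z ^ 2 * h3 - h3'
  have hz : z = -1 := by
    linear_combination z * ez - hz3
  have two : (1 : F) = -1 := by
    rw [hz] at ez
    linear_combination ez
  apply g.t_inj 1 2 (by omega) (by omega)
  rw [e1]
  linear_combination g.t 1 * two

/-- **Dimension 5, type 1**: `g` is of type D5* or W5. -/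
theorem n5_n {g : GForm F 4} (h : g.Closed) (hD : g.G 1 1 ≠ g.H 1 1) (h2 : g.t 2 ≠ g.s 2)
    (hn1 : (g.s 2 * g.t 1 - g.t 2) * ((1 - g.lam' 0) - g.t 1 * g.mu' 0 + g.t 1 - 1) =
        (g.s 2 - 1) * (g.t 1 * g.t 2 * (1 - g.lam' 0) - g.t 1 * g.mu' 0))
    (hn2 : (g.t 2 * g.s 1 - g.s 2) * ((1 - g.lam' 0) - g.t 1 * g.mu' 0 + g.t 1 - 1) =
        (g.t 2 - 1) * (g.s 1 * g.s 2 * (1 - g.lam' 0) - g.t 1 * g.mu' 0)) : D5s g ∨ W5 g := by
  have hDs : g.swap.G 1 1 ≠ g.swap.H 1 1 := hD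
  have h2s : g.swap.t 2 ≠ g.swap.s 2 := h2.symm
  have hn1s := hn_swap g (by omega) hn2
  have hn2s := hn_swap' g (by omega) hn1
  by_cases hk : g.kap 1 2 = 0
  · by_cases hk' : g.swap.kap 1 2 = 0
    · exact (n5_kk h hD h2 hn1 hn2 hk hk').elim
    · exact n5_k2 h hD hn1 hn2 hk hk'
  by_cases hk' : g.swap.kap 1 2 = 0
  · rcases n5_k2 h.swap hDs hn1s hn2s hk' hk with e | e
    · exact Or.inl e.of_swap
    · exact Or.inr e.of_swap
  have hk3 := n5_kap3 h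
  have hk3' := n5_kap3 h.swap
  rcases n_step3 g (by omega) hD hk hk3 with h3 | ⟨hf, hv⟩
  · rcases n_step3 g.swap (by omega) hDs hk' hk3' with h' | ⟨hf', hv'⟩
    · simp only [GForm.swap_s, GForm.swap_t] at h'
      exact Or.inl (n5_1010 h hD h2 hn1 hn2 hk hk' (by linear_combination -h3)
        (by linear_combination -h'))
    · have h3' := ns_letter1 g.swap (by omega) hDs hn1s hv'
      simp only [GForm.swap_s, GForm.swap_t] at h3'
      exact (n5_1011 h hD h2 hn1 hn2 hk hk' (by linear_combination -h3) h3').elim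
  · have h3 := ns_letter1 g (by omega) hD hn1 hv
    rcases n_step3 g.swap (by omega) hDs hk' hk3' with h' | ⟨hf', hv'⟩
    · simp only [GForm.swap_s, GForm.swap_t] at h'
      exact (n5_1011 h.swap hDs h2s hn1s hn2s hk' hk
        (by simp only [GForm.swap_s, GForm.swap_t]; linear_combination -h')
        (by simp only [GForm.swap_s, GForm.swap_t]; linear_combination h3)).elim
    · have h3' := ns_letter1 g.swap (by omega) hDs hn1s hv'
      simp only [GForm.swap_s, GForm.swap_t] at h3'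
      exact Or.inr (n5_1111 h hD h2 hn1 hn2 hk hk' hf hv hf' h3')

end Pool.Agent.Helper36.IP
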