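import Pool.Agent.Helper36.IP.Mono
import Pool.Agent.Helper36.IP.N1010
import Pool.Agent.Helper36.IP.KKBase
import Pool.Agent.Helper82.IP.NDeadOf

/-!
TH-P phase 2: the pairs of dimension 5, `t_2 ≠ s_2`: states (10)/(10), (11)/(11) and KK.
-/

namespace Pool.Agent.Helper36.IP

open Pool.Agent.Helper54.IP Pool.Agent.Helper82.IP

variable {F : Type*} [Field F]

/-- the exceptional type of dimension 5. -/
structure W5 (g : GForm F 4) : Prop where
  t2 : g.t 2 = -g.s 1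
  t3 : g.t 3 = g.s 1 - g.t 1
  t4 : g.t 4 = g.s 1 ^ 2
  s2 : g.s 2 = -g.t 1
  s3 : g.s 3 = g.t 1 - g.s 1
  s4 : g.s 4 = g.t 1 ^ 2
  q : g.t 1 ^ 2 - g.t 1 * g.s 1 + g.s 1 ^ 2 = 0
  r : g.t 1 * g.s 1 + 2 * g.t 1 + 2 * g.s 1 + 1 = 0

theorem W5.of_swap {g : GForm F 4} (h : W5 g.swap) : W5 g where
  t2 := h.s2
  t3 := h.s3
  t4 := h.s4
  s2 := h.t2
  s3 := h.t3
  s4 := h.t4
  q := by have := h.q; simp only [GForm.swap_t, GForm.swap_s] at this; linear_combination this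
  r := by have := h.r; simp only [GForm.swap_t, GForm.swap_s] at this; linear_combination this

/-- type D5*: the reversal is diagonal. -/
def D5s (g : GForm F 4) : Prop := ∀ i, i ≤ 4 → g.s (4 - i) * g.t i = g.s 4

theorem D5s.of_swap {g : GForm F 4} (h : D5s g.swap) : D5s g := by
  intro i hi
  have h4 := h 4 le_rfl
  have hj := h (4 - i) (by omega)
  simp only [GForm.swap_t, GForm.swap_s, g.t0, Nat.sub_self, one_mul] at h4 hj
  have e : 4 - (4 - i) = i := by omega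
  rw [e] at hj
  rw [h4]
  linear_combination hj

theorem D5s.mk' {g : GForm F 4} (h1 : g.s 3 * g.t 1 = g.s 4) (h2 : g.s 2 * g.t 2 = g.s 4)
    (h3 : g.s 1 * g.t 3 = g.s 4) (h4 : g.t 4 = g.s 4) : D5s g := by
  intro i hi
  interval_cases i
  · simp only [Nat.sub_zero, g.t0, mul_one]
  · exact h1
  · exact h2
  · exact h3
  · simp only [Nat.sub_self, g.s0, one_mul, h4]

/-- `s_4 = zeta t_4` -/
theorem n5_zeta {g : GForm F 4} (h : g.Closed) : ∃ z : F, g.t 4 = z * g.s 4 ∧ z ^ 3 = 1 ∧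
    g.s 1 * g.t 3 = g.t 1 * g.s 3 * z ^ 2 := by
  have c := h.corner (κ := 3) (by omega)
  have d := mono_closed h (n := 1) (by omega)
  simp only [pow_one, Nat.reduceAdd] at d
  have s4 := g.s_ne 4 le_rfl
  obtain ⟨z, hz⟩ : ∃ z, g.t 4 = z * g.s 4 := ⟨g.t 4 / g.s 4, by field_simp⟩
  refine ⟨z, hz, ?_, ?_⟩
  · apply mul_left_cancel₀ (pow_ne_zero 3 s4)
    rw [hz] at c
    linear_combination c
  · apply mul_left_cancel₀ (pow_ne_zero 2 s4)
    rw [hz] at d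
    linear_combination d

theorem n5_kap3 {g : GForm F 4} (h : g.Closed) : g.kap 1 3 ≠ 0 := by
  intro h3
  refine Pool.Agent.Helper43.IPL.kap_succ_ne g (by omega) 3 (by omega) h3 ?_
  rw [GForm.kap]
  linear_combination h.row 1 (by omega)

section

variable {g : GForm F 4} (h : g.Closed) (hD : g.G 1 1 ≠ g.H 1 1) (h2 : g.t 2 ≠ g.s 2)
    (hn1 : (g.s 2 * g.t 1 - g.t 2) * ((1 - g.lam' 0) - g.t 1 * g.mu' 0 + g.t 1 - 1) =
        (g.s 2 - 1) * (g.t 1 * g.t 2 * (1 - g.lam' 0) - g.t 1 * g.mu' 0))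
    (hn2 : (g.t 2 * g.s 1 - g.s 2) * ((1 - g.lam' 0) - g.t 1 * g.mu' 0 + g.t 1 - 1) =
        (g.t 2 - 1) * (g.s 1 * g.s 2 * (1 - g.lam' 0) - g.t 1 * g.mu' 0))

include h hD h2 hn1 hn2

/-- state (10)/(10) -/
theorem n5_1010 (hk : g.kap 1 2 ≠ 0) (hk' : g.swap.kap 1 2 ≠ 0)
    (h3 : g.s 3 * g.t 1 = g.s 2 * g.t 2) (h3' : g.t 3 * g.s 1 = g.s 2 * g.t 2) : D5s g := by
  obtain ⟨e1, e2⟩ := n_1010 g le_rfl hD h2 hn1 hn2 hk hk' (n5_kap3 h) (n5_kap3 h.swap)
    (by linear_combination h3) (by linear_combination h3')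
  exact D5s.mk' (by linear_combination h3 - e1) (by linear_combination -e1)
    (by linear_combination h3' - e1) (by rw [e1, e2])

/-- state (11)/(11) -/
theorem n5_1111 (hk : g.kap 1 2 ≠ 0) (hk' : g.swap.kap 1 2 ≠ 0)
    (hf : g.s 2 * (g.t 1 ^ 2 * g.H 1 2 - g.G 1 (2 + 1)) * g.t 2 =
      g.s (2 + 1) * (g.t 1 ^ 2 * g.H 1 (2 + 1) - g.G 1 2))
    (hv : (1 - g.lam' 1) * (g.s 2 * g.s (2 + 1) * g.t 1 ^ 2) = g.mu' 1 * g.t 2 ^ 2)
    (hf' : g.swap.s 2 * (g.swap.t 1 ^ 2 * g.swap.H 1 2 - g.swap.G 1 (2 + 1)) * g.swap.t 2 =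
      g.swap.s (2 + 1) * (g.swap.t 1 ^ 2 * g.swap.H 1 (2 + 1) - g.swap.G 1 2))
    (h3' : g.t 3 * g.s 1 = g.t 1 * g.s 2) : W5 g := by
  have hk3 := n5_kap3 h
  obtain ⟨X, Y, hX, hY, hX', hY'⟩ := xy_exists g (by omega)
  have ha := g.t_ne 1 (by omega)
  have hb := g.s_ne 1 (by omega)
  have hc := g.t_ne 2 (by omega)
  have he := g.s_ne 2 (by omega)
  have ha1 := Pool.Agent.Helper82.IP.t_sub_one g (k := 1) (by omega) (by omega)
  have hb1 := Pool.Agent.Helper82.IP.s_sub_one g (k := 1) (by omega) (by omega)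
  have h3 := ns_letter1 g (by omega) hD hn1 hv
  have hX0 : X ≠ 0 := by
    rintro rfl
    exact sub_ne_zero.2 (g.lam'_ne 0 (by omega)).symm (by rw [hX, mul_zero])
  have hN1 : (g.s 2 * g.t 1 - g.t 2) * (X - Y + 1) = (g.s 2 - 1) * (g.t 1 * g.t 2 * X - Y) := by
    apply mul_left_cancel₀ ha1
    linear_combination hn1 + (-(g.s 2 * g.t 1 - g.t 2) + (g.s 2 - 1) * (g.t 1 * g.t 2)) * hX
      + ((g.s 2 * g.t 1 - g.t 2) - (g.s 2 - 1)) * hY
  have hN2 : (g.t 2 * g.s 1 - g.s 2) * (X - Y + 1) = (g.t 2 - 1) * (g.s 1 * g.s 2 * X - Y) := by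
    apply mul_left_cancel₀ ha1
    linear_combination hn2 + (-(g.t 2 * g.s 1 - g.s 2) + (g.t 2 - 1) * (g.s 1 * g.s 2)) * hX
      + ((g.t 2 * g.s 1 - g.s 2) - (g.t 2 - 1)) * hY
  have hK2 : (g.s 2 - 1) * (g.s 2 * X + Y) - g.s 2 ≠ 0 := by
    intro h
    have := kap2_eq (g := g) (by omega) hX hY
    rw [h, mul_zero] at this
    exact mul_ne_zero he hk this
  have hK2' : (g.t 2 - 1) * (g.t 2 * X + Y) - g.t 2 ≠ 0 := by
    intro h
    have := kap2_eq (g := g.swap) (by omega) hX' hY'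
    simp only [GForm.swap_s, GForm.swap_t] at this
    rw [h, mul_zero] at this
    exact mul_ne_zero hc hk' this
  have hDX : g.t 1 * g.s 1 * X + Y ≠ 0 := by
    intro h
    refine mul_ne_zero ha (d11_ne g (by omega) hD) ?_
    linear_combination g.t 1 * g.s 1 * hX + hY + (g.t 1 - 1) * h
  have hK3 : (g.s 3 - 1) * (g.s 3 * X + g.t 1 * Y) ≠ (g.t 1 + 1) * g.s 3 := by
    intro h
    apply hk3
    have a3 := G1k (g := g) (by omega) hX (k := 3) (by omega)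
    have b3 := H1k (g := g) (by omega) hY (k := 3) (by omega)
    have hs3 := g.s_ne 3 (by omega)
    rw [GForm.kap]
    apply (mul_eq_zero.1 _).resolve_left hs3
    linear_combination g.t 1 * g.s 3 * a3 - g.t 1 ^ 2 * b3 + g.t 1 * (g.t 1 - 1) * h
  have l2 := lam2_eq (g := g) (by omega) hX hY
  have l2' := lam2_eq (g := g.swap) (by omega) hX' hY'
  have u2 := mu2_eq (g := g) (by omega) hX hY
  have u2' := mu2_eq (g := g.swap) (by omega) hX' hY'
  have hM := ns_add (by omega) hX hY hf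
  have hM' := ns_add (g := g.swap) (by omega) hX' hY' hf'
  have hdg := Pool.Agent.Helper14.IP.dg2 g (by omega)
  have hdh := Pool.Agent.Helper14.IP.dh2 g (by omega)
  simp only [GForm.swap_s, GForm.swap_t, GForm.swap_lam, GForm.swap_mu] at l2' u2' hM'
  have t12 : g.t 1 ≠ g.t 2 := g.t_inj 1 2 (by omega) (by omega)
  have s12 : g.s 1 ≠ g.s 2 := g.s_inj 1 2 (by omega) (by omega)
  have t13 : g.t 1 ≠ g.t 3 := g.t_inj 1 3 (by omega) (by omega)
  have t23 : g.t 2 ≠ g.t 3 := g.t_inj 2 3 (by omega) (by omega)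
  have s23 : g.s 2 ≠ g.s 3 := g.s_inj 2 3 (by omega) (by omega)
  obtain ⟨w, hw, hw1, hat, hct, het, hrel⟩ := t1_level3 (a := g.t 1) (b := g.s 1) (c := g.t 2)
    (e := g.s 2) (S := g.s 3) (T := g.t 3) (X := X) (Y := Y) (l := 1 - g.lam 2)
    (l' := 1 - g.lam' 2) (u := g.mu 2) (u' := g.mu' 2) ha hb hc he hX0
    (Pool.Agent.Helper82.IP.t_sub_one g (by omega) (by omega))
    (Pool.Agent.Helper82.IP.s_sub_one g (by omega) (by omega))
    (sub_ne_zero.2 t12.symm) (sub_ne_zero.2 s12.symm) h2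
    (Pool.Agent.Helper82.IP.s_sub_one g (by omega) (by omega)) (sub_ne_zero.2 s23.symm)
    (Pool.Agent.Helper82.IP.t_sub_one g (by omega) (by omega))
    (sub_ne_zero.2 t13.symm) (sub_ne_zero.2 t23.symm)
    (sub_ne_zero.2 (g.lam_ne 2 (by omega)).symm)
    (by linear_combination h3) (by linear_combination h3') hN1 hN2 hK2 hK2' l2 l2' u2 u2' hM hM'
    hdg hdh hDX hK3
  have hw0 : w ≠ 0 := by
    rintro rfl
    norm_num at hw
  have hw3 : w ^ 3 = 1 := by linear_combination (w - 1) * hw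
  have hS3 : g.s 3 = w ^ 2 * g.s 1 := by
    apply mul_left_cancel₀ hw0
    apply mul_left_cancel₀ hb
    rw [hat, hct] at h3
    linear_combination -h3 - g.s 1 ^ 2 * hw3
  have hT3 : g.t 3 = -w ^ 2 * g.s 1 := by
    apply mul_right_cancel₀ hb
    rw [hat, het] at h3'
    linear_combination h3'
  obtain ⟨z, hz, hz3, hz2⟩ := n5_zeta h
  -- z = w
  have hzw : z = w := by
    have e : z ^ 2 = w ^ 2 := by
      apply mul_left_cancel₀ (mul_ne_zero (pow_ne_zero 2 hb) (pow_ne_zero 3 hw0))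
      rw [hS3, hT3, hat] at hz2
      linear_combination hz2 + (- w ^ 3 * g.s 1 ^ 2 + w ^ 2 * g.s 1 ^ 2) * hw
    have e2 : z = z ^ 3 * z := by rw [hz3, one_mul]
    rw [e2]
    linear_combination (z ^ 2 + w ^ 2) * e + (w ^ 2 - w) * hw
  rw [hzw] at hz
  -- (X + Y)
  have cX := h.cX (ι := 2) (by omega) ⟨hX, hY, hX', hY'⟩
  have cX' := h.cX' (ι := 2) (by omega) ⟨hX, hY, hX', hY'⟩
  have hs4 := g.s_ne 4 le_rfl
  have k1 : (g.s 4 - 1) * (g.s 4 * X + g.t 1 ^ 2 * Y) = g.s 4 * (g.t 1 ^ 2 + g.t 1 + 1) := by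
    apply mul_left_cancel₀ ha1
    linear_combination cX
  have k2 : (g.t 4 - 1) * (g.t 4 * X + g.s 1 ^ 2 * Y) = g.t 4 * (g.s 1 ^ 2 + g.s 1 + 1) := by
    apply mul_left_cancel₀ hb1
    linear_combination cX'
  obtain ⟨b, hb'⟩ : ∃ b, b = g.s 1 := ⟨_, rfl⟩
  rw [← hb'] at hat hct het hrel hb hb1 hS3 hT3 hz2
  have hE : (b ^ 2 + w * b - b - 1) * (X + Y) = b * (b + w) := by
    rw [hct, het, ← hb'] at hN2
    linear_combination hN2 + X * (1 - b) * hrel
  have hne : b ^ 2 + w * b - b - 1 ≠ 0 := by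
    intro h0
    rw [h0, zero_mul] at hE
    rcases mul_eq_zero.1 hE.symm with h1 | h1
    · exact hb h1
    · apply hw1
      linear_combination h0 - (b - 1) * h1
  have hs : (b ^ 2 - 1) * (X + Y) = b ^ 2 + b + 1 := by
    apply mul_left_cancel₀ hne
    linear_combination (b ^ 2 - 1) * hE - hrel
  have ht : (g.t 1 ^ 2 - 1) * (X + Y) = g.t 1 ^ 2 + g.t 1 + 1 := by
    apply mul_left_cancel₀ hne
    rw [hat]
    linear_combination (w ^ 2 * b ^ 2 - 1) * hE - (w ^ 2 * b + 1) * hrel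
      + (w * b ^ 3 + 2 * w * b ^ 2 - 2 * b ^ 2 - b) * hw
  have q1 : (g.s 4 - g.t 1 ^ 2) * (X * g.s 4 + Y) = 0 := by
    linear_combination k1 - g.s 4 * ht
  have q2 : (g.t 4 - g.s 1 ^ 2) * (X * g.t 4 + Y) = 0 := by
    rw [← hb'] at k2 ⊢
    linear_combination k2 - g.t 4 * hs
  have hs4' : g.s 4 = g.t 1 ^ 2 := by
    rcases mul_eq_zero.1 q1 with e1 | e1
    · exact sub_eq_zero.1 e1
    · rcases mul_eq_zero.1 q2 with e2 | e2
      · apply mul_left_cancel₀ hw0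
        rw [← hz, sub_eq_zero.1 e2, hat, ← hb']
        linear_combination (- w * b ^ 2 + b ^ 2) * hw
      · exfalso
        have e3 : X * g.s 4 * (w - 1) = 0 := by
          rw [hz] at e2
          linear_combination e2 - e1
        exact mul_ne_zero (mul_ne_zero hX0 hs4) hw1 e3
  refine ⟨?_, ?_, ?_, ?_, ?_, hs4', ?_, ?_⟩
  · rw [hct, hb']
  · rw [hT3, hat, ← hb']
    linear_combination (-b) * hw
  · rw [hz, hs4', hat, ← hb']
    linear_combination (w * b ^ 2 - b ^ 2) * hw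
  · rw [het, hat]
    ring
  · rw [hS3, hat, ← hb']
    linear_combination b * hw
  · rw [hat, ← hb']
    linear_combination b ^ 2 * hw
  · rw [hat, ← hb']
    linear_combination -hrel

end

end Pool.Agent.Helper36.IP
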