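import Pool.Agent.Helper36.IP.N5A

/-!
TH-P phase 2: the pairs of dimension 5, `t_2 ≠ s_2`: state KK is impossible.
-/

namespace Pool.Agent.Helper36.IP

open Pool.Agent.Helper54.IP Pool.Agent.Helper82.IP

variable {F : Type*} [Field F]

theorem kk5_s4 {g : GForm F 4} (h : g.Closed) (hK : KK g) : g.s 4 = -(g.t 1 * g.s 2) := by
  have t1 := g.t_sub_one (k := 1) (by omega) (by omega)
  have r := h.row' (κ := 3) (by omega) (j := 1) (by omega)
  have a := kk_G g hK (by omega) (k := 4) le_rfl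
  have b := kk_H g hK (by omega) (k := 4) le_rfl
  have s3 := kk_s3 g hK (by omega)
  have n := g.s_inj 3 4 (by omega) le_rfl
  have e : (g.t 1 - 1) * ((g.s 4 + g.t 1 * g.s 2) * (g.s 4 - g.s 3)) = 0 := by
    rw [s3]
    linear_combination g.s 4 * a - g.s 4 * r - g.t 1 ^ 2 * b + (g.t 1 - 1) * g.t 1 ^ 2 * (-1) * hK.1
  rcases mul_eq_zero.1 e with e | e
  · exact absurd e t1
  · rcases mul_eq_zero.1 e with e | e
    · linear_combination e
    · exact absurd (sub_eq_zero.1 e).symm n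

theorem kk5_row2_alg {t u S G H w : F} (hS : S ^ 2 - S + 1 = 0) (hw : w = -(t * S))
    (a : (t - 1) * (u * t - 1) * G = kkg t u S w) (b : (t - 1) * (u * t - 1) * (w ^ 2 * H) = kkh t u S w)
    (r : G = (1 - S) ^ 3 * H) : (1 - S) * (t - 1) * ((t ^ 2 - u) * (t ^ 3 + 1)) = 0 := by
  rw [kkg] at a
  rw [kkh] at b
  subst hw r
  linear_combination (-(t * S) ^ 2) * a + (1 - S) ^ 3 * b
    + (- S ^ 4 * t ^ 4 * u + S ^ 4 * t ^ 3 * u - S ^ 3 * t ^ 6 + S ^ 3 * t ^ 5 + 2 * S ^ 3 * t ^ 4 * u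
    - S ^ 3 * t ^ 4 - 3 * S ^ 3 * t ^ 3 * u + 2 * S ^ 3 * t ^ 3 - S ^ 3 * t ^ 2 + S ^ 3 * t * u
    - S ^ 2 * t ^ 6 + S ^ 2 * t ^ 5 + S ^ 2 * t ^ 4 + 2 * S ^ 2 * t ^ 3 * u - 4 * S ^ 2 * t ^ 3
    + S ^ 2 * t ^ 2 * u + 3 * S ^ 2 * t ^ 2 - 4 * S ^ 2 * t * u + S ^ 2 * u + S * t ^ 3
    - 3 * S * t ^ 2 * u - S * t ^ 2 + 6 * S * t * u - 3 * S * u + t ^ 6 - t ^ 5 - t ^ 4 * u
    + t ^ 3 * u + t ^ 3 + t ^ 2 * u - t ^ 2 - 3 * t * u + 2 * u) * hS

theorem kk5_row2 {g : GForm F 4} (h : g.Closed) (hK : KK g) :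
    g.t 1 = g.s 2 ∨ g.t 1 ^ 2 = g.s 1 := by
  have t1 := g.t_sub_one (k := 1) (by omega) (by omega)
  have r := h.row' (κ := 3) (by omega) (j := 2) (by omega)
  have a := kk_G2 g hK (by omega) (k := 4) le_rfl
  have b := kk_H2 g hK (by omega) (k := 4) le_rfl
  have s4 := kk5_s4 h hK
  have hS := hK.1
  have hT := hK.2.1
  rw [hT] at r
  have e := kk5_row2_alg hS s4 a b r
  have n1 : 1 - g.s 2 ≠ 0 := by
    rw [← hT]
    exact g.t_ne 2 (by omega)
  have n2 : g.t 1 - (1 - g.s 2) ≠ 0 := by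
    rw [← hT]
    exact sub_ne_zero.2 (g.t_inj 1 2 (by omega) (by omega))
  have n3 : g.t 1 + 1 ≠ 0 := by
    intro h1
    apply g.s_inj 2 4 (by omega) le_rfl
    rw [s4]
    linear_combination g.s 2 * h1
  rcases mul_eq_zero.1 e with e | e
  · exact absurd e (mul_ne_zero n1 t1)
  · rcases mul_eq_zero.1 e with e | e
    · right
      exact sub_eq_zero.1 e
    · left
      have e2 : (g.t 1 + 1) * (g.t 1 - (1 - g.s 2)) * (g.t 1 - g.s 2) = 0 := by
        linear_combination e - (g.t 1 + 1) * hS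
      exact sub_eq_zero.1 ((mul_eq_zero.1 e2).resolve_left (mul_ne_zero n3 n2))

/-- state KK -/
theorem n5_kk {g : GForm F 4} (h : g.Closed) (hD : g.G 1 1 ≠ g.H 1 1) (h2 : g.t 2 ≠ g.s 2)
    (hn1 : (g.s 2 * g.t 1 - g.t 2) * ((1 - g.lam' 0) - g.t 1 * g.mu' 0 + g.t 1 - 1) =
        (g.s 2 - 1) * (g.t 1 * g.t 2 * (1 - g.lam' 0) - g.t 1 * g.mu' 0))
    (hn2 : (g.t 2 * g.s 1 - g.s 2) * ((1 - g.lam' 0) - g.t 1 * g.mu' 0 + g.t 1 - 1) =
        (g.t 2 - 1) * (g.s 1 * g.s 2 * (1 - g.lam' 0) - g.t 1 * g.mu' 0))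
    (hk : g.kap 1 2 = 0) (hk' : g.swap.kap 1 2 = 0) : False := by
  obtain ⟨hK, hK'⟩ := kk_of g (by omega) h2 hn1 hn2 hk hk'
  have hS := hK.1
  have hT := hK.2.1
  have hut := kk_ut g hK (by omega) hD
  have s4 := kk5_s4 h hK
  have t4 := kk5_s4 h.swap hK'
  simp only [GForm.swap_s, GForm.swap_t] at t4
  have c := h.corner (κ := 3) (by omega)
  have r1 := kk5_row2 h hK
  have r2 := kk5_row2 h.swap hK'
  simp only [GForm.swap_s, GForm.swap_t] at r2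
  rw [s4, t4, hT] at c
  have c' : g.s 1 ^ 3 = g.t 1 ^ 3 := by
    linear_combination c + (- g.s 2 * g.t 1 ^ 3 - g.s 2 * g.s 1 ^ 3 - g.t 1 ^ 3 + 2 * g.s 1 ^ 3) * hS
  rw [hT] at r2 h2
  have h2' : 1 - g.s 2 - g.s 2 ≠ 0 := sub_ne_zero.2 h2
  rcases r1 with r1 | r1
  · rcases r2 with r2 | r2
    · apply hut
      rw [r1, r2]
      linear_combination -hS
    · -- t = S, u ^ 2 = t
      apply hut
      rw [r1] at r2 c' ⊢
      have e1 : g.s 1 * g.s 2 + 1 = 0 := by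
        linear_combination (-g.s 1) * r2 + c' + (g.s 2 + 1) * hS
      have two : (2 : F) = 0 := by
        linear_combination (-(g.s 1 * g.s 2 - 1)) * e1 + g.s 2 ^ 2 * r2 + (g.s 2 + 1) * hS
      linear_combination e1 - two
  · rcases r2 with r2 | r2
    · apply hut
      rw [r2] at r1 c' ⊢
      have e1 : g.t 1 * (1 - g.s 2) + 1 = 0 := by
        linear_combination (-g.t 1) * r1 - c' + (2 - g.s 2) * hS
      have two : (2 : F) = 0 := by
        linear_combination (-(g.t 1 * (1 - g.s 2) - 1)) * e1 + (1 - g.s 2) ^ 2 * r1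
          + (2 - g.s 2) * hS
      linear_combination e1 - two
    · -- u = t ^ 2, t = u ^ 2
      apply hut
      have t0 := g.t_ne 1 (by omega)
      have e1 : g.t 1 * (g.s 1 * g.t 1) = g.t 1 * 1 := by
        linear_combination r2 + g.s 1 * r1
      rw [mul_left_cancel₀ t0 e1, sub_self]

end Pool.Agent.Helper36.IP
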