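import Pool.Agent.Helper36.IP.N5B
import Pool.Agent.Helper27.IP.K2Dual

/-!
TH-P phase 2: the pairs of dimension 5, `t_2 ≠ s_2`, `kap_1^(2) = 0`: types D5* and W5.
-/

namespace Pool.Agent.Helper36.IP

open Pool.Agent.Helper54.IP Pool.Agent.Helper82.IP Pool.Agent.Helper27.IP

section alg

variable {F : Type*} [Field F]

theorem k5_s4_alg {t S v w x y G H : F} (R : t * (v + 1 - S) = S * (v + 1) - v)
    (hx : x * ((S - 1) * (v + 1)) = t - 1) (hy : t * y = S * v * x)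
    (rG : G = 1 - x + x * w) (rH : w * H = (1 - y) * w + y) (c : G = t ^ 3 * H) :
    (t - 1) * ((w - t * v) * (w + t * S)) = 0 := by
  linear_combination w * ((S - 1) * (v + 1)) * c - w * ((S - 1) * (v + 1)) * rG
    + t ^ 3 * ((S - 1) * (v + 1)) * rH - (w * (w - 1) + t ^ 2 * (w - 1) * S * v) * hx
    - t ^ 2 * ((S - 1) * (v + 1)) * (w - 1) * hy - (t - 1) * w * (t + 1) * R

/-- row 2 closed -/
def k5A0 (t u S v : F) : F :=
  v ^ 2 * t * (v * (u * t + v * S) + (t ^ 2 + t + 1) * (t + v) * (S - v))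
    - S * (t ^ 2 * (u * t + v * S) - u * ((t ^ 2 + t + 1) * (t + v) * (S - v)))

/-- `A` -/
def k5A (t u v : F) : F :=
  u * (t + v + 2 * (t * v) - (t * v) ^ 2) - t * (t * v) * (1 - 2 * (t * v) - (t + v) * (t * v))

theorem k5_row2_alg {t T u v al H1 H2 : F}
    (hH2 : -(t * (v * T)) * H2 = (1 - u * t * v * al) * (t ^ 3 * H1) + u * t * v * al * H1)
    (c2 : -(t * (v * T)) * (al * (t ^ 3 * H1) + (1 - al) * H1) = T ^ 3 * H2)
    (hal : al * (t - 1) * (u * t + v * (v * T)) = (t + v) * (T - 1)) :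
    T ^ 2 * H1 * t * k5A0 t u (v * T) v = 0 := by
  rw [k5A0]
  linear_combination (v * (u * t + v * (v * T)) * (-(t * v * T))) * c2
    + (v * (u * t + v * (v * T)) * T ^ 3) * hH2
    - T ^ 2 * H1 * v * (t ^ 2 + t + 1) * (t ^ 2 * v ^ 2 + u * t * v * T) * hal

theorem k5_A {t u S v : F} (R : t * (v + 1 - S) = S * (v + 1) - v) (h0 : k5A0 t u S v = 0) :
    (t + v) * ((t - v ^ 2) * k5A t u v) = 0 := by
  rw [k5A0] at h0
  rw [k5A]
  linear_combination (t + v + 1) ^ 2 * h0 + (t ^ 5 * v ^ 2 + 2 * t ^ 4 * v ^ 3 + 2 * t ^ 4 * v ^ 2 + t ^ 4 * S * u + t ^ 3 * v ^ 4 + 3 * t ^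
    3 * v ^ 3 - t ^ 3 * v ^ 2 * u + t ^ 3 * v ^ 2 + 2 * t ^ 3 * v * S * u - t ^ 3 * v * S - t ^ 3 *
    v + 2 * t ^ 3 * S * u + 2 * t ^ 2 * v ^ 4 - t ^ 2 * v ^ 3 * u + 3 * t ^ 2 * v ^ 3 + t ^ 2 * v ^
    2 * S * u - t ^ 2 * v ^ 2 * S - t ^ 2 * v ^ 2 * u + 3 * t ^ 2 * v * S * u - t ^ 2 * v * S + t ^
    2 * v * u + 2 * t ^ 2 * S * u + t ^ 2 * u + t * v ^ 5 + 2 * t * v ^ 4 - t * v ^ 3 * u + t * v ^
    3 + t * v ^ 2 * S * u - t * v ^ 2 * u + 3 * t * v * S * u + t * v * u + t * S * u - v ^ 3 * u +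
    v ^ 2 * S * u + v * S * u) * R

theorem k5_u {t u v w : F} (hw : w ^ 2 + w + 1 = 0)
    (R : t * (v + 1 - w * (t * v)) = w * (t * v) * (v + 1) - v) (h0 : k5A t u v = 0) :
    (t * v) * (t * v - 1) * (t * v + w) * (u + w * t) = 0 := by
  rw [k5A] at h0
  linear_combination (-w ^ 2 * (w * (t * v) - 1)) * h0 + (-w ^ 2 * (u + t * (t * v) ^ 2)) * R
    + (w * t ^ 4 * v ^ 3 - w * t ^ 3 * v ^ 3 * u - w * t ^ 3 * v ^ 2 + 2 * w * t ^ 2 * v ^ 2 * u - w *
    t * v * u + t ^ 3 * v ^ 3 * u - t ^ 2 * v ^ 2 * u) * hw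

theorem k5_w5 {t v w : F} (hw : w ^ 2 + w + 1 = 0)
    (R : (t + v) * (w * t * v - 1) = t * v * (1 - w)) (B2 : pB2 (w * t * v) v (-w * t) = 0) :
    v ^ 3 * ((t * v + 1) * (t + 1) * (v - w ^ 2) * (v + w ^ 2)) = 0 := by
  rw [pB2, pP, pQ] at B2
  linear_combination (w * t * v ^ 3 + w * t * v ^ 2 - w * t * v + w * v ^ 4 + 2 * w * v ^ 3 - w * v ^ 2 - 3 * w * v -
    w - t * v ^ 2 - t * v - 2 * v ^ 3 - 4 * v ^ 2 - 3 * v) * B2 + (w * t ^ 4 * v ^ 5 + 2 * w * t ^ 4 * v ^ 4 + 3 * w * t ^ 3 * v ^ 5 + 4 * w * t ^ 3 * v ^ 4 - w *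
    t ^ 3 * v ^ 3 - 2 * w * t ^ 3 * v ^ 2 - 2 * w * t ^ 2 * v ^ 4 - 4 * w * t ^ 2 * v ^ 3 - 4 * w *
    t ^ 2 * v ^ 2 - w * t ^ 2 * v + w * t * v ^ 7 + 5 * w * t * v ^ 6 + 8 * w * t * v ^ 5 + 5 * w *
    t * v ^ 4 + 2 * w * t * v ^ 3 + w * t * v ^ 2 + w * v ^ 6 + 2 * w * v ^ 5 - w * v ^ 4 - 3 * w *
    v ^ 3 + t ^ 4 * v ^ 5 + t ^ 4 * v ^ 4 - t ^ 4 * v ^ 3 - 3 * t ^ 3 * v ^ 4 - 5 * t ^ 3 * v ^ 3 -
    2 * t ^ 3 * v ^ 2 - 2 * t ^ 2 * v ^ 5 - 4 * t ^ 2 * v ^ 4 - 5 * t ^ 2 * v ^ 3 - 2 * t ^ 2 * v ^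
    2 + t * v ^ 7 + 4 * t * v ^ 6 + 4 * t * v ^ 5 - t * v ^ 3 - 2 * v ^ 5 - 5 * v ^ 4 - 3 * v ^ 3) * R
    + (- w ^ 4 * t ^ 6 * v ^ 6 - w ^ 4 * t ^ 6 * v ^ 5 + w ^ 4 * t ^ 6 * v ^ 4 - w ^ 4 * t ^ 5 * v ^ 7
    - 2 * w ^ 4 * t ^ 5 * v ^ 6 + w ^ 4 * t ^ 5 * v ^ 5 + 3 * w ^ 4 * t ^ 5 * v ^ 4 + w ^ 4 * t ^ 5
    * v ^ 3 + w ^ 3 * t ^ 6 * v ^ 6 + 2 * w ^ 3 * t ^ 6 * v ^ 5 + w ^ 3 * t ^ 5 * v ^ 7 + 7 * w ^ 3
    * t ^ 5 * v ^ 6 + 8 * w ^ 3 * t ^ 5 * v ^ 5 - w ^ 3 * t ^ 5 * v ^ 4 - 3 * w ^ 3 * t ^ 5 * v ^ 3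
    + 3 * w ^ 3 * t ^ 4 * v ^ 7 + 8 * w ^ 3 * t ^ 4 * v ^ 6 + w ^ 3 * t ^ 4 * v ^ 5 - 11 * w ^ 3 * t
    ^ 4 * v ^ 4 - 9 * w ^ 3 * t ^ 4 * v ^ 3 - 2 * w ^ 3 * t ^ 4 * v ^ 2 - w ^ 2 * t ^ 6 * v ^ 5 - w
    ^ 2 * t ^ 6 * v ^ 4 - 5 * w ^ 2 * t ^ 5 * v ^ 6 - 12 * w ^ 2 * t ^ 5 * v ^ 5 - 7 * w ^ 2 * t ^ 5
    * v ^ 4 - 3 * w ^ 2 * t ^ 4 * v ^ 7 - 16 * w ^ 2 * t ^ 4 * v ^ 6 - 22 * w ^ 2 * t ^ 4 * v ^ 5 -
    8 * w ^ 2 * t ^ 4 * v ^ 4 + 5 * w ^ 2 * t ^ 4 * v ^ 3 + 3 * w ^ 2 * t ^ 4 * v ^ 2 - 2 * w ^ 2 *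
    t ^ 3 * v ^ 7 - 7 * w ^ 2 * t ^ 3 * v ^ 6 - 5 * w ^ 2 * t ^ 3 * v ^ 5 + 7 * w ^ 2 * t ^ 3 * v ^
    4 + 12 * w ^ 2 * t ^ 3 * v ^ 3 + 6 * w ^ 2 * t ^ 3 * v ^ 2 + w ^ 2 * t ^ 3 * v - w ^ 2 * t ^ 2 *
    v ^ 4 - w ^ 2 * t * v ^ 4 - w ^ 2 * t * v ^ 3 - w ^ 2 * v ^ 3 - w * t ^ 6 * v ^ 6 - w * t ^ 6 *
    v ^ 5 + w * t ^ 6 * v ^ 4 - w * t ^ 5 * v ^ 7 - 2 * w * t ^ 5 * v ^ 6 + 4 * w * t ^ 5 * v ^ 5 +
    8 * w * t ^ 5 * v ^ 4 + 3 * w * t ^ 5 * v ^ 3 + 8 * w * t ^ 4 * v ^ 6 + 23 * w * t ^ 4 * v ^ 5 +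
    24 * w * t ^ 4 * v ^ 4 + 8 * w * t ^ 4 * v ^ 3 - w * t ^ 3 * v ^ 8 - 2 * w * t ^ 3 * v ^ 7 + 7 *
    w * t ^ 3 * v ^ 6 + 20 * w * t ^ 3 * v ^ 5 + 15 * w * t ^ 3 * v ^ 4 + w * t ^ 3 * v ^ 3 - 3 * w
    * t ^ 3 * v ^ 2 - w * t ^ 3 * v - w * t ^ 2 * v ^ 9 - 5 * w * t ^ 2 * v ^ 8 - 7 * w * t ^ 2 * v
    ^ 7 + 2 * w * t ^ 2 * v ^ 6 + 12 * w * t ^ 2 * v ^ 5 + 10 * w * t ^ 2 * v ^ 4 + 2 * w * t ^ 2 *
    v ^ 3 + w * t * v ^ 4 + w * t * v ^ 3 + w * v ^ 3 + t ^ 5 * v ^ 6 + 2 * t ^ 5 * v ^ 5 - t ^ 5 *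
    v ^ 3 + t ^ 4 * v ^ 6 - 2 * t ^ 4 * v ^ 5 - 9 * t ^ 4 * v ^ 4 - 7 * t ^ 4 * v ^ 3 - 2 * t ^ 4 *
    v ^ 2 - 2 * t ^ 3 * v ^ 6 - 9 * t ^ 3 * v ^ 5 - 14 * t ^ 3 * v ^ 4 - 9 * t ^ 3 * v ^ 3 - 2 * t ^
    3 * v ^ 2 + t ^ 2 * v ^ 8 + 5 * t ^ 2 * v ^ 7 + 7 * t ^ 2 * v ^ 6 - 6 * t ^ 2 * v ^ 4 - 3 * t ^
    2 * v ^ 3 + t * v ^ 8 + 4 * t * v ^ 7 + 3 * t * v ^ 6 - 5 * t * v ^ 5 - 8 * t * v ^ 4 - 3 * t *
    v ^ 3) * hw

theorem k5_th {t u v th : F} (huv : u * v = 1)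
    (R : t * (v + 1 - th * (t * v)) = th * (t * v) * (v + 1) - v) (h0 : k5A t u v = 0) :
    (t * v) * ((1 + th) * (t * v - 1) * ((t * v) ^ 2 - t * v + 1)) = 0 := by
  rw [k5A] at h0
  linear_combination (th * (t * v) - 1) * v * h0 + (1 + (t * v) ^ 3) * R
    - (th * (t * v) - 1) * (t + v + 2 * (t * v) - (t * v) ^ 2) * huv

/-- the last case of K2-0: `S = m - 1`, `m = t v`, `t_4 = -t`. -/
theorem k5_hard {t v u S X Y m : F} (ht : t ≠ 1) (hv0 : v ≠ 0) (hm0 : m ≠ 0) (hm : t * v = m)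
    (q : m ^ 2 - m + 1 = 0) (hS : S = m - 1)
    (R : t * (v + 1 - S) = S * (v + 1) - v) (huv : u * v = 1)
    (hX : X * ((S - 1) * (v + 1)) = 1) (hY : Y * ((S - 1) * (v + 1)) = S * v)
    (c : (-t - 1) * (-t * X + u ^ 2 * Y) = -t * (u ^ 2 + u + 1)) : False := by
  have e1 : (t + v) * (m - 2) = 1 := by
    rw [hS] at R
    linear_combination (-1) * R + hm
  have a1 : t * (m - 2) = 1 - v * (m - 2) := by linear_combination e1
  have a2 : v ^ 2 * (m - 2) = v - m * (m - 2) := by linear_combination v * e1 - (m - 2) * hm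
  have c1 : (t + 1) * (t - u ^ 2 * (S * v)) = -(t * (u ^ 2 + u + 1) * ((S - 1) * (v + 1))) := by
    linear_combination ((S - 1) * (v + 1)) * c - (t + 1) * t * hX + (t + 1) * u ^ 2 * hY
  have c2 : (t + 1) * (t * v ^ 2 - S * v) = -(t * (v ^ 2 + v + 1) * ((S - 1) * (v + 1))) := by
    linear_combination v ^ 2 * c1 + ((t + 1) * S * v * (u * v + 1)
      - t * (u * v + 1 + v) * ((S - 1) * (v + 1))) * huv
  have K : m + v = -((m - 2) * (m * v ^ 2 + 2 * m * v + 2 * m + t)) := by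
    rw [hS] at c2
    linear_combination c2 - (t * v + v + 1 + (m - 2) * (v ^ 2 + 2 * v + 2)) * hm
  have L : (2 * m - 1) * (v - m) = 0 := by
    linear_combination -K + m * a2 + a1 + (-m + 2 * v + 1) * q
  rcases mul_eq_zero.1 L with h | h
  · have e2 : m - 2 = 0 := by linear_combination m * h - 2 * q
    rw [e2, mul_zero] at e1
    exact zero_ne_one e1
  · apply ht
    apply mul_right_cancel₀ hv0
    linear_combination hm - h

end alg

section main

variable {F : Type*} [Field F] {g : GForm F 4}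

/-- `kap_1^(2) = 0 ≠ kap'_1^(2)` -/
theorem n5_k2 (h : g.Closed) (hD : g.G 1 1 ≠ g.H 1 1)
    (hn1 : (g.s 2 * g.t 1 - g.t 2) * ((1 - g.lam' 0) - g.t 1 * g.mu' 0 + g.t 1 - 1) =
        (g.s 2 - 1) * (g.t 1 * g.t 2 * (1 - g.lam' 0) - g.t 1 * g.mu' 0))
    (hn2 : (g.t 2 * g.s 1 - g.s 2) * ((1 - g.lam' 0) - g.t 1 * g.mu' 0 + g.t 1 - 1) =
        (g.t 2 - 1) * (g.s 1 * g.s 2 * (1 - g.lam' 0) - g.t 1 * g.mu' 0))
    (hk : g.kap 1 2 = 0) (hk' : g.swap.kap 1 2 ≠ 0) : D5s g ∨ W5 g := by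
  obtain ⟨v', D⟩ := k2_data g (by omega) hD hn1 hn2 hk
  obtain ⟨v, hv0, hv1, hS, hs3, R, hx1, hy, h1x, h1y, hp, hk2, e1, hG13, hw, hal, hde⟩ :=
    Pool.Agent.Helper76.IP.k2_base g (by omega) hD hn1 hn2 hk
  have t0 := g.t_ne 1 (by omega)
  have T0 := g.t_ne 2 (by omega)
  have u0 := g.s_ne 1 (by omega)
  have S0 := g.s_ne 2 (by omega)
  obtain rfl : v = v' := mul_right_cancel₀ T0 (hS.symm.trans D.hS)
  have t1 := g.t_sub_one (k := 1) (by omega) (by omega)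
  have T1 := g.t_sub_one (k := 2) (by omega) (by omega)
  have u1 := g.s_sub_one (k := 1) (by omega) (by omega)
  have S1 := g.s_sub_one (k := 2) (by omega) (by omega)
  have m1 := g.s_sub_one (k := 3) (by omega) (by omega)
  rw [hs3] at m1
  have r4 : g.G 1 4 = g.t 1 ^ 3 * g.H 1 4 := h.row' (κ := 3) (by omega) (by omega)
  have a4 := g.row1G (k := 4) (by omega) le_rfl
  have b4 := g.row1H (k := 4) (by omega) le_rfl
  have hs4 : g.s 4 = -(g.t 1 * g.s 2) := by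
    have e := k5_s4_alg (w := g.s 4) (x := 1 - g.lam' 0) (y := g.mu' 0) (G := g.G 1 4)
      (H := g.H 1 4) R hx1 (by linear_combination hy) (by linear_combination a4) b4 r4
    rcases mul_eq_zero.1 e with e | e
    · exact absurd e t1
    · rcases mul_eq_zero.1 e with e | e
      · exfalso
        apply g.s_inj 3 4 (by omega) le_rfl
        rw [hs3]
        linear_combination -e
      · linear_combination e
  have ht : g.t 1 + 1 ≠ 0 := by
    intro h1
    apply g.s_inj 2 4 (by omega) le_rfl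
    rw [hs4]
    linear_combination g.s 2 * h1
  have ht3 := g.t_sub_one (k := 3) (by omega) (by omega)
  -- row 2 closed
  have hA0 : k5A0 (g.t 1) (g.s 1) (g.s 2) v = 0 := by
    have c2 := h.row' (κ := 3) (by omega) (j := 2) (by omega)
    have a2 := g.row2G (k := 4) (by omega) le_rfl
    have b2 := g.row2H (k := 4) (by omega) le_rfl
    rw [hS]
    have e := k5_row2_alg (t := g.t 1) (T := g.t 2) (u := g.s 1) (v := v) (al := 1 - g.lam' 1)
      (H1 := g.H 1 4) (H2 := g.H 2 4)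
      (by
        rw [← r4, ← hS, ← hs4, b2, hde])
      (by
        rw [← r4, ← hS, ← hs4, ← c2, a2]
        ring)
      (by
        rw [← hS]
        linear_combination hal)
    exact (mul_eq_zero.1 e).resolve_left (mul_ne_zero (mul_ne_zero (pow_ne_zero 2 T0)
      (h.H_ne (by omega))) t0)
  have hA : k5A (g.t 1) (g.s 1) v = 0 := by
    rcases mul_eq_zero.1 (k5_A R hA0) with e | e
    · exact absurd (by linear_combination e) D.hvt
    · rcases mul_eq_zero.1 e with e | e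
      · exfalso
        have e2 : (g.s 2 - v) * (g.t 1 + v + 1) = 0 := by linear_combination e - R
        rcases mul_eq_zero.1 e2 with e3 | e3
        · exact mul_ne_zero hv0 T1 (by linear_combination e3 - hS)
        · apply m1
          linear_combination (g.s 2 - 1) * e3 + R
      · exact e
  obtain ⟨z, hz, hz3, hz2⟩ := n5_zeta h
  have m0 : g.t 1 * v ≠ 0 := mul_ne_zero t0 hv0
  rcases D.step2 (by omega) hD hk' (n5_kap3 h.swap) with ⟨huv, h3⟩ | ⟨h3, hB2⟩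
  · -- K2-0
    left
    rw [h3, hs3] at hz2
    rw [h3] at ht3
    have hth : ∀ th, g.s 2 = th * (g.t 1 * v) → (th = z ∨ th = -z) → D5s g := by
      intro th hth hthz
      have hthv := k5_th (th := th) huv (by rw [← hth]; exact R) hA
      have hd5 : th = -1 → D5s g := by
        intro hh
        have hz1 : z = 1 := by
          rcases hthz with e | e
          · have e2 : z = -1 := by rw [← e, hh]
            have e3 : (-1 : F) = 1 := by
              rw [e2] at hz3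
              linear_combination hz3
            rw [e2, e3]
          · rw [hh] at e
            linear_combination e
        rw [hh] at hth
        refine D5s.mk' ?_ ?_ ?_ ?_
        · rw [hs3, hs4, hth]
          ring
        · apply mul_left_cancel₀ hv0
          rw [hs4]
          linear_combination (-g.s 2) * hS + g.s 2 * hth
        · apply mul_right_cancel₀ hv0
          rw [h3, hs4]
          linear_combination g.s 2 ^ 2 * huv + g.s 2 * hth
        · rw [hz, hz1, one_mul]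
      rcases mul_eq_zero.1 hthv with e | e
      · exact absurd e m0
      rcases mul_eq_zero.1 e with e | q
      · rcases mul_eq_zero.1 e with e | e
        · exact hd5 (by linear_combination e)
        · exact absurd e m1
      -- `m ^ 2 - m + 1 = 0`
      have hzc : (z - 1) * ((z + g.t 1 * v) * (z - g.t 1 * v + 1)) = 0 := by
        linear_combination hz3 - (z - 1) * q
      rcases mul_eq_zero.1 hzc with e | e
      · -- z = 1
        have hz1 : z = 1 := sub_eq_zero.1 e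
        rcases hthz with e1 | e1
        · exfalso
          rw [e1, hz1, one_mul] at hth
          rw [hth] at R
          have e2 : (v + g.t 1) * (g.t 1 * v - 1) = 0 := by linear_combination -R
          exact mul_ne_zero D.hvt m1 e2
        · exact hd5 (by rw [e1, hz1])
      · rcases mul_eq_zero.1 e with e | e
        · have hzm : z = -(g.t 1 * v) := by linear_combination e
          rcases hthz with e1 | e1
          · exfalso
            rw [e1, hzm] at hth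
            rw [hth] at R
            have e2 : g.t 1 * v * ((g.t 1 + 1) * (v + 1)) = 0 := by
              linear_combination R - (g.t 1 + v) * q
            exact mul_ne_zero m0 (mul_ne_zero ht hv1) e2
          · exfalso
            rw [e1, hzm] at hth
            have hS' : g.s 2 = g.t 1 * v - 1 := by
              rw [hth]
              linear_combination q
            have t4 : g.t 4 = -g.t 1 := by
              rw [hz, hzm, hs4, hth]
              linear_combination g.t 1 * (g.t 1 * v + 1) * q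
            obtain ⟨X, Y, hx⟩ := g.exists_XY (by omega)
            have cc := h.cX' (ι := 2) (by omega) hx
            rw [t4] at cc
            refine k5_hard (t := g.t 1) (v := v) (u := g.s 1) (S := g.s 2) (X := X) (Y := Y)
              (fun h => t1 (sub_eq_zero.2 h)) hv0 m0 rfl q hS' R huv ?_ ?_ ?_
            · apply mul_left_cancel₀ u1
              linear_combination D.hx - ((g.s 2 - 1) * (v + 1)) * hx.x'
            · apply mul_left_cancel₀ u1
              linear_combination D.hy - ((g.s 2 - 1) * (v + 1)) * hx.y'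
            · apply mul_left_cancel₀ u1
              linear_combination cc
        · have hzm : z = g.t 1 * v - 1 := by linear_combination e
          exfalso
          rcases hthz with e1 | e1
          · apply ht3
            rw [e1, hzm] at hth
            rw [hth]
            linear_combination ((g.t 1 * v) ^ 2 - g.t 1 * v - 1) * q
          · apply S1
            rw [e1, hzm] at hth
            rw [hth]
            linear_combination -q
    have hsq : (g.s 2 - z * (g.t 1 * v)) * (g.s 2 - -z * (g.t 1 * v)) = 0 := by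
      linear_combination v * hz2 - g.s 2 ^ 2 * huv
    rcases mul_eq_zero.1 hsq with e | e
    · exact hth z (sub_eq_zero.1 e) (Or.inl rfl)
    · exact hth (-z) (sub_eq_zero.1 e) (Or.inr rfl)
  · -- K2-1
    right
    obtain ⟨w, hwz⟩ : ∃ w, w = z ^ 2 := ⟨_, rfl⟩
    have hw3 : w ^ 3 = 1 := by
      rw [hwz]
      linear_combination (z ^ 3 + 1) * hz3
    have hSw : g.s 2 = w * (g.t 1 * v) := by
      apply mul_right_cancel₀ t0
      rw [hs3] at hz2
      rw [hwz]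
      linear_combination hz2 - h3
    have hw1 : w - 1 ≠ 0 := by
      intro e
      rw [sub_eq_zero.1 e, one_mul] at hSw
      rw [hSw] at R
      have e2 : (v + g.t 1) * (g.t 1 * v - 1) = 0 := by linear_combination -R
      exact mul_ne_zero D.hvt m1 e2
    have hww : w ^ 2 + w + 1 = 0 := by
      apply (mul_eq_zero.1 _).resolve_left hw1
      linear_combination hw3
    have hw0 : w ≠ 0 := by
      rintro rfl
      norm_num at hww
    rw [hSw] at R
    have R' : (g.t 1 + v) * (w * g.t 1 * v - 1) = g.t 1 * v * (1 - w) := by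
      linear_combination -R
    have hu : g.s 1 = -w * g.t 1 := by
      rcases mul_eq_zero.1 (k5_u hww R hA) with e | e
      · exfalso
        rcases mul_eq_zero.1 e with e | e
        · exact mul_ne_zero m0 m1 e
        · have e2 : w * ((g.t 1 + 1) * (v + 1)) = 0 := by
            linear_combination R' + (g.t 1 + v) * hww + (1 - (g.t 1 + v) * w) * e
          exact mul_ne_zero hw0 (mul_ne_zero ht hv1) e2
      · linear_combination e
    have h3' : g.t 3 = -(g.t 1 * v) := by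
      apply mul_right_cancel₀ (mul_ne_zero hw0 t0)
      rw [hu, hSw] at h3
      linear_combination -h3
    have hv2 : v - w ^ 2 ≠ 0 := by
      intro e
      have hv : v = w ^ 2 := sub_eq_zero.1 e
      have e2 : (g.t 1 * v - 1) * (g.t 1 * v + 1) = 0 := by
        rw [hv] at R' ⊢
        linear_combination w * R' + (- w ^ 4 * g.t 1 + w ^ 3 * g.t 1 - w ^ 2 * g.t 1 + w * g.t 1
          + w - 1) * hww
      rcases mul_eq_zero.1 e2 with e3 | e3
      · exact m1 e3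
      · apply ht3
        rw [h3']
        linear_combination -e3
    have hv : v = -w ^ 2 := by
      have hB : pB2 (w * g.t 1 * v) v (-w * g.t 1) = 0 := by
        rw [← hu, mul_assoc, ← hSw]
        exact hB2
      rcases mul_eq_zero.1 (k5_w5 hww R' hB) with e | e
      · exact absurd e (pow_ne_zero 3 hv0)
      rcases mul_eq_zero.1 e with e | e
      · exfalso
        rcases mul_eq_zero.1 e with e | e
        · rcases mul_eq_zero.1 e with e | e
          · apply ht3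
            rw [h3']
            linear_combination -e
          · exact ht e
        · exact hv2 e
      · linear_combination e
    have hzw : z = w ^ 2 := by
      rw [hwz]
      linear_combination (-z) * hz3
    have hSt : g.s 2 = -g.t 1 := by
      rw [hSw, hv]
      linear_combination (-g.t 1) * hw3
    refine ⟨?_, ?_, ?_, hSt, ?_, ?_, ?_, ?_⟩
    · apply mul_left_cancel₀ hv0
      rw [← hS, hSw, hu]
      ring
    · rw [h3', hv, hu]
      linear_combination (-g.t 1) * hww * (-1)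
    · rw [hz, hs4, hSt, hzw, hu]
      ring
    · rw [hs3, hv, hu]
      linear_combination (-g.t 1) * hww
    · rw [hs4, hSt]
      ring
    · rw [hu]
      linear_combination g.t 1 ^ 2 * hww
    · rw [hu]
      rw [hv] at R'
      linear_combination w * R' + (- w ^ 4 * g.t 1 + w ^ 3 * g.t 1 + w ^ 2 * g.t 1 ^ 2
        + w ^ 2 * g.t 1 - w * g.t 1 ^ 2 - 3 * w * g.t 1 - w + 2 * g.t 1 + 1) * hww

end main

end Pool.Agent.Helper36.IP
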