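import Mathlib

/-!
TH-P, N branch, state (10)/(10): a column `w` attached to a corner (rows `0..3`) which has a
virtual closing column `z`.  Scalar part (divided differences).
-/

namespace Pool.Agent.Helper36.IP

variable {F : Type*} [Field F]

/-- row 1 as a polynomial in `s`. -/
def q1 (x w : F) : F := 1 + x * (w - 1)

/-- row 2 as a polynomial in `s`. -/
def q2 (x y al w : F) : F := al * (w * (1 + x * (w - 1))) + (1 - al) * (w + y * (1 - w))

/-- `s^2 H(2, s)` as a polynomial in `s`. -/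
def r2 (x y de w : F) : F := (1 - de) * (w * (1 + x * (w - 1))) + de * (w + y * (1 - w))

/-- row 3 as a polynomial in `s`. -/
def q3 (x y al de A w : F) : F := A * (w * q2 x y al w) + (1 - A) * r2 x y de w

/-- a cubic which vanishes at `1, a, b`. -/
theorem cubic_eval {k3 k2 k1 k0 a b c : F} (h1 : k3 + k2 + k1 + k0 = 0)
    (ha : k3 * a ^ 3 + k2 * a ^ 2 + k1 * a + k0 = 0) (hb : k3 * b ^ 3 + k2 * b ^ 2 + k1 * b + k0 = 0)
    (ha1 : a ≠ 1) (hb1 : b ≠ 1) (hab : b ≠ a) :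
    k3 * c ^ 3 + k2 * c ^ 2 + k1 * c + k0 = k3 * ((c - 1) * (c - a) * (c - b)) := by
  have e1 : k3 * (a ^ 2 + a + 1) + k2 * (a + 1) + k1 = 0 := by
    apply mul_left_cancel₀ (sub_ne_zero.2 ha1)
    linear_combination ha - h1
  have e2 : k3 * (b ^ 2 + b + 1) + k2 * (b + 1) + k1 = 0 := by
    apply mul_left_cancel₀ (sub_ne_zero.2 hb1)
    linear_combination hb - h1
  have e3 : k3 * (a + b + 1) + k2 = 0 := by
    apply mul_left_cancel₀ (sub_ne_zero.2 hab)
    linear_combination e2 - e1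
  have e4 : k1 = k3 * (a * b + a + b) := by linear_combination e1 - (a + 1) * e3
  have e5 : k2 = - (k3 * (a + b + 1)) := by linear_combination e3
  have e6 : k0 = - (k3 * (a * b)) := by
    linear_combination h1 - e4 - e5
  rw [e4, e5, e6]
  ring

theorem partG {a1 a2 a3 z s3 s2 w x y al de A p1 p2 p3 B g h lam mu : F}
    (hx : x ≠ 0) (hal : al ≠ 0) (hwz : w ≠ z) (hw3 : w ≠ s3) (hw2 : w ≠ s2)
    (hz3 : z ≠ s3) (hz2 : z ≠ s2) (h32 : s3 ≠ s2)
    (a1_1 : a1 ≠ 1) (a2_1 : a2 ≠ 1) (a21 : a2 ≠ a1) (a10 : a1 ≠ 0) (a20 : a2 ≠ 0)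
    (a30 : a3 ≠ 0) (hD : mu - lam ≠ 0)
    (w1 : q1 x w = p1 * (1 + B * (a1 - 1)))
    (w2 : q2 x y al w = p2 * (1 + B * (a2 - 1)))
    (w3 : q3 x y al de A w = p3 * (1 + B * (a3 - 1)))
    (z1 : q1 x z = p1) (z2 : q2 x y al z = p2) (z3 : q3 x y al de A z = p3)
    (t1 : a1 * q1 x s3 = p1 * (1 + g * (a1 - 1)))
    (t2 : a2 * q2 x y al s3 = p2 * (1 + g * (a2 - 1)))
    (t3 : a3 * q3 x y al de A s3 = p3 * (1 + g * (a3 - 1)))
    (u1 : (mu - lam) * (a1 ^ 2 * q1 x s2)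
      = p1 * (mu * (1 + g * (a1 - 1)) - lam * (a1 * (1 + h * (a1 - 1)))))
    (u2 : (mu - lam) * (a2 ^ 2 * q2 x y al s2)
      = p2 * (mu * (1 + g * (a2 - 1)) - lam * (a2 * (1 + h * (a2 - 1)))))
    (u3 : (mu - lam) * (a3 ^ 2 * q3 x y al de A s2)
      = p3 * (mu * (1 + g * (a3 - 1)) - lam * (a3 * (1 + h * (a3 - 1))))) :
    p2 ≠ 0 ∧ A * a3 ^ 2 * (w - s2) * (p2 * ((a2 - 1) * (a2 - a1)))
      = a2 * (p3 * ((a3 - 1) * (a3 - a1) * (a3 - a2))) := by
  have hwz' := sub_ne_zero.2 hwz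
  have hw3' := sub_ne_zero.2 hw3
  have hw2' := sub_ne_zero.2 hw2
  have hz3' := sub_ne_zero.2 hz3
  have hz2' := sub_ne_zero.2 hz2
  have h32' := sub_ne_zero.2 h32
  have hs3z : s3 - z ≠ 0 := sub_ne_zero.2 hz3.symm
  -- (ii)
  have e2 : x * (w - z) = p1 * B * (a1 - 1) := by
    simp only [q1] at w1 z1
    linear_combination w1 - z1
  have hp1 : p1 ≠ 0 := by
    intro h0
    rw [h0] at e2
    exact mul_ne_zero hx hwz' (by linear_combination e2)
  have hB : B ≠ 0 := by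
    intro h0
    rw [h0] at e2
    exact mul_ne_zero hx hwz' (by linear_combination e2)
  -- (iii)
  have e3 : a1 * x * (s3 - z) = p1 * (g - 1) * (a1 - 1) := by
    simp only [q1] at t1 z1
    linear_combination t1 - a1 * z1
  -- (iv)
  have e4 : (g - 1) * (w - z) = a1 * B * (s3 - z) := by
    apply mul_left_cancel₀ (mul_ne_zero hp1 (sub_ne_zero.2 a1_1))
    linear_combination a1 * (s3 - z) * e2 - (w - z) * e3
  -- G2
  have e5 : p2 * ((a2 - 1) * (a2 - a1)) * B = a2 * al * x * (w - s3) * (w - z) := by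
    apply mul_left_cancel₀ hs3z
    simp only [q2] at w2 z2 t2
    linear_combination (-(a2 * (s3 - z))) * w2 + (a2 * (s3 - z) - a2 * (w - z)) * z2
      + (w - z) * t2 + p2 * (a2 - 1) * e4
  have hp2 : p2 ≠ 0 := by
    intro h0
    rw [h0] at e5
    exact mul_ne_zero (mul_ne_zero (mul_ne_zero (mul_ne_zero a20 hal) hx) hw3') hwz'
      (by linear_combination -e5)
  refine ⟨hp2, ?_⟩
  -- the cubic in the node
  set cw := (z - s3) * (z - s2) * (s3 - s2) with hcw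
  set cz := (w - s3) * (w - s2) * (s3 - s2) with hcz
  set c3 := (w - z) * (w - s2) * (z - s2) with hc3
  set c2 := (w - z) * (w - s3) * (z - s3) with hc2
  have hcw0 : cw ≠ 0 := mul_ne_zero (mul_ne_zero hz3' hz2') h32'
  set D := mu - lam with hDdef
  -- Poly(a) = D a^2 (1+B(a-1)) cw - D a^2 cz + D a (1+g(a-1)) c3 - (mu(1+g(a-1)) - lam a (1+h(a-1))) c2
  have poly1 : p1 * (D * a1 ^ 2 * (1 + B * (a1 - 1)) * cw - D * a1 ^ 2 * cz
      + D * a1 * (1 + g * (a1 - 1)) * c3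
      - (mu * (1 + g * (a1 - 1)) - lam * (a1 * (1 + h * (a1 - 1)))) * c2) = 0 := by
    simp only [q1] at w1 z1 t1 u1
    rw [hcw, hcz, hc3, hc2]
    linear_combination (-(D * a1 ^ 2 * ((z - s3) * (z - s2) * (s3 - s2)))) * w1
      + (D * a1 ^ 2 * ((w - s3) * (w - s2) * (s3 - s2))) * z1
      - (D * a1 * ((w - z) * (w - s2) * (z - s2))) * t1
      + ((w - z) * (w - s3) * (z - s3)) * u1
  have poly2 : p2 * (D * a2 ^ 2 * (1 + B * (a2 - 1)) * cw - D * a2 ^ 2 * cz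
      + D * a2 * (1 + g * (a2 - 1)) * c3
      - (mu * (1 + g * (a2 - 1)) - lam * (a2 * (1 + h * (a2 - 1)))) * c2) = 0 := by
    simp only [q2] at w2 z2 t2 u2
    rw [hcw, hcz, hc3, hc2]
    linear_combination (-(D * a2 ^ 2 * ((z - s3) * (z - s2) * (s3 - s2)))) * w2
      + (D * a2 ^ 2 * ((w - s3) * (w - s2) * (s3 - s2))) * z2
      - (D * a2 * ((w - z) * (w - s2) * (z - s2))) * t2
      + ((w - z) * (w - s3) * (z - s3)) * u2
  have poly3 : p3 * (D * a3 ^ 2 * (1 + B * (a3 - 1)) * cw - D * a3 ^ 2 * cz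
      + D * a3 * (1 + g * (a3 - 1)) * c3
      - (mu * (1 + g * (a3 - 1)) - lam * (a3 * (1 + h * (a3 - 1)))) * c2)
      = D * a3 ^ 2 * (A * al * x) * (cw * ((w - z) * (w - s3) * (w - s2))) := by
    simp only [q3, q2, r2] at w3 z3 t3 u3
    rw [hcw, hcz, hc3, hc2]
    linear_combination (-(D * a3 ^ 2 * ((z - s3) * (z - s2) * (s3 - s2)))) * w3
      + (D * a3 ^ 2 * ((w - s3) * (w - s2) * (s3 - s2))) * z3
      - (D * a3 * ((w - z) * (w - s2) * (z - s2))) * t3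
      + ((w - z) * (w - s3) * (z - s3)) * u3
  have q1' := (mul_eq_zero.1 poly1).resolve_left hp1
  have q2' := (mul_eq_zero.1 poly2).resolve_left hp2
  have hc : cw - cz + c3 - c2 = 0 := by
    rw [hcw, hcz, hc3, hc2]
    ring
  have key := cubic_eval (c := a3)
    (k3 := D * B * cw) (k2 := D * (1 - B) * cw - D * cz + D * g * c3 + lam * h * c2)
    (k1 := D * (1 - g) * c3 - mu * g * c2 + lam * (1 - h) * c2) (k0 := - (mu * (1 - g) * c2))
    (by rw [hDdef]; linear_combination (mu - lam) * hc)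
    (by linear_combination q1') (by linear_combination q2') a1_1 a2_1 a21
  have e6 : p3 * (D * B * cw * ((a3 - 1) * (a3 - a1) * (a3 - a2)))
      = D * a3 ^ 2 * (A * al * x) * (cw * ((w - z) * (w - s3) * (w - s2))) := by
    rw [← poly3, ← key]
    ring
  have e7 : p3 * (B * ((a3 - 1) * (a3 - a1) * (a3 - a2)))
      = a3 ^ 2 * (A * al * x) * ((w - z) * (w - s3) * (w - s2)) := by
    apply mul_left_cancel₀ (mul_ne_zero hD hcw0)
    linear_combination e6
  apply mul_left_cancel₀ hB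
  linear_combination A * a3 ^ 2 * (w - s2) * e5 - a2 * e7

end Pool.Agent.Helper36.IP
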