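import Mathlib

/-!
TH-P, N branch, state (10)/(10): the four linear relations in
`c = (1 - lam'_0)/(t - 1)`, `V = t mu'_0/(t - 1)` (`t = t_1, T = t_2, u = s_1, v = s_2`) give
the surface equations and `c, V`.
-/

namespace Pool.Agent.Helper36.IP

variable {F : Type*} [Field F]

/-- the surface polynomials -/
def R1 (t T u v : F) : F :=
  t * T * u - t * T * v + t * T - t * u ^ 2 - T ^ 2 * v + T * u ^ 2 * v - T * u ^ 2 + T * u * v
def R2 (t T u v : F) : F :=
  t ^ 2 * T * v - t ^ 2 * u - t ^ 2 * v + t * T * v + t * u * v - T * u * v - T * v ^ 2 + u * v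

def M1 (t T u v : F) : F :=
  t ^ 2 * T * u * v - t ^ 2 * T * u + t ^ 2 * T * v - t ^ 2 * T - t ^ 2 * u * v + t * T * u * v
    + t * T * v - T ^ 2 * v - T * u * v ^ 2 + T * u * v - T * v ^ 2 + T * v

theorem R_swap (t T u v : F) : R2 t T u v = R1 u v t T := by
  rw [R1, R2]
  ring

/-- generic case. -/
theorem R_generic {t T u v c V : F} (hT0 : T ≠ 0) (hv0 : v ≠ 0) (hT1 : T - 1 ≠ 0)
    (hv1 : v - 1 ≠ 0) (hw : t * v - T * u ≠ 0)
    (hl1 : (v * t - T) * (c - V + 1) = (v - 1) * (t * T * c - V))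
    (hl2 : (T * u - v) * (c - V + 1) = (T - 1) * (u * v * c - V))
    (ha : T * v * (1 + c * (u * (T - 1) - (t - 1))) =
      t ^ 2 * u * T - V * t * (t * (1 - T) + u * T * (t - 1)))
    (hb : T * v * (1 + c * (t * (v - 1) - (u - 1))) =
      u ^ 2 * t * v - V * u * (u * (1 - v) + t * v * (u - 1))) :
    R1 t T u v = 0 ∧ R2 t T u v = 0 := by
  have m1 : M1 t T u v = 0 := by
    apply mul_left_cancel₀ (mul_ne_zero hT1 hw)
    rw [M1]
    linear_combination
      ((-(T * u - v) + (T - 1)) * (T * v - t ^ 2 * u * T) * 0) * hl1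
      + ((T * u - v - (T - 1) * u * v) * (t * (t * (1 - T) + u * T * (t - 1)))
        - (-(T * u - v) + (T - 1)) * (T * v * (u * (T - 1) - (t - 1)))) * hl1
      - ((v * t - T - (v - 1) * t * T) * (t * (t * (1 - T) + u * T * (t - 1)))
        - (-(v * t - T) + (v - 1)) * (T * v * (u * (T - 1) - (t - 1)))) * hl2
      + ((v * t - T - (v - 1) * t * T) * (-(T * u - v) + (T - 1))
        - (-(v * t - T) + (v - 1)) * (T * u - v - (T - 1) * u * v)) * ha
  have m2 : - t * T ^ 2 * v + t * T * u ^ 2 * v - t * T * u ^ 2 + t * T * u * v + t * T * v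
      - t * u ^ 2 * v - T ^ 2 * v + T * u ^ 2 * v + T * u * v - T * v ^ 2 + T * v
      - u ^ 2 * v = 0 := by
    apply mul_left_cancel₀ (mul_ne_zero hv1 hw)
    linear_combination
      ((T * u - v - (T - 1) * u * v) * (u * (u * (1 - v) + t * v * (u - 1)))
        - (-(T * u - v) + (T - 1)) * (T * v * (t * (v - 1) - (u - 1)))) * hl1
      - ((v * t - T - (v - 1) * t * T) * (u * (u * (1 - v) + t * v * (u - 1)))
        - (-(v * t - T) + (v - 1)) * (T * v * (t * (v - 1) - (u - 1)))) * hl2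
      + ((v * t - T - (v - 1) * t * T) * (-(T * u - v) + (T - 1))
        - (-(v * t - T) + (v - 1)) * (T * u - v - (T - 1) * u * v)) * hb
  have m3 : t ^ 3 * T ^ 2 * v ^ 2 - t ^ 3 * T ^ 2 * v + t ^ 3 * T * u ^ 2 * v - t ^ 3 * T * u ^ 2
      - t ^ 3 * T * v ^ 2 + t ^ 3 * T * v - t ^ 3 * u ^ 2 * v + t ^ 2 * T * u ^ 2
      + t ^ 2 * T * u * v ^ 2 + t ^ 2 * T * u * v - t * T ^ 2 * u * v ^ 2 - t * T ^ 2 * u * v
      - t * T ^ 2 * v ^ 3 + T ^ 3 * v ^ 2 - T ^ 2 * u ^ 2 * v ^ 2 + T ^ 2 * u ^ 2 * v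
      + T ^ 2 * v ^ 3 - T ^ 2 * v ^ 2 + T * u ^ 2 * v ^ 2 - T * u ^ 2 * v = 0 := by
    apply mul_left_cancel₀ hw
    linear_combination
      ((T * v * (u * (T - 1) - (t - 1))) * (u * (u * (1 - v) + t * v * (u - 1)))
        - (t * (t * (1 - T) + u * T * (t - 1))) * (T * v * (t * (v - 1) - (u - 1)))) * hl1
      - ((v * t - T - (v - 1) * t * T) * (u * (u * (1 - v) + t * v * (u - 1)))
        - (-(v * t - T) + (v - 1)) * (T * v * (t * (v - 1) - (u - 1)))) * ha
      + ((v * t - T - (v - 1) * t * T) * (t * (t * (1 - T) + u * T * (t - 1)))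
        - (-(v * t - T) + (v - 1)) * (T * v * (u * (T - 1) - (t - 1)))) * hb
  have m4 : - t ^ 2 * T ^ 2 * v ^ 2 + t ^ 2 * T ^ 2 * v + t ^ 2 * T * u ^ 3 * v
      - t ^ 2 * T * u ^ 3 + t ^ 2 * T * v ^ 2 - t ^ 2 * T * v - t ^ 2 * u ^ 3 * v
      + t ^ 2 * u ^ 2 * v + t * T ^ 2 * u ^ 2 * v - t * T ^ 2 * u * v ^ 2 + t * T * u ^ 2 * v
      - t * T * u * v ^ 2 - T ^ 3 * u * v ^ 2 + T ^ 3 * v ^ 2 + T ^ 2 * u ^ 3 * v ^ 2
      - T ^ 2 * u ^ 3 * v + T ^ 2 * v ^ 3 - T ^ 2 * v ^ 2 - T * u ^ 3 * v ^ 2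
      + T * u ^ 3 * v = 0 := by
    apply mul_left_cancel₀ hw
    linear_combination
      ((T * v * (u * (T - 1) - (t - 1))) * (u * (u * (1 - v) + t * v * (u - 1)))
        - (t * (t * (1 - T) + u * T * (t - 1))) * (T * v * (t * (v - 1) - (u - 1)))) * hl2
      - ((T * u - v - (T - 1) * u * v) * (u * (u * (1 - v) + t * v * (u - 1)))
        - (-(T * u - v) + (T - 1)) * (T * v * (t * (v - 1) - (u - 1)))) * ha
      + ((T * u - v - (T - 1) * u * v) * (t * (t * (1 - T) + u * T * (t - 1)))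
        - (-(T * u - v) + (T - 1)) * (T * v * (u * (T - 1) - (t - 1)))) * hb
  constructor
  · apply mul_left_cancel₀ (mul_ne_zero hv0 hw)
    rw [R1]
    rw [M1] at m1
    linear_combination (- t * u * v + u ^ 2) * m1 + (t ^ 2 * v - t ^ 2) * m2 + m3 - m4
  · apply mul_left_cancel₀ (mul_ne_zero hT0 hw)
    rw [R2]
    rw [M1] at m1
    linear_combination (- T * u ^ 2 + u ^ 2) * m1 + (- t ^ 2 + t * T * u) * m2 + m3 - m4

/-- `c` and `V` on the surface. -/
theorem cV_of {t T u v c V : F} (ht0 : t ≠ 0) (hu0 : u ≠ 0) (hTv : T - v ≠ 0)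
    (hl1 : (v * t - T) * (c - V + 1) = (v - 1) * (t * T * c - V))
    (hl2 : (T * u - v) * (c - V + 1) = (T - 1) * (u * v * c - V))
    (ha : T * v * (1 + c * (u * (T - 1) - (t - 1))) =
      t ^ 2 * u * T - V * t * (t * (1 - T) + u * T * (t - 1)))
    (hb : T * v * (1 + c * (t * (v - 1) - (u - 1))) =
      u ^ 2 * t * v - V * u * (u * (1 - v) + t * v * (u - 1)))
    (hR1 : R1 t T u v = 0) (hR2 : R2 t T u v = 0) :
    c * ((t + u) * (T * v - 1)) = t * u + t + u ∧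
    V * ((t + u) * (T * v - 1)) = (t + u + 1) * (T * v) := by
  rw [R1] at hR1
  rw [R2] at hR2
  constructor
  · apply mul_left_cancel₀ hTv
    linear_combination (t - u ^ 2 + u) * hl1 + (t ^ 2 - t - u) * hl2 + ha - hb - t * c * hR1
      + u * c * hR2
  · apply mul_left_cancel₀ (mul_ne_zero (mul_ne_zero ht0 hu0) hTv)
    linear_combination
      (- t * T * u + t * T * v + T ^ 2 * v - u ^ 2 * v + u * v) * hl1
      + (t ^ 2 * T - t * T + t * u * v - T * u * v - T * v ^ 2) * hl2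
      + (T - u * v + u - v ^ 2 + v) * ha
      + (t * T - t + T ^ 2 - T - v) * hb
      + (- t * v * V + t * v + T * V - V) * hR1
      + (T * u * V - T * u - v * V + V) * hR2

end Pool.Agent.Helper36.IP
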