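import Mathlib

/-!
TH-P, N branch, state (11)/(11) on `N'` (`s_1 s_2 = t_1 t_2`): scalar part.
`e = t + u`, `m = t u`, `W = t u + t + u`, `T = u (e+1)/W`, `v = t (e+1)/W`,
`c = W g/e`, `V = (e+1)(g+1)/e`.
-/

namespace Pool.Agent.Helper36.IP

variable {F : Type*} [Field F]

def al1 (e m : F) : F := - (e ^ 4 * m) - e ^ 4 - 2 * e ^ 3 * m + 3 * e ^ 2 * m ^ 2
  + 3 * e ^ 2 * m + 10 * e * m ^ 2 + 2 * m ^ 3 + 2 * m ^ 2

def be1 (e m : F) : F := - e ^ 4 - e ^ 3 * m + 3 * e ^ 2 * m + 5 * e * m ^ 2 + m ^ 3 + m ^ 2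

def k2N (t u g : F) : F := t ^ 2 * g - u * (g + 1)

def aN (t u g : F) : F := g * (t ^ 3 - t ^ 2 * u - t ^ 2 + t * u ^ 2 - 2 * t * u + u ^ 3 + u ^ 2)
  - (t ^ 2 * u + t ^ 2 + 2 * t * u)

def k3N (t u g : F) : F := - t ^ 4 * u * g - t ^ 4 * u - t ^ 4 * g - t ^ 4 + t ^ 3 * u ^ 2 * g
  - t ^ 3 * u * g - t ^ 3 * u + t * u ^ 4 * g - t * u ^ 3 * g - t * u ^ 3 + u ^ 5 * g + u ^ 4 * g

def nN (t u : F) : F := u ^ 3 + u ^ 2 + t * u ^ 2 - t ^ 2 * u - t ^ 2 - t * u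

def psiN (t u : F) : F := t ^ 4 * u + t ^ 4 + t ^ 3 * u - t * u ^ 3 - u ^ 4 - u ^ 3

theorem t1n_core {t u g : F} (ht0 : t ≠ 0) (hu0 : u ≠ 0) (htu : t - u ≠ 0) (he : t + u ≠ 0)
    (he1 : t + u + 1 ≠ 0) (hW : t * u + t + u ≠ 0) (h1 : t ^ 2 - u ≠ 0) (h2 : u ^ 2 - t ≠ 0)
    (hL : al1 (t + u) (t * u) * g + be1 (t + u) (t * u) = 0)
    (hEG : u ^ 3 * (u + 1) * (t ^ 2 - u) * k2N t u g * nN t u * aN u t g
      + t ^ 3 * (t + 1) * (u ^ 2 - t) * k2N u t g * nN u t * aN t u g = 0)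
    (hk2 : k2N t u g ≠ 0) (hk2' : k2N u t g ≠ 0) (hk3 : k3N t u g ≠ 0) :
    t ^ 2 - t * u + u ^ 2 = 0 ∧ t * u + 2 * (t + u) + 1 = 0 := by
  have i1 : al1 (t + u) (t * u) * k2N t u g = - (t * (u ^ 2 - t) * psiN t u) := by
    rw [al1, be1] at hL
    rw [al1, k2N, psiN]
    linear_combination (t ^ 2 - u) * hL
  have i2 : al1 (t + u) (t * u) * k2N u t g = - (u * (t ^ 2 - u) * psiN u t) := by
    rw [al1, be1] at hL
    rw [al1, k2N, psiN]
    linear_combination (u ^ 2 - t) * hL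
  have i3 : al1 (t + u) (t * u) * aN t u g = (t - u) * (t + u) * (t * u + t + u) * psiN t u := by
    rw [al1, be1] at hL
    rw [al1, aN, psiN]
    linear_combination (t ^ 3 - t ^ 2 * u - t ^ 2 + t * u ^ 2 - 2 * t * u + u ^ 3 + u ^ 2) * hL
  have i4 : al1 (t + u) (t * u) * aN u t g =
      - ((t - u) * (t + u) * (t * u + t + u) * psiN u t) := by
    rw [al1, be1] at hL
    rw [al1, aN, psiN]
    linear_combination (u ^ 3 - u ^ 2 * t - u ^ 2 + u * t ^ 2 - 2 * t * u + t ^ 3 + t ^ 2) * hL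
  have i5 : al1 (t + u) (t * u) * k3N t u g =
      u * (t - u) * (t + u) ^ 2 * (t + u + 1) * (t * u + t + u) * (t ^ 2 - u)
        * (t ^ 2 - t * u + u ^ 2) := by
    rw [al1, be1] at hL
    rw [al1, k3N]
    linear_combination (- t ^ 4 * u - t ^ 4 + t ^ 3 * u ^ 2 - t ^ 3 * u + t * u ^ 4 - t * u ^ 3
      + u ^ 5 + u ^ 4) * hL
  have hne : u * (t - u) * (t + u) ^ 2 * (t + u + 1) * (t * u + t + u) * (t ^ 2 - u) ≠ 0 :=
    mul_ne_zero (mul_ne_zero (mul_ne_zero (mul_ne_zero (mul_ne_zero hu0 htu)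
      (pow_ne_zero 2 he)) he1) hW) h1
  by_cases hA : al1 (t + u) (t * u) = 0
  · rw [hA, zero_mul] at i5
    have hE := (mul_eq_zero.1 i5.symm).resolve_left hne
    refine ⟨hE, ?_⟩
    have hB : be1 (t + u) (t * u) = 0 := by
      rw [hA, zero_mul, zero_add] at hL
      exact hL
    rw [be1] at hB
    have hm : (t * u) ^ 2 ≠ 0 := pow_ne_zero 2 (mul_ne_zero ht0 hu0)
    apply mul_left_cancel₀ hm
    linear_combination hB + (t + u) * (t * u + (t + u)) * hE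
  · exfalso
    have hP : psiN t u ≠ 0 := by
      intro h
      rw [h, mul_zero, neg_zero] at i1
      exact mul_ne_zero hA hk2 i1
    have hP' : psiN u t ≠ 0 := by
      intro h
      rw [h, mul_zero, neg_zero] at i2
      exact mul_ne_zero hA hk2' i2
    have hE : t ^ 2 - t * u + u ^ 2 ≠ 0 := by
      intro h
      rw [h, mul_zero] at i5
      exact mul_ne_zero hA hk3 i5
    have key : (t ^ 2 - u) * (u ^ 2 - t) * (t - u) * (t + u) * (t * u + t + u) * (t * u)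
        * psiN t u * psiN u t
        * ((t - u) * (t + u) * (t + u + 1) ^ 2 * (t ^ 2 - t * u + u ^ 2)) = 0 := by
      have hb : u ^ 2 * (u + 1) * nN t u - t ^ 2 * (t + 1) * nN u t =
          - ((t - u) * (t + u) * (t + u + 1) ^ 2 * (t ^ 2 - t * u + u ^ 2)) := by
        rw [nN, nN]
        ring
      have h5 : al1 (t + u) (t * u) ^ 2 * (u ^ 3 * (u + 1) * (t ^ 2 - u) * k2N t u g * nN t u
          * aN u t g + t ^ 3 * (t + 1) * (u ^ 2 - t) * k2N u t g * nN u t * aN t u g) =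
          u ^ 3 * (u + 1) * (t ^ 2 - u) * nN t u * (al1 (t + u) (t * u) * k2N t u g)
            * (al1 (t + u) (t * u) * aN u t g)
          + t ^ 3 * (t + 1) * (u ^ 2 - t) * nN u t * (al1 (t + u) (t * u) * k2N u t g)
            * (al1 (t + u) (t * u) * aN t u g) := by ring
      rw [hEG, mul_zero, i1, i2, i3, i4] at h5
      linear_combination h5 + (t ^ 2 - u) * (u ^ 2 - t) * (t - u) * (t + u)
        * (t * u + t + u) * (t * u) * psiN t u * psiN u t * hb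
    revert key
    exact mul_ne_zero (mul_ne_zero (mul_ne_zero (mul_ne_zero (mul_ne_zero (mul_ne_zero
      (mul_ne_zero (mul_ne_zero h1 h2) htu) he) hW) (mul_ne_zero ht0 hu0)) hP) hP')
      (mul_ne_zero (mul_ne_zero (mul_ne_zero htu he) (pow_ne_zero 2 he1)) hE)

/-- the linear relation of a type 1 step 2, on `N'`. -/
theorem t1n_lin {t u g e1 W e T v c V : F} (he : e ≠ 0) (he1 : e1 ≠ 0) (hW : W ≠ 0)
    (hed : e = t + u) (he1d : e1 = t + u + 1) (hWd : W = t * u + t + u)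
    (hT : T = u * e1 / W) (hv : v = t * e1 / W) (hc : c = W * g / e)
    (hV : V = e1 * (g + 1) / e)
    (hL : T * (t * v - u) * (c - t * V + t + 1) = (T - 1) * (T * u * v * c - t ^ 2 * V)) :
    al1 (t + u) (t * u) * g + be1 (t + u) (t * u) = 0 := by
  have key : (T * (t * v - u) * (c - t * V + t + 1) - (T - 1) * (T * u * v * c - t ^ 2 * V))
      * (e * W ^ 2) = e1 * (al1 (t + u) (t * u) * g + be1 (t + u) (t * u)) := by
    rw [hT, hv, hc, hV, al1, be1]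
    field_simp
    rw [hWd, he1d, hed]
    ring
  rw [hL, sub_self, zero_mul] at key
  exact (mul_eq_zero.1 key.symm).resolve_left he1

/-- the `(3,3)` relation on `N'`. -/
theorem t1n_eg {t u g e1 W e T v s3 t3 : F} (ht0 : t ≠ 0) (hu0 : u ≠ 0)
    (he : e ≠ 0) (he1 : e1 ≠ 0) (hW : W ≠ 0) (htu : t - u ≠ 0)
    (h1 : t ^ 2 - u ≠ 0) (h2 : u ^ 2 - t ≠ 0) (ht1 : t - 1 ≠ 0) (hu1 : u - 1 ≠ 0)
    (htp : t + 1 ≠ 0) (hup : u + 1 ≠ 0)
    (hed : e = t + u) (he1d : e1 = t + u + 1) (hWd : W = t * u + t + u)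
    (hT : T = u * e1 / W) (hv : v = t * e1 / W)
    (hs3 : s3 = u ^ 2 * e1 / (t * W)) (ht3 : t3 = t ^ 2 * e1 / (u * W))
    (hEG : ((u - 1) * (u + 1) * k2N u t g / e) * ((t - 1) * aN t u g / (t * e))
        * ((t3 - 1) * (t3 - t) * (t3 - T)) * ((v - 1) * (v - u)) =
      ((t - 1) * (t + 1) * k2N t u g / e) * ((u - 1) * aN u t g / (u * e))
        * ((s3 - 1) * (s3 - u) * (s3 - v)) * ((T - 1) * (T - t))) :
    u ^ 3 * (u + 1) * (t ^ 2 - u) * k2N t u g * nN t u * aN u t g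
      + t ^ 3 * (t + 1) * (u ^ 2 - t) * k2N u t g * nN u t * aN t u g = 0 := by
  have a1 : t3 - 1 = nN u t / (u * W) := by
    rw [ht3, nN]
    field_simp
    rw [hWd, he1d]
    ring
  have a2 : t3 - t = - (t * (t + 1) * (u ^ 2 - t)) / (u * W) := by
    rw [ht3]
    field_simp
    rw [hWd, he1d]
    ring
  have a3 : t3 - T = (t - u) * e * e1 / (u * W) := by
    rw [ht3, hT]
    field_simp
    rw [hed]
    ring
  have a4 : v - 1 = (t ^ 2 - u) / W := by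
    rw [hv]
    field_simp
    rw [hWd, he1d]
    ring
  have a5 : v - u = - ((t + 1) * (u ^ 2 - t)) / W := by
    rw [hv]
    field_simp
    rw [hWd, he1d]
    ring
  have b1 : s3 - 1 = nN t u / (t * W) := by
    rw [hs3, nN]
    field_simp
    rw [hWd, he1d]
    ring
  have b2 : s3 - u = - (u * (u + 1) * (t ^ 2 - u)) / (t * W) := by
    rw [hs3]
    field_simp
    rw [hWd, he1d]
    ring
  have b3 : s3 - v = (u - t) * e * e1 / (t * W) := by
    rw [hs3, hv]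
    field_simp
    rw [hed]
    ring
  have b4 : T - 1 = (u ^ 2 - t) / W := by
    rw [hT]
    field_simp
    rw [hWd, he1d]
    ring
  have b5 : T - t = - ((u + 1) * (t ^ 2 - u)) / W := by
    rw [hT]
    field_simp
    rw [hWd, he1d]
    ring
  rw [a1, a2, a3, a4, a5, b1, b2, b3, b4, b5] at hEG
  obtain ⟨A, hA⟩ : ∃ A, A = k2N t u g * nN t u * aN u t g := ⟨_, rfl⟩
  obtain ⟨B, hB⟩ : ∃ B, B = k2N u t g * nN u t * aN t u g := ⟨_, rfl⟩
  have hne : (t - 1) * (u - 1) * (t + 1) * (u + 1) * (t ^ 2 - u) * (u ^ 2 - t) * (t - u)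
      * e1 / (t ^ 3 * u ^ 3 * e * W ^ 5) ≠ 0 := by
    refine div_ne_zero ?_ ?_
    · exact mul_ne_zero (mul_ne_zero (mul_ne_zero (mul_ne_zero (mul_ne_zero (mul_ne_zero
        (mul_ne_zero ht1 hu1) htp) hup) h1) h2) htu) he1
    · exact mul_ne_zero (mul_ne_zero (mul_ne_zero (pow_ne_zero 3 ht0) (pow_ne_zero 3 hu0)) he)
        (pow_ne_zero 5 hW)
  apply mul_left_cancel₀ hne
  rw [mul_zero]
  have l1 : ((u - 1) * (u + 1) * k2N u t g / e) * ((t - 1) * aN t u g / (t * e))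
        * (nN u t / (u * W) * (- (t * (t + 1) * (u ^ 2 - t)) / (u * W))
          * ((t - u) * e * e1 / (u * W))) * ((t ^ 2 - u) / W * (- ((t + 1) * (u ^ 2 - t)) / W)) =
      ((t - 1) * (u - 1) * (t + 1) * (u + 1) * (t ^ 2 - u) * (u ^ 2 - t) * (t - u)
      * e1 / (t ^ 3 * u ^ 3 * e * W ^ 5)) * (t ^ 3 * (t + 1) * (u ^ 2 - t) * B) := by
    rw [hB]
    field_simp
  have l2 : ((t - 1) * (t + 1) * k2N t u g / e) * ((u - 1) * aN u t g / (u * e))
        * (nN t u / (t * W) * (- (u * (u + 1) * (t ^ 2 - u)) / (t * W))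
          * ((u - t) * e * e1 / (t * W))) * ((u ^ 2 - t) / W * (- ((u + 1) * (t ^ 2 - u)) / W)) =
      ((t - 1) * (u - 1) * (t + 1) * (u + 1) * (t ^ 2 - u) * (u ^ 2 - t) * (t - u)
      * e1 / (t ^ 3 * u ^ 3 * e * W ^ 5)) * (- (u ^ 3 * (u + 1) * (t ^ 2 - u) * A)) := by
    rw [hA]
    field_simp
    ring
  rw [l1, l2] at hEG
  have e1' : u ^ 3 * (u + 1) * (t ^ 2 - u) * k2N t u g * nN t u * aN u t g =
      u ^ 3 * (u + 1) * (t ^ 2 - u) * A := by rw [hA]; ring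
  have e2' : t ^ 3 * (t + 1) * (u ^ 2 - t) * k2N u t g * nN u t * aN t u g =
      t ^ 3 * (t + 1) * (u ^ 2 - t) * B := by rw [hB]; ring
  rw [e1', e2']
  linear_combination hEG

end Pool.Agent.Helper36.IP
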