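import Pool.Agent.Helper36.IP.T1NS
import Pool.Agent.Helper36.IP.E23
import Pool.Agent.Helper43.IPL.Flat2
import Pool.Agent.Helper14.IP.Newton
import Pool.Agent.Helper27.IP.Type0

/-!
TH-P, N branch: the state (11)/(11) on `N'` (`s_1 s_2 = t_1 t_2`) is impossible.
-/

namespace Pool.Agent.Helper36.IP

open Pool.Agent.Helper54.IP

variable {F : Type*} [Field F] {m : ℕ}

theorem t1n_cells {t u e1 W e v s3 g x y G12 H12 G13 H13 : F} (ht0 : t ≠ 0) (hu0 : u ≠ 0)
    (he : e ≠ 0) (he1 : e1 ≠ 0) (hW : W ≠ 0)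
    (hed : e = t + u) (he1d : e1 = t + u + 1) (hWd : W = t * u + t + u)
    (hv : v = t * e1 / W) (hs3 : s3 = u ^ 2 * e1 / (t * W))
    (hx : x = (t - 1) * (W * g / e)) (hy : t * y = (t - 1) * (e1 * (g + 1) / e))
    (g12 : G12 = 1 - x + x * v) (h12 : v * H12 = (1 - y) * v + y)
    (g13 : G13 = 1 - x + x * s3) (h13 : s3 * H13 = (1 - y) * s3 + y) :
    t * G12 - t ^ 2 * H12 = (t - 1) * (t + 1) * k2N t u g / e ∧
    G13 - t ^ 2 * H12 = (t - 1) * aN t u g / (t * e) ∧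
    t * G13 - t ^ 3 * H13 = (t - 1) * k3N t u g / (e * u ^ 2) := by
  have hy' : y = (t - 1) * e1 * (g + 1) / (t * e) := by
    rw [eq_div_iff (mul_ne_zero ht0 he)]
    have : (t - 1) * (e1 * (g + 1) / e) * e = (t - 1) * e1 * (g + 1) := by field_simp
    linear_combination e * hy + this
  have hH12 : H12 = 1 - y + y * W / (t * e1) := by
    apply mul_left_cancel₀ (mul_ne_zero ht0 he1)
    have h1 : t * e1 * H12 = (1 - y) * (t * e1) + y * W := by
      rw [hv] at h12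
      field_simp at h12
      linear_combination h12
    rw [h1]
    field_simp
  have hH13 : H13 = 1 - y + y * (t * W) / (u ^ 2 * e1) := by
    apply mul_left_cancel₀ (mul_ne_zero (pow_ne_zero 2 hu0) he1)
    have h1 : u ^ 2 * e1 * H13 = (1 - y) * (u ^ 2 * e1) + y * (t * W) := by
      rw [hs3] at h13
      field_simp at h13
      linear_combination h13
    rw [h1]
    field_simp
  refine ⟨?_, ?_, ?_⟩
  · rw [g12, hH12, hx, hy', hv, k2N]
    field_simp
    rw [hWd, he1d, hed]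
    ring
  · rw [g13, hH12, hx, hy', hs3, aN]
    field_simp
    rw [hWd, he1d, hed]
    ring
  · rw [g13, hH13, hx, hy', hs3, k3N]
    field_simp
    rw [hWd, he1d, hed]
    ring

/-- the relation of a type 1 step 2. -/
theorem t1n_lin3 (g : GForm F m) (hm : 3 ≤ m) (hD : g.G 1 1 ≠ g.H 1 1)
    (hk : g.kap 1 2 ≠ 0) (hk3 : g.kap 1 3 ≠ 0) (h3 : g.s 3 * g.t 1 = g.s 1 * g.t 2)
    {c V : F} (hc : 1 - g.lam' 0 = (g.t 1 - 1) * c) (hV : g.t 1 * g.mu' 0 = (g.t 1 - 1) * V) :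
    g.t 2 * (g.t 1 * g.s 2 - g.s 1) * (c - g.t 1 * V + g.t 1 + 1) =
      (g.t 2 - 1) * (g.t 2 * g.s 1 * g.s 2 * c - g.t 1 ^ 2 * V) := by
  have ht0 := g.t_ne 1 (by omega)
  have hT0 := g.t_ne 2 (by omega)
  have hv0 := g.s_ne 2 (by omega)
  have ht1 : g.t 1 - 1 ≠ 0 := by
    have := g.t_inj 0 1 (by omega) (by omega)
    rw [g.t0] at this
    exact sub_ne_zero.2 this.symm
  have k11 : g.kap 1 1 ≠ 0 := by
    intro h
    rw [GForm.kap, pow_one] at h
    apply hD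
    apply mul_left_cancel₀ ht0
    linear_combination h
  have D2 : g.G 1 2 - g.t 1 ^ 2 * g.H 1 2 ≠ 0 := by
    have := g.D_succ (j := 1) (k := 1) (by omega) (by omega)
    rw [GForm.D] at this
    rw [this]
    exact mul_ne_zero (sub_ne_zero.2 (g.lm_ne 1 (by omega)).symm) k11
  have r2 := g.row1G (k := 2) (by omega) (by omega)
  have r3 := g.row1G (k := 3) (by omega) (by omega)
  have q2 := g.row1H (k := 2) (by omega) (by omega)
  have q3 := g.row1H (k := 3) (by omega) (by omega)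
  have hs3 := g.s_ne 3 (by omega)
  rcases Pool.Agent.Helper43.IPL.local_flat2 g (by omega) 2 (by omega) with h | h | h | h | ⟨h, -⟩
  · exact absurd h D2
  · exfalso
    apply hk
    rw [GForm.kap]
    linear_combination -h
  · exfalso
    apply hk3
    rw [GForm.kap]
    norm_num at h
    linear_combination (-g.t 1) * h
  · exfalso
    apply g.s_inj 1 2 (by omega) (by omega)
    norm_num at h
    apply mul_left_cancel₀ hT0
    linear_combination -h - h3
  · norm_num at h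
    rw [r2, r3] at h
    have h' : (g.t 2 * g.s 2 - g.s 3) * ((1 - g.lam' 0) - g.t 1 ^ 2 * g.mu' 0 + g.t 1 ^ 2 - 1) =
        (g.t 2 - 1) * (g.s 2 * g.s 3 * (1 - g.lam' 0) - g.t 1 ^ 2 * g.mu' 0) := by
      linear_combination h - g.t 1 ^ 2 * g.t 2 * q2 + g.t 1 ^ 2 * q3
    apply mul_left_cancel₀ ht1
    rw [hc] at h'
    linear_combination g.t 1 * h' + (g.t 2 * (g.t 1 * g.s 2 - g.s 1) * g.t 1
      - (g.t 2 - 1) * g.t 1 ^ 2) * hV + ((g.t 1 - 1) * c - g.t 1 ^ 2 * g.mu' 0 + g.t 1 ^ 2 - 1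
      + (g.t 2 - 1) * g.s 2 * ((g.t 1 - 1) * c)) * h3

/-- the state (11)/(11) on `N'` is impossible. -/
theorem n_1111_N (g : GForm F m) (hm : 5 ≤ m) (hD : g.G 1 1 ≠ g.H 1 1)
    (h2 : g.t 2 ≠ g.s 2)
    (hn1 : (g.s 2 * g.t 1 - g.t 2) * ((1 - g.lam' 0) - g.t 1 * g.mu' 0 + g.t 1 - 1) =
        (g.s 2 - 1) * (g.t 1 * g.t 2 * (1 - g.lam' 0) - g.t 1 * g.mu' 0))
    (hn2 : (g.t 2 * g.s 1 - g.s 2) * ((1 - g.lam' 0) - g.t 1 * g.mu' 0 + g.t 1 - 1) =
        (g.t 2 - 1) * (g.s 1 * g.s 2 * (1 - g.lam' 0) - g.t 1 * g.mu' 0))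
    (hk : g.kap 1 2 ≠ 0) (hk' : g.swap.kap 1 2 ≠ 0)
    (hk3 : g.kap 1 3 ≠ 0) (h3 : g.s 3 * g.t 1 = g.s 1 * g.t 2)
    (h3' : g.t 3 * g.s 1 = g.t 1 * g.s 2) (hN : g.s 1 * g.s 2 = g.t 1 * g.t 2) : False := by
  have ht0 := g.t_ne 1 (by omega)
  have hT0 := g.t_ne 2 (by omega)
  have hu0 := g.s_ne 1 (by omega)
  have hv0 := g.s_ne 2 (by omega)
  have ht1 : g.t 1 - 1 ≠ 0 := by
    have := g.t_inj 0 1 (by omega) (by omega)
    rw [g.t0] at this
    exact sub_ne_zero.2 this.symm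
  have hu1 : g.s 1 - 1 ≠ 0 := by
    have := g.s_inj 0 1 (by omega) (by omega)
    rw [g.s0] at this
    exact sub_ne_zero.2 this.symm
  have hT1 : g.t 2 - 1 ≠ 0 := by
    have := g.t_inj 0 2 (by omega) (by omega)
    rw [g.t0] at this
    exact sub_ne_zero.2 this.symm
  have hv1 : g.s 2 - 1 ≠ 0 := by
    have := g.s_inj 0 2 (by omega) (by omega)
    rw [g.s0] at this
    exact sub_ne_zero.2 this.symm
  have hTv : g.t 2 - g.s 2 ≠ 0 := sub_ne_zero.2 h2
  have hTt : g.t 2 - g.t 1 ≠ 0 := sub_ne_zero.2 (g.t_inj 1 2 (by omega) (by omega)).symm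
  have hvu : g.s 2 - g.s 1 ≠ 0 := sub_ne_zero.2 (g.s_inj 1 2 (by omega) (by omega)).symm
  obtain ⟨c, hc'⟩ : ∃ c, c = (1 - g.lam' 0) / (g.t 1 - 1) := ⟨_, rfl⟩
  obtain ⟨V, hV'⟩ : ∃ V, V = g.t 1 * g.mu' 0 / (g.t 1 - 1) := ⟨_, rfl⟩
  have hc : 1 - g.lam' 0 = (g.t 1 - 1) * c := by rw [hc']; field_simp
  have hV : g.t 1 * g.mu' 0 = (g.t 1 - 1) * V := by rw [hV']; field_simp
  -- the dual parameters
  have h1 := g.row1G (k := 1) (by omega) (by omega)
  have h1H := g.row1H (k := 1) (by omega) (by omega)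
  have k1 := g.swap.row1G (k := 1) (by omega) (by omega)
  have k1H := g.swap.row1H (k := 1) (by omega) (by omega)
  simp only [GForm.swap_G, GForm.swap_H, GForm.swap_s, GForm.swap_lam', GForm.swap_mu'] at k1 k1H
  have hcs : 1 - g.lam 0 = (g.s 1 - 1) * c := by
    apply mul_left_cancel₀ ht1
    linear_combination h1 - k1 + (g.s 1 - 1) * hc
  have hVs : g.s 1 * g.mu 0 = (g.s 1 - 1) * V := by
    apply mul_left_cancel₀ ht1
    linear_combination g.s 1 * k1H - g.t 1 * h1H + (g.s 1 - 1) * hV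
  have hl1 : (g.s 2 * g.t 1 - g.t 2) * (c - V + 1) =
      (g.s 2 - 1) * (g.t 1 * g.t 2 * c - V) := by
    apply mul_left_cancel₀ ht1
    rw [hc, hV] at hn1
    linear_combination hn1
  have hl2 : (g.t 2 * g.s 1 - g.s 2) * (c - V + 1) =
      (g.t 2 - 1) * (g.s 1 * g.s 2 * c - V) := by
    apply mul_left_cancel₀ ht1
    rw [hc, hV] at hn2
    linear_combination hn2
  have hal0 : 1 - g.lam' 1 ≠ 0 := sub_ne_zero.2 (g.lam'_ne 1 (by omega)).symm
  have hKL : c - V + 1 = 0 → g.t 1 * g.t 2 * c - V = 0 → False := by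
    intro hL hK
    have ca := al_eq g (by omega)
    have hz : (1 - g.lam' 1) * ((g.t 1 - 1) * (g.s 1 * (1 - g.lam' 0) + g.mu' 0)) = 0 := by
      apply mul_left_cancel₀ ht0
      rw [mul_zero]
      rw [hc] at ca ⊢
      linear_combination g.t 1 * ca + (g.t 1 - 1) * hV
        + (g.t 1 - 1) * (hK - g.t 1 * hL)
    have hne := (mul_eq_zero.1 ((mul_eq_zero.1 hz).resolve_left hal0)).resolve_left ht1
    apply hD
    apply mul_left_cancel₀ hu0
    rw [h1, h1H]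
    linear_combination (g.s 1 - 1) * hne
  have hs3n : g.s 1 * g.t 2 - g.t 1 ≠ 0 := by
    intro h
    apply g.s_inj 0 3 (by omega) (by omega)
    rw [g.s0]
    apply mul_right_cancel₀ ht0
    linear_combination -h - h3
  have hL := t1n_lin3 g (by omega) hD hk hk3 h3 hc hV
  obtain ⟨hW, he, he1, htu, e3, e4, e6⟩ :=
    t1n_struct ht0 hu0 hT0 ht1 hT1 hTv hs3n hN hl1 hl2 hKL hL
  obtain ⟨W, hWd⟩ : ∃ W, W = g.t 1 * g.s 1 + g.t 1 + g.s 1 := ⟨_, rfl⟩
  obtain ⟨e, hed⟩ : ∃ e, e = g.t 1 + g.s 1 := ⟨_, rfl⟩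
  obtain ⟨e1, he1d⟩ : ∃ e1, e1 = g.t 1 + g.s 1 + 1 := ⟨_, rfl⟩
  rw [← hWd] at hW e3 e4
  rw [← he1d] at he1 e3 e4 e6
  rw [← hed] at he e6
  have f1 : (g.t 2 - 1) * W = g.s 1 ^ 2 - g.t 1 := by
    linear_combination e3 - hWd + g.s 1 * he1d
  have f2 : (g.s 2 - 1) * W = g.t 1 ^ 2 - g.s 1 := by
    linear_combination e4 - hWd + g.t 1 * he1d
  have f3 : (g.t 2 - g.t 1) * W = - ((g.t 1 ^ 2 - g.s 1) * (g.s 1 + 1)) := by
    linear_combination e3 - g.t 1 * hWd + g.s 1 * he1d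
  have f4 : (g.s 2 - g.s 1) * W = - ((g.s 1 ^ 2 - g.t 1) * (g.t 1 + 1)) := by
    linear_combination e4 - g.s 1 * hWd + g.t 1 * he1d
  have hp1 : g.t 1 ^ 2 - g.s 1 ≠ 0 := by rw [← f2]; exact mul_ne_zero hv1 hW
  have hp2 : g.s 1 ^ 2 - g.t 1 ≠ 0 := by rw [← f1]; exact mul_ne_zero hT1 hW
  have hup : g.s 1 + 1 ≠ 0 := by
    intro h
    rw [h, mul_zero, neg_zero] at f3
    exact mul_ne_zero hTt hW f3
  have htp : g.t 1 + 1 ≠ 0 := by
    intro h
    rw [h, mul_zero, neg_zero] at f4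
    exact mul_ne_zero hvu hW f4
  have hT : g.t 2 = g.s 1 * e1 / W := by rw [eq_div_iff hW]; exact e3
  have hv : g.s 2 = g.t 1 * e1 / W := by rw [eq_div_iff hW]; exact e4
  have hs3 : g.s 3 = g.s 1 ^ 2 * e1 / (g.t 1 * W) := by
    rw [eq_div_iff (mul_ne_zero ht0 hW)]
    linear_combination W * h3 + g.s 1 * e3
  have ht3 : g.t 3 = g.t 1 ^ 2 * e1 / (g.s 1 * W) := by
    rw [eq_div_iff (mul_ne_zero hu0 hW)]
    linear_combination W * h3' + g.t 1 * e4
  obtain ⟨γ, hγ⟩ : ∃ γ, γ = c * e / W := ⟨_, rfl⟩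
  have hcγ : c = W * γ / e := by rw [hγ]; field_simp
  have hVγ : V = e1 * (γ + 1) / e := by
    rw [eq_div_iff he]
    have h5 : γ * W = c * e := by rw [hγ]; field_simp
    apply mul_left_cancel₀ hW
    linear_combination W * e6 - g.t 1 * c * e3 - e1 * h5 + (-(e1 * c)) * hed
      + e1 * c * hWd
  -- the cells
  have r2 := g.row1G (k := 2) (by omega) (by omega)
  have q2 := g.row1H (k := 2) (by omega) (by omega)
  have r3 := g.row1G (k := 3) (by omega) (by omega)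
  have q3 := g.row1H (k := 3) (by omega) (by omega)
  have r2' := g.swap.row1G (k := 2) (by omega) (by omega)
  have q2' := g.swap.row1H (k := 2) (by omega) (by omega)
  have r3' := g.swap.row1G (k := 3) (by omega) (by omega)
  have q3' := g.swap.row1H (k := 3) (by omega) (by omega)
  simp only [GForm.swap_G, GForm.swap_H, GForm.swap_s, GForm.swap_lam', GForm.swap_mu']
    at r2' q2' r3' q3'
  obtain ⟨z1, z2, z3⟩ := t1n_cells (G12 := g.G 1 2) (H12 := g.H 1 2) (G13 := g.G 1 3)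
    (H13 := g.H 1 3) (x := 1 - g.lam' 0) (y := g.mu' 0) (g := γ) ht0 hu0 he he1 hW hed he1d hWd
    hv hs3 (by rw [hc, hcγ]) (by rw [hV, hVγ]) (by linear_combination r2)
    (by linear_combination q2) (by linear_combination r3) (by linear_combination q3)
  obtain ⟨w1, w2, w3⟩ := t1n_cells (G12 := g.G 2 1) (H12 := g.H 2 1) (G13 := g.G 3 1)
    (H13 := g.H 3 1) (x := 1 - g.lam 0) (y := g.mu 0) (g := γ) hu0 ht0 he he1 hW
    (by rw [hed]; ring) (by rw [he1d]; ring) (by rw [hWd]; ring)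
    hT ht3 (by rw [hcs, hcγ]) (by rw [hVs, hVγ]) (by linear_combination r2')
    (by linear_combination q2') (by linear_combination r3') (by linear_combination q3')
  have hk2 : k2N (g.t 1) (g.s 1) γ ≠ 0 := by
    intro h
    apply hk
    rw [GForm.kap, z1, h]
    simp
  have hk2' : k2N (g.s 1) (g.t 1) γ ≠ 0 := by
    intro h
    apply hk'
    rw [GForm.kap]
    simp only [GForm.swap_G, GForm.swap_H, GForm.swap_t]
    rw [w1, h]
    simp
  have hk3n : k3N (g.t 1) (g.s 1) γ ≠ 0 := by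
    intro h
    apply hk3
    rw [GForm.kap, z3, h]
    simp
  -- the `(3,3)` relation
  have hdg := Pool.Agent.Helper14.IP.dg g (k := 2) (by omega)
  simp only [Finset.prod_range_succ, Finset.prod_range_zero, one_mul, g.t0, g.s0] at hdg
  norm_num at hdg
  have u1 := g.U1 1 2 (by omega) (by omega)
  have u2 := g.swap.U1 1 2 (by omega) (by omega)
  simp only [GForm.swap_G, GForm.swap_H, GForm.swap_t, GForm.swap_lam] at u2
  norm_num at u1 u2
  have hEG0 : (g.s 1 * g.G 2 1 - g.s 1 ^ 2 * g.H 2 1) * (g.G 1 3 - g.t 1 ^ 2 * g.H 1 2)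
        * ((g.t 3 - 1) * (g.t 3 - g.t 1) * (g.t 3 - g.t 2)) * ((g.s 2 - 1) * (g.s 2 - g.s 1)) =
      (g.t 1 * g.G 1 2 - g.t 1 ^ 2 * g.H 1 2) * (g.G 3 1 - g.s 1 ^ 2 * g.H 2 1)
        * ((g.s 3 - 1) * (g.s 3 - g.s 1) * (g.s 3 - g.s 2))
        * ((g.t 2 - 1) * (g.t 2 - g.t 1)) := by
    rw [u1, u2]
    linear_combination (g.s 1 * g.G 2 1 - g.s 1 ^ 2 * g.H 2 1) *
      (g.t 1 * g.G 1 2 - g.t 1 ^ 2 * g.H 1 2) * hdg
  rw [z1, z2, w1, w2] at hEG0
  have hEG1 : ((g.s 1 - 1) * (g.s 1 + 1) * k2N (g.s 1) (g.t 1) γ / e)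
        * ((g.t 1 - 1) * aN (g.t 1) (g.s 1) γ / (g.t 1 * e))
        * ((g.t 3 - 1) * (g.t 3 - g.t 1) * (g.t 3 - g.t 2)) * ((g.s 2 - 1) * (g.s 2 - g.s 1)) =
      ((g.t 1 - 1) * (g.t 1 + 1) * k2N (g.t 1) (g.s 1) γ / e)
        * ((g.s 1 - 1) * aN (g.s 1) (g.t 1) γ / (g.s 1 * e))
        * ((g.s 3 - 1) * (g.s 3 - g.s 1) * (g.s 3 - g.s 2))
        * ((g.t 2 - 1) * (g.t 2 - g.t 1)) := hEG0
  have hEG := t1n_eg ht0 hu0 he he1 hW htu hp1 hp2 ht1 hu1 htp hup hed he1d hWd hT hv hs3 ht3 hEG1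
  have hlin := t1n_lin (g := γ) he he1 hW hed he1d hWd hT hv hcγ hVγ hL
  obtain ⟨hE, hq⟩ := t1n_core ht0 hu0 htu (by rw [← hed]; exact he) (by rw [← he1d]; exact he1)
    (by rw [← hWd]; exact hW) hp1 hp2 hlin hEG hk2 hk2' hk3n
  -- the point
  have hWe : W = - e1 := by linear_combination hWd + he1d + hq
  have gT : g.t 2 = - g.s 1 := by
    apply mul_right_cancel₀ he1
    rw [hWe] at e3
    linear_combination -e3
  have gv : g.s 2 = - g.t 1 := by
    apply mul_right_cancel₀ he1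
    rw [hWe] at e4
    linear_combination -e4
  have gs3 : g.s 3 = g.t 1 - g.s 1 := by
    apply mul_right_cancel₀ ht0
    rw [h3, gT]
    linear_combination -hE
  have hxy : (g.t 1 + g.s 1) * ((1 - g.lam' 0) + g.t 1 * g.mu' 0) =
      (g.t 1 - 1) * (g.t 1 + g.s 1 + 1) := by
    rw [← he1d, ← hed, hc, hV, hcγ, hVγ, hWe]
    field_simp
    ring
  have hs4t : g.s 3 * g.t 2 = g.t 1 * g.s 4 → False := by
    intro h
    apply g.s_inj 2 4 (by omega) (by omega)
    apply mul_left_cancel₀ ht0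
    rw [← h, gv, gs3, gT]
    linear_combination -hE
  have D3 : g.G 1 3 - g.t 1 ^ 3 * g.H 1 3 ≠ 0 := by
    have := g.D_succ (j := 1) (k := 2) (by omega) (by omega)
    rw [GForm.D] at this
    rw [this]
    exact mul_ne_zero (sub_ne_zero.2 (g.lm_ne 2 (by omega)).symm) hk
  have h4 : g.t 1 ^ 3 * g.H 1 4 = g.G 1 4 := by
    rcases Pool.Agent.Helper43.IPL.local_flat2 g (by omega) 3 (by omega) with h | h | h | h | ⟨-, h⟩
    · exact absurd h D3
    · exfalso
      apply hk3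
      rw [GForm.kap]
      linear_combination -h
    · norm_num at h
      linear_combination h
    · exact (hs4t h).elim
    · exfalso
      norm_num at h
      have ty := type1_of g (by omega) hD hn1
      apply g.s_inj 1 4 (by omega) (by omega)
      rw [gv, gT] at ty
      have hde : g.mu' 1 = (1 - g.lam' 1) * g.t 1 ^ 2 := by
        apply mul_left_cancel₀ hu0
        linear_combination ty
      rw [hde, gs3, gT] at h
      apply mul_left_cancel₀ (mul_ne_zero hal0 (mul_ne_zero (pow_ne_zero 2 ht0)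
        (pow_ne_zero 2 hu0)))
      linear_combination h - (1 - g.lam' 1) * g.s 4 * g.t 1 ^ 2 * hE
  rcases Pool.Agent.Helper43.IPL.deg_flat g (by omega) 3 (by omega) h4 with h | ⟨a1, a2⟩
  · apply hs4t
    refine Pool.Agent.Helper27.IP.closed_type0 g (k := 3) (by omega) ?_ ?_ ?_
    · rw [GForm.kap]
      norm_num
      linear_combination (-g.t 1) * h4
    · rw [GForm.kap]
      norm_num
      norm_num at h
      linear_combination (-g.t 2) * h
    · intro h5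
      apply htp
      rw [h5]
      ring
  · have r4 := g.row1G (k := 4) (by omega) (by omega)
    have q4 := g.row1H (k := 4) (by omega) (by omega)
    norm_num at a1 a2
    rw [gT] at a1 a2
    exact t1n_col4 (G := g.G 1 4) (H := g.H 1 4) (x := 1 - g.lam' 0) (y := g.mu' 0) (s4 := g.s 4)
      ht0 ht1 htp (by rw [← he1d]; exact he1) hq hxy (by linear_combination -a1)
      (by linear_combination -a2) (by linear_combination r4) (by linear_combination q4) h4

end Pool.Agent.Helper36.IP
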