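import Pool.Agent.Helper36.IP.T1N

/-!
TH-P, N branch, state (11)/(11) on `N'`: the structure equations and column 4 (scalar part).
-/

namespace Pool.Agent.Helper36.IP

variable {F : Type*} [Field F]

theorem t1n_struct {t u T v c V : F} (ht0 : t ≠ 0) (hu0 : u ≠ 0) (hT0 : T ≠ 0)
    (ht1 : t - 1 ≠ 0) (hT1 : T - 1 ≠ 0) (hTv : T - v ≠ 0) (hs3 : u * T - t ≠ 0)
    (hN : u * v = t * T)
    (hl1 : (v * t - T) * (c - V + 1) = (v - 1) * (t * T * c - V))
    (hl2 : (T * u - v) * (c - V + 1) = (T - 1) * (u * v * c - V))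
    (hKL : c - V + 1 = 0 → t * T * c - V = 0 → False)
    (hL : T * (t * v - u) * (c - t * V + t + 1) = (T - 1) * (T * u * v * c - t ^ 2 * V)) :
    t * u + t + u ≠ 0 ∧ t + u ≠ 0 ∧ t + u + 1 ≠ 0 ∧ t - u ≠ 0 ∧
    T * (t * u + t + u) = u * (t + u + 1) ∧ v * (t * u + t + u) = t * (t + u + 1) ∧
    (t + u) * V = (t + u + 1) * (c + 1) - t * T * c := by
  have e1 : T * (t ^ 2 - u) * (c - V + 1) = (t * T - u) * (t * T * c - V) := by
    linear_combination u * hl1 + (-(t * (c - V + 1)) + (t * T * c - V)) * hN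
  have e2 : T * (u ^ 2 - t) * (c - V + 1) = u * (T - 1) * (t * T * c - V) := by
    linear_combination u * hl2 + ((c - V + 1) + (T - 1) * u * c) * hN
  have htu : t - u ≠ 0 := by
    intro h
    apply hTv
    apply mul_left_cancel₀ ht0
    linear_combination -hN - v * h
  have hK : t * T * c - V ≠ 0 := by
    intro hK
    rw [hK, mul_zero] at e1 e2
    have hLn : c - V + 1 ≠ 0 := fun h => hKL h hK
    have f1 : t ^ 2 - u = 0 :=
      (mul_eq_zero.1 ((mul_eq_zero.1 e1).resolve_right hLn)).resolve_left hT0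
    have f2 : u ^ 2 - t = 0 :=
      (mul_eq_zero.1 ((mul_eq_zero.1 e2).resolve_right hLn)).resolve_left hT0
    have f3 : t ^ 3 = 1 := by
      apply mul_left_cancel₀ ht0
      linear_combination (t ^ 2 + u) * f1 + f2
    have hvt : t * v = T := by
      apply mul_left_cancel₀ ht0
      linear_combination hN + v * f1
    have f4 : T - t ^ 2 ≠ 0 := by
      intro h
      apply hs3
      linear_combination u * h - t ^ 2 * f1 + t * f3
    have hp : t + 1 ≠ 0 := by
      intro h
      apply ht1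
      have h2 : (2 : F) = 0 := by linear_combination (-1 : F) * f3 + (t ^ 2 - t + 1) * h
      linear_combination h - h2
    have f5 : (t + 1) * (c * (1 - t * T) + 1) = 0 := by
      apply mul_left_cancel₀ (mul_ne_zero hT0 f4)
      rw [mul_zero]
      have hV : V = t * T * c := by linear_combination -hK
      have huu : u = t ^ 2 := by linear_combination -f1
      rw [hvt, huu, hV] at hL
      have hL2 : T * (T - t ^ 2) * (c - t * (t * T * c) + t + 1) =
          (T - 1) * (T * t * T * c - t ^ 2 * (t * T * c)) := by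
        linear_combination hL + (T - 1) * T * c * t * hvt
      linear_combination hL2
    have f6 := (mul_eq_zero.1 f5).resolve_left hp
    apply hLn
    linear_combination f6 + hK
  have hLn : c - V + 1 ≠ 0 := by
    intro h
    rw [h, mul_zero] at e2
    exact mul_ne_zero (mul_ne_zero hu0 hT1) hK e2.symm
  have e3 : T * (t * u + t + u) = u * (t + u + 1) := by
    apply mul_left_cancel₀ (mul_ne_zero (mul_ne_zero htu hT0) (mul_ne_zero hK hLn))
    linear_combination (u * (T - 1) * (t * T * c - V)) * e1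
      - (t * T - u) * (t * T * c - V) * e2
  have hW : t * u + t + u ≠ 0 := by
    intro h
    have h1 : t + u + 1 = 0 := by
      apply mul_left_cancel₀ hu0
      linear_combination (-1 : F) * e3 + T * h
    have h2 : u ^ 2 - t = 0 := by linear_combination (u + 1) * h1 - h - h1
    rw [h2, mul_zero, zero_mul] at e2
    exact mul_ne_zero (mul_ne_zero hu0 hT1) hK e2.symm
  have hE1 : t + u + 1 ≠ 0 := by
    intro h
    rw [h, mul_zero] at e3
    exact mul_ne_zero hT0 hW e3
  have e4 : v * (t * u + t + u) = t * (t + u + 1) := by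
    apply mul_left_cancel₀ hu0
    linear_combination (t * u + t + u) * hN + t * e3
  have hTW : (T - 1) * (t * u + t + u) = u ^ 2 - t := by linear_combination e3
  have e5 : t * T * c - V = (t + u + 1) * (c - V + 1) := by
    apply mul_left_cancel₀ (mul_ne_zero hu0 (mul_ne_zero hT1 hW))
    linear_combination (-(t * u + t + u)) * e2 + T * (t * u + t + u) * (c - V + 1) * (-1 : F) * hTW
      + u * (t + u + 1) * (c - V + 1) * 0 * hTW + (c - V + 1) * (T - 1) * (t * u + t + u) * e3
  have e6 : (t + u) * V = (t + u + 1) * (c + 1) - t * T * c := by linear_combination e5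
  refine ⟨hW, ?_, hE1, htu, e3, e4, e6⟩
  intro h
  rw [h, zero_mul] at e6
  -- `e = 0`: `W = t u`, `T t = 1`
  have h1 : t * T = 1 := by
    apply mul_left_cancel₀ hu0
    linear_combination e3 - T * h + u * h
  rw [h1] at e6
  have h2 : (1 : F) = 0 := by linear_combination -e6
  exact one_ne_zero h2

/-- column 4 in the exceptional case. -/
theorem t1n_col4 {t u x y s4 G H : F} (ht0 : t ≠ 0) (ht1 : t - 1 ≠ 0) (htp : t + 1 ≠ 0)
    (he1 : t + u + 1 ≠ 0) (hq : t * u + 2 * (t + u) + 1 = 0)
    (hxy : (t + u) * (x + t * y) = (t - 1) * (t + u + 1))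
    (a1 : (u + 1) * G = (t + u) * (t ^ 3 * (1 - y)))
    (a2 : t * ((u + 1) * G) = (t + u) * (1 - x))
    (r1 : G = 1 - x + x * s4) (r2 : s4 * H = (1 - y) * s4 + y) (h4 : t ^ 3 * H = G) : False := by
  have c1 : (t + 2) * (t + u) = t ^ 2 - 1 := by linear_combination hq
  have c2 : (t + 2) * (u + 1) = 1 - t := by linear_combination hq
  have c3 : (t + 2) * (t + u + 1) = t ^ 2 + t + 1 := by linear_combination hq
  have hE : t ^ 2 + t + 1 ≠ 0 := by
    intro h
    rw [h] at c3
    have h2 := (mul_eq_zero.1 c3).resolve_right he1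
    rw [h2, zero_mul] at c2
    exact ht1 (by linear_combination c2)
  have b1 : (t + 1) * (x + t * y) = t ^ 2 + t + 1 := by
    apply mul_left_cancel₀ ht1
    linear_combination (t + 2) * hxy - (x + t * y) * c1 + (t - 1) * c3
  have b2 : t * G = - (t + 1) * (1 - x) := by
    apply mul_left_cancel₀ ht1
    linear_combination (-(t + 2)) * a2 + t * G * c2 - (1 - x) * c1
  have b3 : G = - (t + 1) * (t ^ 3 * (1 - y)) := by
    apply mul_left_cancel₀ ht1
    linear_combination (-(t + 2)) * a1 + G * c2 - (t ^ 3 * (1 - y)) * c1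
  have b4 : 1 - x = t ^ 4 * (1 - y) := by
    apply mul_left_cancel₀ htp
    linear_combination b2 - t * b3
  have b5 : (t ^ 3 + 1) * (t + 1) * x = t ^ 3 + t + 1 := by
    linear_combination t ^ 3 * b1 - (t + 1) * b4
  have b5y : (t ^ 3 + 1) * (t + 1) * y = (t ^ 3 + 1) * (t + 1) - 1 := by
    apply mul_left_cancel₀ (pow_ne_zero 4 ht0)
    linear_combination b5 + (t ^ 3 + 1) * (t + 1) * b4
  have b6 : t * x * s4 = - (2 * t + 1) * (1 - x) := by
    linear_combination b2 - t * r1
  have b7 : t ^ 4 * y = - (t + 2) * (1 - x) * s4 := by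
    linear_combination (-(t ^ 4)) * r2 + t * s4 * h4 + s4 * b2 + s4 * b4
  have b8 : t ^ 5 * (x * y) = (t + 2) * (2 * t + 1) * (1 - x) ^ 2 := by
    linear_combination t * x * b7 - (t + 2) * (1 - x) * b6
  have b9 : t ^ 6 * ((t - 1) ^ 2 * (t + 1) ^ 2 * (t ^ 2 + t + 1)) = 0 := by
    obtain ⟨D, hD⟩ : ∃ D, D = (t ^ 3 + 1) * (t + 1) := ⟨_, rfl⟩
    rw [← hD] at b5 b5y
    have d1 : D ^ 2 * (t ^ 5 * (x * y)) = t ^ 5 * (t ^ 3 + t + 1) * (D - 1) := by
      linear_combination t ^ 5 * (D * y) * b5 + t ^ 5 * (t ^ 3 + t + 1) * b5y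
    have d2 : D * (1 - x) = t ^ 4 := by linear_combination hD - b5
    have d3 : D ^ 2 * (1 - x) ^ 2 = t ^ 8 := by
      linear_combination (D * (1 - x) + t ^ 4) * d2
    rw [hD] at d1
    rw [← hD] at d1
    have d4 : t ^ 5 * (t ^ 3 + t + 1) * (D - 1) = (t + 2) * (2 * t + 1) * t ^ 8 := by
      linear_combination D ^ 2 * b8 - d1 + (t + 2) * (2 * t + 1) * d3
    rw [hD] at d4
    linear_combination d4
  exact mul_ne_zero (pow_ne_zero 6 ht0) (mul_ne_zero (mul_ne_zero (pow_ne_zero 2 ht1)
    (pow_ne_zero 2 htp)) hE) b9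

end Pool.Agent.Helper36.IP
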