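import Pool.Agent.Helper54.IP.GSwap
import Pool.Agent.Helper36.IP.PartG
import Pool.Agent.Helper36.IP.SFacts

/-!
TH-P, N branch, state (10)/(10): `s_4 = t_2 s_2`.
-/

namespace Pool.Agent.Helper36.IP

open Pool.Agent.Helper54.IP

variable {F : Type*} [Field F]

/-- facts about one row `t`, columns `2, 3, 4`, relative to the virtual closing column. -/
theorem rowfacts {t p g h lam2 mu2 lam3 mu3 G2 H2 G3 H3 G4 H4 : F} (ht : t ≠ 0)
    (hG3 : t * G3 = p * (1 + g * (t - 1))) (hH3 : t ^ 3 * H3 = p * (1 + h * (t - 1)))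
    (a1 : G3 = (1 - lam2) * (t * G2) + lam2 * (t ^ 2 * H2))
    (a2 : t ^ 3 * H3 = (1 - mu2) * (t * G2) + mu2 * (t ^ 2 * H2))
    (b1 : G4 = (1 - lam3) * (t * G3) + lam3 * (t ^ 3 * H3))
    (b2 : t ^ 4 * H4 = (1 - mu3) * (t * G3) + mu3 * (t ^ 3 * H3)) :
    G4 = p * (1 + ((1 - lam3) * g + lam3 * h) * (t - 1)) ∧
    (mu2 - lam2) * (t ^ 2 * G2) = p * (mu2 * (1 + g * (t - 1)) - lam2 * (t * (1 + h * (t - 1)))) ∧
    H4 = (p / t ^ 3) * (1 + (1 - ((1 - mu3) * g + mu3 * h)) * (t⁻¹ - 1)) ∧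
    t⁻¹ * H3 = (p / t ^ 3) * (1 + (1 - h) * (t⁻¹ - 1)) ∧
    ((1 - lam2) - (1 - mu2)) * ((t⁻¹) ^ 2 * H2) = (p / t ^ 3) *
      ((1 - lam2) * (1 + (1 - h) * (t⁻¹ - 1)) - (1 - mu2) * (t⁻¹ * (1 + (1 - g) * (t⁻¹ - 1)))) := by
  have c1 : (mu2 - lam2) * (t * G2) = mu2 * G3 - lam2 * (t ^ 3 * H3) := by
    linear_combination (-mu2) * a1 + lam2 * a2
  have c2 : (mu2 - lam2) * (t ^ 2 * H2) = (1 - lam2) * (t ^ 3 * H3) - (1 - mu2) * G3 := by
    linear_combination (1 - mu2) * a1 - (1 - lam2) * a2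
  refine ⟨?_, ?_, ?_, ?_, ?_⟩
  · linear_combination b1 + (1 - lam3) * hG3 + lam3 * hH3
  · linear_combination t * c1 + mu2 * hG3 - lam2 * t * hH3
  · have e : t ^ 4 * H4 = p * (1 + ((1 - mu3) * g + mu3 * h) * (t - 1)) := by
      linear_combination b2 + (1 - mu3) * hG3 + mu3 * hH3
    field_simp
    linear_combination e
  · field_simp
    linear_combination hH3
  · have e : (mu2 - lam2) * (t ^ 3 * H2) = (1 - lam2) * (t * (p * (1 + h * (t - 1))))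
        - (1 - mu2) * (p * (1 + g * (t - 1))) := by
      linear_combination t * c2 + (1 - lam2) * t * hH3 - (1 - mu2) * hG3
    field_simp
    linear_combination e

section rows

variable {m : ℕ} (g : GForm F m)

theorem G1_eq (hm : 1 ≤ m) {k : ℕ} (hk : k ≤ m) : g.G 1 k = q1 (1 - g.lam' 0) (g.s k) := by
  rw [g.row1G hm hk, q1]
  ring

theorem H1_eq (hm : 1 ≤ m) {k : ℕ} (hk : k ≤ m) : g.H 1 k = q1 (g.mu' 0) (g.s k)⁻¹ := by
  have h1 := g.row1H hm hk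
  have hs := g.s_ne k hk
  rw [q1]
  field_simp
  linear_combination h1

theorem G2_eq (hm : 2 ≤ m) {k : ℕ} (hk : k ≤ m) :
    g.G 2 k = q2 (1 - g.lam' 0) (g.mu' 0) (1 - g.lam' 1) (g.s k) := by
  have h1 := g.row1G (by omega) hk
  have h2 := g.row1H (by omega) hk
  have h3 := g.row2G hm hk
  rw [q2, h3, h1]
  linear_combination g.lam' 1 * h2

theorem H2_eq (hm : 2 ≤ m) {k : ℕ} (hk : k ≤ m) :
    g.H 2 k = q2 (g.mu' 0) (1 - g.lam' 0) (g.mu' 1) (g.s k)⁻¹ := by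
  have h1 := g.row1G (by omega) hk
  have h2 := g.row1H (by omega) hk
  have h3 := g.row2H hm hk
  have hs := g.s_ne k hk
  rw [q2]
  field_simp
  rw [h1] at h3
  linear_combination g.s k * h3 + g.mu' 1 * h2

theorem G3_eq (hm : 3 ≤ m) {k : ℕ} (hk : k ≤ m) :
    g.G 3 k = q3 (1 - g.lam' 0) (g.mu' 0) (1 - g.lam' 1) (g.mu' 1) (1 - g.lam' 2) (g.s k) := by
  have h1 := g.row1G (by omega) hk
  have h2 := g.row1H (by omega) hk
  have h3 := g.row2H (by omega) hk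
  have h4 := g.V1 2 k (by omega) hk
  have h5 := G2_eq g (by omega) hk
  norm_num at h4
  rw [q3, ← h5, h4, r2]
  rw [h1] at h3
  linear_combination g.lam' 2 * g.s k * h3 + g.lam' 2 * g.mu' 1 * h2

theorem H3_eq (hm : 3 ≤ m) {k : ℕ} (hk : k ≤ m) :
    g.H 3 k = q3 (g.mu' 0) (1 - g.lam' 0) (g.mu' 1) (1 - g.lam' 1) (g.mu' 2) (g.s k)⁻¹ := by
  have h1 := g.row1G (by omega) hk
  have h2 := g.row1H (by omega) hk
  have h3 := g.row2G (by omega) hk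
  have h4 := g.V2 2 k (by omega) hk
  have h5 := H2_eq g (by omega) hk
  have hs := g.s_ne k hk
  norm_num at h4
  have e1 : g.s k * (g.s k)⁻¹ = 1 := mul_inv_cancel₀ hs
  rw [q3, ← h5]
  set i := (g.s k)⁻¹ with hi
  have e2 : g.s k ^ 2 * r2 (g.mu' 0) (1 - g.lam' 0) (1 - g.lam' 1) i = g.G 2 k := by
    rw [r2, h3, h1]
    linear_combination (g.lam' 1 * (g.s k + g.mu' 0 * (g.s k * i + 1 - g.s k))
      + (1 - g.lam' 1) * g.s k * (1 - (1 - g.lam' 0))) * e1 - g.lam' 1 * h2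
  apply mul_left_cancel₀ (pow_ne_zero 3 hs)
  rw [h4, ← e2]
  linear_combination (-(g.mu' 2 * g.s k ^ 2 * g.H 2 k)) * e1

end rows

end Pool.Agent.Helper36.IP
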