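import Pool.Agent.Helper54.IP.Sq
import Pool.Agent.Helper36.IP.N5

/-!
TH-P phase 2: construction of the closed corners of the family W5 (generated).
`w` a primitive cube root of unity, `e ^ 2 = 2 (1 + 2 w) e + 1`, `X = 1 / f_1` free,
`Z = 1 / (1 + (3 + e + 2 w e) X)`, `i = 1 / 6`.
-/

namespace Pool.Agent.Helper36.IP

open Pool.Agent.Helper54.IP

variable {F : Type*} [Field F]

theorem ne_of_mul_eq {a b c : F} (h : a * b = c) (hc : c ≠ 0) : a ≠ 0 := by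
  rintro rfl
  rw [zero_mul] at h
  exact hc h.symm

def w5t (w e : F) : ℕ → F := sq5 1 ((1 + w) * e) (-(w * e)) (-e) (w ^ 2 * e ^ 2)

def w5s (w e : F) : ℕ → F := sq5 1 (w * e) (-((1 + w) * e)) (e) (w * e ^ 2)

def w5L (w e X Z i : F) : ℕ → F :=
  sq5 (X * w * e - X)
    (3 * i * w * e + i * w + i * e + 9 * i)
    (w * e - 2 * w + e + 2)
    (2 * Z * X * w * e - 11 * Z * X * w + 4 * Z * X * e - Z * X + Z * w * e - 9 * Z * w + 3 * Z * e - Z)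
    (2 * Z * X * w * e - 11 * Z * X * w + 4 * Z * X * e - Z * X + Z * w * e - 9 * Z * w + 3 * Z * e - Z)

def w5M (w e X Z i : F) : ℕ → F :=
  sq5 (-10 * i * w * e + 10 * i * w - 8 * i * e - 16 * i - X * w * e + 2 * X * w - X * e - 3 * X)
    (-3 * i * w * e + i * w - 2 * i * e)
    (-w * e)
    (2 * Z * X * w * e + Z * X * w - 2 * Z * X * e + 2 * Z * X)
    (2 * Z * X * w * e + Z * X * w - 2 * Z * X * e + 2 * Z * X)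

def w5Lp (w e X Z i : F) : ℕ → F :=
  sq5 (X * w * e + X * e - X)
    (3 * i * w * e - i * w + 2 * i * e + 8 * i)
    (w * e + 2 * w + 4)
    (2 * Z * X * w * e + 11 * Z * X * w - 2 * Z * X * e + 10 * Z * X + Z * w * e + 9 * Z * w - 2 * Z * e + 8 * Z)
    (2 * Z * X * w * e + 11 * Z * X * w - 2 * Z * X * e + 10 * Z * X + Z * w * e + 9 * Z * w - 2 * Z * e + 8 * Z)

def w5Mp (w e X Z i : F) : ℕ → F :=
  sq5 (-10 * i * w * e - 10 * i * w - 2 * i * e - 26 * i - X * w * e - 2 * X * w - 5 * X)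
    (-3 * i * w * e - i * w - i * e - i)
    (-w * e - e)
    (2 * Z * X * w * e - Z * X * w + 4 * Z * X * e + Z * X)
    (2 * Z * X * w * e - Z * X * w + 4 * Z * X * e + Z * X)

def w5G (w e X Z i : F) : ℕ → ℕ → F :=
  fun j => sq5 (sq5 (1)
      (1)
      (1)
      (1)
      (1))
    (sq5 (1)
      (-6 * X * w * e - 3 * X * e + 1)
      (2 * X * w * e - X * w + 4 * X * e + X + 1)
      (X * w * e + X * w - 4 * X * e + 2 * X + 1)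
      (X * w * e - 5 * X * w + 14 * X * e - X + 1))
    (sq5 (1)
      (2 * X * w * e + X * w - 2 * X * e + 2 * X + 1)
      (3 * i * X * e + 9 * i * X + X * w * e + 1)
      (-X * w + 3 * X * e + X + 1)
      (X * w * e - 5 * X * w + 14 * X * e - X + 1))
    (sq5 (1)
      (X * w * e - X * w + 5 * X * e + X + 1)
      (X * w - 3 * X * e + 2 * X + 1)
      (8 * X * w * e + 4 * X * e + 3 * X + 1)
      (X * w * e - 5 * X * w + 14 * X * e - X + 1))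
    (sq5 (1)
      (X * w * e + 5 * X * w - 13 * X * e + 4 * X + 1)
      (X * w * e + 5 * X * w - 13 * X * e + 4 * X + 1)
      (X * w * e + 5 * X * w - 13 * X * e + 4 * X + 1)
      (-594 * Z * X ^ 2 * w * e - 297 * Z * X ^ 2 * e - 162 * Z * X ^ 2 + 2 * Z * X * w * e + Z * X * e + 3 * Z * X + Z)) j

def w5H (w e X Z i : F) : ℕ → ℕ → F :=
  fun j => sq5 (sq5 (1)
      (1)
      (1)
      (1)
      (1))
    (sq5 (1)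
      (6 * X * w * e + 3 * X * e + 18 * X + 6 * w * e + 3 * e + 16)
      (-2 * X * w * e - 11 * X * w + 2 * X * e - 10 * X - w * e - 9 * w + 2 * e - 7)
      (-X * w * e + 17 * X * w - 5 * X * e + 7 * X + 14 * w - 4 * e + 7)
      (-X * w * e - 49 * X * w + 13 * X * e - 26 * X - 40 * w + 11 * e - 20))
    (sq5 (1)
      (-2 * X * w * e + 11 * X * w - 4 * X * e + X - w * e + 9 * w - 3 * e + 2)
      (-3 * i * X * e - 9 * i * X - X * w * e)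
      (-11 * X * w + 3 * X * e - 4 * X + w * e - 9 * w + 3 * e - 2)
      (-X * w * e - 49 * X * w + 13 * X * e - 26 * X - 40 * w + 11 * e - 20))
    (sq5 (1)
      (-X * w * e - 17 * X * w + 4 * X * e - 10 * X - 14 * w + 4 * e - 7)
      (11 * X * w - 3 * X * e + 7 * X + w * e + 9 * w - 2 * e + 7)
      (-8 * X * w * e - 4 * X * e - 21 * X - 6 * w * e - 3 * e - 16)
      (-X * w * e - 49 * X * w + 13 * X * e - 26 * X - 40 * w + 11 * e - 20))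
    (sq5 (1)
      (-X * w * e + 49 * X * w - 14 * X * e + 23 * X + 40 * w - 11 * e + 20)
      (-X * w * e + 49 * X * w - 14 * X * e + 23 * X + 40 * w - 11 * e + 20)
      (-X * w * e + 49 * X * w - 14 * X * e + 23 * X + 40 * w - 11 * e + 20)
      (-594 * Z * X ^ 2 * w * e - 297 * Z * X ^ 2 * e - 1620 * Z * X ^ 2 - 970 * Z * X * w * e - 485 * Z * X * e - 2643 * Z * X - 396 * Z * w * e - 198 * Z * e - 1079 * Z)) j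

section

variable {w e X Z i : F} (hw : w ^ 2 + w + 1 = 0) (he : e ^ 2 = 2 * (1 + 2 * w) * e + 1) (hi : 6 * i = 1)
    (hZ : Z * (1 + (2 * w * e + e + 3) * X) = 1)

include hw he hi hZ

theorem w5_U1_0 : ∀ k, k < 4 → w5G w e X Z i 0 (k + 1) =
      (1 - (1 - w5L w e X Z i k)) * (w5t w e 0 * w5G w e X Z i 0 k) +
        (1 - w5L w e X Z i k) * (w5t w e 0 ^ k * w5H w e X Z i 0 k) := by
  intro k hk
  interval_cases k <;> simp only [w5t, w5G, w5H, w5L, w5M, sq5]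
  · ring
  · ring
  · ring
  · ring

theorem w5_U1_1 : ∀ k, k < 4 → w5G w e X Z i 1 (k + 1) =
      (1 - (1 - w5L w e X Z i k)) * (w5t w e 1 * w5G w e X Z i 1 k) +
        (1 - w5L w e X Z i k) * (w5t w e 1 ^ k * w5H w e X Z i 1 k) := by
  intro k hk
  interval_cases k <;> simp only [w5t, w5G, w5H, w5L, w5M, sq5]
  · linear_combination (-4 * X * w * e - 2 * X * e - X) * hw + (-X * w ^ 2 - X * w) * he
  · linear_combination (576 * i * X * w ^ 3 * e + 1104 * i * X * w ^ 2 * e + 144 * i * X * w ^ 2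
      + 732 * i * X * w * e + 204 * i * X * w + 216 * i * X * e + 72 * i * X + 288 * i * w ^ 3 * e
      + 552 * i * w ^ 2 * e + 72 * i * w ^ 2 + 366 * i * w * e + 102 * i * w + 102 * i * e + 36 *
      i) * hw + (144 * i * X * w ^ 4 + 36 * i * X * w ^ 3 * e + 348 * i * X * w ^ 3 + 66 * i * X *
      w ^ 2 * e + 420 * i * X * w ^ 2 + 36 * i * X * w * e + 282 * i * X * w + 6 * i * X * e + 66
      * i * X + 72 * i * w ^ 4 + 18 * i * w ^ 3 * e + 174 * i * w ^ 3 + 33 * i * w ^ 2 * e + 210 *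
      i * w ^ 2 + 18 * i * w * e + 138 * i * w + 3 * i * e + 30 * i) * he + (6 * X * w ^ 2 * e ^ 2
      + 9 * X * w * e ^ 2 + 16 * X * w * e + X * w + 3 * X * e ^ 2 + 14 * X * e - X + 6 * w ^ 2 *
      e ^ 2 + 9 * w * e ^ 2 + 16 * w * e + 3 * e ^ 2 + 16 * e - 1) * hi
  · linear_combination (-128 * X * w ^ 5 * e - 432 * X * w ^ 4 * e - 32 * X * w ^ 4 - 648 * X *
      w ^ 3 * e - 92 * X * w ^ 3 - 591 * X * w ^ 2 * e - 114 * X * w ^ 2 - 322 * X * w * e - 86 *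
      X * w - 80 * X * e - 31 * X - 64 * w ^ 5 * e - 208 * w ^ 4 * e - 16 * w ^ 4 - 288 * w ^ 3 *
      e - 44 * w ^ 3 - 223 * w ^ 2 * e - 49 * w ^ 2 - 98 * w * e - 29 * w - 19 * e - 7) * hw +
      (-32 * X * w ^ 6 - 8 * X * w ^ 5 * e - 124 * X * w ^ 5 - 2 * X * w ^ 4 * e ^ 2 - 27 * X * w
      ^ 4 * e - 238 * X * w ^ 4 - 4 * X * w ^ 3 * e ^ 2 - 51 * X * w ^ 3 * e - 292 * X * w ^ 3 -
      61 * X * w ^ 2 * e - 231 * X * w ^ 2 + 4 * X * w * e ^ 2 - 37 * X * w * e - 118 * X * w + 2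
      * X * e ^ 2 - 8 * X * e - 33 * X - 16 * w ^ 6 - 4 * w ^ 5 * e - 60 * w ^ 5 - w ^ 4 * e ^ 2 -
      13 * w ^ 4 * e - 109 * w ^ 4 - w ^ 3 * e ^ 2 - 25 * w ^ 3 * e - 122 * w ^ 3 + 3 * w ^ 2 * e
      ^ 2 - 28 * w ^ 2 * e - 85 * w ^ 2 + 5 * w * e ^ 2 - 13 * w * e - 36 * w + 2 * e ^ 2 - e - 8)
      * he
  · linear_combination (-64 * Z * X ^ 2 * w ^ 6 * e - 400 * Z * X ^ 2 * w ^ 5 * e - 16 * Z * X ^
      2 * w ^ 5 - 1032 * Z * X ^ 2 * w ^ 4 * e - 92 * Z * X ^ 2 * w ^ 4 - 1427 * Z * X ^ 2 * w ^ 3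
      * e - 211 * Z * X ^ 2 * w ^ 3 - 974 * Z * X ^ 2 * w ^ 2 * e - 246 * Z * X ^ 2 * w ^ 2 - 260
      * Z * X ^ 2 * w * e - 110 * Z * X ^ 2 * w + 44 * Z * X ^ 2 * e - 256 * Z * X * w ^ 7 * e -
      1408 * Z * X * w ^ 6 * e - 64 * Z * X * w ^ 6 - 3424 * Z * X * w ^ 5 * e - 320 * Z * X * w ^
      5 - 4912 * Z * X * w ^ 4 * e - 692 * Z * X * w ^ 4 - 4636 * Z * X * w ^ 3 * e - 864 * Z * X
      * w ^ 3 - 2842 * Z * X * w ^ 2 * e - 693 * Z * X * w ^ 2 - 985 * Z * X * w * e - 328 * Z * X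
      * w - 127 * Z * X * e - 56 * Z * X - 128 * Z * w ^ 6 * e - 608 * Z * w ^ 5 * e - 32 * Z * w
      ^ 5 - 1248 * Z * w ^ 4 * e - 136 * Z * w ^ 4 - 1446 * Z * w ^ 3 * e - 242 * Z * w ^ 3 - 1011
      * Z * w ^ 2 * e - 233 * Z * w ^ 2 - 408 * Z * w * e - 125 * Z * w - 75 * Z * e - 29 * Z) *
      hw + (-16 * Z * X ^ 2 * w ^ 7 - 4 * Z * X ^ 2 * w ^ 6 * e - 108 * Z * X ^ 2 * w ^ 6 - Z * X
      ^ 2 * w ^ 5 * e ^ 2 - 25 * Z * X ^ 2 * w ^ 5 * e - 319 * Z * X ^ 2 * w ^ 5 - 3 * Z * X ^ 2 *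
      w ^ 4 * e ^ 3 + 41 * Z * X ^ 2 * w ^ 4 * e ^ 2 - 67 * Z * X ^ 2 * w ^ 4 * e - 549 * Z * X ^
      2 * w ^ 4 - 24 * Z * X ^ 2 * w ^ 3 * e ^ 3 + 140 * Z * X ^ 2 * w ^ 3 * e ^ 2 - 114 * Z * X ^
      2 * w ^ 3 * e - 567 * Z * X ^ 2 * w ^ 3 - 54 * Z * X ^ 2 * w ^ 2 * e ^ 3 + 164 * Z * X ^ 2 *
      w ^ 2 * e ^ 2 - 122 * Z * X ^ 2 * w ^ 2 * e - 356 * Z * X ^ 2 * w ^ 2 - 48 * Z * X ^ 2 * w *
      e ^ 3 + 77 * Z * X ^ 2 * w * e ^ 2 - 59 * Z * X ^ 2 * w * e - 95 * Z * X ^ 2 * w - 15 * Z *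
      X ^ 2 * e ^ 3 + 11 * Z * X ^ 2 * e ^ 2 - 5 * Z * X ^ 2 * e + 3 * Z * X ^ 2 - 64 * Z * X * w
      ^ 8 - 16 * Z * X * w ^ 7 * e - 384 * Z * X * w ^ 7 - 4 * Z * X * w ^ 6 * e ^ 2 - 88 * Z * X
      * w ^ 6 * e - 1076 * Z * X * w ^ 6 - Z * X * w ^ 5 * e ^ 3 - 20 * Z * X * w ^ 5 * e ^ 2 -
      224 * Z * X * w ^ 5 * e - 1876 * Z * X * w ^ 5 - 11 * Z * X * w ^ 4 * e ^ 3 + 31 * Z * X * w
      ^ 4 * e ^ 2 - 352 * Z * X * w ^ 4 * e - 2249 * Z * X * w ^ 4 - 54 * Z * X * w ^ 3 * e ^ 3 +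
      187 * Z * X * w ^ 3 * e ^ 2 - 394 * Z * X * w ^ 3 * e - 1885 * Z * X * w ^ 3 - 106 * Z * X *
      w ^ 2 * e ^ 3 + 235 * Z * X * w ^ 2 * e ^ 2 - 323 * Z * X * w ^ 2 * e - 1077 * Z * X * w ^ 2
      - 89 * Z * X * w * e ^ 3 + 109 * Z * X * w * e ^ 2 - 158 * Z * X * w * e - 379 * Z * X * w -
      27 * Z * X * e ^ 3 + 14 * Z * X * e ^ 2 - 29 * Z * X * e - 58 * Z * X - 32 * Z * w ^ 7 - 8 *
      Z * w ^ 6 * e - 168 * Z * w ^ 6 - 2 * Z * w ^ 5 * e ^ 2 - 38 * Z * w ^ 5 * e - 410 * Z * w ^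
      5 - 4 * Z * w ^ 4 * e ^ 3 + 23 * Z * w ^ 4 * e ^ 2 - 83 * Z * w ^ 4 * e - 611 * Z * w ^ 4 -
      24 * Z * w ^ 3 * e ^ 3 + 86 * Z * w ^ 3 * e ^ 2 - 117 * Z * w ^ 3 * e - 600 * Z * w ^ 3 - 48
      * Z * w ^ 2 * e ^ 3 + 100 * Z * w ^ 2 * e ^ 2 - 113 * Z * w ^ 2 * e - 387 * Z * w ^ 2 - 40 *
      Z * w * e ^ 3 + 44 * Z * w * e ^ 2 - 65 * Z * w * e - 154 * Z * w - 12 * Z * e ^ 3 + 5 * Z *
      e ^ 2 - 16 * Z * e - 30 * Z) * he + (-X * w ^ 4 * e ^ 4 + 17 * X * w ^ 4 * e ^ 3 - 8 * X * w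
      ^ 3 * e ^ 4 + 58 * X * w ^ 3 * e ^ 3 - 18 * X * w ^ 2 * e ^ 4 + 72 * X * w ^ 2 * e ^ 3 - 16
      * X * w * e ^ 4 + 38 * X * w * e ^ 3 - X * w * e + 5 * X * w - 5 * X * e ^ 4 + 7 * X * e ^ 3
      - 14 * X * e + X + 14 * w ^ 4 * e ^ 3 - 4 * w ^ 3 * e ^ 4 + 49 * w ^ 3 * e ^ 3 - 12 * w ^ 2
      * e ^ 4 + 63 * w ^ 2 * e ^ 3 - 12 * w * e ^ 4 + 35 * w * e ^ 3 - 4 * e ^ 4 + 7 * e ^ 3 - 1)
      * hZ

theorem w5_U1_2 : ∀ k, k < 4 → w5G w e X Z i 2 (k + 1) =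
      (1 - (1 - w5L w e X Z i k)) * (w5t w e 2 * w5G w e X Z i 2 k) +
        (1 - w5L w e X Z i k) * (w5t w e 2 ^ k * w5H w e X Z i 2 k) := by
  intro k hk
  interval_cases k <;> simp only [w5t, w5G, w5H, w5L, w5M, sq5]
  · linear_combination (4 * X * w * e - 2 * X * e + X) * hw + (X * w ^ 2) * he
  · linear_combination (192 * i * X * w ^ 3 * e + 56 * i * X * w ^ 2 * e + 48 * i * X * w ^ 2 +
      18 * i * X * w * e - 10 * i * X * w + 3 * i * X * e + 9 * i * X + 48 * i * w ^ 3 * e + 56 *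
      i * w ^ 2 * e + 12 * i * w ^ 2 + 34 * i * w * e + 8 * i * w + 6 * i) * hw + (48 * i * X * w
      ^ 4 + 12 * i * X * w ^ 3 * e + 38 * i * X * w ^ 3 + 10 * i * X * w ^ 2 * e + 47 * i * X * w
      ^ 2 + 2 * i * X * w * e - i * X * w + 12 * i * w ^ 4 + 3 * i * w ^ 3 * e + 20 * i * w ^ 3 +
      10 * i * w ^ 2 * e + 26 * i * w ^ 2 + 3 * i * w * e + 14 * i * w) * he + (2 * X * w ^ 2 * e
      ^ 2 - 11 * X * w ^ 2 * e + 4 * X * w * e ^ 2 - 2 * X * w * e + w ^ 2 * e ^ 2 - 9 * w ^ 2 * e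
      + 3 * w * e ^ 2 - 2 * w * e - 1) * hi
  · linear_combination (-384 * i * X * w ^ 5 * e - 576 * i * X * w ^ 4 * e - 96 * i * X * w ^ 4
      - 288 * i * X * w ^ 3 * e - 96 * i * X * w ^ 3 - 12 * i * X * w ^ 2 * e - 18 * i * X * w ^ 2
      + 45 * i * X * w * e + 9 * i * X * w + 18 * i * X * e + 6 * i * X + 24 * i * w * e + 6 * i)
      * hw + (-96 * i * X * w ^ 6 - 24 * i * X * w ^ 5 * e - 192 * i * X * w ^ 5 - 6 * i * X * w ^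
      4 * e ^ 2 - 36 * i * X * w ^ 4 * e - 210 * i * X * w ^ 4 - 9 * i * X * w ^ 3 * e ^ 2 - 33 *
      i * X * w ^ 3 * e - 105 * i * X * w ^ 3 - 3 * i * X * w ^ 2 * e ^ 2 - 9 * i * X * w ^ 2 * e
      - 3 * i * X * w ^ 2 + 3 * i * X * w * e + 21 * i * X * w + 6 * i * w ^ 2 + 6 * i * w) * he +
      (X * w ^ 4 * e ^ 4 - 2 * X * w ^ 4 * e ^ 3 + X * w ^ 3 * e ^ 4 + 2 * X * w ^ 3 * e ^ 2 - X *
      w ^ 2 * e ^ 3 - 2 * X * w ^ 2 * e ^ 2 + X * w - 3 * X * e - X - w ^ 2 * e ^ 2 + 2 * w ^ 2 *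
      e - w * e ^ 2 - 2 * w * e - 1) * hi
  · linear_combination (-16 * Z * X ^ 2 * w ^ 5 * e - 64 * Z * X ^ 2 * w ^ 4 * e - 4 * Z * X ^ 2
      * w ^ 4 - 77 * Z * X ^ 2 * w ^ 3 * e - 14 * Z * X ^ 2 * w ^ 3 + 85 * Z * X ^ 2 * w ^ 2 * e -
      12 * Z * X ^ 2 * w ^ 2 + 102 * Z * X ^ 2 * w * e + 28 * Z * X ^ 2 * w + 69 * Z * X ^ 2 * e +
      11 * Z * X ^ 2 - 128 * Z * X * w ^ 6 * e - 416 * Z * X * w ^ 5 * e - 32 * Z * X * w ^ 5 -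
      464 * Z * X * w ^ 4 * e - 88 * Z * X * w ^ 4 - 166 * Z * X * w ^ 3 * e - 70 * Z * X * w ^ 3
      + 48 * Z * X * w ^ 2 * e - 2 * Z * X * w ^ 2 + 39 * Z * X * w * e + 15 * Z * X * w + 15 * Z
      * X * e + 2 * Z * X - 256 * Z * w ^ 7 * e - 640 * Z * w ^ 6 * e - 64 * Z * w ^ 6 - 768 * Z *
      w ^ 5 * e - 128 * Z * w ^ 5 - 496 * Z * w ^ 4 * e - 124 * Z * w ^ 4 - 138 * Z * w ^ 3 * e -
      56 * Z * w ^ 3 - 2 * Z * w ^ 2 + 5 * Z * w * e + 2 * Z * w + Z) * hw + (-4 * Z * X ^ 2 * w ^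
      6 - Z * X ^ 2 * w ^ 5 * e - 18 * Z * X ^ 2 * w ^ 5 + 30 * Z * X ^ 2 * w ^ 4 * e ^ 2 - 4 * Z
      * X ^ 2 * w ^ 4 * e - 30 * Z * X ^ 2 * w ^ 4 - 9 * Z * X ^ 2 * w ^ 3 * e ^ 3 + 6 * Z * X ^ 2
      * w ^ 3 * e ^ 2 - 13 * Z * X ^ 2 * w ^ 3 * e + 2 * Z * X ^ 2 * w ^ 3 + 6 * Z * X ^ 2 * w ^ 2
      * e + 27 * Z * X ^ 2 * w ^ 2 + 12 * Z * X ^ 2 * w * e + 54 * Z * X ^ 2 * w + 14 * Z * X ^ 2
      - 32 * Z * X * w ^ 7 - 8 * Z * X * w ^ 6 * e - 120 * Z * X * w ^ 6 - 2 * Z * X * w ^ 5 * e ^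
      2 - 26 * Z * X * w ^ 5 * e - 190 * Z * X * w ^ 5 - 6 * Z * X * w ^ 4 * e ^ 3 + 44 * Z * X *
      w ^ 4 * e ^ 2 - 34 * Z * X * w ^ 4 * e - 160 * Z * X * w ^ 4 - 18 * Z * X * w ^ 3 * e ^ 3 -
      34 * Z * X * w ^ 3 * e - 57 * Z * X * w ^ 3 + 3 * Z * X * w ^ 2 * e + 15 * Z * X * w ^ 2 + 9
      * Z * X * w * e + 22 * Z * X * w - 64 * Z * w ^ 8 - 16 * Z * w ^ 7 * e - 192 * Z * w ^ 7 - 4
      * Z * w ^ 6 * e ^ 2 - 40 * Z * w ^ 6 * e - 316 * Z * w ^ 6 - Z * w ^ 5 * e ^ 3 - 8 * Z * w ^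
      5 * e ^ 2 - 58 * Z * w ^ 5 * e - 308 * Z * w ^ 5 - 6 * Z * w ^ 4 * e ^ 3 + 10 * Z * w ^ 4 *
      e ^ 2 - 46 * Z * w ^ 4 * e - 182 * Z * w ^ 4 - 9 * Z * w ^ 3 * e ^ 3 - 6 * Z * w ^ 3 * e ^ 2
      - 25 * Z * w ^ 3 * e - 56 * Z * w ^ 3 + Z * w ^ 2 + 3 * Z * w) * he + (11 * X * w ^ 4 * e ^
      3 - 3 * X * w ^ 3 * e ^ 4 + 4 * X * w ^ 3 * e ^ 3 - X * w * e + 5 * X * w - 14 * X * e + X -
      w ^ 4 * e ^ 4 + 9 * w ^ 4 * e ^ 3 - 3 * w ^ 3 * e ^ 4 + 2 * w ^ 3 * e ^ 3 - 1) * hZ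

theorem w5_U1_3 : ∀ k, k < 4 → w5G w e X Z i 3 (k + 1) =
      (1 - (1 - w5L w e X Z i k)) * (w5t w e 3 * w5G w e X Z i 3 k) +
        (1 - w5L w e X Z i k) * (w5t w e 3 ^ k * w5H w e X Z i 3 k) := by
  intro k hk
  interval_cases k <;> simp only [w5t, w5G, w5H, w5L, w5M, sq5]
  · linear_combination (4 * X * e) * hw + (X * w) * he
  · linear_combination (96 * i * X * w ^ 2 * e + 280 * i * X * w * e + 24 * i * X * w + 114 * i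
      * X * e + 58 * i * X - 24 * i * w * e + 2 * i * e - 6 * i) * hw + (24 * i * X * w ^ 3 + 6 *
      i * X * w ^ 2 * e + 82 * i * X * w ^ 2 + 5 * i * X * w * e + 76 * i * X * w + i * X * e + 46
      * i * X - 6 * i * w ^ 2 - 12 * i * w * e - 6 * i * w - 4 * i * e - 12 * i) * he + (X * w * e
      ^ 2 + 17 * X * w * e - X * w - 4 * X * e ^ 2 + 13 * X * e - 2 * X + 14 * w * e - 4 * e ^ 2 +
      7 * e - 1) * hi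
  · linear_combination (-16 * X * w ^ 2 * e - 36 * X * w * e - 4 * X * w - 17 * X * e - 7 * X +
      64 * w ^ 3 * e + 80 * w ^ 2 * e + 16 * w ^ 2 + 64 * w * e + 12 * w + 19 * e + 9) * hw + (-4
      * X * w ^ 3 - X * w ^ 2 * e - 11 * X * w ^ 2 - 3 * X * w * e ^ 2 + 3 * X * w * e - 11 * X *
      w - 3 * X * e ^ 2 - 5 * X * e - 10 * X + 16 * w ^ 4 + 4 * w ^ 3 * e + 28 * w ^ 3 + w ^ 2 * e
      ^ 2 + 5 * w ^ 2 * e + 37 * w ^ 2 - w * e ^ 2 + 11 * w * e + 21 * w - 2 * e ^ 2 + e + 8) * he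
  · linear_combination (512 * Z * X ^ 2 * w ^ 3 * e + 1792 * Z * X ^ 2 * w ^ 2 * e + 128 * Z * X
      ^ 2 * w ^ 2 + 1848 * Z * X ^ 2 * w * e + 384 * Z * X ^ 2 * w + 654 * Z * X ^ 2 * e + 262 * Z
      * X ^ 2 + 2048 * Z * X * w ^ 4 * e + 4992 * Z * X * w ^ 3 * e + 512 * Z * X * w ^ 3 + 6592 *
      Z * X * w ^ 2 * e + 992 * Z * X * w ^ 2 + 4544 * Z * X * w * e + 1120 * Z * X * w + 1260 * Z
      * X * e + 530 * Z * X + 1536 * Z * w ^ 4 * e + 3456 * Z * w ^ 3 * e + 384 * Z * w ^ 3 + 4000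
      * Z * w ^ 2 * e + 672 * Z * w ^ 2 + 2432 * Z * w * e + 640 * Z * w + 610 * Z * e + 258 * Z)
      * hw + (128 * Z * X ^ 2 * w ^ 4 + 32 * Z * X ^ 2 * w ^ 3 * e + 512 * Z * X ^ 2 * w ^ 3 + 8 *
      Z * X ^ 2 * w ^ 2 * e ^ 2 + 112 * Z * X ^ 2 * w ^ 2 * e + 774 * Z * X ^ 2 * w ^ 2 + 24 * Z *
      X ^ 2 * w * e ^ 3 + 20 * Z * X ^ 2 * w * e ^ 2 + 157 * Z * X ^ 2 * w * e + 661 * Z * X ^ 2 *
      w + 12 * Z * X ^ 2 * e ^ 3 + 71 * Z * X ^ 2 * e ^ 2 + 86 * Z * X ^ 2 * e + 265 * Z * X ^ 2 +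
      512 * Z * X * w ^ 5 + 128 * Z * X * w ^ 4 * e + 1504 * Z * X * w ^ 4 + 32 * Z * X * w ^ 3 *
      e ^ 2 + 312 * Z * X * w ^ 3 * e + 2624 * Z * X * w ^ 3 + 8 * Z * X * w ^ 2 * e ^ 3 + 62 * Z
      * X * w ^ 2 * e ^ 2 + 492 * Z * X * w ^ 2 * e + 2642 * Z * X * w ^ 2 + 46 * Z * X * w * e ^
      3 + 88 * Z * X * w * e ^ 2 + 417 * Z * X * w * e + 1655 * Z * X * w + 21 * Z * X * e ^ 3 +
      133 * Z * X * e ^ 2 + 193 * Z * X * e + 528 * Z * X + 384 * Z * w ^ 5 + 96 * Z * w ^ 4 * e +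
      1056 * Z * w ^ 4 + 24 * Z * w ^ 3 * e ^ 2 + 216 * Z * w ^ 3 * e + 1696 * Z * w ^ 3 + 6 * Z *
      w ^ 2 * e ^ 3 + 42 * Z * w ^ 2 * e ^ 2 + 310 * Z * w ^ 2 * e + 1570 * Z * w ^ 2 + 21 * Z * w
      * e ^ 3 + 55 * Z * w * e ^ 2 + 227 * Z * w * e + 898 * Z * w + 9 * Z * e ^ 3 + 60 * Z * e ^
      2 + 97 * Z * e + 257 * Z) * he + (8 * X * w * e ^ 4 - X * w * e + 5 * X * w + 4 * X * e ^ 4
      + 21 * X * e ^ 3 - 14 * X * e + X + 6 * w * e ^ 4 + 3 * e ^ 4 + 16 * e ^ 3 - 1) * hZ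

theorem w5_U1_4 : ∀ k, k < 4 → w5G w e X Z i 4 (k + 1) =
      (1 - (1 - w5L w e X Z i k)) * (w5t w e 4 * w5G w e X Z i 4 k) +
        (1 - w5L w e X Z i k) * (w5t w e 4 ^ k * w5H w e X Z i 4 k) := by
  intro k hk
  interval_cases k <;> simp only [w5t, w5G, w5H, w5L, w5M, sq5]
  · linear_combination (-16 * X * w ^ 3 * e - 4 * X * w ^ 2 + 15 * X * w * e + 2 * X * w - 13 *
      X * e + 3 * X) * hw + (-4 * X * w ^ 4 - X * w ^ 3 * e - 2 * X * w ^ 3 + X * w ^ 2) * he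
  · linear_combination (-384 * i * X * w ^ 5 * e + 1568 * i * X * w ^ 4 * e - 96 * i * X * w ^ 4
      + 1600 * i * X * w ^ 3 * e + 440 * i * X * w ^ 3 + 518 * i * X * w ^ 2 * e + 186 * i * X * w
      ^ 2 + 84 * i * X * w * e + 6 * i * X * w - 78 * i * X * e + 24 * i * X - 192 * i * w ^ 4 * e
      - 224 * i * w ^ 3 * e - 48 * i * w ^ 3 - 100 * i * w ^ 2 * e - 32 * i * w ^ 2 - 6 * i * w +
      6 * i) * hw + (-96 * i * X * w ^ 6 - 24 * i * X * w ^ 5 * e + 344 * i * X * w ^ 5 - 6 * i *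
      X * w ^ 4 * e ^ 2 + 98 * i * X * w ^ 4 * e + 530 * i * X * w ^ 4 - 5 * i * X * w ^ 3 * e ^ 2
      + 74 * i * X * w ^ 3 * e + 632 * i * X * w ^ 3 - i * X * w ^ 2 * e ^ 2 + 92 * i * X * w ^ 2
      * e + 216 * i * X * w ^ 2 - 48 * i * w ^ 5 - 12 * i * w ^ 4 * e - 80 * i * w ^ 4 - 33 * i *
      w ^ 3 * e ^ 2 - 24 * i * w ^ 3 * e - 86 * i * w ^ 3 - 11 * i * w ^ 2 * e ^ 2 - 36 * i * w ^
      2 * e - 32 * i * w ^ 2) * he + (-X * w ^ 3 * e ^ 3 + 49 * X * w ^ 3 * e ^ 2 - 14 * X * w ^ 2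
      * e ^ 3 + 23 * X * w ^ 2 * e ^ 2 - X * w * e - 5 * X * w + 13 * X * e - 4 * X + 40 * w ^ 3 *
      e ^ 2 - 11 * w ^ 2 * e ^ 3 + 20 * w ^ 2 * e ^ 2 - 1) * hi
  · linear_combination (-1024 * X * w ^ 9 * e - 3840 * X * w ^ 8 * e - 256 * X * w ^ 8 - 5504 *
      X * w ^ 7 * e - 832 * X * w ^ 7 - 4592 * X * w ^ 6 * e - 944 * X * w ^ 6 - 2252 * X * w ^ 5
      * e - 632 * X * w ^ 5 + 233 * X * w ^ 4 * e - 211 * X * w ^ 4 + 740 * X * w ^ 3 * e + 183 *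
      X * w ^ 3 + 249 * X * w ^ 2 * e + 96 * X * w ^ 2 + 14 * X * w * e + X * w - 13 * X * e + 4 *
      X - 1024 * w ^ 8 * e - 2048 * w ^ 7 * e - 256 * w ^ 7 - 2176 * w ^ 6 * e - 384 * w ^ 6 -
      1184 * w ^ 5 * e - 336 * w ^ 5 - 268 * w ^ 4 * e - 112 * w ^ 4 - 16 * w ^ 3 * e + w ^ 3 - 9
      * w ^ 2 * e - 4 * w ^ 2 - w + 1) * hw + (-256 * X * w ^ 10 - 64 * X * w ^ 9 * e - 1088 * X *
      w ^ 9 - 16 * X * w ^ 8 * e ^ 2 - 240 * X * w ^ 8 * e - 2032 * X * w ^ 8 - 4 * X * w ^ 7 * e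
      ^ 3 - 52 * X * w ^ 7 * e ^ 2 - 384 * X * w ^ 7 * e - 2408 * X * w ^ 7 - X * w ^ 6 * e ^ 4 -
      11 * X * w ^ 6 * e ^ 3 - 69 * X * w ^ 6 * e ^ 2 - 397 * X * w ^ 6 * e - 1787 * X * w ^ 6 -
      15 * X * w ^ 5 * e ^ 4 + 13 * X * w ^ 5 * e ^ 3 - 62 * X * w ^ 5 * e ^ 2 - 231 * X * w ^ 5 *
      e - 660 * X * w ^ 5 - 14 * X * w ^ 4 * e ^ 4 - 19 * X * w ^ 4 * e ^ 3 - 30 * X * w ^ 4 * e ^
      2 - 34 * X * w ^ 4 * e + 68 * X * w ^ 4 + 12 * X * w ^ 3 * e ^ 2 + 39 * X * w ^ 3 * e + 280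
      * X * w ^ 3 + 13 * X * w ^ 2 * e ^ 2 + 48 * X * w ^ 2 * e + 101 * X * w ^ 2 - 256 * w ^ 9 -
      64 * w ^ 8 * e - 640 * w ^ 8 - 16 * w ^ 7 * e ^ 2 - 128 * w ^ 7 * e - 976 * w ^ 7 - 4 * w ^
      6 * e ^ 3 - 24 * w ^ 6 * e ^ 2 - 176 * w ^ 6 * e - 832 * w ^ 6 - 11 * w ^ 5 * e ^ 4 + 16 * w
      ^ 5 * e ^ 3 - 31 * w ^ 5 * e ^ 2 - 114 * w ^ 5 * e - 447 * w ^ 5 - 11 * w ^ 4 * e ^ 4 - 13 *
      w ^ 4 * e ^ 3 - 17 * w ^ 4 * e ^ 2 - 47 * w ^ 4 * e - 115 * w ^ 4 - w ^ 3 * e - 4 * w ^ 3 -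
      w ^ 2 * e - 4 * w ^ 2) * he
  · linear_combination (-4096 * Z * X ^ 2 * w ^ 12 * e - 23552 * Z * X ^ 2 * w ^ 11 * e - 1024 *
      Z * X ^ 2 * w ^ 11 - 54016 * Z * X ^ 2 * w ^ 10 * e - 5376 * Z * X ^ 2 * w ^ 10 - 63744 * Z
      * X ^ 2 * w ^ 9 * e - 10752 * Z * X ^ 2 * w ^ 9 - 41824 * Z * X ^ 2 * w ^ 8 * e - 10256 * Z
      * X ^ 2 * w ^ 8 - 15908 * Z * X ^ 2 * w ^ 7 * e - 4812 * Z * X ^ 2 * w ^ 7 - 2871 * Z * X ^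
      2 * w ^ 6 * e - 1205 * Z * X ^ 2 * w ^ 6 + 598 * Z * X ^ 2 * w ^ 5 * e - 21 * Z * X ^ 2 * w
      ^ 5 + 1054 * Z * X ^ 2 * w ^ 4 * e + 178 * Z * X ^ 2 * w ^ 4 + 1192 * Z * X ^ 2 * w ^ 3 * e
      + 167 * Z * X ^ 2 * w ^ 3 + 1081 * Z * X ^ 2 * w ^ 2 * e + 206 * Z * X ^ 2 * w ^ 2 - 297 * Z
      * X ^ 2 * w * e + 162 * Z * X ^ 2 * w - 297 * Z * X ^ 2 * e - 162 * Z * X ^ 2 - 16384 * Z *
      X * w ^ 13 * e - 81920 * Z * X * w ^ 12 * e - 4096 * Z * X * w ^ 12 - 179200 * Z * X * w ^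
      11 * e - 18432 * Z * X * w ^ 11 - 238592 * Z * X * w ^ 10 * e - 35328 * Z * X * w ^ 10 -
      208000 * Z * X * w ^ 9 * e - 40960 * Z * X * w ^ 9 - 116096 * Z * X * w ^ 8 * e - 29840 * Z
      * X * w ^ 8 - 37660 * Z * X * w ^ 7 * e - 12440 * Z * X * w ^ 7 - 5348 * Z * X * w ^ 6 * e -
      2238 * Z * X * w ^ 6 - 171 * Z * X * w ^ 5 * e + 18 * Z * X * w ^ 5 + 676 * Z * X * w ^ 4 *
      e - 55 * Z * X * w ^ 4 + 947 * Z * X * w ^ 3 * e + 197 * Z * X * w ^ 3 + 331 * Z * X * w ^ 2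
      * e + 142 * Z * X * w ^ 2 + Z * X * w * e - 3 * Z * X * w + Z * X * e + 3 * Z * X - 16384 *
      Z * w ^ 12 * e - 53248 * Z * w ^ 11 * e - 4096 * Z * w ^ 11 - 86016 * Z * w ^ 10 * e - 11264
      * Z * w ^ 10 - 83200 * Z * w ^ 9 * e - 15616 * Z * w ^ 9 - 49024 * Z * w ^ 8 * e - 12416 * Z
      * w ^ 8 - 16384 * Z * w ^ 7 * e - 5376 * Z * w ^ 7 - 2408 * Z * w ^ 6 * e - 996 * Z * w ^ 6
      - Z * w ^ 5 * e - Z * w ^ 5 + 3 * Z * w ^ 4 * e - 18 * Z * w ^ 3 * e + Z * w ^ 3 - 13 * Z *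
      w ^ 2 * e - 5 * Z * w ^ 2 - Z * w + Z) * hw + (-1024 * Z * X ^ 2 * w ^ 13 - 256 * Z * X ^ 2
      * w ^ 12 * e - 6400 * Z * X ^ 2 * w ^ 12 - 64 * Z * X ^ 2 * w ^ 11 * e ^ 2 - 1472 * Z * X ^
      2 * w ^ 11 * e - 17152 * Z * X ^ 2 * w ^ 11 - 16 * Z * X ^ 2 * w ^ 10 * e ^ 3 - 336 * Z * X
      ^ 2 * w ^ 10 * e ^ 2 - 3536 * Z * X ^ 2 * w ^ 10 * e - 26384 * Z * X ^ 2 * w ^ 10 - 4 * Z *
      X ^ 2 * w ^ 9 * e ^ 4 - 76 * Z * X ^ 2 * w ^ 9 * e ^ 3 - 712 * Z * X ^ 2 * w ^ 9 * e ^ 2 -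
      4744 * Z * X ^ 2 * w ^ 9 * e - 25820 * Z * X ^ 2 * w ^ 9 - Z * X ^ 2 * w ^ 8 * e ^ 5 - 17 *
      Z * X ^ 2 * w ^ 8 * e ^ 4 - 139 * Z * X ^ 2 * w ^ 8 * e ^ 3 - 811 * Z * X ^ 2 * w ^ 8 * e ^
      2 - 3905 * Z * X ^ 2 * w ^ 8 * e - 16273 * Z * X ^ 2 * w ^ 8 - 3 * Z * X ^ 2 * w ^ 7 * e ^ 6
      + 131 * Z * X ^ 2 * w ^ 7 * e ^ 5 - 26 * Z * X ^ 2 * w ^ 7 * e ^ 4 - 129 * Z * X ^ 2 * w ^ 7
      * e ^ 3 - 536 * Z * X ^ 2 * w ^ 7 * e ^ 2 - 1913 * Z * X ^ 2 * w ^ 7 * e - 6038 * Z * X ^ 2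
      * w ^ 7 - 42 * Z * X ^ 2 * w ^ 6 * e ^ 6 + 41 * Z * X ^ 2 * w ^ 6 * e ^ 5 - 52 * Z * X ^ 2 *
      w ^ 6 * e ^ 4 - 63 * Z * X ^ 2 * w ^ 6 * e ^ 3 - 178 * Z * X ^ 2 * w ^ 6 * e ^ 2 - 419 * Z *
      X ^ 2 * w ^ 6 * e - 1048 * Z * X ^ 2 * w ^ 6 - 8 * Z * X ^ 2 * w ^ 5 * e + 324 * Z * X ^ 2 *
      w ^ 5 - 2 * Z * X ^ 2 * w ^ 4 * e ^ 2 + 85 * Z * X ^ 2 * w ^ 4 * e + 551 * Z * X ^ 2 * w ^ 4
      + 22 * Z * X ^ 2 * w ^ 3 * e ^ 2 + 82 * Z * X ^ 2 * w ^ 3 * e + 535 * Z * X ^ 2 * w ^ 3 + 52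
      * Z * X ^ 2 * w ^ 2 * e ^ 2 + 75 * Z * X ^ 2 * w ^ 2 * e + 206 * Z * X ^ 2 * w ^ 2 - 4096 *
      Z * X * w ^ 14 - 1024 * Z * X * w ^ 13 * e - 22528 * Z * X * w ^ 13 - 256 * Z * X * w ^ 12 *
      e ^ 2 - 5120 * Z * X * w ^ 12 * e - 57856 * Z * X * w ^ 12 - 64 * Z * X * w ^ 11 * e ^ 3 -
      1152 * Z * X * w ^ 11 * e ^ 2 - 11840 * Z * X * w ^ 11 * e - 94720 * Z * X * w ^ 11 - 16 * Z
      * X * w ^ 10 * e ^ 4 - 256 * Z * X * w ^ 10 * e ^ 3 - 2368 * Z * X * w ^ 10 * e ^ 2 - 17472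
      * Z * X * w ^ 10 * e - 106128 * Z * X * w ^ 10 - 4 * Z * X * w ^ 9 * e ^ 5 - 56 * Z * X * w
      ^ 9 * e ^ 4 - 460 * Z * X * w ^ 9 * e ^ 3 - 3120 * Z * X * w ^ 9 * e ^ 2 - 17204 * Z * X * w
      ^ 9 * e - 83240 * Z * X * w ^ 9 - Z * X * w ^ 8 * e ^ 6 - 12 * Z * X * w ^ 8 * e ^ 5 - 86 *
      Z * X * w ^ 8 * e ^ 4 - 536 * Z * X * w ^ 8 * e ^ 3 - 2626 * Z * X * w ^ 8 * e ^ 2 - 11428 *
      Z * X * w ^ 8 * e - 44518 * Z * X * w ^ 8 - 17 * Z * X * w ^ 7 * e ^ 6 + 205 * Z * X * w ^ 7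
      * e ^ 5 - 88 * Z * X * w ^ 7 * e ^ 4 - 367 * Z * X * w ^ 7 * e ^ 3 - 1410 * Z * X * w ^ 7 *
      e ^ 2 - 4759 * Z * X * w ^ 7 * e - 14660 * Z * X * w ^ 7 - 75 * Z * X * w ^ 6 * e ^ 6 + 51 *
      Z * X * w ^ 6 * e ^ 5 - 99 * Z * X * w ^ 6 * e ^ 4 - 147 * Z * X * w ^ 6 * e ^ 3 - 393 * Z *
      X * w ^ 6 * e ^ 2 - 933 * Z * X * w ^ 6 * e - 2275 * Z * X * w ^ 6 - 4 * Z * X * w ^ 5 * e +
      160 * Z * X * w ^ 5 - Z * X * w ^ 4 * e ^ 2 + 42 * Z * X * w ^ 4 * e + 284 * Z * X * w ^ 4 +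
      10 * Z * X * w ^ 3 * e ^ 2 + 39 * Z * X * w ^ 3 * e + 336 * Z * X * w ^ 3 + 39 * Z * X * w ^
      2 * e ^ 2 + 49 * Z * X * w ^ 2 * e + 142 * Z * X * w ^ 2 - 4096 * Z * w ^ 13 - 1024 * Z * w
      ^ 12 * e - 15360 * Z * w ^ 12 - 256 * Z * w ^ 11 * e ^ 2 - 3328 * Z * w ^ 11 * e - 30976 * Z
      * w ^ 11 - 64 * Z * w ^ 10 * e ^ 3 - 704 * Z * w ^ 10 * e ^ 2 - 6016 * Z * w ^ 10 * e -
      39296 * Z * w ^ 10 - 16 * Z * w ^ 9 * e ^ 4 - 144 * Z * w ^ 9 * e ^ 3 - 1136 * Z * w ^ 9 * e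
      ^ 2 - 6640 * Z * w ^ 9 * e - 33408 * Z * w ^ 9 - 4 * Z * w ^ 8 * e ^ 5 - 28 * Z * w ^ 8 * e
      ^ 4 - 208 * Z * w ^ 8 * e ^ 3 - 1056 * Z * w ^ 8 * e ^ 2 - 4748 * Z * w ^ 8 * e - 18788 * Z
      * w ^ 8 - 11 * Z * w ^ 7 * e ^ 6 + 85 * Z * w ^ 7 * e ^ 5 - 37 * Z * w ^ 7 * e ^ 4 - 153 * Z
      * w ^ 7 * e ^ 3 - 607 * Z * w ^ 7 * e ^ 2 - 2059 * Z * w ^ 7 * e - 6373 * Z * w ^ 7 - 33 * Z
      * w ^ 6 * e ^ 6 + 16 * Z * w ^ 6 * e ^ 5 - 41 * Z * w ^ 6 * e ^ 4 - 66 * Z * w ^ 6 * e ^ 3 -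
      173 * Z * w ^ 6 * e ^ 2 - 412 * Z * w ^ 6 * e - 997 * Z * w ^ 6 - 4 * Z * w ^ 4 - Z * w ^ 3
      * e - 5 * Z * w ^ 3 - 3 * Z * w ^ 2 * e - 5 * Z * w ^ 2) * he + (-X * w ^ 7 * e ^ 7 + 49 * X
      * w ^ 7 * e ^ 6 - 14 * X * w ^ 6 * e ^ 7 + 23 * X * w ^ 6 * e ^ 6 + 40 * w ^ 7 * e ^ 6 - 11
      * w ^ 6 * e ^ 7 + 20 * w ^ 6 * e ^ 6) * hZ

theorem w5_U2_0 : ∀ k, k < 4 → w5t w e 0 ^ (k + 1) * w5H w e X Z i 0 (k + 1) =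
      (1 - w5M w e X Z i k) * (w5t w e 0 * w5G w e X Z i 0 k) +
        w5M w e X Z i k * (w5t w e 0 ^ k * w5H w e X Z i 0 k) := by
  intro k hk
  interval_cases k <;> simp only [w5t, w5G, w5H, w5L, w5M, sq5]
  · ring
  · ring
  · ring
  · ring

theorem w5_U2_1 : ∀ k, k < 4 → w5t w e 1 ^ (k + 1) * w5H w e X Z i 1 (k + 1) =
      (1 - w5M w e X Z i k) * (w5t w e 1 * w5G w e X Z i 1 k) +
        w5M w e X Z i k * (w5t w e 1 ^ k * w5H w e X Z i 1 k) := by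
  intro k hk
  interval_cases k <;> simp only [w5t, w5G, w5H, w5L, w5M, sq5]
  · linear_combination (120 * i * X * w * e + 120 * i * X * e + 30 * i * X + 104 * i * w * e +
      102 * i * e + 26 * i) * hw + (30 * i * X * w ^ 2 + 42 * i * X * w + 12 * i * X + 26 * i * w
      ^ 2 + 36 * i * w + 10 * i) * he + (-5 * X * w ^ 2 * e ^ 2 - 2 * X * w ^ 2 * e - 7 * X * w *
      e ^ 2 - 18 * X * w * e + 2 * X * w - 2 * X * e ^ 2 - 16 * X * e - 3 * X - 6 * w ^ 2 * e ^ 2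
      - 9 * w * e ^ 2 - 15 * w * e - 3 * e ^ 2 - 15 * e) * hi
  · linear_combination (384 * i * X * w ^ 3 * e + 744 * i * X * w ^ 2 * e + 96 * i * X * w ^ 2 +
      468 * i * X * w * e + 138 * i * X * w + 108 * i * X * e + 42 * i * X + 192 * i * w ^ 3 * e +
      384 * i * w ^ 2 * e + 48 * i * w ^ 2 + 252 * i * w * e + 72 * i * w + 60 * i * e + 24 * i) *
      hw + (96 * i * X * w ^ 4 + 24 * i * X * w ^ 3 * e + 234 * i * X * w ^ 3 + 66 * i * X * w ^ 2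
      * e + 276 * i * X * w ^ 2 + 66 * i * X * w * e + 180 * i * X * w + 24 * i * X * e + 42 * i *
      X + 48 * i * w ^ 4 + 12 * i * w ^ 3 * e + 120 * i * w ^ 3 + 39 * i * w ^ 2 * e + 144 * i * w
      ^ 2 + 45 * i * w * e + 96 * i * w + 18 * i * e + 24 * i) * he + (2 * X * w ^ 3 * e ^ 3 + 11
      * X * w ^ 3 * e ^ 2 + 2 * X * w ^ 2 * e ^ 3 + 26 * X * w ^ 2 * e ^ 2 - 2 * X * w * e ^ 3 +
      22 * X * w * e ^ 2 - 2 * X * e ^ 3 + 7 * X * e ^ 2 + w ^ 3 * e ^ 3 + 9 * w ^ 3 * e ^ 2 + 25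
      * w ^ 2 * e ^ 2 - 3 * w * e ^ 3 + 23 * w * e ^ 2 + w * e - 2 * e ^ 3 + 7 * e ^ 2 + e) * hi
  · linear_combination (-192 * X * w ^ 5 * e - 640 * X * w ^ 4 * e - 48 * X * w ^ 4 - 840 * X *
      w ^ 3 * e - 136 * X * w ^ 3 - 570 * X * w ^ 2 * e - 139 * X * w ^ 2 - 212 * X * w * e - 66 *
      X * w - 34 * X * e - 15 * X - 64 * w ^ 5 * e - 208 * w ^ 4 * e - 16 * w ^ 4 - 280 * w ^ 3 *
      e - 44 * w ^ 3 - 203 * w ^ 2 * e - 47 * w ^ 2 - 81 * w * e - 25 * w - 14 * e - 6) * hw +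
      (-48 * X * w ^ 6 - 12 * X * w ^ 5 * e - 184 * X * w ^ 5 - 3 * X * w ^ 4 * e ^ 2 - 40 * X * w
      ^ 4 * e - 323 * X * w ^ 4 - 10 * X * w ^ 3 * e ^ 2 - 60 * X * w ^ 3 * e - 341 * X * w ^ 3 -
      16 * X * w ^ 2 * e ^ 2 - 53 * X * w ^ 2 * e - 220 * X * w ^ 2 - 14 * X * w * e ^ 2 - 24 * X
      * w * e - 81 * X * w - 5 * X * e ^ 2 - 3 * X * e - 15 * X - 16 * w ^ 6 - 4 * w ^ 5 * e - 60
      * w ^ 5 - w ^ 4 * e ^ 2 - 13 * w ^ 4 * e - 107 * w ^ 4 - 4 * w ^ 3 * e ^ 2 - 20 * w ^ 3 * e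
      - 116 * w ^ 3 - 9 * w ^ 2 * e ^ 2 - 18 * w ^ 2 * e - 78 * w ^ 2 - 10 * w * e ^ 2 - 8 * w * e
      - 31 * w - 4 * e ^ 2 - e - 6) * he
  · linear_combination (-2048 * Z * X ^ 2 * w ^ 9 * e - 10752 * Z * X ^ 2 * w ^ 8 * e - 512 * Z
      * X ^ 2 * w ^ 8 - 22528 * Z * X ^ 2 * w ^ 7 * e - 2432 * Z * X ^ 2 * w ^ 7 - 21856 * Z * X ^
      2 * w ^ 6 * e - 4384 * Z * X ^ 2 * w ^ 6 - 4424 * Z * X ^ 2 * w ^ 5 * e - 3136 * Z * X ^ 2 *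
      w ^ 5 + 12302 * Z * X ^ 2 * w ^ 4 * e + 666 * Z * X ^ 2 * w ^ 4 + 14785 * Z * X ^ 2 * w ^ 3
      * e + 2829 * Z * X ^ 2 * w ^ 3 + 8234 * Z * X ^ 2 * w ^ 2 * e + 2188 * Z * X ^ 2 * w ^ 2 +
      2476 * Z * X ^ 2 * w * e + 834 * Z * X ^ 2 * w + 333 * Z * X ^ 2 * e + 137 * Z * X ^ 2 +
      2048 * Z * X * w ^ 8 * e + 12032 * Z * X * w ^ 7 * e + 512 * Z * X * w ^ 7 + 31936 * Z * X *
      w ^ 6 * e + 2752 * Z * X * w ^ 6 + 50384 * Z * X * w ^ 5 * e + 6576 * Z * X * w ^ 5 + 51728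
      * Z * X * w ^ 4 * e + 9152 * Z * X * w ^ 4 + 35225 * Z * X * w ^ 3 * e + 8025 * Z * X * w ^
      3 + 15438 * Z * X * w ^ 2 * e + 4396 * Z * X * w ^ 2 + 3962 * Z * X * w * e + 1375 * Z * X *
      w + 453 * Z * X * e + 188 * Z * X + 256 * Z * w ^ 6 * e + 1280 * Z * w ^ 5 * e + 64 * Z * w
      ^ 5 + 2640 * Z * w ^ 4 * e + 288 * Z * w ^ 4 + 2880 * Z * w ^ 3 * e + 512 * Z * w ^ 3 + 1759
      * Z * w ^ 2 * e + 448 * Z * w ^ 2 + 573 * Z * w * e + 192 * Z * w + 78 * Z * e + 32 * Z) *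
      hw + (-512 * Z * X ^ 2 * w ^ 10 - 128 * Z * X ^ 2 * w ^ 9 * e - 2944 * Z * X ^ 2 * w ^ 9 -
      32 * Z * X ^ 2 * w ^ 8 * e ^ 2 - 672 * Z * X ^ 2 * w ^ 8 * e - 7328 * Z * X ^ 2 * w ^ 8 - 8
      * Z * X ^ 2 * w ^ 7 * e ^ 3 - 152 * Z * X ^ 2 * w ^ 7 * e ^ 2 - 1488 * Z * X ^ 2 * w ^ 7 * e
      - 9952 * Z * X ^ 2 * w ^ 7 - 2 * Z * X ^ 2 * w ^ 6 * e ^ 4 - 34 * Z * X ^ 2 * w ^ 6 * e ^ 3
      - 294 * Z * X ^ 2 * w ^ 6 * e ^ 2 - 1706 * Z * X ^ 2 * w ^ 6 * e - 6854 * Z * X ^ 2 * w ^ 6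
      + 17 * Z * X ^ 2 * w ^ 5 * e ^ 4 - 56 * Z * X ^ 2 * w ^ 5 * e ^ 3 - 271 * Z * X ^ 2 * w ^ 5
      * e ^ 2 - 787 * Z * X ^ 2 * w ^ 5 * e + 359 * Z * X ^ 2 * w ^ 5 + 101 * Z * X ^ 2 * w ^ 4 *
      e ^ 4 + Z * X ^ 2 * w ^ 4 * e ^ 3 - 43 * Z * X ^ 2 * w ^ 4 * e ^ 2 + 551 * Z * X ^ 2 * w ^ 4
      * e + 5683 * Z * X ^ 2 * w ^ 4 + 194 * Z * X ^ 2 * w ^ 3 * e ^ 4 + 148 * Z * X ^ 2 * w ^ 3 *
      e ^ 3 + 182 * Z * X ^ 2 * w ^ 3 * e ^ 2 + 1156 * Z * X ^ 2 * w ^ 3 * e + 5851 * Z * X ^ 2 *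
      w ^ 3 + 176 * Z * X ^ 2 * w ^ 2 * e ^ 4 + 220 * Z * X ^ 2 * w ^ 2 * e ^ 3 + 208 * Z * X ^ 2
      * w ^ 2 * e ^ 2 + 839 * Z * X ^ 2 * w ^ 2 * e + 3159 * Z * X ^ 2 * w ^ 2 + 77 * Z * X ^ 2 *
      w * e ^ 4 + 132 * Z * X ^ 2 * w * e ^ 3 + 97 * Z * X ^ 2 * w * e ^ 2 + 320 * Z * X ^ 2 * w *
      e + 971 * Z * X ^ 2 * w + 13 * Z * X ^ 2 * e ^ 4 + 29 * Z * X ^ 2 * e ^ 3 + 17 * Z * X ^ 2 *
      e ^ 2 + 61 * Z * X ^ 2 * e + 137 * Z * X ^ 2 + 512 * Z * X * w ^ 9 + 128 * Z * X * w ^ 8 * e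
      + 3264 * Z * X * w ^ 8 + 32 * Z * X * w ^ 7 * e ^ 2 + 752 * Z * X * w ^ 7 * e + 9840 * Z * X
      * w ^ 7 + 8 * Z * X * w ^ 6 * e ^ 3 + 172 * Z * X * w ^ 6 * e ^ 2 + 2076 * Z * X * w ^ 6 * e
      + 18480 * Z * X * w ^ 6 + 22 * Z * X * w ^ 5 * e ^ 4 + 39 * Z * X * w ^ 5 * e ^ 3 + 431 * Z
      * X * w ^ 5 * e ^ 2 + 3539 * Z * X * w ^ 5 * e + 23753 * Z * X * w ^ 5 + 99 * Z * X * w ^ 4
      * e ^ 4 + 132 * Z * X * w ^ 4 * e ^ 3 + 663 * Z * X * w ^ 4 * e ^ 2 + 4061 * Z * X * w ^ 4 *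
      e + 21573 * Z * X * w ^ 4 + 176 * Z * X * w ^ 3 * e ^ 4 + 282 * Z * X * w ^ 3 * e ^ 3 + 670
      * Z * X * w ^ 3 * e ^ 2 + 3197 * Z * X * w ^ 3 * e + 13796 * Z * X * w ^ 3 + 154 * Z * X * w
      ^ 2 * e ^ 4 + 324 * Z * X * w ^ 2 * e ^ 3 + 434 * Z * X * w ^ 2 * e ^ 2 + 1683 * Z * X * w ^
      2 * e + 5959 * Z * X * w ^ 2 + 66 * Z * X * w * e ^ 4 + 183 * Z * X * w * e ^ 3 + 163 * Z *
      X * w * e ^ 2 + 540 * Z * X * w * e + 1563 * Z * X * w + 11 * Z * X * e ^ 4 + 40 * Z * X * e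
      ^ 3 + 27 * Z * X * e ^ 2 + 80 * Z * X * e + 188 * Z * X + 64 * Z * w ^ 7 + 16 * Z * w ^ 6 *
      e + 352 * Z * w ^ 6 + 4 * Z * w ^ 5 * e ^ 2 + 80 * Z * w ^ 5 * e + 864 * Z * w ^ 5 + 11 * Z
      * w ^ 4 * e ^ 3 + 18 * Z * w ^ 4 * e ^ 2 + 175 * Z * w ^ 4 * e + 1248 * Z * w ^ 4 + 44 * Z *
      w ^ 3 * e ^ 3 + 32 * Z * w ^ 3 * e ^ 2 + 220 * Z * w ^ 3 * e + 1152 * Z * w ^ 3 + 66 * Z * w
      ^ 2 * e ^ 3 + 28 * Z * w ^ 2 * e ^ 2 + 170 * Z * w ^ 2 * e + 672 * Z * w ^ 2 + 44 * Z * w *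
      e ^ 3 + 12 * Z * w * e ^ 2 + 76 * Z * w * e + 224 * Z * w + 11 * Z * e ^ 3 + 2 * Z * e ^ 2 +
      15 * Z * e + 32 * Z) * he + (X * w ^ 5 * e ^ 5 + 49 * X * w ^ 5 * e ^ 4 - 9 * X * w ^ 4 * e
      ^ 5 + 222 * X * w ^ 4 * e ^ 4 - 46 * X * w ^ 3 * e ^ 5 + 398 * X * w ^ 3 * e ^ 4 - 74 * X *
      w ^ 2 * e ^ 5 + 352 * X * w ^ 2 * e ^ 4 + X * w ^ 2 * e ^ 2 + X * w ^ 2 * e - 51 * X * w * e
      ^ 5 + 153 * X * w * e ^ 4 - 3 * X * w * e ^ 2 + 3 * X * w * e - 13 * X * e ^ 5 + 26 * X * e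
      ^ 4 - 4 * X * e ^ 2 + 2 * X * e + 40 * w ^ 5 * e ^ 4 - 11 * w ^ 4 * e ^ 5 + 180 * w ^ 4 * e
      ^ 4 - 44 * w ^ 3 * e ^ 5 + 320 * w ^ 3 * e ^ 4 - 66 * w ^ 2 * e ^ 5 + 280 * w ^ 2 * e ^ 4 -
      44 * w * e ^ 5 + 120 * w * e ^ 4 + w * e - 11 * e ^ 5 + 20 * e ^ 4 + e) * hZ

theorem w5_U2_2 : ∀ k, k < 4 → w5t w e 2 ^ (k + 1) * w5H w e X Z i 2 (k + 1) =
      (1 - w5M w e X Z i k) * (w5t w e 2 * w5G w e X Z i 2 k) +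
        w5M w e X Z i k * (w5t w e 2 ^ k * w5H w e X Z i 2 k) := by
  intro k hk
  interval_cases k <;> simp only [w5t, w5G, w5H, w5L, w5M, sq5]
  · linear_combination (72 * i * X * w * e + 6 * i * X * e + 18 * i * X + 64 * i * w * e + 8 * i
      * e + 16 * i) * hw + (18 * i * X * w ^ 2 + 30 * i * X * w + 16 * i * w ^ 2 + 26 * i * w) *
      he + (-3 * X * w ^ 2 * e ^ 2 + 13 * X * w ^ 2 * e - 5 * X * w * e ^ 2 - 3 * X * w * e + 2 *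
      X * w - X * e - 3 * X - w ^ 2 * e ^ 2 + 9 * w ^ 2 * e - 3 * w * e ^ 2 + w * e) * hi
  · linear_combination (96 * i * X * w ^ 3 * e + 40 * i * X * w ^ 2 * e + 24 * i * X * w ^ 2 +
      12 * i * X * w * e - 2 * i * X * w + 48 * i * w ^ 3 * e + 64 * i * w ^ 2 * e + 12 * i * w ^
      2 + 32 * i * w * e + 10 * i * w) * hw + (24 * i * X * w ^ 4 + 6 * i * X * w ^ 3 * e + 22 * i
      * X * w ^ 3 + 11 * i * X * w ^ 2 * e + 22 * i * X * w ^ 2 + 4 * i * X * w * e - 2 * i * X *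
      w + 12 * i * w ^ 4 + 3 * i * w ^ 3 * e + 22 * i * w ^ 3 + 11 * i * w ^ 2 * e + 22 * i * w ^
      2 + 6 * i * w * e + 10 * i * w) * he + (X * w ^ 3 * e ^ 3 - 2 * X * w ^ 2 * e ^ 2 - X * w ^
      2 * e + 2 * X * w * e ^ 2 - 2 * X * w * e - w * e) * hi
  · linear_combination (-384 * i * X * w ^ 5 * e - 480 * i * X * w ^ 4 * e - 96 * i * X * w ^ 4
      - 96 * i * X * w ^ 3 * e - 72 * i * X * w ^ 3 + 42 * i * X * w ^ 2 * e + 18 * i * X * w ^ 2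
      + 15 * i * X * w * e + 3 * i * X * w - 384 * i * w ^ 5 * e - 480 * i * w ^ 4 * e - 96 * i *
      w ^ 4 - 144 * i * w ^ 3 * e - 72 * i * w ^ 3 + 6 * i * w ^ 2 * e + 6 * i * w ^ 2 + 6 * i * w
      * e) * hw + (-96 * i * X * w ^ 6 - 24 * i * X * w ^ 5 * e - 168 * i * X * w ^ 5 - 6 * i * X
      * w ^ 4 * e ^ 2 - 30 * i * X * w ^ 4 * e - 150 * i * X * w ^ 4 - 21 * i * X * w ^ 3 * e ^ 2
      - 21 * i * X * w ^ 3 * e - 51 * i * X * w ^ 3 + 3 * i * X * w ^ 2 * e + 21 * i * X * w ^ 2 +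
      3 * i * X * w - 96 * i * w ^ 6 - 24 * i * w ^ 5 * e - 168 * i * w ^ 5 - 6 * i * w ^ 4 * e ^
      2 - 30 * i * w ^ 4 * e - 162 * i * w ^ 4 - 18 * i * w ^ 3 * e ^ 2 - 24 * i * w ^ 3 * e - 66
      * i * w ^ 3 + 6 * i * w ^ 2) * he + (X * w ^ 4 * e ^ 4 - 11 * X * w ^ 4 * e ^ 3 + 3 * X * w
      ^ 3 * e ^ 4 - 5 * X * w ^ 3 * e ^ 3 - X * w ^ 2 * e ^ 2 + w ^ 4 * e ^ 4 - 9 * w ^ 4 * e ^ 3
      + 3 * w ^ 3 * e ^ 4 - 2 * w ^ 3 * e ^ 3 - w ^ 2 * e ^ 2 - w * e) * hi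
  · linear_combination (-2048 * Z * X ^ 2 * w ^ 9 * e - 2560 * Z * X ^ 2 * w ^ 8 * e - 512 * Z *
      X ^ 2 * w ^ 8 - 512 * Z * X ^ 2 * w ^ 7 * e - 384 * Z * X ^ 2 * w ^ 7 + 1888 * Z * X ^ 2 * w
      ^ 6 * e + 96 * Z * X ^ 2 * w ^ 6 + 1496 * Z * X ^ 2 * w ^ 5 * e + 432 * Z * X ^ 2 * w ^ 5 +
      182 * Z * X ^ 2 * w ^ 4 * e + 146 * Z * X ^ 2 * w ^ 4 - 79 * Z * X ^ 2 * w ^ 3 * e - 48 * Z
      * X ^ 2 * w ^ 3 + 96 * Z * X ^ 2 * w ^ 2 * e + 6 * Z * X ^ 2 * w ^ 2 + 58 * Z * X ^ 2 * w *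
      e + 24 * Z * X ^ 2 * w + 2048 * Z * X * w ^ 8 * e + 4352 * Z * X * w ^ 7 * e + 512 * Z * X *
      w ^ 7 + 4480 * Z * X * w ^ 6 * e + 832 * Z * X * w ^ 6 + 2080 * Z * X * w ^ 5 * e + 672 * Z
      * X * w ^ 5 + 264 * Z * X * w ^ 4 * e + 148 * Z * X * w ^ 4 - 96 * Z * X * w ^ 3 * e - 30 *
      Z * X * w ^ 3 + 8 * Z * X * w ^ 2 * e - 6 * Z * X * w ^ 2 + 14 * Z * X * w * e + 6 * Z * X *
      w + 256 * Z * w ^ 6 * e + 256 * Z * w ^ 5 * e + 64 * Z * w ^ 5 + 80 * Z * w ^ 4 * e + 32 * Z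
      * w ^ 4 - Z * w ^ 2 * e + Z * w * e) * hw + (-512 * Z * X ^ 2 * w ^ 10 - 128 * Z * X ^ 2 * w
      ^ 9 * e - 896 * Z * X ^ 2 * w ^ 9 - 32 * Z * X ^ 2 * w ^ 8 * e ^ 2 - 160 * Z * X ^ 2 * w ^ 8
      * e - 800 * Z * X ^ 2 * w ^ 8 - 8 * Z * X ^ 2 * w ^ 7 * e ^ 3 - 24 * Z * X ^ 2 * w ^ 7 * e ^
      2 - 112 * Z * X ^ 2 * w ^ 7 * e + 144 * Z * X ^ 2 * w ^ 7 - 2 * Z * X ^ 2 * w ^ 6 * e ^ 4 -
      2 * Z * X ^ 2 * w ^ 6 * e ^ 3 - 14 * Z * X ^ 2 * w ^ 6 * e ^ 2 + 98 * Z * X ^ 2 * w ^ 6 * e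
      + 674 * Z * X ^ 2 * w ^ 6 + 25 * Z * X ^ 2 * w ^ 5 * e ^ 4 - 2 * Z * X ^ 2 * w ^ 5 * e ^ 3 +
      32 * Z * X ^ 2 * w ^ 5 * e ^ 2 + 123 * Z * X ^ 2 * w ^ 5 * e + 530 * Z * X ^ 2 * w ^ 5 + 13
      * Z * X ^ 2 * w ^ 4 * e ^ 4 + 45 * Z * X ^ 2 * w ^ 4 * e ^ 3 + 18 * Z * X ^ 2 * w ^ 4 * e ^
      2 + 63 * Z * X ^ 2 * w ^ 4 * e + 104 * Z * X ^ 2 * w ^ 4 - 6 * Z * X ^ 2 * w ^ 3 * e ^ 3 + 2
      * Z * X ^ 2 * w ^ 3 * e ^ 2 - 10 * Z * X ^ 2 * w ^ 3 * e - 18 * Z * X ^ 2 * w ^ 3 + 30 * Z *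
      X ^ 2 * w ^ 2 + 9 * Z * X ^ 2 * w * e + 24 * Z * X ^ 2 * w + 512 * Z * X * w ^ 9 + 128 * Z *
      X * w ^ 8 * e + 1344 * Z * X * w ^ 8 + 32 * Z * X * w ^ 7 * e ^ 2 + 272 * Z * X * w ^ 7 * e
      + 2016 * Z * X * w ^ 7 + 8 * Z * X * w ^ 6 * e ^ 3 + 52 * Z * X * w ^ 6 * e ^ 2 + 360 * Z *
      X * w ^ 6 * e + 1652 * Z * X * w ^ 6 + 22 * Z * X * w ^ 5 * e ^ 4 + 9 * Z * X * w ^ 5 * e ^
      3 + 62 * Z * X * w ^ 5 * e ^ 2 + 220 * Z * X * w ^ 5 * e + 790 * Z * X * w ^ 5 + 11 * Z * X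
      * w ^ 4 * e ^ 4 + 52 * Z * X * w ^ 4 * e ^ 3 + 24 * Z * X * w ^ 4 * e ^ 2 + 72 * Z * X * w ^
      4 * e + 112 * Z * X * w ^ 4 - 6 * Z * X * w ^ 3 * e ^ 3 - 2 * Z * X * w ^ 3 * e ^ 2 - 14 * Z
      * X * w ^ 3 * e - 30 * Z * X * w ^ 3 + 6 * Z * X * w + 64 * Z * w ^ 7 + 16 * Z * w ^ 6 * e +
      96 * Z * w ^ 6 + 4 * Z * w ^ 5 * e ^ 2 + 16 * Z * w ^ 5 * e + 96 * Z * w ^ 5 + 11 * Z * w ^
      4 * e ^ 3 + 2 * Z * w ^ 4 * e ^ 2 + 15 * Z * w ^ 4 * e + 32 * Z * w ^ 4) * he + (X * w ^ 5 *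
      e ^ 5 + 49 * X * w ^ 5 * e ^ 4 - 13 * X * w ^ 4 * e ^ 5 + 26 * X * w ^ 4 * e ^ 4 + X * w ^ 2
      * e - 3 * X * w * e ^ 2 - X * w * e + 40 * w ^ 5 * e ^ 4 - 11 * w ^ 4 * e ^ 5 + 20 * w ^ 4 *
      e ^ 4 - w * e) * hZ

theorem w5_U2_3 : ∀ k, k < 4 → w5t w e 3 ^ (k + 1) * w5H w e X Z i 3 (k + 1) =
      (1 - w5M w e X Z i k) * (w5t w e 3 * w5G w e X Z i 3 k) +
        w5M w e X Z i k * (w5t w e 3 ^ k * w5H w e X Z i 3 k) := by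
  intro k hk
  interval_cases k <;> simp only [w5t, w5G, w5H, w5L, w5M, sq5]
  · linear_combination (48 * i * X * e + 40 * i * e) * hw + (12 * i * X * w - 18 * i * X + 10 *
      i * w - 16 * i) * he + (-2 * X * w * e ^ 2 - 16 * X * w * e + 2 * X * w + 3 * X * e ^ 2 - 14
      * X * e - 3 * X - 14 * w * e + 4 * e ^ 2 - 8 * e) * hi
  · linear_combination (96 * i * X * w ^ 2 * e + 296 * i * X * w * e + 24 * i * X * w + 114 * i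
      * X * e + 62 * i * X + 72 * i * w * e + 22 * i * e + 18 * i) * hw + (24 * i * X * w ^ 3 + 6
      * i * X * w ^ 2 * e + 86 * i * X * w ^ 2 + 7 * i * X * w * e + 86 * i * X * w - 16 * i * X *
      e + 62 * i * X + 18 * i * w ^ 2 - 6 * i * w * e + 18 * i * w - 20 * i * e + 18 * i) * he +
      (-12 * X * w * e ^ 2 + X * w * e + 3 * X * e ^ 3 - 12 * X * e ^ 2 - X * e - w * e ^ 3 - 9 *
      w * e ^ 2 + 2 * e ^ 3 - 7 * e ^ 2 - e) * hi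
  · linear_combination (496 * X * w ^ 2 * e + 484 * X * w * e + 124 * X * w + 149 * X * e + 59 *
      X + 64 * w ^ 3 * e + 432 * w ^ 2 * e + 16 * w ^ 2 + 392 * w * e + 100 * w + 117 * e + 47) *
      hw + (124 * X * w ^ 3 + 31 * X * w ^ 2 * e + 183 * X * w ^ 2 + 5 * X * w * e ^ 2 + 30 * X *
      w * e + 183 * X * w + 4 * X * e ^ 2 + 29 * X * e + 59 * X + 16 * w ^ 4 + 4 * w ^ 3 * e + 116
      * w ^ 3 + w ^ 2 * e ^ 2 + 27 * w ^ 2 * e + 163 * w ^ 2 + 4 * w * e ^ 2 + 27 * w * e + 147 *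
      w + 3 * e ^ 2 + 22 * e + 47) * he
  · linear_combination (-2048 * Z * X ^ 2 * w ^ 5 * e - 6656 * Z * X ^ 2 * w ^ 4 * e - 512 * Z *
      X ^ 2 * w ^ 4 - 3072 * Z * X ^ 2 * w ^ 3 * e - 1408 * Z * X ^ 2 * w ^ 3 + 2912 * Z * X ^ 2 *
      w ^ 2 * e - 32 * Z * X ^ 2 * w ^ 2 + 3224 * Z * X ^ 2 * w * e + 816 * Z * X ^ 2 * w + 870 *
      Z * X ^ 2 * e + 362 * Z * X ^ 2 - 1024 * Z * X * w ^ 4 * e + 1920 * Z * X * w ^ 3 * e - 256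
      * Z * X * w ^ 3 + 4864 * Z * X * w ^ 2 * e + 608 * Z * X * w ^ 2 + 3424 * Z * X * w * e +
      928 * Z * X * w + 836 * Z * X * e + 346 * Z * X + 256 * Z * w ^ 2 * e + 256 * Z * w * e + 64
      * Z * w + 80 * Z * e + 32 * Z) * hw + (-512 * Z * X ^ 2 * w ^ 6 - 128 * Z * X ^ 2 * w ^ 5 *
      e - 1920 * Z * X ^ 2 * w ^ 5 - 32 * Z * X ^ 2 * w ^ 4 * e ^ 2 - 416 * Z * X ^ 2 * w ^ 4 * e
      - 1952 * Z * X ^ 2 * w ^ 4 - 8 * Z * X ^ 2 * w ^ 3 * e ^ 3 - 88 * Z * X ^ 2 * w ^ 3 * e ^ 2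
      - 272 * Z * X ^ 2 * w ^ 3 * e - 624 * Z * X ^ 2 * w ^ 3 - 2 * Z * X ^ 2 * w ^ 2 * e ^ 4 - 18
      * Z * X ^ 2 * w ^ 2 * e ^ 3 - 22 * Z * X ^ 2 * w ^ 2 * e ^ 2 + 2 * Z * X ^ 2 * w ^ 2 * e +
      1146 * Z * X ^ 2 * w ^ 2 + 25 * Z * X ^ 2 * w * e ^ 4 + 6 * Z * X ^ 2 * w * e ^ 3 + 16 * Z *
      X ^ 2 * w * e ^ 2 + 293 * Z * X ^ 2 * w * e + 1178 * Z * X ^ 2 * w + 13 * Z * X ^ 2 * e ^ 4
      + 47 * Z * X ^ 2 * e ^ 3 + 63 * Z * X ^ 2 * e ^ 2 + 143 * Z * X ^ 2 * e + 362 * Z * X ^ 2 -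
      256 * Z * X * w ^ 5 - 64 * Z * X * w ^ 4 * e + 352 * Z * X * w ^ 4 - 16 * Z * X * w ^ 3 * e
      ^ 2 + 120 * Z * X * w ^ 3 * e + 1280 * Z * X * w ^ 3 - 4 * Z * X * w ^ 2 * e ^ 3 + 38 * Z *
      X * w ^ 2 * e ^ 2 + 264 * Z * X * w ^ 2 * e + 1882 * Z * X * w ^ 2 + 22 * Z * X * w * e ^ 4
      + 13 * Z * X * w * e ^ 3 + 48 * Z * X * w * e ^ 2 + 329 * Z * X * w * e + 1274 * Z * X * w +
      11 * Z * X * e ^ 4 + 54 * Z * X * e ^ 3 + 59 * Z * X * e ^ 2 + 140 * Z * X * e + 346 * Z * X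
      + 64 * Z * w ^ 3 + 16 * Z * w ^ 2 * e + 96 * Z * w ^ 2 + 4 * Z * w * e ^ 2 + 16 * Z * w * e
      + 96 * Z * w + 11 * Z * e ^ 3 + 2 * Z * e ^ 2 + 15 * Z * e + 32 * Z) * he + (X * w * e ^ 5 +
      49 * X * w * e ^ 4 - 8 * X * w * e ^ 2 - 13 * X * e ^ 5 + 26 * X * e ^ 4 - 4 * X * e ^ 2 - 3
      * X * e + 40 * w * e ^ 4 - 11 * e ^ 5 + 20 * e ^ 4 - e) * hZ

theorem w5_U2_4 : ∀ k, k < 4 → w5t w e 4 ^ (k + 1) * w5H w e X Z i 4 (k + 1) =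
      (1 - w5M w e X Z i k) * (w5t w e 4 * w5G w e X Z i 4 k) +
        w5M w e X Z i k * (w5t w e 4 ^ k * w5H w e X Z i 4 k) := by
  intro k hk
  interval_cases k <;> simp only [w5t, w5G, w5H, w5L, w5M, sq5]
  · linear_combination (-192 * i * X * w ^ 3 * e - 216 * i * X * w ^ 2 * e - 48 * i * X * w ^ 2
      - 30 * i * X * w + 6 * i * X * e + 18 * i * X - 160 * i * w ^ 3 * e - 184 * i * w ^ 2 * e -
      40 * i * w ^ 2 + 2 * i * w * e - 26 * i * w + 8 * i * e + 16 * i) * hw + (-48 * i * X * w ^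
      4 - 12 * i * X * w ^ 3 * e - 78 * i * X * w ^ 3 - 90 * i * X * w ^ 2 * e - 60 * i * X * w ^
      2 - 40 * i * w ^ 4 - 10 * i * w ^ 3 * e - 66 * i * w ^ 3 - 74 * i * w ^ 2 * e - 50 * i * w ^
      2) * he + (2 * X * w ^ 3 * e ^ 3 - 51 * X * w ^ 3 * e ^ 2 + 15 * X * w ^ 2 * e ^ 3 - 20 * X
      * w ^ 2 * e ^ 2 - X * w * e + 2 * X * w - X * e - 3 * X - 40 * w ^ 3 * e ^ 2 + 11 * w ^ 2 *
      e ^ 3 - 19 * w ^ 2 * e ^ 2) * hi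
  · linear_combination (-1536 * i * X * w ^ 7 * e - 4224 * i * X * w ^ 6 * e - 384 * i * X * w ^
      6 - 3168 * i * X * w ^ 5 * e - 864 * i * X * w ^ 5 + 880 * i * X * w ^ 4 * e - 336 * i * X *
      w ^ 4 + 1658 * i * X * w ^ 3 * e + 430 * i * X * w ^ 3 + 508 * i * X * w ^ 2 * e + 198 * i *
      X * w ^ 2 - 1536 * i * w ^ 6 * e - 1536 * i * w ^ 5 * e - 384 * i * w ^ 5 - 672 * i * w ^ 4
      * e - 192 * i * w ^ 4 - 256 * i * w ^ 3 * e - 48 * i * w ^ 3 - 86 * i * w ^ 2 * e - 40 * i *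
      w ^ 2) * hw + (-384 * i * X * w ^ 8 - 96 * i * X * w ^ 7 * e - 1248 * i * X * w ^ 7 - 24 * i
      * X * w ^ 6 * e ^ 2 - 264 * i * X * w ^ 6 * e - 1584 * i * X * w ^ 6 - 6 * i * X * w ^ 5 * e
      ^ 3 - 54 * i * X * w ^ 5 * e ^ 2 - 258 * i * X * w ^ 5 * e - 770 * i * X * w ^ 5 - 84 * i *
      X * w ^ 4 * e ^ 3 - 36 * i * X * w ^ 4 * e ^ 2 - 50 * i * X * w ^ 4 * e + 292 * i * X * w ^
      4 - 7 * i * X * w ^ 3 * e ^ 2 + 118 * i * X * w ^ 3 * e + 628 * i * X * w ^ 3 - 2 * i * X *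
      w ^ 2 * e ^ 2 + 112 * i * X * w ^ 2 * e + 198 * i * X * w ^ 2 - 384 * i * w ^ 7 - 96 * i * w
      ^ 6 * e - 576 * i * w ^ 6 - 24 * i * w ^ 5 * e ^ 2 - 96 * i * w ^ 5 * e - 624 * i * w ^ 5 -
      66 * i * w ^ 4 * e ^ 3 - 12 * i * w ^ 4 * e ^ 2 - 102 * i * w ^ 4 * e - 280 * i * w ^ 4 - 33
      * i * w ^ 3 * e ^ 2 - 6 * i * w ^ 3 * e - 88 * i * w ^ 3 - 22 * i * w ^ 2 * e ^ 2 - 6 * i *
      w ^ 2 * e - 40 * i * w ^ 2) * he + (X * w ^ 5 * e ^ 5 - 49 * X * w ^ 5 * e ^ 4 + 14 * X * w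
      ^ 4 * e ^ 5 - 23 * X * w ^ 4 * e ^ 4 + X * w ^ 3 * e ^ 3 + 5 * X * w ^ 3 * e ^ 2 - 13 * X *
      w ^ 2 * e ^ 3 + 4 * X * w ^ 2 * e ^ 2 - 40 * w ^ 5 * e ^ 4 + 11 * w ^ 4 * e ^ 5 - 20 * w ^ 4
      * e ^ 4 + w ^ 2 * e ^ 2) * hi
  · linear_combination (-4096 * X * w ^ 11 * e - 15360 * X * w ^ 10 * e - 1024 * X * w ^ 10 -
      21248 * X * w ^ 9 * e - 3328 * X * w ^ 9 - 16640 * X * w ^ 8 * e - 3584 * X * w ^ 8 - 8544 *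
      X * w ^ 7 * e - 2192 * X * w ^ 7 - 2500 * X * w ^ 6 * e - 908 * X * w ^ 6 - 23 * X * w ^ 5 *
      e - 109 * X * w ^ 5 + 486 * X * w ^ 4 * e + 71 * X * w ^ 4 + 256 * X * w ^ 3 * e + 80 * X *
      w ^ 3 + 57 * X * w ^ 2 * e + 22 * X * w ^ 2 - 4096 * w ^ 10 * e - 8192 * w ^ 9 * e - 1024 *
      w ^ 9 - 7936 * w ^ 8 * e - 1536 * w ^ 8 - 4352 * w ^ 7 * e - 1152 * w ^ 7 - 1344 * w ^ 6 * e
      - 448 * w ^ 6 - 192 * w ^ 5 * e - 76 * w ^ 5 - 7 * w ^ 4 * e - 2 * w ^ 4 - 7 * w ^ 3 * e - w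
      ^ 3 - 2 * w ^ 2 * e - w ^ 2) * hw + (-1024 * X * w ^ 12 - 256 * X * w ^ 11 * e - 4352 * X *
      w ^ 11 - 64 * X * w ^ 10 * e ^ 2 - 960 * X * w ^ 10 * e - 7936 * X * w ^ 10 - 16 * X * w ^ 9
      * e ^ 3 - 208 * X * w ^ 9 * e ^ 2 - 1488 * X * w ^ 9 * e - 9104 * X * w ^ 9 - 4 * X * w ^ 8
      * e ^ 4 - 44 * X * w ^ 8 * e ^ 3 - 264 * X * w ^ 8 * e ^ 2 - 1480 * X * w ^ 8 * e - 6684 * X
      * w ^ 8 - X * w ^ 7 * e ^ 5 - 9 * X * w ^ 7 * e ^ 4 - 43 * X * w ^ 7 * e ^ 3 - 227 * X * w ^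
      7 * e ^ 2 - 865 * X * w ^ 7 * e - 3209 * X * w ^ 7 - 14 * X * w ^ 6 * e ^ 5 - 6 * X * w ^ 6
      * e ^ 4 - 33 * X * w ^ 6 * e ^ 3 - 92 * X * w ^ 6 * e ^ 2 - 313 * X * w ^ 6 * e - 946 * X *
      w ^ 6 - 14 * X * w ^ 5 * e ^ 4 - 5 * X * w ^ 5 * e ^ 3 - 24 * X * w ^ 5 * e ^ 2 - 57 * X * w
      ^ 5 * e + 42 * X * w ^ 5 - X * w ^ 4 * e ^ 2 + 45 * X * w ^ 4 * e + 173 * X * w ^ 4 + 13 * X
      * w ^ 3 * e ^ 2 + 21 * X * w ^ 3 * e + 102 * X * w ^ 3 + 13 * X * w ^ 2 * e + 22 * X * w ^ 2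
      - 1024 * w ^ 11 - 256 * w ^ 10 * e - 2560 * w ^ 10 - 64 * w ^ 9 * e ^ 2 - 512 * w ^ 9 * e -
      3712 * w ^ 9 - 16 * w ^ 8 * e ^ 3 - 96 * w ^ 8 * e ^ 2 - 656 * w ^ 8 * e - 3136 * w ^ 8 - 4
      * w ^ 7 * e ^ 4 - 16 * w ^ 7 * e ^ 3 - 112 * w ^ 7 * e ^ 2 - 432 * w ^ 7 * e - 1676 * w ^ 7
      - 11 * w ^ 6 * e ^ 5 - 2 * w ^ 6 * e ^ 4 - 19 * w ^ 6 * e ^ 3 - 48 * w ^ 6 * e ^ 2 - 175 * w
      ^ 6 * e - 526 * w ^ 6 - 11 * w ^ 5 * e ^ 4 - 2 * w ^ 5 * e ^ 3 - 15 * w ^ 5 * e ^ 2 - 32 * w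
      ^ 5 * e - 79 * w ^ 5 - 4 * w ^ 4 - w ^ 3 * e - 2 * w ^ 3 - w ^ 2) * he
  · linear_combination (-38928384 * Z * X ^ 2 * w ^ 15 * e - 136249344 * Z * X ^ 2 * w ^ 14 * e
      - 9732096 * Z * X ^ 2 * w ^ 14 - 218718208 * Z * X ^ 2 * w ^ 13 * e - 29196288 * Z * X ^ 2 *
      w ^ 13 - 206143488 * Z * X ^ 2 * w ^ 12 * e - 39473152 * Z * X ^ 2 * w ^ 12 - 122440192 * Z
      * X ^ 2 * w ^ 11 * e - 30278656 * Z * X ^ 2 * w ^ 11 - 45675520 * Z * X ^ 2 * w ^ 10 * e -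
      13801984 * Z * X ^ 2 * w ^ 10 - 9921088 * Z * X ^ 2 * w ^ 9 * e - 3535872 * Z * X ^ 2 * w ^
      9 - 994304 * Z * X ^ 2 * w ^ 8 * e - 404624 * Z * X ^ 2 * w ^ 8 - 13550 * Z * X ^ 2 * w ^ 7
      * e - 4988 * Z * X ^ 2 * w ^ 7 - 2558 * Z * X ^ 2 * w ^ 6 * e - 481 * Z * X ^ 2 * w ^ 6 -
      894 * Z * X ^ 2 * w ^ 5 * e - 318 * Z * X ^ 2 * w ^ 5 + 1138 * Z * X ^ 2 * w ^ 4 * e - 87 *
      Z * X ^ 2 * w ^ 4 + 1536 * Z * X ^ 2 * w ^ 3 * e + 361 * Z * X ^ 2 * w ^ 3 + 465 * Z * X ^ 2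
      * w ^ 2 * e + 193 * Z * X ^ 2 * w ^ 2 - 63569920 * Z * X * w ^ 15 * e - 222494720 * Z * X *
      w ^ 14 * e - 15892480 * Z * X * w ^ 14 - 357179392 * Z * X * w ^ 13 * e - 47677440 * Z * X *
      w ^ 13 - 336678912 * Z * X * w ^ 12 * e - 64462848 * Z * X * w ^ 12 - 199984640 * Z * X * w
      ^ 11 * e - 49455104 * Z * X * w ^ 11 - 74567936 * Z * X * w ^ 10 * e - 22543360 * Z * X * w
      ^ 10 - 16137408 * Z * X * w ^ 9 * e - 5766144 * Z * X * w ^ 9 - 1576032 * Z * X * w ^ 8 * e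
      - 648768 * Z * X * w ^ 8 - 8394 * Z * X * w ^ 7 * e - 2752 * Z * X * w ^ 7 - 1195 * Z * X *
      w ^ 6 * e - 519 * Z * X * w ^ 6 - 104 * Z * X * w ^ 5 * e + 19 * Z * X * w ^ 5 + Z * X * w ^
      4 * e - 38 * Z * X * w ^ 4 + 87 * Z * X * w ^ 3 * e + 19 * Z * X * w ^ 3 + 40 * Z * X * w ^
      2 * e + 15 * Z * X * w ^ 2 - 25952256 * Z * w ^ 15 * e - 90832896 * Z * w ^ 14 * e - 6488064
      * Z * w ^ 14 - 145817600 * Z * w ^ 13 * e - 19464192 * Z * w ^ 13 - 137461760 * Z * w ^ 12 *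
      e - 26316800 * Z * w ^ 12 - 81665024 * Z * w ^ 11 * e - 20193280 * Z * w ^ 11 - 30452224 * Z
      * w ^ 10 * e - 9207040 * Z * w ^ 10 - 6582528 * Z * w ^ 9 * e - 2354432 * Z * w ^ 9 - 635264
      * Z * w ^ 8 * e - 263136 * Z * w ^ 8 + 4 * Z * w ^ 7 * e - 2 * Z * w ^ 6 * e + Z * w ^ 6 - 2
      * Z * w ^ 5 * e - Z * w ^ 5 + 4 * Z * w ^ 4 * e - 2 * Z * w ^ 3 * e + Z * w ^ 3 - 2 * Z * w
      ^ 2 * e - Z * w ^ 2) * hw + (-9732096 * Z * X ^ 2 * w ^ 16 - 2433024 * Z * X ^ 2 * w ^ 15 *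
      e - 38928384 * Z * X ^ 2 * w ^ 15 - 608256 * Z * X ^ 2 * w ^ 14 * e ^ 2 - 8515584 * Z * X ^
      2 * w ^ 14 * e - 78401536 * Z * X ^ 2 * w ^ 14 - 152064 * Z * X ^ 2 * w ^ 13 * e ^ 3 -
      1824768 * Z * X ^ 2 * w ^ 13 * e ^ 2 - 15190528 * Z * X ^ 2 * w ^ 13 * e - 98948096 * Z * X
      ^ 2 * w ^ 13 - 38016 * Z * X ^ 2 * w ^ 12 * e ^ 4 - 380160 * Z * X ^ 2 * w ^ 12 * e ^ 3 -
      2847232 * Z * X ^ 2 * w ^ 12 * e ^ 2 - 16685568 * Z * X ^ 2 * w ^ 12 * e - 83553792 * Z * X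
      ^ 2 * w ^ 12 - 9504 * Z * X ^ 2 * w ^ 11 * e ^ 5 - 76032 * Z * X ^ 2 * w ^ 11 * e ^ 4 -
      512224 * Z * X ^ 2 * w ^ 11 * e ^ 3 - 2652736 * Z * X ^ 2 * w ^ 11 * e ^ 2 - 11833856 * Z *
      X ^ 2 * w ^ 11 * e - 47616512 * Z * X ^ 2 * w ^ 11 - 2376 * Z * X ^ 2 * w ^ 10 * e ^ 6 -
      14256 * Z * X ^ 2 * w ^ 10 * e ^ 5 - 87664 * Z * X ^ 2 * w ^ 10 * e ^ 4 - 388064 * Z * X ^ 2
      * w ^ 10 * e ^ 3 - 1504040 * Z * X ^ 2 * w ^ 10 * e ^ 2 - 5324016 * Z * X ^ 2 * w ^ 10 * e -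
      17742480 * Z * X ^ 2 * w ^ 10 - 594 * Z * X ^ 2 * w ^ 9 * e ^ 7 - 2376 * Z * X ^ 2 * w ^ 9 *
      e ^ 6 - 14194 * Z * X ^ 2 * w ^ 9 * e ^ 5 - 49620 * Z * X ^ 2 * w ^ 9 * e ^ 4 - 160062 * Z *
      X ^ 2 * w ^ 9 * e ^ 3 - 481968 * Z * X ^ 2 * w ^ 9 * e ^ 2 - 1397602 * Z * X ^ 2 * w ^ 9 * e
      - 3945484 * Z * X ^ 2 * w ^ 9 - 297 * Z * X ^ 2 * w ^ 8 * e ^ 7 - 2212 * Z * X ^ 2 * w ^ 8 *
      e ^ 6 - 4714 * Z * X ^ 2 * w ^ 8 * e ^ 5 - 11657 * Z * X ^ 2 * w ^ 8 * e ^ 4 - 28056 * Z * X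
      ^ 2 * w ^ 8 * e ^ 3 - 68401 * Z * X ^ 2 * w ^ 8 * e ^ 2 - 167078 * Z * X ^ 2 * w ^ 8 * e -
      410093 * Z * X ^ 2 * w ^ 8 + 26 * Z * X ^ 2 * w ^ 7 * e ^ 6 + 8 * Z * X ^ 2 * w ^ 7 * e ^ 5
      - 7 * Z * X ^ 2 * w ^ 7 * e ^ 4 - 158 * Z * X ^ 2 * w ^ 7 * e ^ 3 - 555 * Z * X ^ 2 * w ^ 7
      * e ^ 2 - 1884 * Z * X ^ 2 * w ^ 7 * e - 5787 * Z * X ^ 2 * w ^ 7 - 28 * Z * X ^ 2 * w ^ 6 *
      e ^ 6 + 18 * Z * X ^ 2 * w ^ 6 * e ^ 5 - 38 * Z * X ^ 2 * w ^ 6 * e ^ 4 - 58 * Z * X ^ 2 * w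
      ^ 6 * e ^ 3 - 154 * Z * X ^ 2 * w ^ 6 * e ^ 2 - 366 * Z * X ^ 2 * w ^ 6 * e - 886 * Z * X ^
      2 * w ^ 6 - 44 * Z * X ^ 2 * w ^ 5 - 11 * Z * X ^ 2 * w ^ 4 * e + 467 * Z * X ^ 2 * w ^ 4 -
      3 * Z * X ^ 2 * w ^ 3 * e ^ 2 + 121 * Z * X ^ 2 * w ^ 3 * e + 554 * Z * X ^ 2 * w ^ 3 + 39 *
      Z * X ^ 2 * w ^ 2 * e ^ 2 + 79 * Z * X ^ 2 * w ^ 2 * e + 193 * Z * X ^ 2 * w ^ 2 - 15892480
      * Z * X * w ^ 16 - 3973120 * Z * X * w ^ 15 * e - 63569920 * Z * X * w ^ 15 - 993280 * Z * X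
      * w ^ 14 * e ^ 2 - 13905920 * Z * X * w ^ 14 * e - 128032768 * Z * X * w ^ 14 - 248320 * Z *
      X * w ^ 13 * e ^ 3 - 2979840 * Z * X * w ^ 13 * e ^ 2 - 24806912 * Z * X * w ^ 13 * e -
      161595392 * Z * X * w ^ 13 - 62080 * Z * X * w ^ 12 * e ^ 4 - 620800 * Z * X * w ^ 12 * e ^
      3 - 4649728 * Z * X * w ^ 12 * e ^ 2 - 27250432 * Z * X * w ^ 12 * e - 136461312 * Z * X * w
      ^ 12 - 15520 * Z * X * w ^ 11 * e ^ 5 - 124160 * Z * X * w ^ 11 * e ^ 4 - 836512 * Z * X * w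
      ^ 11 * e ^ 3 - 4332544 * Z * X * w ^ 11 * e ^ 2 - 19327680 * Z * X * w ^ 11 * e - 77764608 *
      Z * X * w ^ 11 - 3880 * Z * X * w ^ 10 * e ^ 6 - 23280 * Z * X * w ^ 10 * e ^ 5 - 143168 * Z
      * X * w ^ 10 * e ^ 4 - 633840 * Z * X * w ^ 10 * e ^ 3 - 2456520 * Z * X * w ^ 10 * e ^ 2 -
      8694176 * Z * X * w ^ 10 * e - 28958272 * Z * X * w ^ 10 - 970 * Z * X * w ^ 9 * e ^ 7 -
      3880 * Z * X * w ^ 9 * e ^ 6 - 23182 * Z * X * w ^ 9 * e ^ 5 - 81056 * Z * X * w ^ 9 * e ^ 4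
      - 261418 * Z * X * w ^ 9 * e ^ 3 - 786824 * Z * X * w ^ 9 * e ^ 2 - 2278350 * Z * X * w ^ 9
      * e - 6417664 * Z * X * w ^ 9 - 485 * Z * X * w ^ 8 * e ^ 7 - 3613 * Z * X * w ^ 8 * e ^ 6 -
      7703 * Z * X * w ^ 8 * e ^ 5 - 19031 * Z * X * w ^ 8 * e ^ 4 - 45733 * Z * X * w ^ 8 * e ^ 3
      - 110821 * Z * X * w ^ 8 * e ^ 2 - 268535 * Z * X * w ^ 8 * e - 652039 * Z * X * w ^ 8 + 22
      * Z * X * w ^ 7 * e ^ 6 + 7 * Z * X * w ^ 7 * e ^ 5 + 8 * Z * X * w ^ 7 * e ^ 4 - 81 * Z * X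
      * w ^ 7 * e ^ 3 - 290 * Z * X * w ^ 7 * e ^ 2 - 1037 * Z * X * w ^ 7 * e - 3252 * Z * X * w
      ^ 7 - 22 * Z * X * w ^ 6 * e ^ 6 + 18 * Z * X * w ^ 6 * e ^ 5 - 26 * Z * X * w ^ 6 * e ^ 4 -
      34 * Z * X * w ^ 6 * e ^ 3 - 94 * Z * X * w ^ 6 * e ^ 2 - 222 * Z * X * w ^ 6 * e - 538 * Z
      * X * w ^ 6 - 4 * Z * X * w ^ 4 - Z * X * w ^ 3 * e + 34 * Z * X * w ^ 3 + 10 * Z * X * w ^
      2 * e + 15 * Z * X * w ^ 2 - 6488064 * Z * w ^ 16 - 1622016 * Z * w ^ 15 * e - 25952256 * Z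
      * w ^ 15 - 405504 * Z * w ^ 14 * e ^ 2 - 5677056 * Z * w ^ 14 * e - 52269056 * Z * w ^ 14 -
      101376 * Z * w ^ 13 * e ^ 3 - 1216512 * Z * w ^ 13 * e ^ 2 - 10127360 * Z * w ^ 13 * e -
      65974272 * Z * w ^ 13 - 25344 * Z * w ^ 12 * e ^ 4 - 253440 * Z * w ^ 12 * e ^ 3 - 1898240 *
      Z * w ^ 12 * e ^ 2 - 11125760 * Z * w ^ 12 * e - 55717120 * Z * w ^ 12 - 6336 * Z * w ^ 11 *
      e ^ 5 - 50688 * Z * w ^ 11 * e ^ 4 - 341504 * Z * w ^ 11 * e ^ 3 - 1768960 * Z * w ^ 11 * e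
      ^ 2 - 7891840 * Z * w ^ 11 * e - 31754752 * Z * w ^ 11 - 1584 * Z * w ^ 10 * e ^ 6 - 9504 *
      Z * w ^ 10 * e ^ 5 - 58448 * Z * w ^ 10 * e ^ 4 - 258816 * Z * w ^ 10 * e ^ 3 - 1003104 * Z
      * w ^ 10 * e ^ 2 - 3550528 * Z * w ^ 10 * e - 11824608 * Z * w ^ 10 - 396 * Z * w ^ 9 * e ^
      7 - 1584 * Z * w ^ 9 * e ^ 6 - 9464 * Z * w ^ 9 * e ^ 5 - 33104 * Z * w ^ 9 * e ^ 4 - 106756
      * Z * w ^ 9 * e ^ 3 - 321376 * Z * w ^ 9 * e ^ 2 - 930112 * Z * w ^ 9 * e - 2617568 * Z * w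
      ^ 9 - 198 * Z * w ^ 8 * e ^ 7 - 1475 * Z * w ^ 8 * e ^ 6 - 3148 * Z * w ^ 8 * e ^ 5 - 7771 *
      Z * w ^ 8 * e ^ 4 - 18690 * Z * w ^ 8 * e ^ 3 - 45151 * Z * w ^ 8 * e ^ 2 - 108992 * Z * w ^
      8 * e - 263135 * Z * w ^ 8 - Z * w ^ 2) * he + (X * w ^ 3 * e ^ 3 + 5 * X * w ^ 3 * e ^ 2 -
      13 * X * w ^ 2 * e ^ 3 + 4 * X * w ^ 2 * e ^ 2 + w ^ 2 * e ^ 2) * hZ

theorem w5_V1_0 : ∀ k, k ≤ 4 → w5G w e X Z i 1 k =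
      (1 - (1 - w5Lp w e X Z i 0)) * (w5s w e k * w5G w e X Z i 0 k) +
        (1 - w5Lp w e X Z i 0) * (w5s w e k ^ 0 * w5H w e X Z i 0 k) := by
  intro k hk
  interval_cases k <;> simp only [w5s, w5G, w5H, w5Lp, w5Mp, sq5]
  · ring
  · linear_combination (-4 * X * w * e - 2 * X * e - X) * hw + (-X * w ^ 2 - X * w) * he
  · linear_combination (4 * X * w * e + 6 * X * e + X) * hw + (X * w ^ 2 + 2 * X * w + X) * he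
  · linear_combination (-4 * X * e) * hw + (-X * w - X) * he
  · linear_combination (-16 * X * w ^ 2 * e - 16 * X * w * e - 4 * X * w + 15 * X * e - 2 * X) *
      hw + (-4 * X * w ^ 3 - X * w ^ 2 * e - 6 * X * w ^ 2 - X * w * e - X * w) * he

theorem w5_V1_1 : ∀ k, k ≤ 4 → w5G w e X Z i 2 k =
      (1 - (1 - w5Lp w e X Z i 1)) * (w5s w e k * w5G w e X Z i 1 k) +
        (1 - w5Lp w e X Z i 1) * (w5s w e k ^ 1 * w5H w e X Z i 1 k) := by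
  intro k hk
  interval_cases k <;> simp only [w5s, w5G, w5H, w5Lp, w5Mp, sq5]
  · ring
  · linear_combination (576 * i * X * w ^ 3 * e + 624 * i * X * w ^ 2 * e + 144 * i * X * w ^ 2
      + 252 * i * X * w * e + 84 * i * X * w - 12 * i * X * e + 12 * i * X + 288 * i * w ^ 3 * e +
      312 * i * w ^ 2 * e + 72 * i * w ^ 2 + 126 * i * w * e + 42 * i * w + 6 * i) * hw + (144 * i
      * X * w ^ 4 + 36 * i * X * w ^ 3 * e + 228 * i * X * w ^ 3 + 42 * i * X * w ^ 2 * e + 240 *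
      i * X * w ^ 2 + 12 * i * X * w * e + 90 * i * X * w + 72 * i * w ^ 4 + 18 * i * w ^ 3 * e +
      114 * i * w ^ 3 + 21 * i * w ^ 2 * e + 120 * i * w ^ 2 + 6 * i * w * e + 48 * i * w) * he +
      (6 * X * w ^ 2 * e ^ 2 + 3 * X * w * e ^ 2 + 16 * X * w * e - X * w + 2 * X * e - 2 * X + 6
      * w ^ 2 * e ^ 2 + 3 * w * e ^ 2 + 16 * w * e - 1) * hi
  · linear_combination (192 * i * X * w ^ 3 * e + 520 * i * X * w ^ 2 * e + 48 * i * X * w ^ 2 +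
      482 * i * X * w * e + 106 * i * X * w + 151 * i * X * e + 67 * i * X + 48 * i * w ^ 3 * e +
      88 * i * w ^ 2 * e + 12 * i * w ^ 2 + 66 * i * w * e + 16 * i * w + 26 * i * e + 10 * i) *
      hw + (48 * i * X * w ^ 4 + 12 * i * X * w ^ 3 * e + 154 * i * X * w ^ 3 + 26 * i * X * w ^ 2
      * e + 221 * i * X * w ^ 2 + 18 * i * X * w * e + 173 * i * X * w + 4 * i * X * e + 58 * i *
      X + 12 * i * w ^ 4 + 3 * i * w ^ 3 * e + 28 * i * w ^ 3 - i * w ^ 2 * e + 38 * i * w ^ 2 - 8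
      * i * w * e + 26 * i * w - 4 * i * e + 4 * i) * he + (2 * X * w ^ 2 * e ^ 2 + 11 * X * w ^ 2
      * e + 20 * X * w * e - 2 * X * e ^ 2 + 10 * X * e + w ^ 2 * e ^ 2 + 9 * w ^ 2 * e - w * e ^
      2 + 16 * w * e - 2 * e ^ 2 + 7 * e - 1) * hi
  · linear_combination (-96 * i * X * w ^ 2 * e + 88 * i * X * w * e - 24 * i * X * w + 70 * i *
      X * e + 34 * i * X - 24 * i * w * e - 26 * i * e - 6 * i) * hw + (-24 * i * X * w ^ 3 - 6 *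
      i * X * w ^ 2 * e + 10 * i * X * w ^ 2 - 7 * i * X * w * e + 16 * i * X * w - 2 * i * X * e
      + 28 * i * X - 6 * i * w ^ 2 - 12 * i * w * e - 6 * i * w - 8 * i * e - 12 * i) * he + (-X *
      w * e ^ 2 + 17 * X * w * e + X * w - 5 * X * e ^ 2 + 4 * X * e - X + 14 * w * e - 4 * e ^ 2
      + 7 * e - 1) * hi
  · linear_combination (-384 * i * X * w ^ 4 * e - 2720 * i * X * w ^ 3 * e - 96 * i * X * w ^ 3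
      - 2688 * i * X * w ^ 2 * e - 632 * i * X * w ^ 2 - 870 * i * X * w * e - 350 * i * X * w +
      84 * i * X * e - 6 * i * X + 192 * i * w ^ 3 * e + 160 * i * w ^ 2 * e + 48 * i * w ^ 2 + 68
      * i * w * e + 16 * i * w + 6 * i) * hw + (-96 * i * X * w ^ 5 - 24 * i * X * w ^ 4 * e - 728
      * i * X * w ^ 4 - 6 * i * X * w ^ 3 * e ^ 2 - 170 * i * X * w ^ 3 * e - 1078 * i * X * w ^ 3
      - 7 * i * X * w ^ 2 * e ^ 2 - 194 * i * X * w ^ 2 * e - 988 * i * X * w ^ 2 - 2 * i * X * w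
      * e ^ 2 - 140 * i * X * w * e - 326 * i * X * w + 48 * i * w ^ 4 + 12 * i * w ^ 3 * e + 64 *
      i * w ^ 3 + 33 * i * w ^ 2 * e ^ 2 + 70 * i * w ^ 2 + 22 * i * w * e ^ 2 + 24 * i * w * e +
      22 * i * w) * he + (-X * w ^ 2 * e ^ 3 - 49 * X * w ^ 2 * e ^ 2 + 13 * X * w * e ^ 3 - 26 *
      X * w * e ^ 2 - X * w * e + 5 * X * w - 14 * X * e + X - 40 * w ^ 2 * e ^ 2 + 11 * w * e ^ 3
      - 20 * w * e ^ 2 - 1) * hi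

theorem w5_V1_2 : ∀ k, k ≤ 4 → w5G w e X Z i 3 k =
      (1 - (1 - w5Lp w e X Z i 2)) * (w5s w e k * w5G w e X Z i 2 k) +
        (1 - w5Lp w e X Z i 2) * (w5s w e k ^ 2 * w5H w e X Z i 2 k) := by
  intro k hk
  interval_cases k <;> simp only [w5s, w5G, w5H, w5Lp, w5Mp, sq5]
  · ring
  · linear_combination (-128 * X * w ^ 5 * e - 208 * X * w ^ 4 * e - 32 * X * w ^ 4 - 200 * X *
      w ^ 3 * e - 36 * X * w ^ 3 - 41 * X * w ^ 2 * e - 30 * X * w ^ 2 + 4 * X * w * e + 6 * X * w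
      + 5 * X * e + X - 64 * w ^ 5 * e - 112 * w ^ 4 * e - 16 * w ^ 4 - 96 * w ^ 3 * e - 20 * w ^
      3 - 33 * w ^ 2 * e - 13 * w ^ 2 - 4 * w * e - w + 1) * hw + (-32 * X * w ^ 6 - 8 * X * w ^ 5
      * e - 68 * X * w ^ 5 - 2 * X * w ^ 4 * e ^ 2 - 13 * X * w ^ 4 * e - 98 * X * w ^ 4 - 4 * X *
      w ^ 3 * e ^ 2 - 23 * X * w ^ 3 * e - 60 * X * w ^ 3 - 10 * X * w ^ 2 * e - 23 * X * w ^ 2 +
      8 * X * w - 16 * w ^ 6 - 4 * w ^ 5 * e - 36 * w ^ 5 - w ^ 4 * e ^ 2 - 7 * w ^ 4 * e - 49 * w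
      ^ 4 - 3 * w ^ 3 * e ^ 2 - 13 * w ^ 3 * e - 34 * w ^ 3 - 9 * w ^ 2 * e - 13 * w ^ 2) * he
  · linear_combination (-384 * i * X * w ^ 5 * e - 1344 * i * X * w ^ 4 * e - 96 * i * X * w ^ 4
      - 1824 * i * X * w ^ 3 * e - 288 * i * X * w ^ 3 - 1236 * i * X * w ^ 2 * e - 306 * i * X *
      w ^ 2 - 411 * i * X * w * e - 141 * i * X * w - 57 * i * X * e - 21 * i * X + 24 * i * w * e
      + 24 * i * e + 6 * i) * hw + (-96 * i * X * w ^ 6 - 24 * i * X * w ^ 5 * e - 384 * i * X * w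
      ^ 5 - 6 * i * X * w ^ 4 * e ^ 2 - 84 * i * X * w ^ 4 * e - 690 * i * X * w ^ 4 - 15 * i * X
      * w ^ 3 * e ^ 2 - 129 * i * X * w ^ 3 * e - 735 * i * X * w ^ 3 - 12 * i * X * w ^ 2 * e ^ 2
      - 114 * i * X * w ^ 2 * e - 468 * i * X * w ^ 2 - 3 * i * X * w * e ^ 2 - 54 * i * X * w * e
      - 168 * i * X * w - 9 * i * X * e - 33 * i * X + 6 * i * w ^ 2 + 6 * i * w) * he + (X * w ^
      4 * e ^ 4 + 2 * X * w ^ 4 * e ^ 3 + 2 * X * w ^ 3 * e ^ 4 + 6 * X * w ^ 3 * e ^ 3 - 2 * X *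
      w ^ 3 * e ^ 2 + X * w ^ 2 * e ^ 4 + 7 * X * w ^ 2 * e ^ 3 - 6 * X * w ^ 2 * e ^ 2 + 3 * X *
      w * e ^ 3 - 4 * X * w * e ^ 2 - X * w + 3 * X * e - 2 * X - w ^ 2 * e ^ 2 - 2 * w ^ 2 * e -
      w * e ^ 2 - 6 * w * e - 4 * e - 1) * hi
  · linear_combination (16 * X * w ^ 2 * e - 4 * X * w * e + 4 * X * w - 3 * X * e - 3 * X + 64
      * w ^ 3 * e + 112 * w ^ 2 * e + 16 * w ^ 2 + 96 * w * e + 20 * w + 29 * e + 13) * hw + (4 *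
      X * w ^ 3 + X * w ^ 2 * e + X * w ^ 2 + 3 * X * w * e ^ 2 + 5 * X * w * e + X * w + 9 * X *
      e - 6 * X + 16 * w ^ 4 + 4 * w ^ 3 * e + 36 * w ^ 3 + w ^ 2 * e ^ 2 + 7 * w ^ 2 * e + 49 * w
      ^ 2 + 3 * w * e ^ 2 + 13 * w * e + 33 * w + 9 * e + 12) * he
  · linear_combination (-1024 * X * w ^ 7 * e - 1280 * X * w ^ 6 * e - 256 * X * w ^ 6 - 384 * X
      * w ^ 5 * e - 192 * X * w ^ 5 + 816 * X * w ^ 4 * e + 16 * X * w ^ 4 - 156 * X * w ^ 3 * e +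
      200 * X * w ^ 3 - 693 * X * w ^ 2 * e - 143 * X * w ^ 2 - 285 * X * w * e - 112 * X * w + 14
      * X * e - X + 1024 * w ^ 6 * e + 2048 * w ^ 5 * e + 256 * w ^ 5 + 2176 * w ^ 4 * e + 384 * w
      ^ 4 + 1120 * w ^ 3 * e + 336 * w ^ 3 + 220 * w ^ 2 * e + 96 * w ^ 2 - 8 * w * e - 5 * w + 1)
      * hw + (-256 * X * w ^ 8 - 64 * X * w ^ 7 * e - 448 * X * w ^ 7 - 16 * X * w ^ 6 * e ^ 2 -
      80 * X * w ^ 6 * e - 432 * X * w ^ 6 - 4 * X * w ^ 5 * e ^ 3 - 12 * X * w ^ 5 * e ^ 2 - 64 *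
      X * w ^ 5 * e + 24 * X * w ^ 5 - X * w ^ 4 * e ^ 4 - X * w ^ 4 * e ^ 3 - 9 * X * w ^ 4 * e ^
      2 + 41 * X * w ^ 4 * e + 73 * X * w ^ 4 + 13 * X * w ^ 3 * e ^ 4 + 23 * X * w ^ 3 * e ^ 3 +
      15 * X * w ^ 3 * e ^ 2 - 55 * X * w ^ 3 + 39 * X * w ^ 2 * e ^ 3 - 14 * X * w ^ 2 * e ^ 2 -
      20 * X * w ^ 2 * e - 256 * X * w ^ 2 - 56 * X * w * e - 108 * X * w + 256 * w ^ 7 + 64 * w ^
      6 * e + 640 * w ^ 6 + 16 * w ^ 5 * e ^ 2 + 128 * w ^ 5 * e + 976 * w ^ 5 + 4 * w ^ 4 * e ^ 3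
      + 24 * w ^ 4 * e ^ 2 + 176 * w ^ 4 * e + 816 * w ^ 4 + 11 * w ^ 3 * e ^ 4 + 24 * w ^ 3 * e ^
      3 + 31 * w ^ 3 * e ^ 2 + 110 * w ^ 3 * e + 427 * w ^ 3 + 33 * w ^ 2 * e ^ 3 + 6 * w ^ 2 * e
      ^ 2 + 44 * w ^ 2 * e + 92 * w ^ 2 - 4 * w) * he

theorem w5_V1_3 : ∀ k, k ≤ 4 → w5G w e X Z i 4 k =
      (1 - (1 - w5Lp w e X Z i 3)) * (w5s w e k * w5G w e X Z i 3 k) +
        (1 - w5Lp w e X Z i 3) * (w5s w e k ^ 3 * w5H w e X Z i 3 k) := by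
  intro k hk
  interval_cases k <;> simp only [w5s, w5G, w5H, w5Lp, w5Mp, sq5]
  · ring
  · linear_combination (64 * Z * X ^ 2 * w ^ 6 * e - 16 * Z * X ^ 2 * w ^ 5 * e + 16 * Z * X ^ 2
      * w ^ 5 - 8 * Z * X ^ 2 * w ^ 4 * e - 12 * Z * X ^ 2 * w ^ 4 - 19 * Z * X ^ 2 * w ^ 3 * e +
      3 * Z * X ^ 2 * w ^ 3 - 155 * Z * X ^ 2 * w ^ 2 * e - 5 * Z * X ^ 2 * w ^ 2 - 81 * Z * X ^ 2
      * w * e - 37 * Z * X ^ 2 * w - 61 * Z * X ^ 2 * e - Z * X ^ 2 - 256 * Z * X * w ^ 7 * e -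
      384 * Z * X * w ^ 6 * e - 64 * Z * X * w ^ 6 - 352 * Z * X * w ^ 5 * e - 64 * Z * X * w ^ 5
      - 48 * Z * X * w ^ 4 * e - 52 * Z * X * w ^ 4 - 28 * Z * X * w ^ 3 * e + 16 * Z * X * w ^ 3
      - 90 * Z * X * w ^ 2 * e - 13 * Z * X * w ^ 2 - 25 * Z * X * w * e - 18 * Z * X * w - 12 * Z
      * X * e + 7 * Z * X + 128 * Z * w ^ 6 * e + 160 * Z * w ^ 5 * e + 32 * Z * w ^ 5 + 128 * Z *
      w ^ 4 * e + 24 * Z * w ^ 4 + 26 * Z * w ^ 3 * e + 18 * Z * w ^ 3 + Z * w ^ 2 * e - 3 * Z * w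
      ^ 2 - 4 * Z * w * e + Z * w + Z) * hw + (16 * Z * X ^ 2 * w ^ 7 + 4 * Z * X ^ 2 * w ^ 6 * e
      + 4 * Z * X ^ 2 * w ^ 6 + Z * X ^ 2 * w ^ 5 * e ^ 2 - Z * X ^ 2 * w ^ 5 * e + 7 * Z * X ^ 2
      * w ^ 5 + 3 * Z * X ^ 2 * w ^ 4 * e ^ 3 + 46 * Z * X ^ 2 * w ^ 4 * e ^ 2 + 2 * Z * X ^ 2 * w
      ^ 4 * e - 14 * Z * X ^ 2 * w ^ 4 - 12 * Z * X ^ 2 * w ^ 3 * e ^ 3 + 34 * Z * X ^ 2 * w ^ 3 *
      e ^ 2 - 16 * Z * X ^ 2 * w ^ 3 * e - 39 * Z * X ^ 2 * w ^ 3 - 8 * Z * X ^ 2 * w ^ 2 * e - 43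
      * Z * X ^ 2 * w ^ 2 + 10 * Z * X ^ 2 * w * e - 53 * Z * X ^ 2 * w - 13 * Z * X ^ 2 - 64 * Z
      * X * w ^ 8 - 16 * Z * X * w ^ 7 * e - 128 * Z * X * w ^ 7 - 4 * Z * X * w ^ 6 * e ^ 2 - 24
      * Z * X * w ^ 6 * e - 180 * Z * X * w ^ 6 - Z * X * w ^ 5 * e ^ 3 - 4 * Z * X * w ^ 5 * e ^
      2 - 32 * Z * X * w ^ 5 * e - 100 * Z * X * w ^ 5 + 6 * Z * X * w ^ 4 * e ^ 3 + 71 * Z * X *
      w ^ 4 * e ^ 2 - 8 * Z * X * w ^ 4 * e - 49 * Z * X * w ^ 4 - 20 * Z * X * w ^ 3 * e ^ 3 + 57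
      * Z * X * w ^ 3 * e ^ 2 - 26 * Z * X * w ^ 3 * e - 15 * Z * X * w ^ 3 - 3 * Z * X * w ^ 2 *
      e - 24 * Z * X * w ^ 2 + 10 * Z * X * w * e - 16 * Z * X * w + 32 * Z * w ^ 7 + 8 * Z * w ^
      6 * e + 56 * Z * w ^ 6 + 2 * Z * w ^ 5 * e ^ 2 + 10 * Z * w ^ 5 * e + 74 * Z * w ^ 5 + 4 * Z
      * w ^ 4 * e ^ 3 + 33 * Z * w ^ 4 * e ^ 2 + 13 * Z * w ^ 4 * e + 39 * Z * w ^ 4 - 8 * Z * w ^
      3 * e ^ 3 + 26 * Z * w ^ 3 * e ^ 2 - 5 * Z * w ^ 3 * e + 16 * Z * w ^ 3 - Z * w ^ 2 + 2 * Z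
      * w) * he + (-X * w ^ 4 * e ^ 4 - 17 * X * w ^ 4 * e ^ 3 + 4 * X * w ^ 3 * e ^ 4 - 10 * X *
      w ^ 3 * e ^ 3 - X * w * e - 5 * X * w + 13 * X * e - 4 * X - 14 * w ^ 4 * e ^ 3 + 4 * w ^ 3
      * e ^ 4 - 7 * w ^ 3 * e ^ 3 - 1) * hZ
  · linear_combination (-16 * Z * X ^ 2 * w ^ 5 * e - 16 * Z * X ^ 2 * w ^ 4 * e - 4 * Z * X ^ 2
      * w ^ 4 + 19 * Z * X ^ 2 * w ^ 3 * e - 2 * Z * X ^ 2 * w ^ 3 - 92 * Z * X ^ 2 * w ^ 2 * e +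
      6 * Z * X ^ 2 * w ^ 2 - 123 * Z * X ^ 2 * w * e - 26 * Z * X ^ 2 * w - 81 * Z * X ^ 2 * e -
      19 * Z * X ^ 2 + 128 * Z * X * w ^ 6 * e + 352 * Z * X * w ^ 5 * e + 32 * Z * X * w ^ 5 +
      304 * Z * X * w ^ 4 * e + 72 * Z * X * w ^ 4 + 90 * Z * X * w ^ 3 * e + 38 * Z * X * w ^ 3 -
      2 * Z * X * w ^ 2 * e - 11 * Z * X * w * e - Z * X * w - 14 * Z * X * e - Z * X - 256 * Z *
      w ^ 7 * e - 1152 * Z * w ^ 6 * e - 64 * Z * w ^ 6 - 2304 * Z * w ^ 5 * e - 256 * Z * w ^ 5 -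
      2704 * Z * w ^ 4 * e - 444 * Z * w ^ 4 - 1994 * Z * w ^ 3 * e - 440 * Z * w ^ 3 - 894 * Z *
      w ^ 2 * e - 258 * Z * w ^ 2 - 217 * Z * w * e - 78 * Z * w - 21 * Z * e - 7 * Z) * hw + (-4
      * Z * X ^ 2 * w ^ 6 - Z * X ^ 2 * w ^ 5 * e - 6 * Z * X ^ 2 * w ^ 5 + 30 * Z * X ^ 2 * w ^ 4
      * e ^ 2 - Z * X ^ 2 * w ^ 4 * e - 9 * Z * X ^ 2 * w ^ 3 * e ^ 3 + 114 * Z * X ^ 2 * w ^ 3 *
      e ^ 2 - 7 * Z * X ^ 2 * w ^ 3 * e - 22 * Z * X ^ 2 * w ^ 3 - 27 * Z * X ^ 2 * w ^ 2 * e ^ 3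
      + 162 * Z * X ^ 2 * w ^ 2 * e ^ 2 - 31 * Z * X ^ 2 * w ^ 2 * e - 39 * Z * X ^ 2 * w ^ 2 - 27
      * Z * X ^ 2 * w * e ^ 3 + 102 * Z * X ^ 2 * w * e ^ 2 - 28 * Z * X ^ 2 * w * e - 60 * Z * X
      ^ 2 * w - 9 * Z * X ^ 2 * e ^ 3 + 24 * Z * X ^ 2 * e ^ 2 - 4 * Z * X ^ 2 * e - 31 * Z * X ^
      2 + 32 * Z * X * w ^ 7 + 8 * Z * X * w ^ 6 * e + 104 * Z * X * w ^ 6 + 2 * Z * X * w ^ 5 * e
      ^ 2 + 22 * Z * X * w ^ 5 * e + 142 * Z * X * w ^ 5 + 6 * Z * X * w ^ 4 * e ^ 3 + 54 * Z * X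
      * w ^ 4 * e ^ 2 + 24 * Z * X * w ^ 4 * e + 110 * Z * X * w ^ 4 + 6 * Z * X * w ^ 3 * e ^ 3 +
      196 * Z * X * w ^ 3 * e ^ 2 + 2 * Z * X * w ^ 3 * e + 37 * Z * X * w ^ 3 - 18 * Z * X * w ^
      2 * e ^ 3 + 284 * Z * X * w ^ 2 * e ^ 2 - 41 * Z * X * w ^ 2 * e - 2 * Z * X * w ^ 2 - 30 *
      Z * X * w * e ^ 3 + 186 * Z * X * w * e ^ 2 - 45 * Z * X * w * e - 7 * Z * X * w - 12 * Z *
      X * e ^ 3 + 46 * Z * X * e ^ 2 - 12 * Z * X * e - 8 * Z * X - 64 * Z * w ^ 8 - 16 * Z * w ^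
      7 * e - 320 * Z * w ^ 7 - 4 * Z * w ^ 6 * e ^ 2 - 72 * Z * w ^ 6 * e - 764 * Z * w ^ 6 - Z *
      w ^ 5 * e ^ 3 - 16 * Z * w ^ 5 * e ^ 2 - 154 * Z * w ^ 5 * e - 1140 * Z * w ^ 5 + Z * w ^ 4
      * e ^ 3 - 10 * Z * w ^ 4 * e ^ 2 - 204 * Z * w ^ 4 * e - 1142 * Z * w ^ 4 + 5 * Z * w ^ 3 *
      e ^ 3 + 46 * Z * w ^ 3 * e ^ 2 - 181 * Z * w ^ 3 * e - 776 * Z * w ^ 3 - Z * w ^ 2 * e ^ 3 +
      98 * Z * w ^ 2 * e ^ 2 - 115 * Z * w ^ 2 * e - 343 * Z * w ^ 2 - 8 * Z * w * e ^ 3 + 74 * Z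
      * w * e ^ 2 - 53 * Z * w * e - 85 * Z * w - 4 * Z * e ^ 3 + 20 * Z * e ^ 2 - 13 * Z * e - 8
      * Z) * he + (-11 * X * w ^ 4 * e ^ 3 + 3 * X * w ^ 3 * e ^ 4 - 40 * X * w ^ 3 * e ^ 3 + 9 *
      X * w ^ 2 * e ^ 4 - 54 * X * w ^ 2 * e ^ 3 + 9 * X * w * e ^ 4 - 32 * X * w * e ^ 3 - X * w
      * e - 5 * X * w + 3 * X * e ^ 4 - 7 * X * e ^ 3 + 13 * X * e - 4 * X - w ^ 4 * e ^ 4 - 9 * w
      ^ 4 * e ^ 3 - w ^ 3 * e ^ 4 - 34 * w ^ 3 * e ^ 3 + 3 * w ^ 2 * e ^ 4 - 48 * w ^ 2 * e ^ 3 +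
      5 * w * e ^ 4 - 30 * w * e ^ 3 + 2 * e ^ 4 - 7 * e ^ 3 - 1) * hZ
  · linear_combination (512 * Z * X ^ 2 * w ^ 3 * e - 256 * Z * X ^ 2 * w ^ 2 * e + 128 * Z * X
      ^ 2 * w ^ 2 - 200 * Z * X ^ 2 * w * e - 128 * Z * X ^ 2 * w - 86 * Z * X ^ 2 * e + 6 * Z * X
      ^ 2 - 2048 * Z * X * w ^ 4 * e - 3200 * Z * X * w ^ 3 * e - 512 * Z * X * w ^ 3 - 3904 * Z *
      X * w ^ 2 * e - 544 * Z * X * w ^ 2 - 1856 * Z * X * w * e - 672 * Z * X * w - 364 * Z * X *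
      e - 110 * Z * X - 1536 * Z * w ^ 4 * e - 2688 * Z * w ^ 3 * e - 384 * Z * w ^ 3 - 2848 * Z *
      w ^ 2 * e - 480 * Z * w ^ 2 - 1344 * Z * w * e - 448 * Z * w - 258 * Z * e - 94 * Z) * hw +
      (128 * Z * X ^ 2 * w ^ 4 + 32 * Z * X ^ 2 * w ^ 3 * e + 8 * Z * X ^ 2 * w ^ 2 * e ^ 2 - 16 *
      Z * X ^ 2 * w ^ 2 * e + 6 * Z * X ^ 2 * w ^ 2 + 24 * Z * X ^ 2 * w * e ^ 3 - 4 * Z * X ^ 2 *
      w * e ^ 2 + 29 * Z * X ^ 2 * w * e - 137 * Z * X ^ 2 * w + 12 * Z * X ^ 2 * e ^ 3 + 59 * Z *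
      X ^ 2 * e ^ 2 - 9 * Z * X ^ 2 * e - 6 * Z * X ^ 2 - 512 * Z * X * w ^ 5 - 128 * Z * X * w ^
      4 * e - 1056 * Z * X * w ^ 4 - 32 * Z * X * w ^ 3 * e ^ 2 - 200 * Z * X * w ^ 3 * e - 1728 *
      Z * X * w ^ 3 - 8 * Z * X * w ^ 2 * e ^ 3 - 34 * Z * X * w ^ 2 * e ^ 2 - 324 * Z * X * w ^ 2
      * e - 1326 * Z * X * w ^ 2 + 30 * Z * X * w * e ^ 3 - 60 * Z * X * w * e ^ 2 - 143 * Z * X *
      w * e - 787 * Z * X * w + 17 * Z * X * e ^ 3 + 75 * Z * X * e ^ 2 - 84 * Z * X * e - 117 * Z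
      * X - 384 * Z * w ^ 5 - 96 * Z * w ^ 4 * e - 864 * Z * w ^ 4 - 24 * Z * w ^ 3 * e ^ 2 - 168
      * Z * w ^ 3 * e - 1312 * Z * w ^ 3 - 6 * Z * w ^ 2 * e ^ 3 - 30 * Z * w ^ 2 * e ^ 2 - 238 *
      Z * w ^ 2 * e - 1022 * Z * w ^ 2 + 9 * Z * w * e ^ 3 - 43 * Z * w * e ^ 2 - 129 * Z * w * e
      - 542 * Z * w + 6 * Z * e ^ 3 + 23 * Z * e ^ 2 - 60 * Z * e - 95 * Z) * he + (-8 * X * w * e
      ^ 4 - X * w * e - 5 * X * w - 4 * X * e ^ 4 - 21 * X * e ^ 3 + 13 * X * e - 4 * X - 6 * w *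
      e ^ 4 - 3 * e ^ 4 - 16 * e ^ 3 - 1) * hZ
  · linear_combination (4096 * Z * X ^ 2 * w ^ 9 * e + 1024 * Z * X ^ 2 * w ^ 8 * e + 1024 * Z *
      X ^ 2 * w ^ 8 - 2304 * Z * X ^ 2 * w ^ 7 * e - 256 * Z * X ^ 2 * w ^ 7 - 1280 * Z * X ^ 2 *
      w ^ 6 * e - 512 * Z * X ^ 2 * w ^ 6 + 608 * Z * X ^ 2 * w ^ 5 * e - 16 * Z * X ^ 2 * w ^ 5 -
      740 * Z * X ^ 2 * w ^ 4 * e + 172 * Z * X ^ 2 * w ^ 4 - 2141 * Z * X ^ 2 * w ^ 3 * e - 281 *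
      Z * X ^ 2 * w ^ 3 - 766 * Z * X ^ 2 * w ^ 2 * e - 399 * Z * X ^ 2 * w ^ 2 - 651 * Z * X ^ 2
      * w * e + 28 * Z * X ^ 2 * w - 297 * Z * X ^ 2 * e - 162 * Z * X ^ 2 - 16384 * Z * X * w ^
      10 * e - 32768 * Z * X * w ^ 9 * e - 4096 * Z * X * w ^ 9 - 31744 * Z * X * w ^ 8 * e - 6144
      * Z * X * w ^ 8 - 2048 * Z * X * w ^ 7 * e - 4608 * Z * X * w ^ 7 + 19328 * Z * X * w ^ 6 *
      e + 2048 * Z * X * w ^ 6 + 16384 * Z * X * w ^ 5 * e + 3952 * Z * X * w ^ 5 + 5668 * Z * X *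
      w ^ 4 * e + 1912 * Z * X * w ^ 4 - 152 * Z * X * w ^ 3 * e + 314 * Z * X * w ^ 3 - 799 * Z *
      X * w ^ 2 * e - 226 * Z * X * w ^ 2 - 227 * Z * X * w * e - 89 * Z * X * w + Z * X * e + 3 *
      Z * X + 16384 * Z * w ^ 9 * e + 45056 * Z * w ^ 8 * e + 4096 * Z * w ^ 8 + 65536 * Z * w ^ 7
      * e + 9216 * Z * w ^ 7 + 56064 * Z * w ^ 6 * e + 11520 * Z * w ^ 6 + 28800 * Z * w ^ 5 * e +
      7808 * Z * w ^ 5 + 8192 * Z * w ^ 4 * e + 2816 * Z * w ^ 4 + 1000 * Z * w ^ 3 * e + 412 * Z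
      * w ^ 3 - 17 * Z * w ^ 2 * e + Z * w ^ 2 - 6 * Z * w * e - 5 * Z * w + Z) * hw + (1024 * Z *
      X ^ 2 * w ^ 10 + 256 * Z * X ^ 2 * w ^ 9 * e + 768 * Z * X ^ 2 * w ^ 9 + 64 * Z * X ^ 2 * w
      ^ 8 * e ^ 2 + 64 * Z * X ^ 2 * w ^ 8 * e + 256 * Z * X ^ 2 * w ^ 8 + 16 * Z * X ^ 2 * w ^ 7
      * e ^ 3 - 16 * Z * X ^ 2 * w ^ 7 * e ^ 2 + 16 * Z * X ^ 2 * w ^ 7 * e - 784 * Z * X ^ 2 * w
      ^ 7 + 4 * Z * X ^ 2 * w ^ 6 * e ^ 4 - 12 * Z * X ^ 2 * w ^ 6 * e ^ 3 + 8 * Z * X ^ 2 * w ^ 6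
      * e ^ 2 - 200 * Z * X ^ 2 * w ^ 6 * e - 356 * Z * X ^ 2 * w ^ 6 + Z * X ^ 2 * w ^ 5 * e ^ 5
      - 5 * Z * X ^ 2 * w ^ 5 * e ^ 4 + 7 * Z * X ^ 2 * w ^ 5 * e ^ 3 - 51 * Z * X ^ 2 * w ^ 5 * e
      ^ 2 + 9 * Z * X ^ 2 * w ^ 5 * e - 125 * Z * X ^ 2 * w ^ 5 + 3 * Z * X ^ 2 * w ^ 4 * e ^ 6 +
      133 * Z * X ^ 2 * w ^ 4 * e ^ 5 + 4 * Z * X ^ 2 * w ^ 4 * e ^ 4 - 15 * Z * X ^ 2 * w ^ 4 * e
      ^ 3 + 26 * Z * X ^ 2 * w ^ 4 * e ^ 2 - 23 * Z * X ^ 2 * w ^ 4 * e - 508 * Z * X ^ 2 * w ^ 4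
      - 39 * Z * X ^ 2 * w ^ 3 * e ^ 6 + 91 * Z * X ^ 2 * w ^ 3 * e ^ 5 - 39 * Z * X ^ 2 * w ^ 3 *
      e ^ 4 + 13 * Z * X ^ 2 * w ^ 3 * e ^ 3 - 15 * Z * X ^ 2 * w ^ 3 * e ^ 2 - 122 * Z * X ^ 2 *
      w ^ 3 * e - 652 * Z * X ^ 2 * w ^ 3 - 26 * Z * X ^ 2 * w ^ 2 * e ^ 2 - 112 * Z * X ^ 2 * w ^
      2 * e - 533 * Z * X ^ 2 * w ^ 2 + 28 * Z * X ^ 2 * w * e ^ 2 - 86 * Z * X ^ 2 * w * e - 134
      * Z * X ^ 2 * w - 4096 * Z * X * w ^ 11 - 1024 * Z * X * w ^ 10 * e - 10240 * Z * X * w ^ 10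
      - 256 * Z * X * w ^ 9 * e ^ 2 - 2048 * Z * X * w ^ 9 * e - 14848 * Z * X * w ^ 9 - 64 * Z *
      X * w ^ 8 * e ^ 3 - 384 * Z * X * w ^ 8 * e ^ 2 - 2624 * Z * X * w ^ 8 * e - 8704 * Z * X *
      w ^ 8 - 16 * Z * X * w ^ 7 * e ^ 4 - 64 * Z * X * w ^ 7 * e ^ 3 - 448 * Z * X * w ^ 7 * e ^
      2 - 768 * Z * X * w ^ 7 * e + 1392 * Z * X * w ^ 7 - 4 * Z * X * w ^ 6 * e ^ 5 - 8 * Z * X *
      w ^ 6 * e ^ 4 - 76 * Z * X * w ^ 6 * e ^ 3 + 48 * Z * X * w ^ 6 * e ^ 2 + 844 * Z * X * w ^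
      6 * e + 7912 * Z * X * w ^ 6 - Z * X * w ^ 5 * e ^ 6 - 14 * Z * X * w ^ 5 * e ^ 4 + 52 * Z *
      X * w ^ 5 * e ^ 3 + 206 * Z * X * w ^ 5 * e ^ 2 + 1544 * Z * X * w ^ 5 * e + 6178 * Z * X *
      w ^ 5 + 15 * Z * X * w ^ 4 * e ^ 6 + 217 * Z * X * w ^ 4 * e ^ 5 + 20 * Z * X * w ^ 4 * e ^
      4 + 29 * Z * X * w ^ 4 * e ^ 3 + 270 * Z * X * w ^ 4 * e ^ 2 + 721 * Z * X * w ^ 4 * e +
      2000 * Z * X * w ^ 4 - 59 * Z * X * w ^ 3 * e ^ 6 + 162 * Z * X * w ^ 3 * e ^ 5 - 57 * Z * X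
      * w ^ 3 * e ^ 4 + 48 * Z * X * w ^ 3 * e ^ 3 + 38 * Z * X * w ^ 3 * e ^ 2 + 72 * Z * X * w ^
      3 * e - Z * X * w ^ 3 - 12 * Z * X * w ^ 2 * e ^ 2 - 57 * Z * X * w ^ 2 * e - 312 * Z * X *
      w ^ 2 + 28 * Z * X * w * e ^ 2 - 56 * Z * X * w * e - 86 * Z * X * w + 4096 * Z * w ^ 10 +
      1024 * Z * w ^ 9 * e + 13312 * Z * w ^ 9 + 256 * Z * w ^ 8 * e ^ 2 + 2816 * Z * w ^ 8 * e +
      24832 * Z * w ^ 8 + 64 * Z * w ^ 7 * e ^ 3 + 576 * Z * w ^ 7 * e ^ 2 + 4736 * Z * w ^ 7 * e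
      + 28544 * Z * w ^ 7 + 16 * Z * w ^ 6 * e ^ 4 + 112 * Z * w ^ 6 * e ^ 3 + 880 * Z * w ^ 6 * e
      ^ 2 + 4624 * Z * w ^ 6 * e + 22144 * Z * w ^ 6 + 4 * Z * w ^ 5 * e ^ 5 + 20 * Z * w ^ 5 * e
      ^ 4 + 160 * Z * w ^ 5 * e ^ 3 + 688 * Z * w ^ 5 * e ^ 2 + 3004 * Z * w ^ 5 * e + 11036 * Z *
      w ^ 5 + 11 * Z * w ^ 4 * e ^ 6 + 93 * Z * w ^ 4 * e ^ 5 + 29 * Z * w ^ 4 * e ^ 4 + 87 * Z *
      w ^ 4 * e ^ 3 + 367 * Z * w ^ 4 * e ^ 2 + 1085 * Z * w ^ 4 * e + 3229 * Z * w ^ 4 - 22 * Z *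
      w ^ 3 * e ^ 6 + 73 * Z * w ^ 3 * e ^ 5 - 16 * Z * w ^ 3 * e ^ 4 + 41 * Z * w ^ 3 * e ^ 3 +
      66 * Z * w ^ 3 * e ^ 2 + 173 * Z * w ^ 3 * e + 408 * Z * w ^ 3 - Z * w ^ 2 * e - 3 * Z * w ^
      2 + 2 * Z * w * e - 4 * Z * w) * he + (-X * w ^ 4 * e ^ 7 - 49 * X * w ^ 4 * e ^ 6 + 13 * X
      * w ^ 3 * e ^ 7 - 26 * X * w ^ 3 * e ^ 6 - 40 * w ^ 4 * e ^ 6 + 11 * w ^ 3 * e ^ 7 - 20 * w
      ^ 3 * e ^ 6) * hZ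

theorem w5_V2_0 : ∀ k, k ≤ 4 → w5s w e k ^ 1 * w5H w e X Z i 1 k =
      (1 - w5Mp w e X Z i 0) * (w5s w e k * w5G w e X Z i 0 k) +
        w5Mp w e X Z i 0 * (w5s w e k ^ 0 * w5H w e X Z i 0 k) := by
  intro k hk
  interval_cases k <;> simp only [w5s, w5G, w5H, w5Lp, w5Mp, sq5]
  · ring
  · linear_combination (120 * i * X * w * e + 30 * i * X + 104 * i * w * e + 2 * i * e + 26 * i)
      * hw + (30 * i * X * w ^ 2 + 18 * i * X * w + 26 * i * w ^ 2 + 16 * i * w) * he + (-5 * X *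
      w ^ 2 * e ^ 2 + 2 * X * w ^ 2 * e - 3 * X * w * e ^ 2 - 14 * X * w * e - 2 * X * w - 5 * X -
      6 * w ^ 2 * e ^ 2 - 3 * w * e ^ 2 - 15 * w * e) * hi
  · linear_combination (72 * i * X * w * e + 66 * i * X * e + 18 * i * X + 64 * i * w * e + 56 *
      i * e + 16 * i) * hw + (18 * i * X * w ^ 2 + 6 * i * X * w - 12 * i * X + 16 * i * w ^ 2 + 6
      * i * w - 10 * i) * he + (-3 * X * w ^ 2 * e ^ 2 - 13 * X * w ^ 2 * e - X * w * e ^ 2 - 29 *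
      X * w * e - 2 * X * w + 2 * X * e ^ 2 - 15 * X * e - 5 * X - w ^ 2 * e ^ 2 - 9 * w ^ 2 * e +
      w * e ^ 2 - 17 * w * e + 2 * e ^ 2 - 8 * e) * hi
  · linear_combination (-48 * i * X * e - 40 * i * e) * hw + (-12 * i * X * w - 30 * i * X - 10
      * i * w - 26 * i) * he + (2 * X * w * e ^ 2 - 16 * X * w * e - 2 * X * w + 5 * X * e ^ 2 - 2
      * X * e - 5 * X - 14 * w * e + 4 * e ^ 2 - 6 * e) * hi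
  · linear_combination (-192 * i * X * w ^ 2 * e + 24 * i * X * w * e - 48 * i * X * w + 30 * i
      * X - 160 * i * w ^ 2 * e + 24 * i * w * e - 40 * i * w + 2 * i * e + 26 * i) * hw + (-48 *
      i * X * w ^ 3 - 12 * i * X * w ^ 2 * e - 18 * i * X * w ^ 2 + 78 * i * X * w * e - 30 * i *
      X * w - 40 * i * w ^ 3 - 10 * i * w ^ 2 * e - 14 * i * w ^ 2 + 64 * i * w * e - 24 * i * w)
      * he + (2 * X * w ^ 2 * e ^ 3 + 51 * X * w ^ 2 * e ^ 2 - 13 * X * w * e ^ 3 + 31 * X * w * e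
      ^ 2 - X * w * e - 2 * X * w - 5 * X + 40 * w ^ 2 * e ^ 2 - 11 * w * e ^ 3 + 21 * w * e ^ 2)
      * hi

theorem w5_V2_1 : ∀ k, k ≤ 4 → w5s w e k ^ 2 * w5H w e X Z i 2 k =
      (1 - w5Mp w e X Z i 1) * (w5s w e k * w5G w e X Z i 1 k) +
        w5Mp w e X Z i 1 * (w5s w e k ^ 1 * w5H w e X Z i 1 k) := by
  intro k hk
  interval_cases k <;> simp only [w5s, w5G, w5H, w5Lp, w5Mp, sq5]
  · ring
  · linear_combination (384 * i * X * w ^ 3 * e + 408 * i * X * w ^ 2 * e + 96 * i * X * w ^ 2 +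
      132 * i * X * w * e + 54 * i * X * w + 192 * i * w ^ 3 * e + 192 * i * w ^ 2 * e + 48 * i *
      w ^ 2 + 60 * i * w * e + 24 * i * w) * hw + (96 * i * X * w ^ 4 + 24 * i * X * w ^ 3 * e +
      150 * i * X * w ^ 3 + 6 * i * X * w ^ 2 * e + 150 * i * X * w ^ 2 + 6 * i * X * w * e + 54 *
      i * X * w + 48 * i * w ^ 4 + 12 * i * w ^ 3 * e + 72 * i * w ^ 3 - 3 * i * w ^ 2 * e + 72 *
      i * w ^ 2 + 3 * i * w * e + 24 * i * w) * he + (2 * X * w ^ 3 * e ^ 3 - 11 * X * w ^ 3 * e ^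
      2 + 4 * X * w ^ 2 * e ^ 3 - 7 * X * w ^ 2 * e ^ 2 - 3 * X * w * e ^ 2 + w ^ 3 * e ^ 3 - 9 *
      w ^ 3 * e ^ 2 + 3 * w ^ 2 * e ^ 3 - 2 * w ^ 2 * e ^ 2 + w * e) * hi
  · linear_combination (96 * i * X * w ^ 3 * e + 248 * i * X * w ^ 2 * e + 24 * i * X * w ^ 2 +
      220 * i * X * w * e + 50 * i * X * w + 68 * i * X * e + 26 * i * X + 48 * i * w ^ 3 * e + 80
      * i * w ^ 2 * e + 12 * i * w ^ 2 + 48 * i * w * e + 14 * i * w + 16 * i * e + 2 * i) * hw +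
      (24 * i * X * w ^ 4 + 6 * i * X * w ^ 3 * e + 74 * i * X * w ^ 3 + 7 * i * X * w ^ 2 * e +
      100 * i * X * w ^ 2 + 76 * i * X * w - i * X * e + 26 * i * X + 12 * i * w ^ 4 + 3 * i * w ^
      3 * e + 26 * i * w ^ 3 - 2 * i * w ^ 2 * e + 28 * i * w ^ 2 - 7 * i * w * e + 16 * i * w - 2
      * i * e + 2 * i) * he + (X * w ^ 3 * e ^ 3 + 2 * X * w ^ 2 * e ^ 3 - 2 * X * w ^ 2 * e ^ 2 +
      X * w ^ 2 * e + X * w * e ^ 3 - 6 * X * w * e ^ 2 - 4 * X * e ^ 2 - X * e - w * e - e) * hi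
  · linear_combination (-96 * i * X * w ^ 2 * e + 104 * i * X * w * e - 24 * i * X * w + 86 * i
      * X * e + 38 * i * X + 72 * i * w * e + 50 * i * e + 18 * i) * hw + (-24 * i * X * w ^ 3 - 6
      * i * X * w ^ 2 * e + 14 * i * X * w ^ 2 - 5 * i * X * w * e + 14 * i * X * w + 17 * i * X *
      e + 38 * i * X + 18 * i * w ^ 2 - 6 * i * w * e + 18 * i * w + 14 * i * e + 18 * i) * he +
      (12 * X * w * e ^ 2 + X * w * e - 3 * X * e ^ 3 + 2 * X * e - w * e ^ 3 + 9 * w * e ^ 2 - 3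
      * e ^ 3 + 2 * e ^ 2 + e) * hi
  · linear_combination (-1536 * i * X * w ^ 5 * e - 768 * i * X * w ^ 4 * e - 384 * i * X * w ^
      4 - 1600 * i * X * w ^ 3 * e - 1680 * i * X * w ^ 2 * e - 376 * i * X * w ^ 2 - 600 * i * X
      * w * e - 244 * i * X * w + 1536 * i * w ^ 4 * e + 1728 * i * w ^ 3 * e + 384 * i * w ^ 3 +
      608 * i * w ^ 2 * e + 240 * i * w ^ 2 + 28 * i * w * e + 8 * i * w) * hw + (-384 * i * X * w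
      ^ 6 - 96 * i * X * w ^ 5 * e - 384 * i * X * w ^ 5 - 24 * i * X * w ^ 4 * e ^ 2 - 48 * i * X
      * w ^ 4 * e - 760 * i * X * w ^ 4 - 6 * i * X * w ^ 3 * e ^ 3 - 160 * i * X * w ^ 3 * e -
      620 * i * X * w ^ 3 + 78 * i * X * w ^ 2 * e ^ 3 - 5 * i * X * w ^ 2 * e ^ 2 - 64 * i * X *
      w ^ 2 * e - 620 * i * X * w ^ 2 - i * X * w * e ^ 2 - 112 * i * X * w * e - 244 * i * X * w
      + 384 * i * w ^ 5 + 96 * i * w ^ 4 * e + 624 * i * w ^ 4 + 24 * i * w ^ 3 * e ^ 2 + 108 * i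
      * w ^ 3 * e + 632 * i * w ^ 3 + 66 * i * w ^ 2 * e ^ 3 + 45 * i * w ^ 2 * e ^ 2 + 108 * i *
      w ^ 2 * e + 248 * i * w ^ 2 + 11 * i * w * e ^ 2 + 12 * i * w * e + 8 * i * w) * he + (X * w
      ^ 3 * e ^ 5 + 49 * X * w ^ 3 * e ^ 4 - 13 * X * w ^ 2 * e ^ 5 + 26 * X * w ^ 2 * e ^ 4 + X *
      w ^ 2 * e ^ 3 - 5 * X * w ^ 2 * e ^ 2 + 14 * X * w * e ^ 3 - X * w * e ^ 2 + 40 * w ^ 3 * e
      ^ 4 - 11 * w ^ 2 * e ^ 5 + 20 * w ^ 2 * e ^ 4 + w * e ^ 2) * hi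

theorem w5_V2_2 : ∀ k, k ≤ 4 → w5s w e k ^ 3 * w5H w e X Z i 3 k =
      (1 - w5Mp w e X Z i 2) * (w5s w e k * w5G w e X Z i 2 k) +
        w5Mp w e X Z i 2 * (w5s w e k ^ 2 * w5H w e X Z i 2 k) := by
  intro k hk
  interval_cases k <;> simp only [w5s, w5G, w5H, w5Lp, w5Mp, sq5]
  · ring
  · linear_combination (-192 * X * w ^ 5 * e - 320 * X * w ^ 4 * e - 48 * X * w ^ 4 - 200 * X *
      w ^ 3 * e - 56 * X * w ^ 3 - 30 * X * w ^ 2 * e - 19 * X * w ^ 2 + 8 * X * w * e + 4 * X * w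
      - 64 * w ^ 5 * e - 112 * w ^ 4 * e - 16 * w ^ 4 - 88 * w ^ 3 * e - 20 * w ^ 3 - 29 * w ^ 2 *
      e - 11 * w ^ 2 - 3 * w * e - w) * hw + (-48 * X * w ^ 6 - 12 * X * w ^ 5 * e - 104 * X * w ^
      5 - 3 * X * w ^ 4 * e ^ 2 - 20 * X * w ^ 4 * e - 123 * X * w ^ 4 - 2 * X * w ^ 3 * e ^ 2 -
      20 * X * w ^ 3 * e - 71 * X * w ^ 3 - 4 * X * w ^ 2 * e ^ 2 - 7 * X * w ^ 2 * e - 15 * X * w
      ^ 2 + 2 * X * w * e + 4 * X * w - 16 * w ^ 6 - 4 * w ^ 5 * e - 36 * w ^ 5 - w ^ 4 * e ^ 2 -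
      7 * w ^ 4 * e - 47 * w ^ 4 - 8 * w ^ 3 * e - 32 * w ^ 3 - 3 * w ^ 2 * e ^ 2 - 4 * w ^ 2 * e
      - 12 * w ^ 2 - w) * he
  · linear_combination (-384 * i * X * w ^ 5 * e - 1440 * i * X * w ^ 4 * e - 96 * i * X * w ^ 4
      - 2016 * i * X * w ^ 3 * e - 312 * i * X * w ^ 3 - 1290 * i * X * w ^ 2 * e - 342 * i * X *
      w ^ 2 - 357 * i * X * w * e - 135 * i * X * w - 27 * i * X * e - 9 * i * X - 384 * i * w ^ 5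
      * e - 1440 * i * w ^ 4 * e - 96 * i * w ^ 4 - 2064 * i * w ^ 3 * e - 312 * i * w ^ 3 - 1398
      * i * w ^ 2 * e - 354 * i * w ^ 2 - 438 * i * w * e - 156 * i * w - 48 * i * e - 18 * i) *
      hw + (-96 * i * X * w ^ 6 - 24 * i * X * w ^ 5 * e - 408 * i * X * w ^ 5 - 6 * i * X * w ^ 4
      * e ^ 2 - 90 * i * X * w ^ 4 * e - 750 * i * X * w ^ 4 - 3 * i * X * w ^ 3 * e ^ 2 - 141 * i
      * X * w ^ 3 * e - 789 * i * X * w ^ 3 + 27 * i * X * w ^ 2 * e ^ 2 - 126 * i * X * w ^ 2 * e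
      - 486 * i * X * w ^ 2 + 39 * i * X * w * e ^ 2 - 69 * i * X * w * e - 144 * i * X * w + 15 *
      i * X * e ^ 2 - 18 * i * X * e - 9 * i * X - 96 * i * w ^ 6 - 24 * i * w ^ 5 * e - 408 * i *
      w ^ 5 - 6 * i * w ^ 4 * e ^ 2 - 90 * i * w ^ 4 * e - 762 * i * w ^ 4 - 6 * i * w ^ 3 * e ^ 2
      - 144 * i * w ^ 3 * e - 822 * i * w ^ 3 + 18 * i * w ^ 2 * e ^ 2 - 132 * i * w ^ 2 * e - 528
      * i * w ^ 2 + 30 * i * w * e ^ 2 - 72 * i * w * e - 174 * i * w + 12 * i * e ^ 2 - 18 * i *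
      e - 18 * i) * he + (X * w ^ 4 * e ^ 4 + 11 * X * w ^ 4 * e ^ 3 + 39 * X * w ^ 3 * e ^ 3 - 6
      * X * w ^ 2 * e ^ 4 + 52 * X * w ^ 2 * e ^ 3 - X * w ^ 2 * e ^ 2 - 8 * X * w * e ^ 4 + 31 *
      X * w * e ^ 3 - X * w * e ^ 2 - 3 * X * e ^ 4 + 7 * X * e ^ 3 + w ^ 4 * e ^ 4 + 9 * w ^ 4 *
      e ^ 3 + w ^ 3 * e ^ 4 + 34 * w ^ 3 * e ^ 3 - 3 * w ^ 2 * e ^ 4 + 48 * w ^ 2 * e ^ 3 - w ^ 2
      * e ^ 2 - 5 * w * e ^ 4 + 30 * w * e ^ 3 - 2 * w * e ^ 2 - w * e - 2 * e ^ 4 + 7 * e ^ 3 - e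
      ^ 2 - e) * hi
  · linear_combination (-496 * X * w ^ 2 * e - 508 * X * w * e - 124 * X * w - 161 * X * e - 65
      * X + 64 * w ^ 3 * e - 240 * w ^ 2 * e + 16 * w ^ 2 - 280 * w * e - 68 * w - 93 * e - 37) *
      hw + (-124 * X * w ^ 3 - 31 * X * w ^ 2 * e - 189 * X * w ^ 2 - 5 * X * w * e ^ 2 - 32 * X *
      w * e - 189 * X * w - X * e ^ 2 - 30 * X * e - 65 * X + 16 * w ^ 4 + 4 * w ^ 3 * e - 52 * w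
      ^ 3 + w ^ 2 * e ^ 2 - 15 * w ^ 2 * e - 89 * w ^ 2 - 2 * w * e ^ 2 - 15 * w * e - 105 * w -
      18 * e - 37) * he
  · linear_combination (-4096 * X * w ^ 8 * e - 6144 * X * w ^ 7 * e - 1024 * X * w ^ 7 - 1536 *
      X * w ^ 6 * e - 1024 * X * w ^ 6 + 3584 * X * w ^ 5 * e + 192 * X * w ^ 5 + 2864 * X * w ^ 4
      * e + 832 * X * w ^ 4 - 24 * X * w ^ 3 * e + 268 * X * w ^ 3 - 746 * X * w ^ 2 * e - 176 * X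
      * w ^ 2 - 231 * X * w * e - 95 * X * w + 4096 * w ^ 7 * e + 9216 * w ^ 6 * e + 1024 * w ^ 6
      + 9472 * w ^ 5 * e + 1792 * w ^ 5 + 5248 * w ^ 4 * e + 1408 * w ^ 4 + 1536 * w ^ 3 * e + 528
      * w ^ 3 + 172 * w ^ 2 * e + 76 * w ^ 2 - 7 * w * e - 3 * w) * hw + (-1024 * X * w ^ 9 - 256
      * X * w ^ 8 * e - 2048 * X * w ^ 8 - 64 * X * w ^ 7 * e ^ 2 - 384 * X * w ^ 7 * e - 1856 * X
      * w ^ 7 - 16 * X * w ^ 6 * e ^ 3 - 64 * X * w ^ 6 * e ^ 2 - 256 * X * w ^ 6 * e - 4 * X * w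
      ^ 5 * e ^ 4 - 8 * X * w ^ 5 * e ^ 3 - 28 * X * w ^ 5 * e ^ 2 + 144 * X * w ^ 5 * e + 1292 *
      X * w ^ 5 - X * w ^ 4 * e ^ 5 - 2 * X * w ^ 4 * e ^ 3 + 52 * X * w ^ 4 * e ^ 2 + 258 * X * w
      ^ 4 * e + 924 * X * w ^ 4 + 13 * X * w ^ 3 * e ^ 5 + 12 * X * w ^ 3 * e ^ 4 + 14 * X * w ^ 3
      * e ^ 3 + 39 * X * w ^ 3 * e ^ 2 + 89 * X * w ^ 3 * e - 3 * X * w ^ 3 + 13 * X * w ^ 2 * e ^
      4 - 2 * X * w ^ 2 * e ^ 2 - 55 * X * w ^ 2 * e - 271 * X * w ^ 2 - 14 * X * w * e ^ 2 - 41 *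
      X * w * e - 95 * X * w + 1024 * w ^ 8 + 256 * w ^ 7 * e + 2816 * w ^ 7 + 64 * w ^ 6 * e ^ 2
      + 576 * w ^ 6 * e + 4224 * w ^ 6 + 16 * w ^ 5 * e ^ 3 + 112 * w ^ 5 * e ^ 2 + 752 * w ^ 5 *
      e + 3728 * w ^ 5 + 4 * w ^ 4 * e ^ 4 + 20 * w ^ 4 * e ^ 3 + 128 * w ^ 4 * e ^ 2 + 528 * w ^
      4 * e + 2012 * w ^ 4 + 11 * w ^ 3 * e ^ 5 + 13 * w ^ 3 * e ^ 4 + 21 * w ^ 3 * e ^ 3 + 63 * w
      ^ 3 * e ^ 2 + 207 * w ^ 3 * e + 601 * w ^ 3 + 11 * w ^ 2 * e ^ 4 + 2 * w ^ 2 * e ^ 3 + 15 *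
      w ^ 2 * e ^ 2 + 31 * w ^ 2 * e + 73 * w ^ 2 - w * e - 3 * w) * he

theorem w5_V2_3 : ∀ k, k ≤ 4 → w5s w e k ^ 4 * w5H w e X Z i 4 k =
      (1 - w5Mp w e X Z i 3) * (w5s w e k * w5G w e X Z i 3 k) +
        w5Mp w e X Z i 3 * (w5s w e k ^ 3 * w5H w e X Z i 3 k) := by
  intro k hk
  interval_cases k <;> simp only [w5s, w5G, w5H, w5Lp, w5Mp, sq5]
  · ring
  · linear_combination (-2048 * Z * X ^ 2 * w ^ 9 * e - 7680 * Z * X ^ 2 * w ^ 8 * e - 512 * Z *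
      X ^ 2 * w ^ 8 - 10240 * Z * X ^ 2 * w ^ 7 * e - 1664 * Z * X ^ 2 * w ^ 7 - 6816 * Z * X ^ 2
      * w ^ 6 * e - 1696 * Z * X ^ 2 * w ^ 6 - 2312 * Z * X ^ 2 * w ^ 5 * e - 768 * Z * X ^ 2 * w
      ^ 5 - 470 * Z * X ^ 2 * w ^ 4 * e - 134 * Z * X ^ 2 * w ^ 4 + 57 * Z * X ^ 2 * w ^ 3 * e -
      37 * Z * X ^ 2 * w ^ 3 + 149 * Z * X ^ 2 * w ^ 2 * e + 33 * Z * X ^ 2 * w ^ 2 + 59 * Z * X ^
      2 * w * e + 23 * Z * X ^ 2 * w - 2048 * Z * X * w ^ 8 * e - 4352 * Z * X * w ^ 7 * e - 512 *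
      Z * X * w ^ 7 - 5056 * Z * X * w ^ 6 * e - 832 * Z * X * w ^ 6 - 3248 * Z * X * w ^ 5 * e -
      816 * Z * X * w ^ 5 - 1088 * Z * X * w ^ 4 * e - 368 * Z * X * w ^ 4 - 135 * Z * X * w ^ 3 *
      e - 57 * Z * X * w ^ 3 - 3 * Z * X * w ^ 2 * e + Z * X * w ^ 2 - 7 * Z * X * w * e - 2 * Z *
      X * w - 256 * Z * w ^ 6 * e - 256 * Z * w ^ 5 * e - 64 * Z * w ^ 5 - 80 * Z * w ^ 4 * e - 32
      * Z * w ^ 4 + Z * w ^ 2 * e - Z * w * e) * hw + (-512 * Z * X ^ 2 * w ^ 10 - 128 * Z * X ^ 2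
      * w ^ 9 * e - 2176 * Z * X ^ 2 * w ^ 9 - 32 * Z * X ^ 2 * w ^ 8 * e ^ 2 - 480 * Z * X ^ 2 *
      w ^ 8 * e - 3872 * Z * X ^ 2 * w ^ 8 - 8 * Z * X ^ 2 * w ^ 7 * e ^ 3 - 104 * Z * X ^ 2 * w ^
      7 * e ^ 2 - 720 * Z * X ^ 2 * w ^ 7 * e - 4128 * Z * X ^ 2 * w ^ 7 - 2 * Z * X ^ 2 * w ^ 6 *
      e ^ 4 - 22 * Z * X ^ 2 * w ^ 6 * e ^ 3 - 126 * Z * X ^ 2 * w ^ 6 * e ^ 2 - 646 * Z * X ^ 2 *
      w ^ 6 * e - 2598 * Z * X ^ 2 * w ^ 6 - 29 * Z * X ^ 2 * w ^ 5 * e ^ 4 - 20 * Z * X ^ 2 * w ^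
      5 * e ^ 3 - 93 * Z * X ^ 2 * w ^ 5 * e ^ 2 - 295 * Z * X ^ 2 * w ^ 5 * e - 939 * Z * X ^ 2 *
      w ^ 5 - 14 * Z * X ^ 2 * w ^ 4 * e ^ 4 - 51 * Z * X ^ 2 * w ^ 4 * e ^ 3 - 18 * Z * X ^ 2 * w
      ^ 4 * e ^ 2 - 64 * Z * X ^ 2 * w ^ 4 * e - 138 * Z * X ^ 2 * w ^ 4 - 16 * Z * X ^ 2 * w ^ 3
      * e ^ 3 + 4 * Z * X ^ 2 * w ^ 3 * e ^ 2 + 2 * Z * X ^ 2 * w ^ 3 * e + 19 * Z * X ^ 2 * w ^ 3
      + 3 * Z * X ^ 2 * w ^ 2 * e + 56 * Z * X ^ 2 * w ^ 2 + 15 * Z * X ^ 2 * w * e + 23 * Z * X ^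
      2 * w - 512 * Z * X * w ^ 9 - 128 * Z * X * w ^ 8 * e - 1344 * Z * X * w ^ 8 - 32 * Z * X *
      w ^ 7 * e ^ 2 - 272 * Z * X * w ^ 7 * e - 2160 * Z * X * w ^ 7 - 8 * Z * X * w ^ 6 * e ^ 3 -
      52 * Z * X * w ^ 6 * e ^ 2 - 396 * Z * X * w ^ 6 * e - 2016 * Z * X * w ^ 6 - 22 * Z * X * w
      ^ 5 * e ^ 4 - 9 * Z * X * w ^ 5 * e ^ 3 - 71 * Z * X * w ^ 5 * e ^ 2 - 293 * Z * X * w ^ 5 *
      e - 1241 * Z * X * w ^ 5 - 11 * Z * X * w ^ 4 * e ^ 4 - 57 * Z * X * w ^ 4 * e ^ 3 - 32 * Z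
      * X * w ^ 4 * e ^ 2 - 146 * Z * X * w ^ 4 * e - 424 * Z * X * w ^ 4 - 16 * Z * X * w ^ 3 * e
      ^ 3 - 8 * Z * X * w ^ 3 * e ^ 2 - 25 * Z * X * w ^ 3 * e - 58 * Z * X * w ^ 3 - Z * X * w ^
      2 - 2 * Z * X * w - 64 * Z * w ^ 7 - 16 * Z * w ^ 6 * e - 96 * Z * w ^ 6 - 4 * Z * w ^ 5 * e
      ^ 2 - 16 * Z * w ^ 5 * e - 96 * Z * w ^ 5 - 11 * Z * w ^ 4 * e ^ 3 - 2 * Z * w ^ 4 * e ^ 2 -
      15 * Z * w ^ 4 * e - 32 * Z * w ^ 4) * he + (X * w ^ 5 * e ^ 5 - 49 * X * w ^ 5 * e ^ 4 + 14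
      * X * w ^ 4 * e ^ 5 - 23 * X * w ^ 4 * e ^ 4 + X * w ^ 2 * e ^ 2 - X * w ^ 2 * e + 5 * X * w
      * e ^ 2 + X * w * e - 40 * w ^ 5 * e ^ 4 + 11 * w ^ 4 * e ^ 5 - 20 * w ^ 4 * e ^ 4 + w * e)
      * hZ
  · linear_combination (-2048 * Z * X ^ 2 * w ^ 9 * e - 15872 * Z * X ^ 2 * w ^ 8 * e - 512 * Z
      * X ^ 2 * w ^ 8 - 53760 * Z * X ^ 2 * w ^ 7 * e - 3712 * Z * X ^ 2 * w ^ 7 - 105824 * Z * X
      ^ 2 * w ^ 6 * e - 11552 * Z * X ^ 2 * w ^ 6 - 135272 * Z * X ^ 2 * w ^ 5 * e - 20464 * Z * X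
      ^ 2 * w ^ 5 - 117790 * Z * X ^ 2 * w ^ 4 * e - 22974 * Z * X ^ 2 * w ^ 4 - 70199 * Z * X ^ 2
      * w ^ 3 * e - 17000 * Z * X ^ 2 * w ^ 3 - 27585 * Z * X ^ 2 * w ^ 2 * e - 8126 * Z * X ^ 2 *
      w ^ 2 - 6483 * Z * X ^ 2 * w * e - 2276 * Z * X ^ 2 * w - 691 * Z * X ^ 2 * e - 288 * Z * X
      ^ 2 - 2048 * Z * X * w ^ 8 * e - 12032 * Z * X * w ^ 7 * e - 512 * Z * X * w ^ 7 - 31360 * Z
      * X * w ^ 6 * e - 2752 * Z * X * w ^ 6 - 48096 * Z * X * w ^ 5 * e - 6432 * Z * X * w ^ 5 -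
      48104 * Z * X * w ^ 4 * e - 8652 * Z * X * w ^ 4 - 32320 * Z * X * w ^ 3 * e - 7378 * Z * X
      * w ^ 3 - 14232 * Z * X * w ^ 2 * e - 4020 * Z * X * w ^ 2 - 3746 * Z * X * w * e - 1288 * Z
      * X * w - 450 * Z * X * e - 186 * Z * X - 256 * Z * w ^ 6 * e - 1280 * Z * w ^ 5 * e - 64 *
      Z * w ^ 5 - 2640 * Z * w ^ 4 * e - 288 * Z * w ^ 4 - 2880 * Z * w ^ 3 * e - 512 * Z * w ^ 3
      - 1759 * Z * w ^ 2 * e - 448 * Z * w ^ 2 - 573 * Z * w * e - 192 * Z * w - 78 * Z * e - 32 *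
      Z) * hw + (-512 * Z * X ^ 2 * w ^ 10 - 128 * Z * X ^ 2 * w ^ 9 * e - 4224 * Z * X ^ 2 * w ^
      9 - 32 * Z * X ^ 2 * w ^ 8 * e ^ 2 - 992 * Z * X ^ 2 * w ^ 8 * e - 15776 * Z * X ^ 2 * w ^ 8
      - 8 * Z * X ^ 2 * w ^ 7 * e ^ 3 - 232 * Z * X ^ 2 * w ^ 7 * e ^ 2 - 3440 * Z * X ^ 2 * w ^ 7
      * e - 35728 * Z * X ^ 2 * w ^ 7 - 2 * Z * X ^ 2 * w ^ 6 * e ^ 4 - 54 * Z * X ^ 2 * w ^ 6 * e
      ^ 3 - 742 * Z * X ^ 2 * w ^ 6 * e ^ 2 - 7154 * Z * X ^ 2 * w ^ 6 * e - 54990 * Z * X ^ 2 * w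
      ^ 6 - 37 * Z * X ^ 2 * w ^ 5 * e ^ 4 - 158 * Z * X ^ 2 * w ^ 5 * e ^ 3 - 1404 * Z * X ^ 2 *
      w ^ 5 * e ^ 2 - 9985 * Z * X ^ 2 * w ^ 5 * e - 60438 * Z * X ^ 2 * w ^ 5 - 142 * Z * X ^ 2 *
      w ^ 4 * e ^ 4 - 305 * Z * X ^ 2 * w ^ 4 * e ^ 3 - 1752 * Z * X ^ 2 * w ^ 4 * e ^ 2 - 9766 *
      Z * X ^ 2 * w ^ 4 * e - 48100 * Z * X ^ 2 * w ^ 4 - 238 * Z * X ^ 2 * w ^ 3 * e ^ 4 - 446 *
      Z * X ^ 2 * w ^ 3 * e ^ 3 - 1482 * Z * X ^ 2 * w ^ 3 * e ^ 2 - 6704 * Z * X ^ 2 * w ^ 3 * e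
      - 27402 * Z * X ^ 2 * w ^ 3 - 202 * Z * X ^ 2 * w ^ 2 * e ^ 4 - 446 * Z * X ^ 2 * w ^ 2 * e
      ^ 3 - 820 * Z * X ^ 2 * w ^ 2 * e ^ 2 - 3128 * Z * X ^ 2 * w ^ 2 * e - 10690 * Z * X ^ 2 * w
      ^ 2 - 85 * Z * X ^ 2 * w * e ^ 4 - 252 * Z * X ^ 2 * w * e ^ 3 - 266 * Z * X ^ 2 * w * e ^ 2
      - 902 * Z * X ^ 2 * w * e - 2564 * Z * X ^ 2 * w - 14 * Z * X ^ 2 * e ^ 4 - 59 * Z * X ^ 2 *
      e ^ 3 - 38 * Z * X ^ 2 * e ^ 2 - 119 * Z * X ^ 2 * e - 288 * Z * X ^ 2 - 512 * Z * X * w ^ 9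
      - 128 * Z * X * w ^ 8 * e - 3264 * Z * X * w ^ 8 - 32 * Z * X * w ^ 7 * e ^ 2 - 752 * Z * X
      * w ^ 7 * e - 9696 * Z * X * w ^ 7 - 8 * Z * X * w ^ 6 * e ^ 3 - 172 * Z * X * w ^ 6 * e ^ 2
      - 2040 * Z * X * w ^ 6 * e - 17836 * Z * X * w ^ 6 - 22 * Z * X * w ^ 5 * e ^ 4 - 39 * Z * X
      * w ^ 5 * e ^ 3 - 422 * Z * X * w ^ 5 * e ^ 2 - 3396 * Z * X * w ^ 5 * e - 22462 * Z * X * w
      ^ 5 - 99 * Z * X * w ^ 4 * e ^ 4 - 127 * Z * X * w ^ 4 * e ^ 3 - 626 * Z * X * w ^ 4 * e ^ 2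
      - 3812 * Z * X * w ^ 4 * e - 20050 * Z * X * w ^ 4 - 176 * Z * X * w ^ 3 * e ^ 4 - 284 * Z *
      X * w ^ 3 * e ^ 3 - 602 * Z * X * w ^ 3 * e ^ 2 - 2950 * Z * X * w ^ 3 * e - 12686 * Z * X *
      w ^ 3 - 154 * Z * X * w ^ 2 * e ^ 4 - 360 * Z * X * w ^ 2 * e ^ 3 - 362 * Z * X * w ^ 2 * e
      ^ 2 - 1546 * Z * X * w ^ 2 * e - 5494 * Z * X * w ^ 2 - 66 * Z * X * w * e ^ 4 - 229 * Z * X
      * w * e ^ 3 - 120 * Z * X * w * e ^ 2 - 510 * Z * X * w * e - 1474 * Z * X * w - 11 * Z * X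
      * e ^ 4 - 57 * Z * X * e ^ 3 - 16 * Z * X * e ^ 2 - 82 * Z * X * e - 186 * Z * X - 64 * Z *
      w ^ 7 - 16 * Z * w ^ 6 * e - 352 * Z * w ^ 6 - 4 * Z * w ^ 5 * e ^ 2 - 80 * Z * w ^ 5 * e -
      864 * Z * w ^ 5 - 11 * Z * w ^ 4 * e ^ 3 - 18 * Z * w ^ 4 * e ^ 2 - 175 * Z * w ^ 4 * e -
      1248 * Z * w ^ 4 - 44 * Z * w ^ 3 * e ^ 3 - 32 * Z * w ^ 3 * e ^ 2 - 220 * Z * w ^ 3 * e -
      1152 * Z * w ^ 3 - 66 * Z * w ^ 2 * e ^ 3 - 28 * Z * w ^ 2 * e ^ 2 - 170 * Z * w ^ 2 * e -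
      672 * Z * w ^ 2 - 44 * Z * w * e ^ 3 - 12 * Z * w * e ^ 2 - 76 * Z * w * e - 224 * Z * w -
      11 * Z * e ^ 3 - 2 * Z * e ^ 2 - 15 * Z * e - 32 * Z) * he + (X * w ^ 5 * e ^ 5 - 49 * X * w
      ^ 5 * e ^ 4 + 18 * X * w ^ 4 * e ^ 5 - 219 * X * w ^ 4 * e ^ 4 + 62 * X * w ^ 3 * e ^ 5 -
      386 * X * w ^ 3 * e ^ 4 + 88 * X * w ^ 2 * e ^ 5 - 334 * X * w ^ 2 * e ^ 4 - X * w ^ 2 * e +
      57 * X * w * e ^ 5 - 141 * X * w * e ^ 4 + 3 * X * w * e ^ 2 - 3 * X * w * e + 14 * X * e ^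
      5 - 23 * X * e ^ 4 + 3 * X * e ^ 2 - 2 * X * e - 40 * w ^ 5 * e ^ 4 + 11 * w ^ 4 * e ^ 5 -
      180 * w ^ 4 * e ^ 4 + 44 * w ^ 3 * e ^ 5 - 320 * w ^ 3 * e ^ 4 + 66 * w ^ 2 * e ^ 5 - 280 *
      w ^ 2 * e ^ 4 + 44 * w * e ^ 5 - 120 * w * e ^ 4 - w * e + 11 * e ^ 5 - 20 * e ^ 4 - e) * hZ
  · linear_combination (-2048 * Z * X ^ 2 * w ^ 5 * e - 3584 * Z * X ^ 2 * w ^ 4 * e - 512 * Z *
      X ^ 2 * w ^ 4 + 3072 * Z * X ^ 2 * w ^ 3 * e - 640 * Z * X ^ 2 * w ^ 3 + 7328 * Z * X ^ 2 *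
      w ^ 2 * e + 1120 * Z * X ^ 2 * w ^ 2 + 4568 * Z * X ^ 2 * w * e + 1296 * Z * X ^ 2 * w + 978
      * Z * X ^ 2 * e + 410 * Z * X ^ 2 + 1024 * Z * X * w ^ 4 * e + 6016 * Z * X * w ^ 3 * e +
      256 * Z * X * w ^ 3 + 7040 * Z * X * w ^ 2 * e + 1376 * Z * X * w ^ 2 + 3552 * Z * X * w * e
      + 1056 * Z * X * w + 668 * Z * X * e + 282 * Z * X - 256 * Z * w ^ 2 * e - 256 * Z * w * e -
      64 * Z * w - 80 * Z * e - 32 * Z) * hw + (-512 * Z * X ^ 2 * w ^ 6 - 128 * Z * X ^ 2 * w ^ 5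
      * e - 1152 * Z * X ^ 2 * w ^ 5 - 32 * Z * X ^ 2 * w ^ 4 * e ^ 2 - 224 * Z * X ^ 2 * w ^ 4 *
      e - 32 * Z * X ^ 2 * w ^ 4 - 8 * Z * X ^ 2 * w ^ 3 * e ^ 3 - 40 * Z * X ^ 2 * w ^ 3 * e ^ 2
      + 112 * Z * X ^ 2 * w ^ 3 * e + 1776 * Z * X ^ 2 * w ^ 3 - 2 * Z * X ^ 2 * w ^ 2 * e ^ 4 - 6
      * Z * X ^ 2 * w ^ 2 * e ^ 3 + 50 * Z * X ^ 2 * w ^ 2 * e ^ 2 + 398 * Z * X ^ 2 * w ^ 2 * e +
      2826 * Z * X ^ 2 * w ^ 2 - 29 * Z * X ^ 2 * w * e ^ 4 + 18 * Z * X ^ 2 * w * e ^ 3 + 76 * Z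
      * X ^ 2 * w * e ^ 2 + 497 * Z * X ^ 2 * w * e + 1706 * Z * X ^ 2 * w - 14 * Z * X ^ 2 * e ^
      4 - 31 * Z * X ^ 2 * e ^ 3 + 81 * Z * X ^ 2 * e ^ 2 + 164 * Z * X ^ 2 * e + 410 * Z * X ^ 2
      + 256 * Z * X * w ^ 5 + 64 * Z * X * w ^ 4 * e + 1632 * Z * X * w ^ 4 + 16 * Z * X * w ^ 3 *
      e ^ 2 + 376 * Z * X * w ^ 3 * e + 2688 * Z * X * w ^ 3 + 4 * Z * X * w ^ 2 * e ^ 3 + 86 * Z
      * X * w ^ 2 * e ^ 2 + 480 * Z * X * w ^ 2 * e + 2714 * Z * X * w ^ 2 - 22 * Z * X * w * e ^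
      4 + 21 * Z * X * w * e ^ 3 + 76 * Z * X * w * e ^ 2 + 417 * Z * X * w * e + 1338 * Z * X * w
      - 11 * Z * X * e ^ 4 - 37 * Z * X * e ^ 3 + 65 * Z * X * e ^ 2 + 109 * Z * X * e + 282 * Z *
      X - 64 * Z * w ^ 3 - 16 * Z * w ^ 2 * e - 96 * Z * w ^ 2 - 4 * Z * w * e ^ 2 - 16 * Z * w *
      e - 96 * Z * w - 11 * Z * e ^ 3 - 2 * Z * e ^ 2 - 15 * Z * e - 32 * Z) * he + (X * w * e ^ 5
      - 49 * X * w * e ^ 4 + 8 * X * w * e ^ 2 + 14 * X * e ^ 5 - 23 * X * e ^ 4 + 4 * X * e ^ 2 +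
      3 * X * e - 40 * w * e ^ 4 + 11 * e ^ 5 - 20 * e ^ 4 + e) * hZ
  · linear_combination (-38928384 * Z * X ^ 2 * w ^ 11 * e - 136216576 * Z * X ^ 2 * w ^ 10 * e
      - 9732096 * Z * X ^ 2 * w ^ 10 - 218632192 * Z * X ^ 2 * w ^ 9 * e - 29188096 * Z * X ^ 2 *
      w ^ 9 - 206119936 * Z * X ^ 2 * w ^ 8 * e - 39455744 * Z * X ^ 2 * w ^ 8 - 122533632 * Z * X
      ^ 2 * w ^ 7 * e - 30281984 * Z * X ^ 2 * w ^ 7 - 45782016 * Z * X ^ 2 * w ^ 6 * e - 13824512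
      * Z * X ^ 2 * w ^ 6 - 9953888 * Z * X ^ 2 * w ^ 5 * e - 3550576 * Z * X ^ 2 * w ^ 5 - 981324
      * Z * X ^ 2 * w ^ 4 * e - 404356 * Z * X ^ 2 * w ^ 4 - 2527 * Z * X ^ 2 * w ^ 3 * e - 1577 *
      Z * X ^ 2 * w ^ 3 + 1414 * Z * X ^ 2 * w ^ 2 * e + 362 * Z * X ^ 2 * w ^ 2 + 353 * Z * X ^ 2
      * w * e + 150 * Z * X ^ 2 * w - 63569920 * Z * X * w ^ 11 * e - 222494720 * Z * X * w ^ 10 *
      e - 15892480 * Z * X * w ^ 10 - 357212160 * Z * X * w ^ 9 * e - 47677440 * Z * X * w ^ 9 -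
      336855040 * Z * X * w ^ 8 * e - 64471040 * Z * X * w ^ 8 - 200287744 * Z * X * w ^ 7 * e -
      49495040 * Z * X * w ^ 7 - 74827264 * Z * X * w ^ 6 * e - 22598656 * Z * X * w ^ 6 -
      16251072 * Z * X * w ^ 5 * e - 5801088 * Z * X * w ^ 5 - 1593888 * Z * X * w ^ 4 * e -
      657408 * Z * X * w ^ 4 - 4890 * Z * X * w ^ 3 * e - 1988 * Z * X * w ^ 3 - 120 * Z * X * w ^
      2 * e - 19 * Z * X * w ^ 2 - 57 * Z * X * w * e - 23 * Z * X * w - 25952256 * Z * w ^ 11 * e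
      - 90832896 * Z * w ^ 10 * e - 6488064 * Z * w ^ 10 - 145817600 * Z * w ^ 9 * e - 19464192 *
      Z * w ^ 9 - 137461760 * Z * w ^ 8 * e - 26316800 * Z * w ^ 8 - 81665024 * Z * w ^ 7 * e -
      20193280 * Z * w ^ 7 - 30452224 * Z * w ^ 6 * e - 9207040 * Z * w ^ 6 - 6582528 * Z * w ^ 5
      * e - 2354432 * Z * w ^ 5 - 635264 * Z * w ^ 4 * e - 263136 * Z * w ^ 4 + 4 * Z * w ^ 3 * e
      - 2 * Z * w ^ 2 * e + Z * w ^ 2 - 2 * Z * w * e - Z * w) * hw + (-9732096 * Z * X ^ 2 * w ^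
      12 - 2433024 * Z * X ^ 2 * w ^ 11 * e - 38920192 * Z * X ^ 2 * w ^ 11 - 608256 * Z * X ^ 2 *
      w ^ 10 * e ^ 2 - 8513536 * Z * X ^ 2 * w ^ 10 * e - 78375936 * Z * X ^ 2 * w ^ 10 - 152064 *
      Z * X ^ 2 * w ^ 9 * e ^ 3 - 1824256 * Z * X ^ 2 * w ^ 9 * e ^ 2 - 15185152 * Z * X ^ 2 * w ^
      9 * e - 98925824 * Z * X ^ 2 * w ^ 9 - 38016 * Z * X ^ 2 * w ^ 8 * e ^ 4 - 380032 * Z * X ^
      2 * w ^ 8 * e ^ 3 - 2846144 * Z * X ^ 2 * w ^ 8 * e ^ 2 - 16682816 * Z * X ^ 2 * w ^ 8 * e -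
      83562240 * Z * X ^ 2 * w ^ 8 - 9504 * Z * X ^ 2 * w ^ 7 * e ^ 5 - 76000 * Z * X ^ 2 * w ^ 7
      * e ^ 4 - 512016 * Z * X ^ 2 * w ^ 7 * e ^ 3 - 2652624 * Z * X ^ 2 * w ^ 7 * e ^ 2 -
      11837616 * Z * X ^ 2 * w ^ 7 * e - 47657072 * Z * X ^ 2 * w ^ 7 - 2376 * Z * X ^ 2 * w ^ 6 *
      e ^ 6 - 14248 * Z * X ^ 2 * w ^ 6 * e ^ 5 - 87628 * Z * X ^ 2 * w ^ 6 * e ^ 4 - 388148 * Z *
      X ^ 2 * w ^ 6 * e ^ 3 - 1505088 * Z * X ^ 2 * w ^ 6 * e ^ 2 - 5332304 * Z * X ^ 2 * w ^ 6 *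
      e - 17779444 * Z * X ^ 2 * w ^ 6 - 594 * Z * X ^ 2 * w ^ 5 * e ^ 7 - 2374 * Z * X ^ 2 * w ^
      5 * e ^ 6 - 14189 * Z * X ^ 2 * w ^ 5 * e ^ 5 - 49661 * Z * X ^ 2 * w ^ 5 * e ^ 4 - 160291 *
      Z * X ^ 2 * w ^ 5 * e ^ 3 - 483495 * Z * X ^ 2 * w ^ 5 * e ^ 2 - 1402437 * Z * X ^ 2 * w ^ 5
      * e - 3956509 * Z * X ^ 2 * w ^ 5 - 297 * Z * X ^ 2 * w ^ 4 * e ^ 7 - 2236 * Z * X ^ 2 * w ^
      4 * e ^ 6 - 4715 * Z * X ^ 2 * w ^ 4 * e ^ 5 - 11695 * Z * X ^ 2 * w ^ 4 * e ^ 4 - 28313 * Z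
      * X ^ 2 * w ^ 4 * e ^ 3 - 68789 * Z * X ^ 2 * w ^ 4 * e ^ 2 - 167035 * Z * X ^ 2 * w ^ 4 * e
      - 405571 * Z * X ^ 2 * w ^ 4 - 52 * Z * X ^ 2 * w ^ 3 * e ^ 6 - 13 * Z * X ^ 2 * w ^ 3 * e ^
      5 - 52 * Z * X ^ 2 * w ^ 3 * e ^ 4 - 117 * Z * X ^ 2 * w ^ 3 * e ^ 3 - 286 * Z * X ^ 2 * w ^
      3 * e ^ 2 - 678 * Z * X ^ 2 * w ^ 3 * e - 1065 * Z * X ^ 2 * w ^ 3 + 3 * Z * X ^ 2 * w ^ 2 *
      e ^ 2 + 143 * Z * X ^ 2 * w ^ 2 * e + 512 * Z * X ^ 2 * w ^ 2 + 42 * Z * X ^ 2 * w * e ^ 2 +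
      53 * Z * X ^ 2 * w * e + 150 * Z * X ^ 2 * w - 15892480 * Z * X * w ^ 12 - 3973120 * Z * X *
      w ^ 11 * e - 63569920 * Z * X * w ^ 11 - 993280 * Z * X * w ^ 10 * e ^ 2 - 13905920 * Z * X
      * w ^ 10 * e - 128040960 * Z * X * w ^ 10 - 248320 * Z * X * w ^ 9 * e ^ 3 - 2979840 * Z * X
      * w ^ 9 * e ^ 2 - 24808960 * Z * X * w ^ 9 * e - 161643520 * Z * X * w ^ 9 - 62080 * Z * X *
      w ^ 8 * e ^ 4 - 620800 * Z * X * w ^ 8 * e ^ 3 - 4650240 * Z * X * w ^ 8 * e ^ 2 - 27261440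
      * Z * X * w ^ 8 * e - 136564736 * Z * X * w ^ 8 - 15520 * Z * X * w ^ 7 * e ^ 5 - 124160 * Z
      * X * w ^ 7 * e ^ 4 - 836640 * Z * X * w ^ 7 * e ^ 3 - 4335040 * Z * X * w ^ 7 * e ^ 2 -
      19347904 * Z * X * w ^ 7 * e - 77894784 * Z * X * w ^ 7 - 3880 * Z * X * w ^ 6 * e ^ 6 -
      23280 * Z * X * w ^ 6 * e ^ 5 - 143200 * Z * X * w ^ 6 * e ^ 4 - 634400 * Z * X * w ^ 6 * e
      ^ 3 - 2460296 * Z * X * w ^ 6 * e ^ 2 - 8715984 * Z * X * w ^ 6 * e - 29057152 * Z * X * w ^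
      6 - 970 * Z * X * w ^ 5 * e ^ 7 - 3880 * Z * X * w ^ 5 * e ^ 6 - 23190 * Z * X * w ^ 5 * e ^
      5 - 81180 * Z * X * w ^ 5 * e ^ 4 - 262074 * Z * X * w ^ 5 * e ^ 3 - 790248 * Z * X * w ^ 5
      * e ^ 2 - 2291222 * Z * X * w ^ 5 * e - 6460484 * Z * X * w ^ 5 - 485 * Z * X * w ^ 4 * e ^
      7 - 3635 * Z * X * w ^ 4 * e ^ 6 - 7720 * Z * X * w ^ 4 * e ^ 5 - 19131 * Z * X * w ^ 4 * e
      ^ 4 - 46230 * Z * X * w ^ 4 * e ^ 3 - 112163 * Z * X * w ^ 4 * e ^ 2 - 271948 * Z * X * w ^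
      4 * e - 659415 * Z * X * w ^ 4 - 44 * Z * X * w ^ 3 * e ^ 6 - 19 * Z * X * w ^ 3 * e ^ 5 -
      62 * Z * X * w ^ 3 * e ^ 4 - 143 * Z * X * w ^ 3 * e ^ 3 - 348 * Z * X * w ^ 3 * e ^ 2 - 839
      * Z * X * w ^ 3 * e - 2030 * Z * X * w ^ 3 - Z * X * w ^ 2 * e - 42 * Z * X * w ^ 2 - 11 * Z
      * X * w * e - 23 * Z * X * w - 6488064 * Z * w ^ 12 - 1622016 * Z * w ^ 11 * e - 25952256 *
      Z * w ^ 11 - 405504 * Z * w ^ 10 * e ^ 2 - 5677056 * Z * w ^ 10 * e - 52269056 * Z * w ^ 10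
      - 101376 * Z * w ^ 9 * e ^ 3 - 1216512 * Z * w ^ 9 * e ^ 2 - 10127360 * Z * w ^ 9 * e -
      65974272 * Z * w ^ 9 - 25344 * Z * w ^ 8 * e ^ 4 - 253440 * Z * w ^ 8 * e ^ 3 - 1898240 * Z
      * w ^ 8 * e ^ 2 - 11125760 * Z * w ^ 8 * e - 55717120 * Z * w ^ 8 - 6336 * Z * w ^ 7 * e ^ 5
      - 50688 * Z * w ^ 7 * e ^ 4 - 341504 * Z * w ^ 7 * e ^ 3 - 1768960 * Z * w ^ 7 * e ^ 2 -
      7891840 * Z * w ^ 7 * e - 31754752 * Z * w ^ 7 - 1584 * Z * w ^ 6 * e ^ 6 - 9504 * Z * w ^ 6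
      * e ^ 5 - 58448 * Z * w ^ 6 * e ^ 4 - 258816 * Z * w ^ 6 * e ^ 3 - 1003104 * Z * w ^ 6 * e ^
      2 - 3550528 * Z * w ^ 6 * e - 11824608 * Z * w ^ 6 - 396 * Z * w ^ 5 * e ^ 7 - 1584 * Z * w
      ^ 5 * e ^ 6 - 9464 * Z * w ^ 5 * e ^ 5 - 33104 * Z * w ^ 5 * e ^ 4 - 106756 * Z * w ^ 5 * e
      ^ 3 - 321376 * Z * w ^ 5 * e ^ 2 - 930112 * Z * w ^ 5 * e - 2617568 * Z * w ^ 5 - 198 * Z *
      w ^ 4 * e ^ 7 - 1475 * Z * w ^ 4 * e ^ 6 - 3148 * Z * w ^ 4 * e ^ 5 - 7771 * Z * w ^ 4 * e ^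
      4 - 18690 * Z * w ^ 4 * e ^ 3 - 45151 * Z * w ^ 4 * e ^ 2 - 108992 * Z * w ^ 4 * e - 263135
      * Z * w ^ 4 - Z * w) * he + (X * w ^ 2 * e ^ 3 - 5 * X * w ^ 2 * e ^ 2 + 14 * X * w * e ^ 3
      - X * w * e ^ 2 + w * e ^ 2) * hZ

theorem w5_row : ∀ j, j ≤ 4 → w5t w e j * w5G w e X Z i j 4 = w5t w e j ^ 4 * w5H w e X Z i j 4 := by
  intro j hj
  interval_cases j <;> simp only [w5t, w5G, w5H, sq5]
  · ring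
  · linear_combination (256 * X * w ^ 7 * e + 1088 * X * w ^ 6 * e + 64 * X * w ^ 6 + 1616 * X *
      w ^ 5 * e + 240 * X * w ^ 5 + 616 * X * w ^ 4 * e + 280 * X * w ^ 4 - 847 * X * w ^ 3 * e +
      X * w ^ 3 - 998 * X * w ^ 2 * e - 223 * X * w ^ 2 - 357 * X * w * e - 132 * X * w - 38 * X *
      e - 12 * X - 256 * w ^ 6 * e - 1280 * w ^ 5 * e - 64 * w ^ 5 - 2640 * w ^ 4 * e - 288 * w ^
      4 - 2880 * w ^ 3 * e - 512 * w ^ 3 - 1759 * w ^ 2 * e - 448 * w ^ 2 - 573 * w * e - 192 * w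
      - 78 * e - 32) * hw + (64 * X * w ^ 8 + 16 * X * w ^ 7 * e + 304 * X * w ^ 7 + 4 * X * w ^ 6
      * e ^ 2 + 68 * X * w ^ 6 * e + 584 * X * w ^ 6 + X * w ^ 5 * e ^ 3 + 15 * X * w ^ 5 * e ^ 2
      + 111 * X * w ^ 5 * e + 521 * X * w ^ 5 - 9 * X * w ^ 4 * e ^ 3 + 20 * X * w ^ 4 * e ^ 2 +
      71 * X * w ^ 4 * e + 58 * X * w ^ 4 - 46 * X * w ^ 3 * e ^ 3 + 10 * X * w ^ 3 * e ^ 2 - 26 *
      X * w ^ 3 * e - 354 * X * w ^ 3 - 74 * X * w ^ 2 * e ^ 3 - 78 * X * w ^ 2 * e - 367 * X * w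
      ^ 2 - 51 * X * w * e ^ 3 - X * w * e ^ 2 - 53 * X * w * e - 144 * X * w - 13 * X * e ^ 3 -
      13 * X * e - 12 * X - 64 * w ^ 7 - 16 * w ^ 6 * e - 352 * w ^ 6 - 4 * w ^ 5 * e ^ 2 - 80 * w
      ^ 5 * e - 864 * w ^ 5 - 11 * w ^ 4 * e ^ 3 - 18 * w ^ 4 * e ^ 2 - 175 * w ^ 4 * e - 1248 * w
      ^ 4 - 44 * w ^ 3 * e ^ 3 - 32 * w ^ 3 * e ^ 2 - 220 * w ^ 3 * e - 1152 * w ^ 3 - 66 * w ^ 2
      * e ^ 3 - 28 * w ^ 2 * e ^ 2 - 170 * w ^ 2 * e - 672 * w ^ 2 - 44 * w * e ^ 3 - 12 * w * e ^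
      2 - 76 * w * e - 224 * w - 11 * e ^ 3 - 2 * e ^ 2 - 15 * e - 32) * he
  · linear_combination (256 * X * w ^ 7 * e + 64 * X * w ^ 6 * e + 64 * X * w ^ 6 - 176 * X * w
      ^ 5 * e - 16 * X * w ^ 5 - 88 * X * w ^ 4 * e - 40 * X * w ^ 4 + 49 * X * w ^ 3 * e + X * w
      ^ 3 - 26 * X * w ^ 2 * e + 13 * X * w ^ 2 - 27 * X * w * e - 14 * X * w - 256 * w ^ 6 * e -
      256 * w ^ 5 * e - 64 * w ^ 5 - 80 * w ^ 4 * e - 32 * w ^ 4 + w ^ 2 * e - w * e) * hw + (64 *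
      X * w ^ 8 + 16 * X * w ^ 7 * e + 48 * X * w ^ 7 + 4 * X * w ^ 6 * e ^ 2 + 4 * X * w ^ 6 * e
      + 8 * X * w ^ 6 + X * w ^ 5 * e ^ 3 - X * w ^ 5 * e ^ 2 - X * w ^ 5 * e - 55 * X * w ^ 5 -
      13 * X * w ^ 4 * e ^ 3 - 13 * X * w ^ 4 * e - 26 * X * w ^ 4 - X * w ^ 2 - 14 * X * w - 64 *
      w ^ 7 - 16 * w ^ 6 * e - 96 * w ^ 6 - 4 * w ^ 5 * e ^ 2 - 16 * w ^ 5 * e - 96 * w ^ 5 - 11 *
      w ^ 4 * e ^ 3 - 2 * w ^ 4 * e ^ 2 - 15 * w ^ 4 * e - 32 * w ^ 4) * he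
  · linear_combination (256 * X * w ^ 3 * e + 64 * X * w ^ 2 * e + 64 * X * w ^ 2 - 176 * X * w
      * e - 16 * X * w - 92 * X * e - 40 * X - 256 * w ^ 2 * e - 256 * w * e - 64 * w - 80 * e -
      32) * hw + (64 * X * w ^ 4 + 16 * X * w ^ 3 * e + 48 * X * w ^ 3 + 4 * X * w ^ 2 * e ^ 2 + 4
      * X * w ^ 2 * e + 8 * X * w ^ 2 + X * w * e ^ 3 - X * w * e ^ 2 - X * w * e - 56 * X * w -
      13 * X * e ^ 3 - 13 * X * e - 40 * X - 64 * w ^ 3 - 16 * w ^ 2 * e - 96 * w ^ 2 - 4 * w * e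
      ^ 2 - 16 * w * e - 96 * w - 11 * e ^ 3 - 2 * e ^ 2 - 15 * e - 32) * he
  · linear_combination (38928384 * Z * X ^ 2 * w ^ 15 * e + 136249344 * Z * X ^ 2 * w ^ 14 * e +
      9732096 * Z * X ^ 2 * w ^ 14 + 218750976 * Z * X ^ 2 * w ^ 13 * e + 29196288 * Z * X ^ 2 * w
      ^ 13 + 206254080 * Z * X ^ 2 * w ^ 12 * e + 39481344 * Z * X ^ 2 * w ^ 12 + 122549760 * Z *
      X ^ 2 * w ^ 11 * e + 30302208 * Z * X ^ 2 * w ^ 11 + 45695232 * Z * X ^ 2 * w ^ 10 * e +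
      13817088 * Z * X ^ 2 * w ^ 10 + 9882432 * Z * X ^ 2 * w ^ 9 * e + 3532032 * Z * X ^ 2 * w ^
      9 + 956448 * Z * X ^ 2 * w ^ 8 * e + 396576 * Z * X ^ 2 * w ^ 8 - 5886 * Z * X ^ 2 * w ^ 7 *
      e + 2943 * Z * X ^ 2 * w ^ 6 * e - 1620 * Z * X ^ 2 * w ^ 6 + 2943 * Z * X ^ 2 * w ^ 5 * e +
      1620 * Z * X ^ 2 * w ^ 5 - 5886 * Z * X ^ 2 * w ^ 4 * e - 6561 * Z * X ^ 2 * w ^ 3 * e -
      1620 * Z * X ^ 2 * w ^ 3 - 1809 * Z * X ^ 2 * w ^ 2 * e - 756 * Z * X ^ 2 * w ^ 2 + 63569920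
      * Z * X * w ^ 15 * e + 222494720 * Z * X * w ^ 14 * e + 15892480 * Z * X * w ^ 14 +
      357179392 * Z * X * w ^ 13 * e + 47677440 * Z * X * w ^ 13 + 336711680 * Z * X * w ^ 12 * e
      + 64462848 * Z * X * w ^ 12 + 200037888 * Z * X * w ^ 11 * e + 49463296 * Z * X * w ^ 11 +
      74592512 * Z * X * w ^ 10 * e + 22552576 * Z * X * w ^ 10 + 16123840 * Z * X * w ^ 9 * e +
      5767168 * Z * X * w ^ 9 + 1556064 * Z * X * w ^ 8 * e + 644544 * Z * X * w ^ 8 + 10 * Z * X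
      * w ^ 7 * e - 5 * Z * X * w ^ 6 * e + 3 * Z * X * w ^ 6 - 5 * Z * X * w ^ 5 * e - 3 * Z * X
      * w ^ 5 + 10 * Z * X * w ^ 4 * e + 27 * Z * X * w ^ 3 * e + 3 * Z * X * w ^ 3 + 11 * Z * X *
      w ^ 2 * e + 5 * Z * X * w ^ 2 + 25952256 * Z * w ^ 15 * e + 90832896 * Z * w ^ 14 * e +
      6488064 * Z * w ^ 14 + 145817600 * Z * w ^ 13 * e + 19464192 * Z * w ^ 13 + 137461760 * Z *
      w ^ 12 * e + 26316800 * Z * w ^ 12 + 81665024 * Z * w ^ 11 * e + 20193280 * Z * w ^ 11 +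
      30452224 * Z * w ^ 10 * e + 9207040 * Z * w ^ 10 + 6582528 * Z * w ^ 9 * e + 2354432 * Z * w
      ^ 9 + 635264 * Z * w ^ 8 * e + 263136 * Z * w ^ 8 - 4 * Z * w ^ 7 * e + 2 * Z * w ^ 6 * e -
      Z * w ^ 6 + 2 * Z * w ^ 5 * e + Z * w ^ 5 - 4 * Z * w ^ 4 * e + 2 * Z * w ^ 3 * e - Z * w ^
      3 + 2 * Z * w ^ 2 * e + Z * w ^ 2) * hw + (9732096 * Z * X ^ 2 * w ^ 16 + 2433024 * Z * X ^
      2 * w ^ 15 * e + 38928384 * Z * X ^ 2 * w ^ 15 + 608256 * Z * X ^ 2 * w ^ 14 * e ^ 2 +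
      8515584 * Z * X ^ 2 * w ^ 14 * e + 78409728 * Z * X ^ 2 * w ^ 14 + 152064 * Z * X ^ 2 * w ^
      13 * e ^ 3 + 1824768 * Z * X ^ 2 * w ^ 13 * e ^ 2 + 15192576 * Z * X ^ 2 * w ^ 13 * e +
      98979840 * Z * X ^ 2 * w ^ 13 + 38016 * Z * X ^ 2 * w ^ 12 * e ^ 4 + 380160 * Z * X ^ 2 * w
      ^ 12 * e ^ 3 + 2847744 * Z * X ^ 2 * w ^ 12 * e ^ 2 + 16692480 * Z * X ^ 2 * w ^ 12 * e +
      83600640 * Z * X ^ 2 * w ^ 12 + 9504 * Z * X ^ 2 * w ^ 11 * e ^ 5 + 76032 * Z * X ^ 2 * w ^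
      11 * e ^ 4 + 512352 * Z * X ^ 2 * w ^ 11 * e ^ 3 + 2654208 * Z * X ^ 2 * w ^ 11 * e ^ 2 +
      11841984 * Z * X ^ 2 * w ^ 11 * e + 47651328 * Z * X ^ 2 * w ^ 11 + 2376 * Z * X ^ 2 * w ^
      10 * e ^ 6 + 14256 * Z * X ^ 2 * w ^ 10 * e ^ 5 + 87696 * Z * X ^ 2 * w ^ 10 * e ^ 4 +
      388368 * Z * X ^ 2 * w ^ 10 * e ^ 3 + 1505304 * Z * X ^ 2 * w ^ 10 * e ^ 2 + 5328288 * Z * X
      ^ 2 * w ^ 10 * e + 17745696 * Z * X ^ 2 * w ^ 10 + 594 * Z * X ^ 2 * w ^ 9 * e ^ 7 + 2376 *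
      Z * X ^ 2 * w ^ 9 * e ^ 6 + 14202 * Z * X ^ 2 * w ^ 9 * e ^ 5 + 49680 * Z * X ^ 2 * w ^ 9 *
      e ^ 4 + 160218 * Z * X ^ 2 * w ^ 9 * e ^ 3 + 482328 * Z * X ^ 2 * w ^ 9 * e ^ 2 + 1395954 *
      Z * X ^ 2 * w ^ 9 * e + 3928608 * Z * X ^ 2 * w ^ 9 + 297 * Z * X ^ 2 * w ^ 8 * e ^ 7 + 2214
      * Z * X ^ 2 * w ^ 8 * e ^ 6 + 4725 * Z * X ^ 2 * w ^ 8 * e ^ 5 + 11664 * Z * X ^ 2 * w ^ 8 *
      e ^ 4 + 28053 * Z * X ^ 2 * w ^ 8 * e ^ 3 + 67770 * Z * X ^ 2 * w ^ 8 * e ^ 2 + 163593 * Z *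
      X ^ 2 * w ^ 8 * e + 394956 * Z * X ^ 2 * w ^ 8 - 2376 * Z * X ^ 2 * w ^ 4 - 594 * Z * X ^ 2
      * w ^ 3 * e - 2376 * Z * X ^ 2 * w ^ 3 - 297 * Z * X ^ 2 * w ^ 2 * e - 756 * Z * X ^ 2 * w ^
      2 + 15892480 * Z * X * w ^ 16 + 3973120 * Z * X * w ^ 15 * e + 63569920 * Z * X * w ^ 15 +
      993280 * Z * X * w ^ 14 * e ^ 2 + 13905920 * Z * X * w ^ 14 * e + 128032768 * Z * X * w ^ 14
      + 248320 * Z * X * w ^ 13 * e ^ 3 + 2979840 * Z * X * w ^ 13 * e ^ 2 + 24806912 * Z * X * w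
      ^ 13 * e + 161603584 * Z * X * w ^ 13 + 62080 * Z * X * w ^ 12 * e ^ 4 + 620800 * Z * X * w
      ^ 12 * e ^ 3 + 4649728 * Z * X * w ^ 12 * e ^ 2 + 27252480 * Z * X * w ^ 12 * e + 136478720
      * Z * X * w ^ 12 + 15520 * Z * X * w ^ 11 * e ^ 5 + 124160 * Z * X * w ^ 11 * e ^ 4 + 836512
      * Z * X * w ^ 11 * e ^ 3 + 4333056 * Z * X * w ^ 11 * e ^ 2 + 19331008 * Z * X * w ^ 11 * e
      + 77783040 * Z * X * w ^ 11 + 3880 * Z * X * w ^ 10 * e ^ 6 + 23280 * Z * X * w ^ 10 * e ^ 5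
      + 143168 * Z * X * w ^ 10 * e ^ 4 + 633968 * Z * X * w ^ 10 * e ^ 3 + 2457096 * Z * X * w ^
      10 * e ^ 2 + 8696992 * Z * X * w ^ 10 * e + 28964288 * Z * X * w ^ 10 + 970 * Z * X * w ^ 9
      * e ^ 7 + 3880 * Z * X * w ^ 9 * e ^ 6 + 23182 * Z * X * w ^ 9 * e ^ 5 + 81088 * Z * X * w ^
      9 * e ^ 4 + 261498 * Z * X * w ^ 9 * e ^ 3 + 787208 * Z * X * w ^ 9 * e ^ 2 + 2278302 * Z *
      X * w ^ 9 * e + 6411712 * Z * X * w ^ 9 + 485 * Z * X * w ^ 8 * e ^ 7 + 3613 * Z * X * w ^ 8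
      * e ^ 6 + 7711 * Z * X * w ^ 8 * e ^ 5 + 19035 * Z * X * w ^ 8 * e ^ 4 + 45781 * Z * X * w ^
      8 * e ^ 3 + 110597 * Z * X * w ^ 8 * e ^ 2 + 266975 * Z * X * w ^ 8 * e + 644547 * Z * X * w
      ^ 8 + 8 * Z * X * w ^ 4 + 2 * Z * X * w ^ 3 * e + 8 * Z * X * w ^ 3 + Z * X * w ^ 2 * e + 5
      * Z * X * w ^ 2 + 6488064 * Z * w ^ 16 + 1622016 * Z * w ^ 15 * e + 25952256 * Z * w ^ 15 +
      405504 * Z * w ^ 14 * e ^ 2 + 5677056 * Z * w ^ 14 * e + 52269056 * Z * w ^ 14 + 101376 * Z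
      * w ^ 13 * e ^ 3 + 1216512 * Z * w ^ 13 * e ^ 2 + 10127360 * Z * w ^ 13 * e + 65974272 * Z *
      w ^ 13 + 25344 * Z * w ^ 12 * e ^ 4 + 253440 * Z * w ^ 12 * e ^ 3 + 1898240 * Z * w ^ 12 * e
      ^ 2 + 11125760 * Z * w ^ 12 * e + 55717120 * Z * w ^ 12 + 6336 * Z * w ^ 11 * e ^ 5 + 50688
      * Z * w ^ 11 * e ^ 4 + 341504 * Z * w ^ 11 * e ^ 3 + 1768960 * Z * w ^ 11 * e ^ 2 + 7891840
      * Z * w ^ 11 * e + 31754752 * Z * w ^ 11 + 1584 * Z * w ^ 10 * e ^ 6 + 9504 * Z * w ^ 10 * e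
      ^ 5 + 58448 * Z * w ^ 10 * e ^ 4 + 258816 * Z * w ^ 10 * e ^ 3 + 1003104 * Z * w ^ 10 * e ^
      2 + 3550528 * Z * w ^ 10 * e + 11824608 * Z * w ^ 10 + 396 * Z * w ^ 9 * e ^ 7 + 1584 * Z *
      w ^ 9 * e ^ 6 + 9464 * Z * w ^ 9 * e ^ 5 + 33104 * Z * w ^ 9 * e ^ 4 + 106756 * Z * w ^ 9 *
      e ^ 3 + 321376 * Z * w ^ 9 * e ^ 2 + 930112 * Z * w ^ 9 * e + 2617568 * Z * w ^ 9 + 198 * Z
      * w ^ 8 * e ^ 7 + 1475 * Z * w ^ 8 * e ^ 6 + 3148 * Z * w ^ 8 * e ^ 5 + 7771 * Z * w ^ 8 * e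
      ^ 4 + 18690 * Z * w ^ 8 * e ^ 3 + 45151 * Z * w ^ 8 * e ^ 2 + 108992 * Z * w ^ 8 * e +
      263135 * Z * w ^ 8 + Z * w ^ 2) * he

theorem w5_col : ∀ k, k ≤ 4 → w5s w e k * w5G w e X Z i 4 k = w5s w e k ^ 4 * w5H w e X Z i 4 k := by
  intro k hk
  interval_cases k <;> simp only [w5s, w5G, w5H, sq5]
  · ring
  · linear_combination (256 * X * w ^ 7 * e + 704 * X * w ^ 6 * e + 64 * X * w ^ 6 + 464 * X * w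
      ^ 5 * e + 144 * X * w ^ 5 + 104 * X * w ^ 4 * e + 40 * X * w ^ 4 + 49 * X * w ^ 3 * e - X *
      w ^ 3 - 23 * X * w ^ 2 * e + 14 * X * w ^ 2 - 22 * X * w * e - 13 * X * w + 256 * w ^ 6 * e
      + 256 * w ^ 5 * e + 64 * w ^ 5 + 80 * w ^ 4 * e + 32 * w ^ 4 - w ^ 2 * e + w * e) * hw + (64
      * X * w ^ 8 + 16 * X * w ^ 7 * e + 208 * X * w ^ 7 + 4 * X * w ^ 6 * e ^ 2 + 44 * X * w ^ 6
      * e + 248 * X * w ^ 6 + X * w ^ 5 * e ^ 3 + 9 * X * w ^ 5 * e ^ 2 + 39 * X * w ^ 5 * e + 183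
      * X * w ^ 5 + 14 * X * w ^ 4 * e ^ 3 + 5 * X * w ^ 4 * e ^ 2 + 24 * X * w ^ 4 * e + 53 * X *
      w ^ 4 + X * w ^ 2 - 13 * X * w + 64 * w ^ 7 + 16 * w ^ 6 * e + 96 * w ^ 6 + 4 * w ^ 5 * e ^
      2 + 16 * w ^ 5 * e + 96 * w ^ 5 + 11 * w ^ 4 * e ^ 3 + 2 * w ^ 4 * e ^ 2 + 15 * w ^ 4 * e +
      32 * w ^ 4) * he
  · linear_combination (256 * X * w ^ 7 * e + 1728 * X * w ^ 6 * e + 64 * X * w ^ 6 + 4816 * X *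
      w ^ 5 * e + 400 * X * w ^ 5 + 7208 * X * w ^ 4 * e + 1000 * X * w ^ 4 + 6321 * X * w ^ 3 * e
      + 1279 * X * w ^ 3 + 3357 * X * w ^ 2 * e + 890 * X * w ^ 2 + 1052 * X * w * e + 341 * X * w
      + 152 * X * e + 66 * X + 256 * w ^ 6 * e + 1280 * w ^ 5 * e + 64 * w ^ 5 + 2640 * w ^ 4 * e
      + 288 * w ^ 4 + 2880 * w ^ 3 * e + 512 * w ^ 3 + 1759 * w ^ 2 * e + 448 * w ^ 2 + 573 * w *
      e + 192 * w + 78 * e + 32) * hw + (64 * X * w ^ 8 + 16 * X * w ^ 7 * e + 464 * X * w ^ 7 + 4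
      * X * w ^ 6 * e ^ 2 + 108 * X * w ^ 6 * e + 1464 * X * w ^ 6 + X * w ^ 5 * e ^ 3 + 25 * X *
      w ^ 5 * e ^ 2 + 311 * X * w ^ 5 * e + 2679 * X * w ^ 5 + 18 * X * w ^ 4 * e ^ 3 + 65 * X * w
      ^ 4 * e ^ 2 + 508 * X * w ^ 4 * e + 3169 * X * w ^ 4 + 62 * X * w ^ 3 * e ^ 3 + 90 * X * w ^
      3 * e ^ 2 + 522 * X * w ^ 3 * e + 2510 * X * w ^ 3 + 88 * X * w ^ 2 * e ^ 3 + 70 * X * w ^ 2
      * e ^ 2 + 344 * X * w ^ 2 * e + 1297 * X * w ^ 2 + 57 * X * w * e ^ 3 + 29 * X * w * e ^ 2 +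
      135 * X * w * e + 407 * X * w + 14 * X * e ^ 3 + 5 * X * e ^ 2 + 24 * X * e + 66 * X + 64 *
      w ^ 7 + 16 * w ^ 6 * e + 352 * w ^ 6 + 4 * w ^ 5 * e ^ 2 + 80 * w ^ 5 * e + 864 * w ^ 5 + 11
      * w ^ 4 * e ^ 3 + 18 * w ^ 4 * e ^ 2 + 175 * w ^ 4 * e + 1248 * w ^ 4 + 44 * w ^ 3 * e ^ 3 +
      32 * w ^ 3 * e ^ 2 + 220 * w ^ 3 * e + 1152 * w ^ 3 + 66 * w ^ 2 * e ^ 3 + 28 * w ^ 2 * e ^
      2 + 170 * w ^ 2 * e + 672 * w ^ 2 + 44 * w * e ^ 3 + 12 * w * e ^ 2 + 76 * w * e + 224 * w +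
      11 * e ^ 3 + 2 * e ^ 2 + 15 * e + 32) * he
  · linear_combination (256 * X * w ^ 3 * e + 704 * X * w ^ 2 * e + 64 * X * w ^ 2 + 464 * X * w
      * e + 144 * X * w + 108 * X * e + 40 * X + 256 * w ^ 2 * e + 256 * w * e + 64 * w + 80 * e +
      32) * hw + (64 * X * w ^ 4 + 16 * X * w ^ 3 * e + 208 * X * w ^ 3 + 4 * X * w ^ 2 * e ^ 2 +
      44 * X * w ^ 2 * e + 248 * X * w ^ 2 + X * w * e ^ 3 + 9 * X * w * e ^ 2 + 39 * X * w * e +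
      184 * X * w + 14 * X * e ^ 3 + 5 * X * e ^ 2 + 24 * X * e + 40 * X + 64 * w ^ 3 + 16 * w ^ 2
      * e + 96 * w ^ 2 + 4 * w * e ^ 2 + 16 * w * e + 96 * w + 11 * e ^ 3 + 2 * e ^ 2 + 15 * e +
      32) * he
  · linear_combination (38928384 * Z * X ^ 2 * w ^ 11 * e + 136249344 * Z * X ^ 2 * w ^ 10 * e +
      9732096 * Z * X ^ 2 * w ^ 10 + 218750976 * Z * X ^ 2 * w ^ 9 * e + 29196288 * Z * X ^ 2 * w
      ^ 9 + 206254080 * Z * X ^ 2 * w ^ 8 * e + 39481344 * Z * X ^ 2 * w ^ 8 + 122549760 * Z * X ^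
      2 * w ^ 7 * e + 30302208 * Z * X ^ 2 * w ^ 7 + 45695232 * Z * X ^ 2 * w ^ 6 * e + 13817088 *
      Z * X ^ 2 * w ^ 6 + 9882432 * Z * X ^ 2 * w ^ 5 * e + 3532032 * Z * X ^ 2 * w ^ 5 + 956448 *
      Z * X ^ 2 * w ^ 4 * e + 396576 * Z * X ^ 2 * w ^ 4 - 5886 * Z * X ^ 2 * w ^ 3 * e - 6561 * Z
      * X ^ 2 * w ^ 2 * e - 1620 * Z * X ^ 2 * w ^ 2 - 1809 * Z * X ^ 2 * w * e - 756 * Z * X ^ 2
      * w + 63569920 * Z * X * w ^ 11 * e + 222494720 * Z * X * w ^ 10 * e + 15892480 * Z * X * w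
      ^ 10 + 357179392 * Z * X * w ^ 9 * e + 47677440 * Z * X * w ^ 9 + 336711680 * Z * X * w ^ 8
      * e + 64462848 * Z * X * w ^ 8 + 200037888 * Z * X * w ^ 7 * e + 49463296 * Z * X * w ^ 7 +
      74592512 * Z * X * w ^ 6 * e + 22552576 * Z * X * w ^ 6 + 16123840 * Z * X * w ^ 5 * e +
      5767168 * Z * X * w ^ 5 + 1556064 * Z * X * w ^ 4 * e + 644544 * Z * X * w ^ 4 + 10 * Z * X
      * w ^ 3 * e + 27 * Z * X * w ^ 2 * e + 3 * Z * X * w ^ 2 + 11 * Z * X * w * e + 5 * Z * X *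
      w + 25952256 * Z * w ^ 11 * e + 90832896 * Z * w ^ 10 * e + 6488064 * Z * w ^ 10 + 145817600
      * Z * w ^ 9 * e + 19464192 * Z * w ^ 9 + 137461760 * Z * w ^ 8 * e + 26316800 * Z * w ^ 8 +
      81665024 * Z * w ^ 7 * e + 20193280 * Z * w ^ 7 + 30452224 * Z * w ^ 6 * e + 9207040 * Z * w
      ^ 6 + 6582528 * Z * w ^ 5 * e + 2354432 * Z * w ^ 5 + 635264 * Z * w ^ 4 * e + 263136 * Z *
      w ^ 4 - 4 * Z * w ^ 3 * e + 2 * Z * w ^ 2 * e - Z * w ^ 2 + 2 * Z * w * e + Z * w) * hw +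
      (9732096 * Z * X ^ 2 * w ^ 12 + 2433024 * Z * X ^ 2 * w ^ 11 * e + 38928384 * Z * X ^ 2 * w
      ^ 11 + 608256 * Z * X ^ 2 * w ^ 10 * e ^ 2 + 8515584 * Z * X ^ 2 * w ^ 10 * e + 78409728 * Z
      * X ^ 2 * w ^ 10 + 152064 * Z * X ^ 2 * w ^ 9 * e ^ 3 + 1824768 * Z * X ^ 2 * w ^ 9 * e ^ 2
      + 15192576 * Z * X ^ 2 * w ^ 9 * e + 98979840 * Z * X ^ 2 * w ^ 9 + 38016 * Z * X ^ 2 * w ^
      8 * e ^ 4 + 380160 * Z * X ^ 2 * w ^ 8 * e ^ 3 + 2847744 * Z * X ^ 2 * w ^ 8 * e ^ 2 +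
      16692480 * Z * X ^ 2 * w ^ 8 * e + 83600640 * Z * X ^ 2 * w ^ 8 + 9504 * Z * X ^ 2 * w ^ 7 *
      e ^ 5 + 76032 * Z * X ^ 2 * w ^ 7 * e ^ 4 + 512352 * Z * X ^ 2 * w ^ 7 * e ^ 3 + 2654208 * Z
      * X ^ 2 * w ^ 7 * e ^ 2 + 11841984 * Z * X ^ 2 * w ^ 7 * e + 47651328 * Z * X ^ 2 * w ^ 7 +
      2376 * Z * X ^ 2 * w ^ 6 * e ^ 6 + 14256 * Z * X ^ 2 * w ^ 6 * e ^ 5 + 87696 * Z * X ^ 2 * w
      ^ 6 * e ^ 4 + 388368 * Z * X ^ 2 * w ^ 6 * e ^ 3 + 1505304 * Z * X ^ 2 * w ^ 6 * e ^ 2 +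
      5328288 * Z * X ^ 2 * w ^ 6 * e + 17745696 * Z * X ^ 2 * w ^ 6 + 594 * Z * X ^ 2 * w ^ 5 * e
      ^ 7 + 2376 * Z * X ^ 2 * w ^ 5 * e ^ 6 + 14202 * Z * X ^ 2 * w ^ 5 * e ^ 5 + 49680 * Z * X ^
      2 * w ^ 5 * e ^ 4 + 160218 * Z * X ^ 2 * w ^ 5 * e ^ 3 + 482328 * Z * X ^ 2 * w ^ 5 * e ^ 2
      + 1395954 * Z * X ^ 2 * w ^ 5 * e + 3928608 * Z * X ^ 2 * w ^ 5 + 297 * Z * X ^ 2 * w ^ 4 *
      e ^ 7 + 2214 * Z * X ^ 2 * w ^ 4 * e ^ 6 + 4725 * Z * X ^ 2 * w ^ 4 * e ^ 5 + 11664 * Z * X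
      ^ 2 * w ^ 4 * e ^ 4 + 28053 * Z * X ^ 2 * w ^ 4 * e ^ 3 + 67770 * Z * X ^ 2 * w ^ 4 * e ^ 2
      + 163593 * Z * X ^ 2 * w ^ 4 * e + 394956 * Z * X ^ 2 * w ^ 4 - 2376 * Z * X ^ 2 * w ^ 3 -
      594 * Z * X ^ 2 * w ^ 2 * e - 2376 * Z * X ^ 2 * w ^ 2 - 297 * Z * X ^ 2 * w * e - 756 * Z *
      X ^ 2 * w + 15892480 * Z * X * w ^ 12 + 3973120 * Z * X * w ^ 11 * e + 63569920 * Z * X * w
      ^ 11 + 993280 * Z * X * w ^ 10 * e ^ 2 + 13905920 * Z * X * w ^ 10 * e + 128032768 * Z * X *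
      w ^ 10 + 248320 * Z * X * w ^ 9 * e ^ 3 + 2979840 * Z * X * w ^ 9 * e ^ 2 + 24806912 * Z * X
      * w ^ 9 * e + 161603584 * Z * X * w ^ 9 + 62080 * Z * X * w ^ 8 * e ^ 4 + 620800 * Z * X * w
      ^ 8 * e ^ 3 + 4649728 * Z * X * w ^ 8 * e ^ 2 + 27252480 * Z * X * w ^ 8 * e + 136478720 * Z
      * X * w ^ 8 + 15520 * Z * X * w ^ 7 * e ^ 5 + 124160 * Z * X * w ^ 7 * e ^ 4 + 836512 * Z *
      X * w ^ 7 * e ^ 3 + 4333056 * Z * X * w ^ 7 * e ^ 2 + 19331008 * Z * X * w ^ 7 * e +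
      77783040 * Z * X * w ^ 7 + 3880 * Z * X * w ^ 6 * e ^ 6 + 23280 * Z * X * w ^ 6 * e ^ 5 +
      143168 * Z * X * w ^ 6 * e ^ 4 + 633968 * Z * X * w ^ 6 * e ^ 3 + 2457096 * Z * X * w ^ 6 *
      e ^ 2 + 8696992 * Z * X * w ^ 6 * e + 28964288 * Z * X * w ^ 6 + 970 * Z * X * w ^ 5 * e ^ 7
      + 3880 * Z * X * w ^ 5 * e ^ 6 + 23182 * Z * X * w ^ 5 * e ^ 5 + 81088 * Z * X * w ^ 5 * e ^
      4 + 261498 * Z * X * w ^ 5 * e ^ 3 + 787208 * Z * X * w ^ 5 * e ^ 2 + 2278302 * Z * X * w ^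
      5 * e + 6411712 * Z * X * w ^ 5 + 485 * Z * X * w ^ 4 * e ^ 7 + 3613 * Z * X * w ^ 4 * e ^ 6
      + 7711 * Z * X * w ^ 4 * e ^ 5 + 19035 * Z * X * w ^ 4 * e ^ 4 + 45781 * Z * X * w ^ 4 * e ^
      3 + 110597 * Z * X * w ^ 4 * e ^ 2 + 266975 * Z * X * w ^ 4 * e + 644547 * Z * X * w ^ 4 + 8
      * Z * X * w ^ 3 + 2 * Z * X * w ^ 2 * e + 8 * Z * X * w ^ 2 + Z * X * w * e + 5 * Z * X * w
      + 6488064 * Z * w ^ 12 + 1622016 * Z * w ^ 11 * e + 25952256 * Z * w ^ 11 + 405504 * Z * w ^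
      10 * e ^ 2 + 5677056 * Z * w ^ 10 * e + 52269056 * Z * w ^ 10 + 101376 * Z * w ^ 9 * e ^ 3 +
      1216512 * Z * w ^ 9 * e ^ 2 + 10127360 * Z * w ^ 9 * e + 65974272 * Z * w ^ 9 + 25344 * Z *
      w ^ 8 * e ^ 4 + 253440 * Z * w ^ 8 * e ^ 3 + 1898240 * Z * w ^ 8 * e ^ 2 + 11125760 * Z * w
      ^ 8 * e + 55717120 * Z * w ^ 8 + 6336 * Z * w ^ 7 * e ^ 5 + 50688 * Z * w ^ 7 * e ^ 4 +
      341504 * Z * w ^ 7 * e ^ 3 + 1768960 * Z * w ^ 7 * e ^ 2 + 7891840 * Z * w ^ 7 * e +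
      31754752 * Z * w ^ 7 + 1584 * Z * w ^ 6 * e ^ 6 + 9504 * Z * w ^ 6 * e ^ 5 + 58448 * Z * w ^
      6 * e ^ 4 + 258816 * Z * w ^ 6 * e ^ 3 + 1003104 * Z * w ^ 6 * e ^ 2 + 3550528 * Z * w ^ 6 *
      e + 11824608 * Z * w ^ 6 + 396 * Z * w ^ 5 * e ^ 7 + 1584 * Z * w ^ 5 * e ^ 6 + 9464 * Z * w
      ^ 5 * e ^ 5 + 33104 * Z * w ^ 5 * e ^ 4 + 106756 * Z * w ^ 5 * e ^ 3 + 321376 * Z * w ^ 5 *
      e ^ 2 + 930112 * Z * w ^ 5 * e + 2617568 * Z * w ^ 5 + 198 * Z * w ^ 4 * e ^ 7 + 1475 * Z *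
      w ^ 4 * e ^ 6 + 3148 * Z * w ^ 4 * e ^ 5 + 7771 * Z * w ^ 4 * e ^ 4 + 18690 * Z * w ^ 4 * e
      ^ 3 + 45151 * Z * w ^ 4 * e ^ 2 + 108992 * Z * w ^ 4 * e + 263135 * Z * w ^ 4 + Z * w) * he

omit hZ in
theorem w5_tne : ∀ j, j ≤ 4 → w5t w e j ≠ 0 := by
  have tn1 : (1 + w) * e ≠ 0 := by
    refine ne_of_mul_eq (b := -w * e - 2 * w - 4) (c := 1) ?_ one_ne_zero
    linear_combination (-4 * w * e - 4 * e - 1) * hw + (-w ^ 2 - w) * he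
  have tn2 : -(w * e) ≠ 0 := by
    refine ne_of_mul_eq (b := w * e - 2 * w + e + 2) (c := 1) ?_ one_ne_zero
    linear_combination (-4 * w * e - 1) * hw + (-w ^ 2 - w) * he
  have tn3 : -e ≠ 0 := by
    refine ne_of_mul_eq (b := 4 * w - e + 2) (c := 1) ?_ one_ne_zero
    linear_combination (1) * he
  have tn4 : w ^ 2 * e ^ 2 ≠ 0 := by
    refine ne_of_mul_eq (b := 2 * w * e - 11 * w + 4 * e) (c := 1) ?_ one_ne_zero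
    linear_combination (32 * w ^ 3 * e + 20 * w ^ 2 * e + 8 * w ^ 2 + w - 1) * hw + (8 * w ^ 4 +
      2 * w ^ 3 * e + 9 * w ^ 3 + 4 * w ^ 2 * e + 8 * w ^ 2) * he
  intro j hj
  interval_cases j <;> simp only [w5t, sq5]
  · exact one_ne_zero
  · exact tn1
  · exact tn2
  · exact tn3
  · exact tn4

omit hZ in
theorem w5_sne : ∀ j, j ≤ 4 → w5s w e j ≠ 0 := by
  have sn1 : w * e ≠ 0 := by
    refine ne_of_mul_eq (b := -w * e + 2 * w - e - 2) (c := 1) ?_ one_ne_zero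
    linear_combination (-4 * w * e - 1) * hw + (-w ^ 2 - w) * he
  have sn2 : -((1 + w) * e) ≠ 0 := by
    refine ne_of_mul_eq (b := w * e + 2 * w + 4) (c := 1) ?_ one_ne_zero
    linear_combination (-4 * w * e - 4 * e - 1) * hw + (-w ^ 2 - w) * he
  have sn3 : e ≠ 0 := by
    refine ne_of_mul_eq (b := -4 * w + e - 2) (c := 1) ?_ one_ne_zero
    linear_combination (1) * he
  have sn4 : w * e ^ 2 ≠ 0 := by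
    refine ne_of_mul_eq (b := 2 * w * e + 11 * w - 2 * e + 11) (c := 1) ?_ one_ne_zero
    linear_combination (32 * w ^ 2 * e + 12 * w * e + 8 * w - 1) * hw + (8 * w ^ 3 + 2 * w ^ 2 *
      e + 7 * w ^ 2 - 2 * w * e + 7 * w) * he
  intro j hj
  interval_cases j <;> simp only [w5s, sq5]
  · exact one_ne_zero
  · exact sn1
  · exact sn2
  · exact sn3
  · exact sn4

omit hZ in
theorem w5_tinj : ∀ i j, i < j → j ≤ 4 → w5t w e i ≠ w5t w e j := by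
  have d01 : (1 + w) * e - (1) ≠ 0 := by
    refine ne_of_mul_eq (b := -8 * i ^ 2 * w * e - 4 * i ^ 2 * w - 4 * i ^ 2 * e - 32 * i ^ 2) (c := 1) ?_ one_ne_zero
    linear_combination (-32 * i ^ 2 * w * e - 36 * i ^ 2 * e - 8 * i ^ 2) * hw + (-8 * i ^ 2 * w
      ^ 2 - 12 * i ^ 2 * w - 4 * i ^ 2) * he + (6 * i + 1) * hi
  have d02 : -(w * e) - (1) ≠ 0 := by
    refine ne_of_mul_eq (b := -4 * i * w * e - 2 * i * w - 2 * i * e - 10 * i) (c := 1) ?_ one_ne_zero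
    linear_combination (16 * i * w * e + 2 * i * e + 4 * i) * hw + (4 * i * w ^ 2 + 2 * i * w) *
      he + (1) * hi
  have d12 : -(w * e) - ((1 + w) * e) ≠ 0 := by
    refine ne_of_mul_eq (b := 4 * i * w * e + 2 * i * e + 2) (c := 1) ?_ one_ne_zero
    linear_combination (-32 * i * w * e - 16 * i * e - 8 * i) * hw + (-8 * i * w ^ 2 - 8 * i * w
      - 2 * i) * he + (4 * w * e + 2 * e + 1) * hi
  have d03 : -e - (1) ≠ 0 := by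
    refine ne_of_mul_eq (b := -2 * i * w * e + 2 * i * w - i * e - 5 * i) (c := 1) ?_ one_ne_zero
    linear_combination (8 * i * e) * hw + (2 * i * w + i) * he + (1) * hi
  have d13 : -e - ((1 + w) * e) ≠ 0 := by
    refine ne_of_mul_eq (b := 2 * i * w * e - 2 * i * e + 2 * w + 2) (c := 1) ?_ one_ne_zero
    linear_combination (-8 * i * w * e - 16 * i * e - 2 * i) * hw + (-2 * i * w ^ 2 - 2 * i * w
      + 4 * i) * he + (2 * w ^ 2 * e + 6 * w * e + 4 * e + 1) * hi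
  have d23 : -e - (-(w * e)) ≠ 0 := by
    refine ne_of_mul_eq (b := -2 * i * w * e - 4 * i * e + 2 * w) (c := 1) ?_ one_ne_zero
    linear_combination (-8 * i * w * e + 8 * i * e - 2 * i) * hw + (-2 * i * w ^ 2 - 2 * i * w +
      4 * i) * he + (-2 * w ^ 2 * e + 2 * w * e + 1) * hi
  have d04 : w ^ 2 * e ^ 2 - (1) ≠ 0 := by
    refine ne_of_mul_eq (b := -16 * i ^ 2 * w * e - 4 * i ^ 2 * w - 8 * i ^ 2 * e - 44 * i ^ 2) (c := 1) ?_ one_ne_zero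
    linear_combination (-256 * i ^ 2 * w ^ 3 * e - 144 * i ^ 2 * w ^ 2 * e - 64 * i ^ 2 * w ^ 2
      + 8 * i ^ 2 * w * e - 4 * i ^ 2 * w + 8 * i ^ 2 * e + 8 * i ^ 2) * hw + (-64 * i ^ 2 * w ^ 4
      - 16 * i ^ 2 * w ^ 3 * e - 68 * i ^ 2 * w ^ 3 - 8 * i ^ 2 * w ^ 2 * e - 60 * i ^ 2 * w ^ 2)
      * he + (6 * i + 1) * hi
  have d14 : w ^ 2 * e ^ 2 - ((1 + w) * e) ≠ 0 := by
    refine ne_of_mul_eq (b := 7 * i * w * e + 5 * i * w + 2 * i * e + 22 * i) (c := 1) ?_ one_ne_zero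
    linear_combination (112 * i * w ^ 3 * e + 52 * i * w ^ 2 * e + 28 * i * w ^ 2 - 27 * i * w *
      e - i * w - 26 * i * e - 8 * i) * hw + (28 * i * w ^ 4 + 7 * i * w ^ 3 * e + 27 * i * w ^ 3
      + 2 * i * w ^ 2 * e + 19 * i * w ^ 2 - 9 * i * w - 2 * i) * he + (1) * hi
  have d24 : w ^ 2 * e ^ 2 - (-(w * e)) ≠ 0 := by
    refine ne_of_mul_eq (b := -10 * i * w * e + 10 * i * w - 8 * i * e - 22 * i) (c := 1) ?_ one_ne_zero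
    linear_combination (-160 * i * w ^ 3 * e - 88 * i * w ^ 2 * e - 40 * i * w ^ 2 - 38 * i * w
      * e - 2 * i * w - 6 * i) * hw + (-40 * i * w ^ 4 - 10 * i * w ^ 3 * e - 42 * i * w ^ 3 - 8 *
      i * w ^ 2 * e - 48 * i * w ^ 2 - 8 * i * w) * he + (1) * hi
  have d34 : w ^ 2 * e ^ 2 - (-e) ≠ 0 := by
    refine ne_of_mul_eq (b := 4 * i ^ 2 * w * e - 112 * i ^ 2 * w + 32 * i ^ 2 * e - 44 * i ^ 2) (c := 1) ?_ one_ne_zero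
    linear_combination (64 * i ^ 2 * w ^ 3 * e + 64 * i ^ 2 * w ^ 2 * e + 16 * i ^ 2 * w ^ 2 + 4
      * i ^ 2 * w * e + 8 * i ^ 2 * w + 20 * i ^ 2 * e - 4 * i ^ 2) * hw + (16 * i ^ 2 * w ^ 4 + 4
      * i ^ 2 * w ^ 3 * e + 24 * i ^ 2 * w ^ 3 + 32 * i ^ 2 * w ^ 2 * e + 20 * i ^ 2 * w ^ 2 + 4 *
      i ^ 2 * w + 32 * i ^ 2) * he + (6 * i + 1) * hi
  intro i j hij hj
  interval_cases j <;> interval_cases i <;> simp only [w5t, sq5] <;> intro e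
  · exact d01 (sub_eq_zero.2 e.symm)
  · exact d02 (sub_eq_zero.2 e.symm)
  · exact d12 (sub_eq_zero.2 e.symm)
  · exact d03 (sub_eq_zero.2 e.symm)
  · exact d13 (sub_eq_zero.2 e.symm)
  · exact d23 (sub_eq_zero.2 e.symm)
  · exact d04 (sub_eq_zero.2 e.symm)
  · exact d14 (sub_eq_zero.2 e.symm)
  · exact d24 (sub_eq_zero.2 e.symm)
  · exact d34 (sub_eq_zero.2 e.symm)

omit hZ in
theorem w5_sinj : ∀ i j, i < j → j ≤ 4 → w5s w e i ≠ w5s w e j := by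
  have d01 : w * e - (1) ≠ 0 := by
    refine ne_of_mul_eq (b := -8 * i ^ 2 * w * e + 4 * i ^ 2 * w - 4 * i ^ 2 * e - 28 * i ^ 2) (c := 1) ?_ one_ne_zero
    linear_combination (-32 * i ^ 2 * w * e + 4 * i ^ 2 * e - 8 * i ^ 2) * hw + (-8 * i ^ 2 * w
      ^ 2 - 4 * i ^ 2 * w) * he + (6 * i + 1) * hi
  have d02 : -((1 + w) * e) - (1) ≠ 0 := by
    refine ne_of_mul_eq (b := -4 * i * w * e + 2 * i * w - 2 * i * e - 8 * i) (c := 1) ?_ one_ne_zero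
    linear_combination (16 * i * w * e + 14 * i * e + 4 * i) * hw + (4 * i * w ^ 2 + 6 * i * w +
      2 * i) * he + (1) * hi
  have d12 : -((1 + w) * e) - (w * e) ≠ 0 := by
    refine ne_of_mul_eq (b := 4 * i * w * e + 2 * i * e + 2) (c := 1) ?_ one_ne_zero
    linear_combination (-32 * i * w * e - 16 * i * e - 8 * i) * hw + (-8 * i * w ^ 2 - 8 * i * w
      - 2 * i) * he + (4 * w * e + 2 * e + 1) * hi
  have d03 : e - (1) ≠ 0 := by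
    refine ne_of_mul_eq (b := -2 * i * w * e - 2 * i * w - i * e - 7 * i) (c := 1) ?_ one_ne_zero
    linear_combination (-8 * i * e) * hw + (-2 * i * w - i) * he + (1) * hi
  have d13 : e - (w * e) ≠ 0 := by
    refine ne_of_mul_eq (b := 2 * i * w * e + 4 * i * e - 2 * w) (c := 1) ?_ one_ne_zero
    linear_combination (-8 * i * w * e + 8 * i * e - 2 * i) * hw + (-2 * i * w ^ 2 - 2 * i * w +
      4 * i) * he + (-2 * w ^ 2 * e + 2 * w * e + 1) * hi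
  have d23 : e - (-((1 + w) * e)) ≠ 0 := by
    refine ne_of_mul_eq (b := -2 * i * w * e + 2 * i * e - 2 * w - 2) (c := 1) ?_ one_ne_zero
    linear_combination (-8 * i * w * e - 16 * i * e - 2 * i) * hw + (-2 * i * w ^ 2 - 2 * i * w
      + 4 * i) * he + (2 * w ^ 2 * e + 6 * w * e + 4 * e + 1) * hi
  have d04 : w * e ^ 2 - (1) ≠ 0 := by
    refine ne_of_mul_eq (b := -16 * i ^ 2 * w * e + 4 * i ^ 2 * w - 8 * i ^ 2 * e - 40 * i ^ 2) (c := 1) ?_ one_ne_zero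
    linear_combination (-256 * i ^ 2 * w ^ 2 * e - 112 * i ^ 2 * w * e - 64 * i ^ 2 * w + 8 * i
      ^ 2 * e + 4 * i ^ 2) * hw + (-64 * i ^ 2 * w ^ 3 - 16 * i ^ 2 * w ^ 2 * e - 60 * i ^ 2 * w ^
      2 - 8 * i ^ 2 * w * e - 56 * i ^ 2 * w) * he + (6 * i + 1) * hi
  have d14 : w * e ^ 2 - (w * e) ≠ 0 := by
    refine ne_of_mul_eq (b := 7 * i * w * e - 5 * i * w + 5 * i * e + 17 * i) (c := 1) ?_ one_ne_zero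
    linear_combination (112 * i * w ^ 2 * e + 32 * i * w * e + 28 * i * w - 6 * i) * hw + (28 *
      i * w ^ 3 + 7 * i * w ^ 2 * e + 22 * i * w ^ 2 + 5 * i * w * e + 22 * i * w) * he + (1) * hi
  have d24 : w * e ^ 2 - (-((1 + w) * e)) ≠ 0 := by
    refine ne_of_mul_eq (b := -10 * i * w * e - 10 * i * w - 2 * i * e - 32 * i) (c := 1) ?_ one_ne_zero
    linear_combination (-160 * i * w ^ 2 * e - 112 * i * w * e - 40 * i * w - 36 * i * e - 8 *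
      i) * hw + (-40 * i * w ^ 3 - 10 * i * w ^ 2 * e - 48 * i * w ^ 2 - 2 * i * w * e - 48 * i *
      w - 2 * i) * he + (1) * hi
  have d34 : w * e ^ 2 - (e) ≠ 0 := by
    refine ne_of_mul_eq (b := 4 * i ^ 2 * w * e + 112 * i ^ 2 * w - 28 * i ^ 2 * e + 68 * i ^ 2) (c := 1) ?_ one_ne_zero
    linear_combination (64 * i ^ 2 * w ^ 2 * e + 16 * i ^ 2 * w - 12 * i ^ 2 * e - 8 * i ^ 2) *
      hw + (16 * i ^ 2 * w ^ 3 + 4 * i ^ 2 * w ^ 2 * e + 8 * i ^ 2 * w ^ 2 - 28 * i ^ 2 * w * e +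
      8 * i ^ 2 * w + 28 * i ^ 2) * he + (6 * i + 1) * hi
  intro i j hij hj
  interval_cases j <;> interval_cases i <;> simp only [w5s, sq5] <;> intro e
  · exact d01 (sub_eq_zero.2 e.symm)
  · exact d02 (sub_eq_zero.2 e.symm)
  · exact d12 (sub_eq_zero.2 e.symm)
  · exact d03 (sub_eq_zero.2 e.symm)
  · exact d13 (sub_eq_zero.2 e.symm)
  · exact d23 (sub_eq_zero.2 e.symm)
  · exact d04 (sub_eq_zero.2 e.symm)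
  · exact d14 (sub_eq_zero.2 e.symm)
  · exact d24 (sub_eq_zero.2 e.symm)
  · exact d34 (sub_eq_zero.2 e.symm)

theorem w5_Lne (n1 : X ≠ 0)
    (n3 : 2 + (2 * w * e + e + 3) * X ≠ 0)
    (n4 : 1 + (w * e + 5 * w - 13 * e + 4) * X ≠ 0)
    (n5 : 1 + (w * e - 5 * w + 14 * e - 1) * X ≠ 0) : ∀ k, k < 4 → w5L w e X Z i k ≠ 0 := by
  have Z0 : Z ≠ 0 := by
    rintro rfl
    rw [zero_mul] at hZ
    exact zero_ne_one hZ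
  have n2 : 1 + (2 * w * e + e + 3) * X ≠ 0 := by
    intro h
    rw [h, mul_zero] at hZ
    exact zero_ne_one hZ
  have a0 : X * w * e - X ≠ 0 := by
    refine ne_of_mul_eq (b := -8 * i ^ 2 * w * e + 4 * i ^ 2 * w - 4 * i ^ 2 * e - 28 * i ^ 2) (c := X) ?_ n1
    linear_combination (-32 * i ^ 2 * X * w * e + 4 * i ^ 2 * X * e - 8 * i ^ 2 * X) * hw +
        (-8 * i ^ 2 * X * w ^ 2 - 4 * i ^ 2 * X * w) * he + (6 * i * X + X) * hi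
  have a1 : 3 * i * w * e + i * w + i * e + 9 * i ≠ 0 := by
    refine ne_of_mul_eq (b := -w * e - w + 2 * e) (c := 1) ?_ one_ne_zero
    linear_combination (-12 * i * w * e + 22 * i * e - 4 * i) * hw + (-3 * i * w ^ 2 + 5 * i *
        w + 2 * i) * he + (1) * hi
  have a2 : w * e - 2 * w + e + 2 ≠ 0 := by
    refine ne_of_mul_eq (b := -w * e) (c := 1) ?_ one_ne_zero
    linear_combination (-4 * w * e - 1) * hw + (-w ^ 2 - w) * he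
  have a3 : 2 * Z * X * w * e - 11 * Z * X * w + 4 * Z * X * e - Z * X + Z * w * e - 9 * Z * w + 3 * Z * e - Z ≠ 0 := by
    refine ne_of_mul_eq (b := 2 * i * w - 4 * i * e - w * e) (c := (2 + (2 * w * e + e + 3) * X) * Z) ?_ (mul_ne_zero n3 Z0)
    linear_combination (-48 * i * Z * X * w * e - 34 * i * Z * X * e - 34 * i * Z * X - 24 * i
        * Z * w * e - 20 * i * Z * e - 24 * i * Z) * hw + (-12 * i * Z * X * w ^ 2 - 32 * i * Z *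
        X * w - 16 * i * Z * X - 6 * i * Z * w ^ 2 - 22 * i * Z * w - 12 * i * Z) * he + (2 * Z *
        X * w ^ 2 * e ^ 2 - 11 * Z * X * w ^ 2 * e + 4 * Z * X * w * e ^ 2 + Z * X * w * e + Z * X
        * e + 3 * Z * X + Z * w ^ 2 * e ^ 2 - 9 * Z * w ^ 2 * e + 3 * Z * w * e ^ 2 - Z * w * e +
        2 * Z) * hi
  intro k hk
  interval_cases k <;> simp only [w5L, sq5]
  · exact a0
  · exact a1
  · exact a2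
  · exact a3

theorem w5_Mne (n1 : X ≠ 0)
    (n3 : 2 + (2 * w * e + e + 3) * X ≠ 0)
    (n4 : 1 + (w * e + 5 * w - 13 * e + 4) * X ≠ 0)
    (n5 : 1 + (w * e - 5 * w + 14 * e - 1) * X ≠ 0) : ∀ k, k < 4 → w5M w e X Z i k ≠ 0 := by
  have Z0 : Z ≠ 0 := by
    rintro rfl
    rw [zero_mul] at hZ
    exact zero_ne_one hZ
  have n2 : 1 + (2 * w * e + e + 3) * X ≠ 0 := by
    intro h
    rw [h, mul_zero] at hZ
    exact zero_ne_one hZ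
  have a0 : -10 * i * w * e + 10 * i * w - 8 * i * e - 16 * i - X * w * e + 2 * X * w - X * e - 3 * X ≠ 0 := by
    refine ne_of_mul_eq (b := -2 * i * w - 2 * i * e - w * e - 1) (c := (2 + (2 * w * e + e + 3) * X)) ?_ n3
    linear_combination (144 * i ^ 2 * X * w * e + 60 * i ^ 2 * X * e + 12 * i ^ 2 * X + 240 *
        i ^ 2 * w * e + 112 * i ^ 2 * e + 40 * i ^ 2) * hw + (36 * i ^ 2 * X * w ^ 2 + 48 * i ^ 2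
        * X * w + 12 * i ^ 2 * X + 60 * i ^ 2 * w ^ 2 + 68 * i ^ 2 * w + 16 * i ^ 2) * he + (-6 *
        i * X * w ^ 2 * e ^ 2 + 10 * i * X * w ^ 2 * e + 4 * i * X * w ^ 2 - 8 * i * X * w * e ^ 2
        - 10 * i * X * w * e + 6 * i * X * w - 2 * i * X * e ^ 2 - 6 * i * X * e - 10 * i * w ^ 2
        * e ^ 2 + 10 * i * w ^ 2 * e - 8 * i * w * e ^ 2 - 26 * i * w * e + 10 * i * w - 8 * i * e
        - 4 * i - X * w ^ 2 * e ^ 2 + 2 * X * w ^ 2 * e - X * w * e ^ 2 - 2 * X * w * e + 2 * X *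
        w + 2) * hi
  have a1 : -3 * i * w * e + i * w - 2 * i * e ≠ 0 := by
    refine ne_of_mul_eq (b := w * e - 9 * w + 3 * e - 1) (c := 1) ?_ one_ne_zero
    linear_combination (-12 * i * w * e - 10 * i * e - 12 * i) * hw + (-3 * i * w ^ 2 - 11 * i
        * w - 6 * i) * he + (1) * hi
  have a2 : -w * e ≠ 0 := by
    refine ne_of_mul_eq (b := w * e - 2 * w + e + 2) (c := 1) ?_ one_ne_zero
    linear_combination (-4 * w * e - 1) * hw + (-w ^ 2 - w) * he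
  have a3 : 2 * Z * X * w * e + Z * X * w - 2 * Z * X * e + 2 * Z * X ≠ 0 := by
    refine ne_of_mul_eq (b := 16 * i ^ 2 * w * e + 4 * i ^ 2 * w + 8 * i ^ 2 * e + 44 * i ^ 2) (c := X * Z) ?_ (mul_ne_zero n1 Z0)
    linear_combination (128 * i ^ 2 * Z * X * w * e - 104 * i ^ 2 * Z * X * e + 36 * i ^ 2 * Z
        * X) * hw + (32 * i ^ 2 * Z * X * w ^ 2 - 16 * i ^ 2 * Z * X * w - 16 * i ^ 2 * Z * X) *
        he + (6 * i * Z * X + Z * X) * hi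
  intro k hk
  interval_cases k <;> simp only [w5M, sq5]
  · exact a0
  · exact a1
  · exact a2
  · exact a3

theorem w5_Lpne (n1 : X ≠ 0)
    (n3 : 2 + (2 * w * e + e + 3) * X ≠ 0)
    (n4 : 1 + (w * e + 5 * w - 13 * e + 4) * X ≠ 0)
    (n5 : 1 + (w * e - 5 * w + 14 * e - 1) * X ≠ 0) : ∀ k, k < 4 → w5Lp w e X Z i k ≠ 0 := by
  have Z0 : Z ≠ 0 := by
    rintro rfl
    rw [zero_mul] at hZ
    exact zero_ne_one hZ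
  have n2 : 1 + (2 * w * e + e + 3) * X ≠ 0 := by
    intro h
    rw [h, mul_zero] at hZ
    exact zero_ne_one hZ
  have a0 : X * w * e + X * e - X ≠ 0 := by
    refine ne_of_mul_eq (b := -8 * i ^ 2 * w * e - 4 * i ^ 2 * w - 4 * i ^ 2 * e - 32 * i ^ 2) (c := X) ?_ n1
    linear_combination (-32 * i ^ 2 * X * w * e - 36 * i ^ 2 * X * e - 8 * i ^ 2 * X) * hw +
        (-8 * i ^ 2 * X * w ^ 2 - 12 * i ^ 2 * X * w - 4 * i ^ 2 * X) * he + (6 * i * X + X) * hi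
  have a1 : 3 * i * w * e - i * w + 2 * i * e + 8 * i ≠ 0 := by
    refine ne_of_mul_eq (b := -w * e + w - 3 * e + 1) (c := 1) ?_ one_ne_zero
    linear_combination (-12 * i * w * e - 34 * i * e - 4 * i) * hw + (-3 * i * w ^ 2 - 11 * i
        * w - 6 * i) * he + (1) * hi
  have a2 : w * e + 2 * w + 4 ≠ 0 := by
    refine ne_of_mul_eq (b := -w * e - e) (c := 1) ?_ one_ne_zero
    linear_combination (-4 * w * e - 4 * e - 1) * hw + (-w ^ 2 - w) * he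
  have a3 : 2 * Z * X * w * e + 11 * Z * X * w - 2 * Z * X * e + 10 * Z * X + Z * w * e + 9 * Z * w - 2 * Z * e + 8 * Z ≠ 0 := by
    refine ne_of_mul_eq (b := -2 * i * w - 2 * i * e - 2 * i - w * e) (c := (2 + (2 * w * e + e + 3) * X) * Z) ?_ (mul_ne_zero n3 Z0)
    linear_combination (-48 * i * Z * X * w * e - 14 * i * Z * X * e - 34 * i * Z * X - 24 * i
        * Z * w * e - 4 * i * Z * e - 24 * i * Z) * hw + (-12 * i * Z * X * w ^ 2 + 8 * i * Z * X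
        * w + 4 * i * Z * X - 6 * i * Z * w ^ 2 + 10 * i * Z * w + 4 * i * Z) * he + (2 * Z * X *
        w ^ 2 * e ^ 2 + 11 * Z * X * w ^ 2 * e - 2 * Z * X * w * e ^ 2 + 12 * Z * X * w * e + Z *
        X * e + 3 * Z * X + Z * w ^ 2 * e ^ 2 + 9 * Z * w ^ 2 * e - 2 * Z * w * e ^ 2 + 8 * Z * w
        * e + 2 * Z) * hi
  intro k hk
  interval_cases k <;> simp only [w5Lp, sq5]
  · exact a0
  · exact a1
  · exact a2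
  · exact a3

theorem w5_Mpne (n1 : X ≠ 0)
    (n3 : 2 + (2 * w * e + e + 3) * X ≠ 0)
    (n4 : 1 + (w * e + 5 * w - 13 * e + 4) * X ≠ 0)
    (n5 : 1 + (w * e - 5 * w + 14 * e - 1) * X ≠ 0) : ∀ k, k < 4 → w5Mp w e X Z i k ≠ 0 := by
  have Z0 : Z ≠ 0 := by
    rintro rfl
    rw [zero_mul] at hZ
    exact zero_ne_one hZ
  have n2 : 1 + (2 * w * e + e + 3) * X ≠ 0 := by
    intro h
    rw [h, mul_zero] at hZ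
    exact zero_ne_one hZ
  have a0 : -10 * i * w * e - 10 * i * w - 2 * i * e - 26 * i - X * w * e - 2 * X * w - 5 * X ≠ 0 := by
    refine ne_of_mul_eq (b := 2 * i * w - 4 * i * e - 4 * i - w * e) (c := (2 + (2 * w * e + e + 3) * X)) ?_ n3
    linear_combination (144 * i ^ 2 * X * w * e + 84 * i ^ 2 * X * e + 12 * i ^ 2 * X + 240 *
        i ^ 2 * w * e + 128 * i ^ 2 * e + 40 * i ^ 2) * hw + (36 * i ^ 2 * X * w ^ 2 + 24 * i ^ 2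
        * X * w + 60 * i ^ 2 * w ^ 2 + 52 * i ^ 2 * w + 8 * i ^ 2) * he + (-6 * i * X * w ^ 2 * e
        ^ 2 - 10 * i * X * w ^ 2 * e + 4 * i * X * w ^ 2 - 4 * i * X * w * e ^ 2 - 30 * i * X * w
        * e + 2 * i * X * w - 14 * i * X * e - 2 * i * X - 10 * i * w ^ 2 * e ^ 2 - 10 * i * w ^ 2
        * e - 2 * i * w * e ^ 2 - 26 * i * w * e + 12 * i - X * w ^ 2 * e ^ 2 - 2 * X * w ^ 2 * e
        - 3 * X * w * e + X * e + 3 * X + 2) * hi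
  have a1 : -3 * i * w * e - i * w - i * e - i ≠ 0 := by
    refine ne_of_mul_eq (b := w * e + 9 * w - 2 * e + 8) (c := 1) ?_ one_ne_zero
    linear_combination (-12 * i * w * e - 2 * i * e - 12 * i) * hw + (-3 * i * w ^ 2 + 5 * i *
        w + 2 * i) * he + (1) * hi
  have a2 : -w * e - e ≠ 0 := by
    refine ne_of_mul_eq (b := w * e + 2 * w + 4) (c := 1) ?_ one_ne_zero
    linear_combination (-4 * w * e - 4 * e - 1) * hw + (-w ^ 2 - w) * he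
  have a3 : 2 * Z * X * w * e - Z * X * w + 4 * Z * X * e + Z * X ≠ 0 := by
    refine ne_of_mul_eq (b := 16 * i ^ 2 * w * e - 4 * i ^ 2 * w + 8 * i ^ 2 * e + 40 * i ^ 2) (c := X * Z) ?_ (mul_ne_zero n1 Z0)
    linear_combination (128 * i ^ 2 * Z * X * w * e + 232 * i ^ 2 * Z * X * e + 36 * i ^ 2 * Z
        * X) * hw + (32 * i ^ 2 * Z * X * w ^ 2 + 80 * i ^ 2 * Z * X * w + 32 * i ^ 2 * Z * X) *
        he + (6 * i * Z * X + Z * X) * hi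
  intro k hk
  interval_cases k <;> simp only [w5Mp, sq5]
  · exact a0
  · exact a1
  · exact a2
  · exact a3

theorem w5_LMne (n1 : X ≠ 0)
    (n3 : 2 + (2 * w * e + e + 3) * X ≠ 0)
    (n4 : 1 + (w * e + 5 * w - 13 * e + 4) * X ≠ 0)
    (n5 : 1 + (w * e - 5 * w + 14 * e - 1) * X ≠ 0) : ∀ k, k < 4 →
    1 - w5L w e X Z i k - w5M w e X Z i k ≠ 0 := by
  have Z0 : Z ≠ 0 := by
    rintro rfl
    rw [zero_mul] at hZ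
    exact zero_ne_one hZ
  have n2 : 1 + (2 * w * e + e + 3) * X ≠ 0 := by
    intro h
    rw [h, mul_zero] at hZ
    exact zero_ne_one hZ
  have a0 : 1 - (X * w * e - X) - (-10 * i * w * e + 10 * i * w - 8 * i * e - 16 * i - X * w * e + 2 * X * w - X * e - 3 * X) ≠ 0 := by
    refine ne_of_mul_eq (b := w * e + w - 2 * e + 1) (c := (1 + (w * e + 5 * w - 13 * e + 4) * X)) ?_ n4
    linear_combination (12 * i * X * e - 12 * i * X + 40 * i * w * e - 68 * i * e) * hw + (6 *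
        i * X * w - 12 * i * X + 10 * i * w ^ 2 - 12 * i * w - 16 * i) * he + (2 * X * w ^ 2 * e +
        2 * X * w ^ 2 - X * w * e ^ 2 - 8 * X * w * e + 3 * X * w + 2 * X * e ^ 2 - 6 * X * e - w
        * e - w + 2 * e) * hi
  have a1 : 1 - (3 * i * w * e + i * w + i * e + 9 * i) - (-3 * i * w * e + i * w - 2 * i * e) ≠ 0 := by
    refine ne_of_mul_eq (b := 2 * w - e - 1) (c := 1) ?_ one_ne_zero
    linear_combination (-4 * i) * hw + (-i) * he + (-2 * w + e + 2) * hi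
  have a2 : 1 - (w * e - 2 * w + e + 2) - (-w * e) ≠ 0 := by
    refine ne_of_mul_eq (b := -2 * i * w + i * e - 3 * i) (c := 1) ?_ one_ne_zero
    linear_combination (-4 * i) * hw + (-i) * he + (1) * hi
  have a3 : 1 - (2 * Z * X * w * e - 11 * Z * X * w + 4 * Z * X * e - Z * X + Z * w * e - 9 * Z * w + 3 * Z * e - Z) - (2 * Z * X * w * e + Z * X * w - 2 * Z * X * e + 2 * Z * X) ≠ 0 := by
    refine ne_of_mul_eq (b := -10 * i * w * e - 2 * i * w - 2 * i * e - 4 * i) (c := (1 + (w * e - 5 * w + 14 * e - 1) * X) * Z) ?_ (mul_ne_zero n5 Z0)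
    linear_combination (80 * i * Z * X * w * e - 80 * i * Z * X * e + 40 * i * Z * w * e + 20
        * i * Z * e - 8 * i * Z) * hw + (20 * i * Z * X * w ^ 2 + 14 * i * Z * X * w + 2 * i * Z *
        X + 10 * i * Z * w ^ 2 + 32 * i * Z * w + 6 * i * Z) * he + (10 * i * w * e + 2 * i * w +
        2 * i * e + 4 * i) * hZ + (Z * X * w * e - 5 * Z * X * w + 14 * Z * X * e - Z * X + Z) *
        hi
  intro k hk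
  interval_cases k <;> simp only [w5L, w5M, sq5]
  · exact a0
  · exact a1
  · exact a2
  · exact a3

theorem w5_LpMpne (n1 : X ≠ 0)
    (n3 : 2 + (2 * w * e + e + 3) * X ≠ 0)
    (n4 : 1 + (w * e + 5 * w - 13 * e + 4) * X ≠ 0)
    (n5 : 1 + (w * e - 5 * w + 14 * e - 1) * X ≠ 0) : ∀ k, k < 4 →
    1 - w5Lp w e X Z i k - w5Mp w e X Z i k ≠ 0 := by
  have Z0 : Z ≠ 0 := by
    rintro rfl
    rw [zero_mul] at hZ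
    exact zero_ne_one hZ
  have n2 : 1 + (2 * w * e + e + 3) * X ≠ 0 := by
    intro h
    rw [h, mul_zero] at hZ
    exact zero_ne_one hZ
  have a0 : 1 - (X * w * e + X * e - X) - (-10 * i * w * e - 10 * i * w - 2 * i * e - 26 * i - X * w * e - 2 * X * w - 5 * X) ≠ 0 := by
    refine ne_of_mul_eq (b := w * e - w + 3 * e) (c := (1 + (w * e - 5 * w + 14 * e - 1) * X)) ?_ n5
    linear_combination (-12 * i * X * e - 12 * i * X + 40 * i * w * e + 108 * i * e) * hw +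
        (-6 * i * X * w - 18 * i * X + 10 * i * w ^ 2 + 32 * i * w + 6 * i) * he + (-2 * X * w ^ 2
        * e + 2 * X * w ^ 2 + X * w * e ^ 2 - 12 * X * w * e + X * w + 3 * X * e ^ 2 - 4 * X * e -
        X - w * e + w - 3 * e + 1) * hi
  have a1 : 1 - (3 * i * w * e - i * w + 2 * i * e + 8 * i) - (-3 * i * w * e - i * w - i * e - i) ≠ 0 := by
    refine ne_of_mul_eq (b := -2 * w + e - 3) (c := 1) ?_ one_ne_zero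
    linear_combination (-4 * i) * hw + (-i) * he + (2 * w - e + 4) * hi
  have a2 : 1 - (w * e + 2 * w + 4) - (-w * e - e) ≠ 0 := by
    refine ne_of_mul_eq (b := 2 * i * w - i * e - i) (c := 1) ?_ one_ne_zero
    linear_combination (-4 * i) * hw + (-i) * he + (1) * hi
  have a3 : 1 - (2 * Z * X * w * e + 11 * Z * X * w - 2 * Z * X * e + 10 * Z * X + Z * w * e + 9 * Z * w - 2 * Z * e + 8 * Z) - (2 * Z * X * w * e - Z * X * w + 4 * Z * X * e + Z * X) ≠ 0 := by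
    refine ne_of_mul_eq (b := -10 * i * w * e + 2 * i * w - 8 * i * e - 2 * i) (c := (1 + (w * e + 5 * w - 13 * e + 4) * X) * Z) ?_ (mul_ne_zero n4 Z0)
    linear_combination (80 * i * Z * X * w * e + 160 * i * Z * X * e + 40 * i * Z * w * e + 20
        * i * Z * e - 8 * i * Z) * hw + (20 * i * Z * X * w ^ 2 + 26 * i * Z * X * w + 8 * i * Z *
        X + 10 * i * Z * w ^ 2 - 12 * i * Z * w - 16 * i * Z) * he + (10 * i * w * e - 2 * i * w +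
        8 * i * e + 2 * i) * hZ + (Z * X * w * e + 5 * Z * X * w - 13 * Z * X * e + 4 * Z * X + Z)
        * hi
  intro k hk
  interval_cases k <;> simp only [w5Lp, w5Mp, sq5]
  · exact a0
  · exact a1
  · exact a2
  · exact a3

/-- the closed corner of the family W5. -/
theorem w5_mk (n1 : X ≠ 0)
    (n3 : 2 + (2 * w * e + e + 3) * X ≠ 0)
    (n4 : 1 + (w * e + 5 * w - 13 * e + 4) * X ≠ 0)
    (n5 : 1 + (w * e - 5 * w + 14 * e - 1) * X ≠ 0) : ∃ g : GForm F 4, g.Closed ∧ g.t = w5t w e ∧ g.s = w5s w e ∧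
      g.lam = fun k => 1 - w5L w e X Z i k := by
  refine ⟨{
    t := w5t w e
    s := w5s w e
    G := w5G w e X Z i
    H := w5H w e X Z i
    lam := fun k => 1 - w5L w e X Z i k
    mu := w5M w e X Z i
    lam' := fun k => 1 - w5Lp w e X Z i k
    mu' := w5Mp w e X Z i
    t0 := rfl
    s0 := rfl
    t_ne := w5_tne hw he hi
    s_ne := w5_sne hw he hi
    t_inj := w5_tinj hw he hi
    s_inj := w5_sinj hw he hi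
    G0 := by intro j hj; interval_cases j <;> rfl
    G0' := by intro j hj; interval_cases j <;> rfl
    H0 := by intro j hj; interval_cases j <;> rfl
    H0' := by intro j hj; interval_cases j <;> rfl
    U1 := by
      intro j k hj hk
      interval_cases j
      · exact w5_U1_0 hw he hi hZ k hk
      · exact w5_U1_1 hw he hi hZ k hk
      · exact w5_U1_2 hw he hi hZ k hk
      · exact w5_U1_3 hw he hi hZ k hk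
      · exact w5_U1_4 hw he hi hZ k hk
    U2 := by
      intro j k hj hk
      interval_cases j
      · exact w5_U2_0 hw he hi hZ k hk
      · exact w5_U2_1 hw he hi hZ k hk
      · exact w5_U2_2 hw he hi hZ k hk
      · exact w5_U2_3 hw he hi hZ k hk
      · exact w5_U2_4 hw he hi hZ k hk
    V1 := by
      intro j k hj hk
      interval_cases j
      · exact w5_V1_0 hw he hi hZ k hk
      · exact w5_V1_1 hw he hi hZ k hk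
      · exact w5_V1_2 hw he hi hZ k hk
      · exact w5_V1_3 hw he hi hZ k hk
    V2 := by
      intro j k hj hk
      interval_cases j
      · exact w5_V2_0 hw he hi hZ k hk
      · exact w5_V2_1 hw he hi hZ k hk
      · exact w5_V2_2 hw he hi hZ k hk
      · exact w5_V2_3 hw he hi hZ k hk
    lam_ne := fun k hk h => w5_Lne hw he hi hZ n1 n3 n4 n5 k hk (by linear_combination -h)
    mu_ne := w5_Mne hw he hi hZ n1 n3 n4 n5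
    lm_ne := fun k hk h => w5_LMne hw he hi hZ n1 n3 n4 n5 k hk (by linear_combination h)
    lam'_ne := fun k hk h => w5_Lpne hw he hi hZ n1 n3 n4 n5 k hk (by linear_combination -h)
    mu'_ne := w5_Mpne hw he hi hZ n1 n3 n4 n5
    lm'_ne := fun k hk h => w5_LpMpne hw he hi hZ n1 n3 n4 n5 k hk (by linear_combination h) },
    ⟨w5_row hw he hi hZ, w5_col hw he hi hZ⟩, rfl, rfl, rfl⟩

end

end Pool.Agent.Helper36.IP
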