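import Pool.Agent.Helper36.IP.W5Mk
import Pool.Agent.Helper36.IP.W5List

/-!
TH-P phase 2: every array of the list W5 is a parameter array.
-/

namespace Pool.Agent.Helper36.IP

open Pool.Agent.Helper54.IP

variable {F : Type*} [Field F]

section

variable {w e : F} (hw : w ^ 2 + w + 1 = 0) (he : e ^ 2 = 2 * (1 + 2 * w) * e + 1)

include hw he

theorem w5_A1 : (3 + 5 * (1 + 2 * w) * e) * (w * e - 1) * (3 * w * e + w + e + 9) =
    6 * ((-((1 + w) * e) - 1) * (-((1 + w) * e) - w * e)) := by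
  linear_combination (exp := 1) (480 * w ^ 3 * e + 440 * w ^ 2 * e + 120 * w ^ 2 - 22 * w * e + 50 * w - 76 * e - 38) * hw +
    (120 * w ^ 4 + 30 * w ^ 3 * e + 170 * w ^ 3 + 25 * w ^ 2 * e + 132 * w ^ 2 + 5 * w * e + 15
    * w - 11) * he

theorem w5_A2 : -(3 + 5 * (1 + 2 * w) * e) *
    ((-((1 + w) * e) - 1) * (-((1 + w) * e) - w * e)) * (w * e - 2 * w + e + 2) =
    (e - 1) * (e - w * e) * (e - -((1 + w) * e)) := by
  linear_combination (exp := 1) (-1280 * w ^ 5 * e - 3840 * w ^ 4 * e - 320 * w ^ 4 - 5056 * w ^ 3 * e - 800 * w ^ 3 - 3576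
    * w ^ 2 * e - 844 * w ^ 2 - 1318 * w * e - 432 * w - 200 * e - 82) * hw + (-320 * w ^ 6 - 80
    * w ^ 5 * e - 1120 * w ^ 5 - 20 * w ^ 4 * e ^ 2 - 240 * w ^ 4 * e - 1964 * w ^ 4 - 60 * w ^
    3 * e ^ 2 - 366 * w ^ 3 * e - 2076 * w ^ 3 - 65 * w ^ 2 * e ^ 2 - 334 * w ^ 2 * e - 1358 * w
    ^ 2 - 30 * w * e ^ 2 - 156 * w * e - 514 * w - 5 * e ^ 2 - 30 * e - 82) * he

theorem w5_A3 : (e - 1) * (e - w * e) * (e - -((1 + w) * e)) * (w * e - 9 * w + 3 * e - 1) *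
    (27 + 49 * (1 + 2 * w) * e) =
    2 * ((w * e ^ 2 - 1) * (w * e ^ 2 - w * e) * (w * e ^ 2 - -((1 + w) * e)) *
      (w * e ^ 2 - e)) := by
  linear_combination (exp := 1) (-32768 * w ^ 9 * e - 81920 * w ^ 8 * e - 8192 * w ^ 8 - 67584 * w ^ 7 * e - 16384 * w ^ 7 -
    40448 * w ^ 6 * e - 8192 * w ^ 6 - 78592 * w ^ 5 * e - 5248 * w ^ 5 - 47680 * w ^ 4 * e -
    16928 * w ^ 4 + 43832 * w ^ 3 * e - 3208 * w ^ 3 + 69212 * w ^ 2 * e + 13508 * w ^ 2 + 32288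
    * w * e + 10256 * w + 5284 * e + 2196) * hw + (-8192 * w ^ 10 - 2048 * w ^ 9 * e - 24576 * w
    ^ 9 - 512 * w ^ 8 * e ^ 2 - 5120 * w ^ 8 * e - 32768 * w ^ 8 - 128 * w ^ 7 * e ^ 3 - 1024 *
    w ^ 7 * e ^ 2 - 5504 * w ^ 7 * e - 29824 * w ^ 7 - 32 * w ^ 6 * e ^ 4 - 192 * w ^ 6 * e ^ 3
    - 832 * w ^ 6 * e ^ 2 - 4448 * w ^ 6 * e - 30368 * w ^ 6 - 8 * w ^ 5 * e ^ 5 - 32 * w ^ 5 *
    e ^ 4 - 104 * w ^ 5 * e ^ 3 - 648 * w ^ 5 * e ^ 2 - 5160 * w ^ 5 * e - 25384 * w ^ 5 - 2 * w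
    ^ 4 * e ^ 6 - 4 * w ^ 4 * e ^ 5 - 8 * w ^ 4 * e ^ 4 - 102 * w ^ 4 * e ^ 3 - 940 * w ^ 4 * e
    ^ 2 - 3604 * w ^ 4 * e - 6628 * w ^ 4 + 4 * w ^ 3 * e ^ 4 - 427 * w ^ 3 * e ^ 3 - 185 * w ^
    3 * e ^ 2 + 380 * w ^ 3 * e + 20556 * w ^ 3 + 2 * w ^ 2 * e ^ 4 - 292 * w ^ 2 * e ^ 3 + 582
    * w ^ 2 * e ^ 2 + 5056 * w ^ 2 * e + 25960 * w ^ 2 + 539 * w * e ^ 3 + 657 * w * e ^ 2 +
    3884 * w * e + 12452 * w + 294 * e ^ 3 + 358 * e ^ 2 + 892 * e + 2196) * he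

theorem w5_A4 : 2 * (2 * w * e - 11 * w + 4 * e - 1) =
    (w * e - 9 * w + 3 * e - 1) * (3 + (1 + 2 * w) * e) := by
  linear_combination (exp := 1) (-8 * w * e - 6 * e - 2) * hw + (-2 * w ^ 2 - 7 * w - 3) * he

end

theorem w5_isPA {w e : F} {t s f : ℕ → F} (h : W5L w e t s f) : IsPA 4 t s f := by
  have f0 := h.f1
  have hw := h.hw
  have he := h.he
  have h6 := h.n6
  obtain ⟨X, hX⟩ : ∃ X, f 1 * X = 1 := ⟨(f 1)⁻¹, mul_inv_cancel₀ f0⟩
  have X0 : X ≠ 0 := by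
    rintro rfl
    rw [mul_zero] at hX
    exact zero_ne_one hX
  obtain ⟨i, hi⟩ : ∃ i, (6 : F) * i = 1 := ⟨6⁻¹, mul_inv_cancel₀ h6⟩
  have z0 : 1 + (2 * w * e + e + 3) * X ≠ 0 := by
    intro z
    apply h.n2
    linear_combination f 1 * z - (2 * w * e + e + 3) * hX
  obtain ⟨Z, hZ⟩ : ∃ Z, Z * (1 + (2 * w * e + e + 3) * X) = 1 := ⟨_, inv_mul_cancel₀ z0⟩
  obtain ⟨g, hc, gt, gs, gl⟩ := w5_mk hw he hi hZ X0
    (fun z => h.n3 (by linear_combination f 1 * z - (2 * w * e + e + 3) * hX))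
    (fun z => h.n4 (by linear_combination f 1 * z - (w * e + 5 * w - 13 * e + 4) * hX))
    (fun z => h.n5 (by linear_combination f 1 * z - (w * e - 5 * w + 14 * e - 1) * hX))
  have l0 : 1 - g.lam 0 = X * w * e - X := by rw [gl]; simp only [w5L, sq5, sub_sub_cancel]
  have l1 : 1 - g.lam 1 = 3 * i * w * e + i * w + i * e + 9 * i := by
    rw [gl]; simp only [w5L, sq5, sub_sub_cancel]
  have l2 : 1 - g.lam 2 = w * e - 2 * w + e + 2 := by
    rw [gl]; simp only [w5L, sq5, sub_sub_cancel]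
  have l3 : 1 - g.lam 3 = 2 * Z * X * w * e - 11 * Z * X * w + 4 * Z * X * e - Z * X + Z * w * e -
      9 * Z * w + 3 * Z * e - Z := by
    rw [gl]; simp only [w5L, sq5, sub_sub_cancel]
  have S0 : g.s 0 = 1 := g.s0
  have S1 : g.s 1 = w * e := by rw [gs]; rfl
  have S2 : g.s 2 = -((1 + w) * e) := by rw [gs]; rfl
  have S3 : g.s 3 = e := by rw [gs]; rfl
  have S4 : g.s 4 = w * e ^ 2 := by rw [gs]; rfl
  have a1 := w5_A1 hw he
  have a2 := w5_A2 hw he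
  have a3 := w5_A3 hw he
  have a4 := w5_A4 hw he
  refine ⟨g, hc, fun k hk => ?_, fun k hk => ?_, fun k hk => ?_⟩
  · rw [gt]
    interval_cases k
    · exact h.t0.symm
    · exact h.t1.symm
    · exact h.t2.symm
    · exact h.t3.symm
    · exact h.t4.symm
  · rw [gs]
    interval_cases k
    · exact h.s0.symm
    · exact h.s1.symm
    · exact h.s2.symm
    · exact h.s3.symm
    · exact h.s4.symm
  · interval_cases k
    · simp only [Finset.range_zero, Finset.prod_empty, one_mul, zero_add, Finset.range_one,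
        Finset.prod_singleton, S0, S1, l0]
      linear_combination (w * e - 1) * hX
    · simp only [Finset.prod_range_succ, Finset.range_zero, Finset.prod_empty, one_mul,
        S0, S1, S2, l1, Nat.reduceAdd, h.f2]
      linear_combination i * a1 +
        ((-((1 + w) * e) - 1) * (-((1 + w) * e) - w * e)) * hi
    · simp only [Finset.prod_range_succ, Finset.range_zero, Finset.prod_empty, one_mul,
        S0, S1, S2, S3, l2, Nat.reduceAdd, h.f3]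
      linear_combination a2
    · have h2 : (2 : F) ≠ 0 := by
        intro r
        apply h6
        linear_combination 3 * r
      have f4 : f 4 * (2 + (3 + (1 + 2 * w) * e) * X) * Z = 27 + 49 * (1 + 2 * w) * e := by
        linear_combination (X * Z) * h.f4 - (f 4 * Z * 2) * hX +
          (Z * (27 + 49 * (1 + 2 * w) * e)) * hX + (27 + 49 * (1 + 2 * w) * e) * hZ
      simp only [Finset.prod_range_succ, Finset.range_zero, Finset.prod_empty, one_mul,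
        S0, S1, S2, S3, S4, l3, Nat.reduceAdd]
      apply mul_left_cancel₀ h2
      linear_combination a3 + ((e - 1) * (e - w * e) * (e - -((1 + w) * e)) *
        (w * e - 9 * w + 3 * e - 1)) * f4 +
        (f 4 * ((e - 1) * (e - w * e) * (e - -((1 + w) * e))) * Z * X) * a4

end Pool.Agent.Helper36.IP
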